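import Pool.Agent.Lib.MP_2619d0_ag.U.CC1
import Pool.Agent.Lib.MP_2619d0_ag.Q6.TDefs

/-!
# ESC2: conjugate points near a zero of order at most two: definitions
-/

set_option autoImplicit false

namespace MP2619.Q6

open scoped NNReal
open IntermediateField MP2619.R MP2619.N Pool.Agent.Lib.MP_2619d0_ag Pool.Agent.Lib.MP_2619d0_ag.T
  MP2619.Q5

/-- the conclusion: conjugate points on two lines through a common fixed point, or on a conic -/
def Out {B L : Type} [Field B] [Field L] [Algebra B L] {n : ℕ} (FB : MvPolynomial (Fin n) B)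
    (x y : Fin n → L) : Prop :=
  (∃ (av : Fin n → L) (θ : L ≃ₐ[B] L), LN FB x y av θ) ∨
    ∃ (c0 c1 c2 : Fin n → L) (ρ η : L) (θ : L ≃ₐ[B] L), CD FB c0 c1 c2 ρ η θ ∧
      x = pc c0 c1 c2 ρ η ∧ y = pc c0 c1 c2 (θ ρ) (θ η)

/-- `x = α G(d1)`, `y = β G(d2)`, `d1`, `d2 = σ d1` small, `1 / d1 ≈ q - ω`, `1 / d2 ≈ q + ω`, `q ∈ Q1` (`ω = (1 / d2 - 1 / d1) / 2`). The polynomials `G i` over `P` have coefficients in the
field `Q1` fixed by `σ`, `F (r G(t)) = 0`, and their residues have no common zero of order `≥ 3` at zero. -/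
structure Dz {B M L : Type} [Field B] [Field M] [Field L] [Algebra B M] [Algebra B L] {n : ℕ}
    (FB : MvPolynomial (Fin n) B) {P : ValuationSubring M} {φ : P →+* L} (rm : RMap B P φ)
    (σ : M ≃ₐ[B] M) (Q1 : IntermediateField B M) (G : Fin n → Polynomial P) (d1 d2 : P)
    (q α β : M) (x y : Fin n → P) (w : B) (a : Fin n) : Prop where
  hom : FB.IsHomogeneous 3
  sig : ∀ z : M, σ z ∈ P ↔ z ∈ P
  s_s : ∀ z, σ (σ z) = z
  s_Q : ∀ z ∈ Q1, σ z = z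
  s_d : σ (d1 : M) = d2
  s_a : σ α = β
  co : ∀ i k, ((G i).coeff k : M) ∈ Q1
  qQ : q ∈ Q1
  d0 : (d1 : M) ≠ 0
  dl : P.valuation (d1 : M) < 1
  h1 : P.valuation ((d1 : M)⁻¹ + (d2 : M)⁻¹ - 2 * q) < P.valuation ((d2 : M)⁻¹ - (d1 : M)⁻¹)
  h2 : P.valuation q ≤ P.valuation ((d2 : M)⁻¹ - (d1 : M)⁻¹)
  x_eq : ∀ i, (x i : M) = α * ((G i).eval d1 : P)
  y_eq : ∀ i, (y i : M) = β * ((G i).eval d2 : P)
  low : ∃ k ≤ 2, ∃ i, φ ((G i).coeff k) ≠ 0
  van : ∀ (r : M) (t : P), MvPolynomial.aeval (fun i => r * ((G i).eval t : P)) FB = 0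
  tr1 : ∃ D : ℕ, D + 3 ≤ n ∧ Algebra.trdeg B (resI rm Q1) ≤ D
  trj : ∃ D : ℕ, D + 2 ≤ n ∧ Algebra.trdeg B (resI rm Q1 ⊔ rat B (fun i => φ (x i)) ⊔
    rat B (fun i => φ (y i)) : IntermediateField B L) ≤ D
  ind : AlgebraicIndependent B (zg w (fun i => φ (x i)) (fun i => φ (y i)) (Pi.single a 1))

end MP2619.Q6
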