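import Pool.Agent.Lib.MP_2619d0_ag.U.CC6
import Pool.Agent.Lib.MP_2619d0_ag.U.EDefs
import Pool.Agent.Lib.MP_2619d0_ag.Q6.CL9

/-!
Row u1-8: conjugate points on lines and conics
-/

set_option autoImplicit false

namespace MP2619.Q6

open scoped NNReal
open IntermediateField MP2619.R MP2619.N Pool.Agent.Lib.MP_2619d0_ag Pool.Agent.Lib.MP_2619d0_ag.T
  MP2619.Q5

variable {n : ℕ} {F : MvPolynomial (Fin n) ℂ} {J : Type} {z : Exp3 n ⊕ J → ℂ} {A : Type} [Field A]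
  [CharZero A] [Algebra ℂ A] {u l : Fin n → A} {v2 : Valuation ℚ ℝ≥0} {V : Valuation A ℝ≥0}

/-- LEMMA CL and LEMMA CC -/
theorem Out.even (hn : 5 ≤ n) (S : St F z u l v2 V) (k1 : IntermediateField (Qz z) ℂ)
    (hk1 : FiniteDimensional (Qz z) k1) (w : k1) (hom : w ^ 2 + w + 1 = 0) {B : Type}
    [Field B] [Algebra B k1] [Algebra B A] [IsScalarTower B k1 A] (e : k1) (j : J)
    (hB : BE z k1 B e j) (hB' : BE z k1 B e⁻¹ j) (wB : B) (hw : algebraMap B k1 wB = w)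
    (FB : MvPolynomial (Fin n) B)
    (hF : MvPolynomial.map ((algebraMap k1 ℂ).comp (algebraMap B k1)) FB = F) (b : Fin n)
    {N : Type} [Field N] [Algebra B N] {x y : Fin n → N} (h : Out FB x y)
    (hfg : ∃ z0 : Fin n → N, AlgebraicIndependent B z0 ∧
      Module.finrank (adjoin B (Set.range z0)) N ≠ 0) :
    Even (gc V wB u x y (Pi.single b 1)) := by
  rcases h with ⟨av, θ, h7⟩ | ⟨c0, c1, c2, ρ, η, θ, h7, hx, hy⟩
  · exact CL hn S k1 hk1 w hom e j hB hB' wB hw FB hF b x y av θ h7.x_y h7.y_x h7.a_a h7.ne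
      h7.line h7.tr1 h7.tr2 hfg
  · rw [hx, hy]
    exact CC hn S k1 hk1 w hom e j hB hB' wB hw FB hF b h7 hfg

end MP2619.Q6
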