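import Pool.Agent.Lib.MP_2619d0_ag.U.EDefs
import Pool.Agent.Lib.MP_2619d0_ag.Q6.C10b
import Pool.Agent.Lib.MP_2619d0_ag.Q6.C6
import Pool.Agent.Lib.MP_2619d0_ag.Q5.G1

/-!
Row e2-1: the residue automorphism, dead places, the line
-/

set_option autoImplicit false

namespace MP2619.Q6

open scoped NNReal
open IntermediateField MP2619.R MP2619.N Pool.Agent.Lib.MP_2619d0_ag Pool.Agent.Lib.MP_2619d0_ag.T
  MP2619.Q5

variable {B M L : Type} [Field B] [Field M] [Field L] [Algebra B M] [Algebra B L] {n : ℕ}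
  {FB : MvPolynomial (Fin n) B} {P : ValuationSubring M} {φ : P →+* L} {rm : RMap B P φ}
  {σ : M ≃ₐ[B] M} {Q1 : IntermediateField B M} {G : Fin n → Polynomial P} {d1 d2 : P}
  {q α β : M} {x y : Fin n → P} {w : B} {a : Fin n}

private theorem E1_eval (P : ValuationSubring M) (σ : M ≃ₐ[B] M) (p : Polynomial P)
    (hco : ∀ k, σ (p.coeff k : M) = p.coeff k) (d1 d2 : P) (h : σ (d1 : M) = d2) :
    σ ((p.eval d1 : P) : M) = ((p.eval d2 : P) : M) := by
  rw [Polynomial.eval_eq_sum_range, Polynomial.eval_eq_sum_range]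
  push_cast
  rw [map_sum]
  refine Finset.sum_congr rfl fun k _ => ?_
  rw [map_mul, map_pow, hco, h]

private theorem E1_rat_le {n : ℕ} (K : IntermediateField B L) (g : Fin n → L)
    (hg : ∀ i, g i ∈ K) (μ : L) : rat B (fun i => μ * g i) ≤ K := by
  unfold rat
  rw [IntermediateField.adjoin_le_iff]
  rintro _ ⟨i, j, rfl⟩
  by_cases hc : μ = 0
  · show μ * g i / (μ * g j) ∈ K
    rw [hc, zero_mul, zero_mul, div_zero]
    exact zero_mem _
  · show μ * g i / (μ * g j) ∈ K
    rw [mul_div_mul_left _ _ hc]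
    exact K.div_mem (hg i) (hg j)

private theorem E1_rat_le' {n : ℕ} (K : IntermediateField B L) (g : Fin n → L)
    (hg : ∀ i, g i ∈ K) : rat B g ≤ K := by
  unfold rat
  rw [IntermediateField.adjoin_le_iff]
  rintro _ ⟨i, j, rfl⟩
  exact K.div_mem (hg i) (hg j)

private theorem E1_mono {K1 K2 : IntermediateField B L} (h : K1 ≤ K2) :
    Algebra.trdeg B K1 ≤ Algebra.trdeg B K2 := by
  exact trdeg_le_of_injective (IntermediateField.inclusion h) (IntermediateField.inclusion_injective h)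

private theorem E1_hom {k N : Type} [Field k] [Field N] [Algebra k N] {n d : ℕ}
    (F0 : MvPolynomial (Fin n) k) (h3 : F0.IsHomogeneous d) (c : N) (p : Fin n → N) :
    MvPolynomial.aeval (fun i => c * p i) F0 = c ^ d * MvPolynomial.aeval p F0 := by
  rw [MvPolynomial.aeval_def, MvPolynomial.aeval_def, MvPolynomial.eval₂_eq', MvPolynomial.eval₂_eq',
    Finset.mul_sum]
  refine Finset.sum_congr rfl fun m hm => ?_
  have h1 : m.degree = d := by
    have := h3 (MvPolynomial.mem_support_iff.1 hm)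
    rw [← this, Finsupp.degree_eq_weight_one]
    rfl
  have h2 : ∏ i, (c * p i) ^ m i = c ^ d * ∏ i, p i ^ m i := by
    rw [← h1, Finsupp.degree_eq_sum, ← Finset.prod_pow_eq_pow_sum, ← Finset.prod_mul_distrib]
    exact Finset.prod_congr rfl fun i _ => mul_pow _ _ _
  rw [h2]
  ring

/-- vanishing for infinitely many parameters -/
private theorem E1_inf {k N : Type} [Field k] [Field N] [Algebra k N] {n : ℕ}
    (F0 : MvPolynomial (Fin n) k) (u v : Fin n → N) (S : Set N) (hS : S.Infinite)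
    (h : ∀ r ∈ S, MvPolynomial.aeval (fun i => u i + r * v i) F0 = 0) (r : N) :
    MvPolynomial.aeval (fun i => u i + r * v i) F0 = 0 := by
  let G : Polynomial N := MvPolynomial.aeval
    (fun i => Polynomial.C (u i) + Polynomial.X * Polynomial.C (v i)) F0
  have hG : ∀ r : N, G.eval r = MvPolynomial.aeval (fun i => u i + r * v i) F0 := by
    intro r
    have h2 := MvPolynomial.hom_eval₂ F0 (algebraMap k (Polynomial N)) (Polynomial.evalRingHom r)
      (fun i => Polynomial.C (u i) + Polynomial.X * Polynomial.C (v i))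
    have e1 : (Polynomial.evalRingHom r).comp (algebraMap k (Polynomial N)) = algebraMap k N := by
      ext c
      simp [Polynomial.algebraMap_apply]
    rw [e1] at h2
    have e2 : (fun i => (Polynomial.evalRingHom r)
        (Polynomial.C (u i) + Polynomial.X * Polynomial.C (v i))) =
        fun i => u i + r * v i := by
      funext i
      rw [Polynomial.coe_evalRingHom, Polynomial.eval_add, Polynomial.eval_mul, Polynomial.eval_X,
        Polynomial.eval_C, Polynomial.eval_C]
    rw [e2] at h2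
    exact h2
  have hG0 : G = 0 := by
    apply Polynomial.eq_zero_of_infinite_isRoot
    refine hS.mono fun s hs => ?_
    show G.eval s = 0
    rw [hG]
    exact h s hs
  rw [← hG, hG0, Polynomial.eval_zero]

/-- `exists_res_aut` (Q6/C10b). `σ (x i) = y i`: `σ` commutes with `eval` because the coefficients are in `Q1` (`E.co`, `E.s_Q`) and `σ d1 = d2`, `σ α = β`. `σ (y i) = x i`: `E.s_s`.
An element of `resI rm Q1` is `φ c` with `c ∈ Q1` (`mem_resI`, Q5/CDefs). -/
theorem Dz.theta (E : Dz FB rm σ Q1 G d1 d2 q α β x y w a) :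
    ∃ θ : L ≃ₐ[B] L, (∀ c : P, θ (φ c) = φ ⟨σ (c : M), (E.sig c).2 c.2⟩) ∧
      (∀ i, θ (φ (x i)) = φ (y i)) ∧ (∀ i, θ (φ (y i)) = φ (x i)) ∧ (∀ z, θ (θ z) = z) ∧
      ∀ z ∈ resI rm Q1, θ z = z := by
  obtain ⟨θ, hθ⟩ := exists_res_aut σ P E.sig φ rm
  have hev : ∀ i, σ (((G i).eval d1 : P) : M) = (((G i).eval d2 : P) : M) := fun i =>
    E1_eval P σ (G i) (fun k => E.s_Q _ (E.co i k)) d1 d2 E.s_d
  have hx : ∀ i, σ (x i : M) = y i := by
    intro i
    rw [E.x_eq, E.y_eq, map_mul, E.s_a, hev]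
  have hy : ∀ i, σ (y i : M) = x i := by
    intro i
    rw [← hx, E.s_s]
  refine ⟨θ, hθ, fun i => ?_, fun i => ?_, fun z => ?_, fun z hz => ?_⟩
  · rw [hθ]
    congr 1
    exact Subtype.ext (hx i)
  · rw [hθ]
    congr 1
    exact Subtype.ext (hy i)
  · obtain ⟨c, rfl⟩ := rm.surj z
    rw [hθ, hθ]
    congr 1
    exact Subtype.ext (E.s_s _)
  · obtain ⟨c, hc, rfl⟩ := (mem_resI rm Q1 z).1 hz
    rw [hθ]
    congr 1
    exact Subtype.ext (E.s_Q _ hc)

/-- `φ (y i) = θ μ * g i` (`θ` fixes `g i`): both `rat` are contained in `resI rm Q1` (`rat_smul_le`-type argument, Q6/T7 or CL9; `μ = 0`: then all ratios are zero), `E.tr1`, `trdeg_rat_rat` (Q6/C6), `E.ind`. -/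
theorem Dz.dead (E : Dz FB rm σ Q1 G d1 d2 q α β x y w a) (g : Fin n → L)
    (hg : ∀ i, g i ∈ resI rm Q1) (μ : L) (h : ∀ i, φ (x i) = μ * g i) : False := by
  obtain ⟨θ, -, hxy, -, -, hfix⟩ := E.theta
  obtain ⟨D, hD, htr⟩ := E.tr1
  have hy : ∀ i, φ (y i) = θ μ * g i := by
    intro i
    rw [← hxy, h, map_mul, hfix _ (hg i)]
  have e1 : (fun i => φ (x i)) = fun i => μ * g i := funext h
  have e2 : (fun i => φ (y i)) = fun i => θ μ * g i := funext hy
  have hle : rat B (fun i => φ (x i)) ⊔ rat B (fun i => φ (y i)) ≤ resI rm Q1 := by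
    rw [e1, e2]
    exact sup_le (E1_rat_le _ g hg μ) (E1_rat_le _ g hg (θ μ))
  exact trdeg_rat_rat D hD w _ _ _ ((E1_mono hle).trans htr) E.ind

/-- `F (φ x + s a') = 0` for infinitely many `s`, so for all `s` (a polynomial in `s` over the infinite field `L`); then `F (r φ x + s a') = 0` for all `r`, `s` by homogeneity (see `T10_all` in Q6/T10.lean, private there: copy it).
`θ` of `Dz.theta`; `tr1`: `rat B a' ≤ resI rm Q1` and `E.tr1`; `tr2`: `E.trj`. -/
theorem Dz.ln [CharZero B] (E : Dz FB rm σ Q1 G d1 d2 q α β x y w a) (a' : Fin n → L)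
    (ha : ∀ i, a' i ∈ resI rm Q1) (ha0 : a' ≠ 0) (S : Set L) (hS : S.Infinite)
    (hl : ∀ s ∈ S, MvPolynomial.aeval (fun i => φ (x i) + s * a' i) FB = 0) :
    Out FB (fun i => φ (x i)) (fun i => φ (y i)) := by
  have : CharZero L := charZero_of_injective_algebraMap (algebraMap B L).injective
  obtain ⟨θ, -, hxy, hyx, hinv, hfix⟩ := E.theta
  obtain ⟨D, hD, htr⟩ := E.tr1
  obtain ⟨D', hD', htr'⟩ := E.trj
  have hra : rat B a' ≤ resI rm Q1 := E1_rat_le' _ a' ha
  have h1 : ∀ s : L, MvPolynomial.aeval (fun i => φ (x i) + s * a' i) FB = 0 :=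
    E1_inf FB (fun i => φ (x i)) a' S hS hl
  have h2 : ∀ r s : L, r ≠ 0 → MvPolynomial.aeval (fun i => s * a' i + r * φ (x i)) FB = 0 := by
    intro r s hr
    have e1 : (fun i => s * a' i + r * φ (x i)) = fun i => r * (φ (x i) + s / r * a' i) := by
      funext i
      field_simp
      ring
    rw [e1, E1_hom FB E.hom, h1, mul_zero]
  refine Or.inl ⟨a', θ, ?_⟩
  exact {
    x_y := hxy
    y_x := hyx
    a_a := fun i => hfix _ (ha i)
    inv := hinv
    ne := ha0
    line := by
      intro r s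
      have h3 := E1_inf FB (fun i => s * a' i) (fun i => φ (x i)) {r : L | r ≠ 0}
        (Set.infinite_of_finite_compl (by
          have : ({r : L | r ≠ 0} : Set L)ᶜ = {0} := by
            ext z
            simp
          rw [this]
          exact Set.finite_singleton 0)) (fun r hr => h2 r s hr) r
      have e1 : (fun i => r * φ (x i) + s * a' i) = fun i => s * a' i + r * φ (x i) := by
        funext i
        ring
      rw [e1]
      exact h3
    tr1 := ⟨D, hD, (E1_mono hra).trans htr⟩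
    tr2 := ⟨D', hD', (E1_mono (sup_le_sup_right (sup_le_sup_right hra _) _)).trans htr'⟩ }

end MP2619.Q6
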