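import Pool.Agent.Lib.MP_2619d0_ag.U.EDefs
import Pool.Agent.Lib.MP_2619d0_ag.U.E1

/-!
Row e2-4a: the parameters
-/

set_option autoImplicit false

namespace MP2619.Q6

open scoped NNReal
open IntermediateField MP2619.R MP2619.N Pool.Agent.Lib.MP_2619d0_ag Pool.Agent.Lib.MP_2619d0_ag.T
  MP2619.Q5

variable {B M L : Type} [Field B] [Field M] [Field L] [Algebra B M] [Algebra B L] {n : ℕ}
  {FB : MvPolynomial (Fin n) B} {P : ValuationSubring M} {φ : P →+* L} {rm : RMap B P φ}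
  {σ : M ≃ₐ[B] M} {Q1 : IntermediateField B M} {G : Fin n → Polynomial P} {d1 d2 : P}
  {q α β : M} {x y : Fin n → P} {w : B} {a : Fin n}

private theorem E4a_two [CharZero B] (rm : RMap B P φ) : P.valuation (2 : M) = 1 := by
  have h1 : P.valuation (2 : M) ≤ 1 := by
    have := rm.cst (2 : B)
    rw [map_ofNat] at this
    exact (P.valuation_le_one_iff _).2 this
  rcases h1.lt_or_eq with h | h
  · exfalso
    have h2 := rm.alg (2 : B)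
    have h3 : φ ⟨algebraMap B M 2, rm.cst 2⟩ = 0 := by
      rw [rm.zero]
      change P.valuation (algebraMap B M 2) < 1
      rw [map_ofNat]
      exact h
    rw [h2] at h3
    have h4 : (2 : B) = 0 := (map_eq_zero _).1 h3
    exact two_ne_zero h4
  · exact h

private theorem E4a_base [CharZero B] (E : Dz FB rm σ Q1 G d1 d2 q α β x y w a) :
    P.valuation ((d1 : M)⁻¹) ≤ P.valuation ((d2 : M)⁻¹ - (d1 : M)⁻¹) ∧
      P.valuation ((d2 : M)⁻¹) ≤ P.valuation ((d2 : M)⁻¹ - (d1 : M)⁻¹) ∧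
      1 < P.valuation ((d2 : M)⁻¹ - (d1 : M)⁻¹) := by
  have h2 := E4a_two rm
  have e1 : (2 : M) * (d1 : M)⁻¹ = ((d1 : M)⁻¹ + (d2 : M)⁻¹ - 2 * q) + 2 * q - ((d2 : M)⁻¹ - (d1 : M)⁻¹) := by
    ring
  have e2 : (2 : M) * (d2 : M)⁻¹ = ((d1 : M)⁻¹ + (d2 : M)⁻¹ - 2 * q) + 2 * q + ((d2 : M)⁻¹ - (d1 : M)⁻¹) := by
    ring
  have hq : P.valuation (2 * q) ≤ P.valuation ((d2 : M)⁻¹ - (d1 : M)⁻¹) := by
    rw [map_mul, h2, one_mul]
    exact E.h2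
  have hS : P.valuation (((d1 : M)⁻¹ + (d2 : M)⁻¹ - 2 * q) + 2 * q) ≤
      P.valuation ((d2 : M)⁻¹ - (d1 : M)⁻¹) :=
    P.valuation.map_add_le E.h1.le hq
  have f1 : P.valuation ((d1 : M)⁻¹) ≤ P.valuation ((d2 : M)⁻¹ - (d1 : M)⁻¹) := by
    have : P.valuation ((2 : M) * (d1 : M)⁻¹) ≤ P.valuation ((d2 : M)⁻¹ - (d1 : M)⁻¹) := by
      rw [e1]
      exact P.valuation.map_sub_le hS le_rfl
    rwa [map_mul, h2, one_mul] at this
  have f2 : P.valuation ((d2 : M)⁻¹) ≤ P.valuation ((d2 : M)⁻¹ - (d1 : M)⁻¹) := by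
    have : P.valuation ((2 : M) * (d2 : M)⁻¹) ≤ P.valuation ((d2 : M)⁻¹ - (d1 : M)⁻¹) := by
      rw [e2]
      exact P.valuation.map_add_le hS le_rfl
    rwa [map_mul, h2, one_mul] at this
  refine ⟨f1, f2, lt_of_lt_of_le ?_ f1⟩
  rw [map_inv₀]
  exact (one_lt_inv₀ (zero_lt_iff.2 ((Valuation.ne_zero_iff _).2 E.d0))).2 E.dl

/-- `ω = (d2⁻¹ - d1⁻¹) / 2`, `P.valuation 2 = 1` (`2` is a constant, `CharZero B`), so `P.valuation (s ω) = 1`. `κ = φ (s q)` (`E.h2`), `ρ = φ (s ω) ≠ 0`. `σ ω = - ω` (`σ d2 = d1` by `E.s_s`), `σ s = s`: `θ ρ = - ρ`, `θ κ = κ`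
(`κ ∈ resI rm Q1`). `s / d1 = s q - s ω + s (d1⁻¹ + d2⁻¹ - 2 q) / 2` is in `P` with residue `κ - ρ` (`E.h1`), `s / d2` in `P` with residue `κ + ρ`. `κ ≠ ρ` and `κ ≠ - ρ` because otherwise
`θ` gives `κ = - ρ` too and `2 ρ = 0`. So `s / d1`, `s / d2` are units of `P`, `τi = di / s`. -/
theorem Dz.pars [CharZero B] (E : Dz FB rm σ Q1 G d1 d2 q α β x y w a) (s : M) (hsQ : s ∈ Q1)
    (hs : P.valuation s * P.valuation ((d2 : M)⁻¹ - (d1 : M)⁻¹) = 1) (θ : L ≃ₐ[B] L)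
    (hθ : ∀ c : P, θ (φ c) = φ ⟨σ (c : M), (E.sig c).2 c.2⟩)
    (hθQ : ∀ z ∈ resI rm Q1, θ z = z) :
    s ≠ 0 ∧ P.valuation s < 1 ∧ ∃ (τ1 τ2 : P) (κ ρ : L), (d1 : M) = s * τ1 ∧ (d2 : M) = s * τ2 ∧
      κ ∈ resI rm Q1 ∧ θ ρ = -ρ ∧ ρ ≠ 0 ∧ φ τ1 * (κ - ρ) = 1 ∧ φ τ2 * (κ + ρ) = 1 := by
  have h2 := E4a_two rm
  obtain ⟨f1, f2, f3⟩ := E4a_base E
  obtain ⟨D, hD⟩ : ∃ D : M, D = (d2 : M)⁻¹ - (d1 : M)⁻¹ := ⟨_, rfl⟩
  obtain ⟨S, hS⟩ : ∃ S : M, S = (d1 : M)⁻¹ + (d2 : M)⁻¹ - 2 * q := ⟨_, rfl⟩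
  have k1 := E.h1
  have k2 := E.h2
  rw [← hD] at hs f1 f2 f3 k1 k2
  rw [← hS] at k1
  have hB2 : (2 : M) ≠ 0 := by
    intro h
    rw [h, map_zero] at h2
    exact zero_ne_one h2
  have hL2 : (2 : L) ≠ 0 := by
    have : (2 : L) = algebraMap B L 2 := (map_ofNat _ 2).symm
    rw [this, Ne, map_eq_zero]
    exact two_ne_zero
  have hs0 : s ≠ 0 := by
    rintro rfl
    rw [map_zero, zero_mul] at hs
    exact zero_ne_one hs
  have hvs0 : P.valuation s ≠ 0 := (Valuation.ne_zero_iff _).2 hs0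
  have hs1 : P.valuation s < 1 := by
    by_contra hc
    push Not at hc
    have : 1 < P.valuation s * P.valuation D := by
      calc (1 : P.ValueGroup) < P.valuation D := f3
        _ = 1 * P.valuation D := (one_mul _).symm
        _ ≤ P.valuation s * P.valuation D := mul_le_mul_left hc _
    rw [hs] at this
    exact lt_irrefl _ this
  have mem : ∀ z : M, P.valuation z ≤ P.valuation D → s * z ∈ P := by
    intro z hz
    rw [← P.valuation_le_one_iff, map_mul, ← hs]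
    exact mul_le_mul_right hz _
  have hd2 : (d2 : M) ≠ 0 := by
    rw [← E.s_d]
    exact (map_ne_zero σ).2 E.d0
  -- the elements
  have vD2 : P.valuation (D / 2) = P.valuation D := by rw [map_div₀, h2, div_one]
  have vS2 : P.valuation (S / 2) < P.valuation D := by rw [map_div₀, h2, div_one]; exact k1
  have mA1 := mem _ f1
  have mA2 := mem _ f2
  have mq := mem q k2
  have mω := mem (D / 2) vD2.le
  have mS := mem (S / 2) vS2.le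
  have zS : φ ⟨s * (S / 2), mS⟩ = 0 := by
    rw [rm.zero]
    change P.valuation (s * (S / 2)) < 1
    rw [map_mul, ← hs]
    exact mul_lt_mul_of_pos_left vS2 (zero_lt_iff.2 hvs0)
  have eA1 : φ ⟨s * (d1 : M)⁻¹, mA1⟩ = φ ⟨s * q, mq⟩ - φ ⟨s * (D / 2), mω⟩ := by
    rw [← map_sub, ← sub_eq_zero, ← map_sub, ← zS]
    congr 1
    apply Subtype.ext
    change s * (d1 : M)⁻¹ - (s * q - s * (D / 2)) = s * (S / 2)
    rw [hD, hS]
    field_simp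
    ring
  have eA2 : φ ⟨s * (d2 : M)⁻¹, mA2⟩ = φ ⟨s * q, mq⟩ + φ ⟨s * (D / 2), mω⟩ := by
    rw [← map_add, ← sub_eq_zero, ← map_sub, ← zS]
    congr 1
    apply Subtype.ext
    change s * (d2 : M)⁻¹ - (s * q + s * (D / 2)) = s * (S / 2)
    rw [hD, hS]
    field_simp
    ring
  have hκ : φ ⟨s * q, mq⟩ ∈ resI rm Q1 := ⟨⟨s * q, mq⟩, mul_mem hsQ E.qQ, rfl⟩
  have hθκ : θ (φ ⟨s * q, mq⟩) = φ ⟨s * q, mq⟩ := hθQ _ hκ
  have hσ1 : σ (d2 : M) = d1 := by rw [← E.s_d, E.s_s]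
  have hθρ : θ (φ ⟨s * (D / 2), mω⟩) = -φ ⟨s * (D / 2), mω⟩ := by
    rw [hθ, ← map_neg]
    congr 1
    apply Subtype.ext
    change σ (s * (D / 2)) = -(s * (D / 2))
    rw [hD, map_mul, map_div₀, map_sub, map_inv₀, map_inv₀, E.s_d, hσ1, E.s_Q s hsQ, map_ofNat]
    ring
  have hρ : φ ⟨s * (D / 2), mω⟩ ≠ 0 := by
    intro h0
    rw [rm.zero] at h0
    change P.valuation (s * (D / 2)) < 1 at h0
    rw [map_mul, vD2, hs] at h0
    exact lt_irrefl _ h0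
  obtain ⟨κ, hκe⟩ : ∃ κ, κ = φ ⟨s * q, mq⟩ := ⟨_, rfl⟩
  obtain ⟨ρ, hρe⟩ : ∃ ρ, ρ = φ ⟨s * (D / 2), mω⟩ := ⟨_, rfl⟩
  rw [← hκe, ← hρe] at eA1 eA2
  rw [← hκe] at hκ hθκ
  rw [← hρe] at hθρ hρ
  have hm : κ - ρ ≠ 0 := by
    intro h
    have h3 : κ = ρ := sub_eq_zero.1 h
    rw [h3, hθρ] at hθκ
    apply hρ
    have h4 : (2 : L) * ρ = 0 := by linear_combination -hθκ
    rcases mul_eq_zero.1 h4 with h5 | h5
    · exact absurd h5 hL2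
    · exact h5
  have hp : κ + ρ ≠ 0 := by
    intro h
    have h3 : κ = -ρ := eq_neg_of_add_eq_zero_left h
    rw [h3, map_neg, hθρ, neg_neg] at hθκ
    apply hρ
    have h4 : (2 : L) * ρ = 0 := by linear_combination hθκ
    rcases mul_eq_zero.1 h4 with h5 | h5
    · exact absurd h5 hL2
    · exact h5
  have unit : ∀ (d : M) (hd : d ≠ 0) (m : s * d⁻¹ ∈ P), φ ⟨s * d⁻¹, m⟩ ≠ 0 →
      ∃ τ : P, d = s * τ ∧ φ τ * φ ⟨s * d⁻¹, m⟩ = 1 := by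
    intro d hd m hne
    have v1 : P.valuation (s * d⁻¹) = 1 := by
      rcases ((P.valuation_le_one_iff _).2 m).lt_or_eq with h | h
      · exact absurd ((rm.zero ⟨s * d⁻¹, m⟩).2 h) hne
      · exact h
    have mτ : s⁻¹ * d ∈ P := by
      rw [← P.valuation_le_one_iff]
      have : s⁻¹ * d = (s * d⁻¹)⁻¹ := by rw [mul_inv, inv_inv]
      rw [this, map_inv₀, v1, inv_one]
    refine ⟨⟨s⁻¹ * d, mτ⟩, ?_, ?_⟩
    · change d = s * (s⁻¹ * d)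
      rw [mul_inv_cancel_left₀ hs0]
    · rw [← map_mul, ← map_one φ]
      congr 1
      apply Subtype.ext
      change s⁻¹ * d * (s * d⁻¹) = 1
      field_simp
  obtain ⟨τ1, ht1, ht1'⟩ := unit d1 E.d0 mA1 (by rw [eA1]; exact hm)
  obtain ⟨τ2, ht2, ht2'⟩ := unit d2 hd2 mA2 (by rw [eA2]; exact hp)
  rw [eA1] at ht1'
  rw [eA2] at ht2'
  exact ⟨hs0, hs1, τ1, τ2, κ, ρ, ht1, ht2, hκ, hθρ, hρ, ht1', ht2'⟩

/-- if there is no scale in `Q1`: `P.valuation q < P.valuation ω` (otherwise `q⁻¹` is a scale: `E.h2`, `q ≠ 0`), so `d1⁻¹ = q - ω + small`, `d2⁻¹ = q + ω + small` have the value of `ω` -/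
theorem Dz.noscale [CharZero B] (E : Dz FB rm σ Q1 G d1 d2 q α β x y w a)
    (hs : ¬ ∃ s ∈ Q1, P.valuation s * P.valuation ((d2 : M)⁻¹ - (d1 : M)⁻¹) = 1) :
    P.valuation (d1 : M) * P.valuation ((d2 : M)⁻¹ - (d1 : M)⁻¹) = 1 := by
  have h2 := E4a_two rm
  obtain ⟨-, -, f3⟩ := E4a_base E
  have hD0 : P.valuation ((d2 : M)⁻¹ - (d1 : M)⁻¹) ≠ 0 := (lt_trans zero_lt_one f3).ne'
  have hq : P.valuation q < P.valuation ((d2 : M)⁻¹ - (d1 : M)⁻¹) := by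
    refine lt_of_le_of_ne E.h2 fun h => hs ⟨q⁻¹, inv_mem E.qQ, ?_⟩
    rw [map_inv₀, h, inv_mul_cancel₀ hD0]
  have e1 : (2 : M) * (d1 : M)⁻¹ = (((d1 : M)⁻¹ + (d2 : M)⁻¹ - 2 * q) + 2 * q) - ((d2 : M)⁻¹ - (d1 : M)⁻¹) := by
    ring
  have hS : P.valuation (((d1 : M)⁻¹ + (d2 : M)⁻¹ - 2 * q) + 2 * q) <
      P.valuation ((d2 : M)⁻¹ - (d1 : M)⁻¹) := by
    refine P.valuation.map_add_lt E.h1 ?_
    rw [map_mul, h2, one_mul]
    exact hq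
  have h3 : P.valuation ((d1 : M)⁻¹) = P.valuation ((d2 : M)⁻¹ - (d1 : M)⁻¹) := by
    have : P.valuation ((2 : M) * (d1 : M)⁻¹) = P.valuation ((d2 : M)⁻¹ - (d1 : M)⁻¹) := by
      rw [e1]
      rw [P.valuation.map_sub_swap]
      exact P.valuation.map_sub_eq_of_lt_left hS
    rwa [map_mul, h2, one_mul] at this
  rw [← h3, ← map_mul, mul_inv_cancel₀ E.d0, map_one]

end MP2619.Q6
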