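import Pool.Agent.Lib.MP_2619d0_ag.U.E3b
import Pool.Agent.Lib.MP_2619d0_ag.U.E4a

/-!
Row e2-5: there is no scale
-/

set_option autoImplicit false

namespace MP2619.Q6

open scoped NNReal
open IntermediateField MP2619.R MP2619.N Pool.Agent.Lib.MP_2619d0_ag Pool.Agent.Lib.MP_2619d0_ag.T
  MP2619.Q5

variable {B M L : Type} [Field B] [Field M] [Field L] [Algebra B M] [Algebra B L] {n : ℕ}
  {FB : MvPolynomial (Fin n) B} {P : ValuationSubring M} {φ : P →+* L} {rm : RMap B P φ}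
  {σ : M ≃ₐ[B] M} {Q1 : IntermediateField B M} {G : Fin n → Polynomial P} {d1 d2 : P}
  {q α β : M} {x y : Fin n → P} {w : B} {a : Fin n}

/-- an element of `P` with nonzero residue has the value one -/
private theorem E5_unit (rm : RMap B P φ) (c : P) (h : φ c ≠ 0) : P.valuation (c : M) = 1 :=
  le_antisymm ((P.valuation_le_one_iff _).2 c.2) (not_lt.1 fun h2 => h ((rm.zero c).2 h2))

/-- two consecutive nonzero coefficients give a scale -/
private theorem E5_mix (rm : RMap B P φ) (Q1 : IntermediateField B M) (d Ω : M) (D0 : M) (hD0 : D0 ≠ 0) (g1 g2 c1 c2 : P) (k : ℕ)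
    (h1 : (g1 : M) * D0 = (c1 : M) * d ^ k) (h2 : (g2 : M) * D0 = (c2 : M) * d ^ (k + 1))
    (m1 : (c1 : M) ∈ Q1) (m2 : (c2 : M) ∈ Q1) (n1 : φ g1 ≠ 0) (n2 : φ g2 ≠ 0)
    (hd : P.valuation d * P.valuation Ω = 1) :
    ∃ s ∈ Q1, P.valuation s * P.valuation Ω = 1 := by
  have v1 := E5_unit rm g1 n1
  have v2 := E5_unit rm g2 n2
  have e1 := congrArg P.valuation h1
  have e2 := congrArg P.valuation h2
  rw [map_mul, map_mul, map_pow, v1, one_mul] at e1
  rw [map_mul, map_mul, map_pow, v2, one_mul] at e2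
  have vD : P.valuation D0 ≠ 0 := (P.valuation.ne_zero_iff).2 hD0
  have vc2 : P.valuation (c2 : M) ≠ 0 := by
    intro h
    rw [h, zero_mul] at e2
    exact vD e2
  have vd : P.valuation d ≠ 0 := by
    intro h
    rw [h, zero_mul] at hd
    exact zero_ne_one hd
  refine ⟨(c1 : M) / (c2 : M), Q1.div_mem m1 m2, ?_⟩
  have e3 : P.valuation ((c1 : M) / (c2 : M)) = P.valuation d := by
    rw [map_div₀, div_eq_iff vc2]
    have e4 : P.valuation (c1 : M) * P.valuation d ^ k = P.valuation (c2 : M) * P.valuation d ^ (k + 1) := by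
      rw [← e1, ← e2]
    rw [pow_succ, ← mul_assoc, mul_right_comm] at e4
    have e5 := mul_right_cancel₀ (pow_ne_zero k vd) e4
    rw [e5, mul_comm]
  rw [e3]
  exact hd

/-- the ratios of the coefficients -/
private theorem E5_ratio (rm : RMap B P φ) (Q1 : IntermediateField B M) (d : M) (D0 : M) (hD0 : D0 ≠ 0) (g1 g2 c1 c2 : P) (k : ℕ)
    (h1 : (g1 : M) * D0 = (c1 : M) * d ^ k) (h2 : (g2 : M) * D0 = (c2 : M) * d ^ k)
    (m1 : (c1 : M) ∈ Q1) (m2 : (c2 : M) ∈ Q1) (n2 : φ g2 ≠ 0) :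
    φ g1 / φ g2 ∈ resI rm Q1 := by
  have v2 := E5_unit rm g2 n2
  have hg2 : (g2 : M) ≠ 0 := by
    intro h
    rw [h, map_zero] at v2
    exact zero_ne_one v2
  have hinv : ((g2 : M)⁻¹) ∈ P := by
    rw [← P.valuation_le_one_iff, map_inv₀, v2, inv_one]
  have hdk : d ^ k ≠ 0 := by
    intro h
    rw [h, mul_zero] at h2
    exact (mul_ne_zero hg2 hD0) h2
  have hc2 : (c2 : M) ≠ 0 := by
    intro h
    rw [h, zero_mul] at h2
    exact (mul_ne_zero hg2 hD0) h2
  rw [mem_resI]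
  refine ⟨g1 * ⟨(g2 : M)⁻¹, hinv⟩, ?_, ?_⟩
  · have e : ((g1 * ⟨(g2 : M)⁻¹, hinv⟩ : P) : M) = (c1 : M) / (c2 : M) := by
      have : ((g1 * ⟨(g2 : M)⁻¹, hinv⟩ : P) : M) = (g1 : M) * (g2 : M)⁻¹ := rfl
      rw [this, ← div_eq_mul_inv, div_eq_div_iff hg2 hc2]
      have e1 : (g1 : M) * (c2 : M) * (D0 * d ^ k) = (c1 : M) * (g2 : M) * (D0 * d ^ k) := by
        calc (g1 : M) * (c2 : M) * (D0 * d ^ k) = ((g1 : M) * D0) * ((c2 : M) * d ^ k) := by ring
          _ = ((c1 : M) * d ^ k) * ((g2 : M) * D0) := by rw [h1, h2]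
          _ = (c1 : M) * (g2 : M) * (D0 * d ^ k) := by ring
      exact mul_right_cancel₀ (mul_ne_zero hD0 hdk) e1
    rw [e]
    exact Q1.div_mem m1 m2
  · rw [map_mul]
    have e4 : g2 * ⟨(g2 : M)⁻¹, hinv⟩ = 1 := Subtype.ext (mul_inv_cancel₀ hg2)
    have e5 : φ g2 * φ ⟨(g2 : M)⁻¹, hinv⟩ = 1 := by rw [← map_mul, e4, map_one]
    rw [div_eq_mul_inv, eq_inv_of_mul_eq_one_right e5]

private theorem E5_inf {L : Type} [Field L] [CharZero L] (c : L) (hc : c ≠ 0) :
    (Set.range fun t : L => c * (t ^ 2 - 1)).Infinite := by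
  refine Set.infinite_of_injective_forall_mem (f := fun k : ℕ => c * ((k : L) ^ 2 - 1)) ?_ (fun k => ⟨(k : L), rfl⟩)
  intro k l h
  simp only at h
  have h1 := mul_left_cancel₀ hc h
  have h2 : ((k : L)) ^ 2 = (l : L) ^ 2 := by linear_combination h1
  have h3 : k ^ 2 = l ^ 2 := by exact_mod_cast h2
  exact Nat.pow_left_injective (n := 2) (by norm_num) h3

/-- PROOF. `E.noscale`: `P.valuation d1 * P.valuation (d2⁻¹ - d1⁻¹) = 1`. `E.scaled d1`: `g`, `D0 = coeff k0 (G i0) * d1 ^ k0`; `b k i = φ ((g i).coeff k)`; `E.lim` with `s = d1`, `τ = 1`: `F (r (b 0 + b 1 t + b 2 t²)) = 0` and the two cases.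
(0) If `b 1 i ≠ 0` and `b 2 j ≠ 0` then `coeff 1 (G i) * d1` and `coeff 2 (G j) * d1²` have the same value (that of `D0`), so `d1` has the value of `coeff 1 (G i) / coeff 2 (G j) ∈ Q1`: a scale, contradiction. The same for `b 1 i ≠ 0`, `b 0 j ≠ 0` (`coeff 0 (G j) / coeff 1 (G i)`).
(1) `b 1 ≠ 0`: `b 0 = b 2 = 0`, so `k0 = 1` (`(g i0).coeff k0 = 1`), `(g i).coeff 1 = coeff 1 (G i) / coeff 1 (G i0) ∈ Q1`, `b 1 i ∈ resI rm Q1`; the second case of `E.lim` is impossible (`b 1 = 0`), so `φ x = η0 b 1`: `E.dead`.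
(2) `b 1 = 0`, `b 2 = 0`: `k0 = 0`, the same: `E.dead`.
(3) `b 1 = 0`, `b 2 i2 ≠ 0`: `a' i = b 2 i / b 2 i2 = φ ((g i).coeff 2 / (g i2).coeff 2)`, and `(g i).coeff 2 / (g i2).coeff 2 = coeff 2 (G i) / coeff 2 (G i2) ∈ Q1`: `a' i ∈ resI rm Q1`, `a' ≠ 0`.
 First case of `E.lim`: `φ x = η0 (b 0 + b 2)`, `F (η0 (b 0 + b 2 t²)) = 0`, `η0 (b 0 + b 2 t²) = φ x + η0 (t² - 1) b 2`: `E.ln` with `S = {η0 (b 2 i2) (t² - 1) | t ∈ L}` (infinite: `t ↦ t²` has finite fibres, or `t = ` natural numbers).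
 Second case: `F (φ x + b (2 b 2)) = 0` for all `b`: `E.ln`, `S = univ`. -/
theorem Dz.noS [CharZero B] (E : Dz FB rm σ Q1 G d1 d2 q α β x y w a)
    (hs : ¬ ∃ s ∈ Q1, P.valuation s * P.valuation ((d2 : M)⁻¹ - (d1 : M)⁻¹) = 1) :
    Out FB (fun i => φ (x i)) (fun i => φ (y i)) := by
  have : CharZero L := charZero_of_injective_algebraMap (algebraMap B L).injective
  have hd := E.noscale hs
  obtain ⟨g, k0, i0, D0, hk0, hD0, hD0e, hg0, hgc, h3, hv, he⟩ := E.scaled (d1 : M) E.d0 E.dl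
  obtain ⟨hF, hcase⟩ := E.lim g D0 (d1 : M) hD0 h3 hv he 1 (by rw [OneMemClass.coe_one, mul_one])
  simp only [map_one, mul_one, one_pow] at hcase
  have mix : ∀ (k : ℕ) (i j : Fin n), φ ((g i).coeff k) ≠ 0 → φ ((g j).coeff (k + 1)) = 0 := by
    intro k i j h1
    by_contra h2
    exact hs (E5_mix rm Q1 (d1 : M) _ D0 hD0 _ _ _ _ k (hgc i k) (hgc j (k + 1)) (E.co i k) (E.co j (k + 1)) h1 h2 hd)
  have rat' : ∀ (k : ℕ) (i j : Fin n), φ ((g j).coeff k) ≠ 0 → φ ((g i).coeff k) / φ ((g j).coeff k) ∈ resI rm Q1 :=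
    fun k i j h => E5_ratio rm Q1 (d1 : M) D0 hD0 _ _ _ _ k (hgc i k) (hgc j k) (E.co i k) (E.co j k) h
  have hone : φ ((g i0).coeff k0) ≠ 0 := by rw [hg0, map_one]; exact one_ne_zero
  by_cases hb1 : ∃ i1, φ ((g i1).coeff 1) ≠ 0
  · obtain ⟨i1, hi1⟩ := hb1
    have hb0 : ∀ i, φ ((g i).coeff 0) = 0 := by
      intro i
      by_contra h
      exact hi1 (mix 0 i i1 h)
    have hb2 : ∀ i, φ ((g i).coeff 2) = 0 := fun i => mix 1 i1 i hi1
    rcases hcase with ⟨η0, hη, hx⟩ | ⟨hz, _⟩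
    · exfalso
      refine E.dead (fun i => φ ((g i).coeff 1) / φ ((g i1).coeff 1)) (fun i => rat' 1 i i1 hi1) (η0 * φ ((g i1).coeff 1)) ?_
      intro i
      rw [hx i, hb0 i, hb2 i]
      field_simp
      ring
    · exfalso
      have := hz i1
      rw [hb0 i1, hb2 i1, zero_add, add_zero] at this
      exact hi1 this
  · push Not at hb1
    by_cases hb2 : ∃ i2, φ ((g i2).coeff 2) ≠ 0
    · obtain ⟨i2, hi2⟩ := hb2
      have ha0 : (fun i => φ ((g i).coeff 2) / φ ((g i2).coeff 2)) ≠ 0 := by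
        intro h
        have := congrFun h i2
        simp only [div_self hi2, Pi.zero_apply] at this
        exact one_ne_zero this
      rcases hcase with ⟨η0, hη, hx⟩ | ⟨_, hz⟩
      · refine E.ln (fun i => φ ((g i).coeff 2) / φ ((g i2).coeff 2)) (fun i => rat' 2 i i2 hi2) ha0
          (Set.range fun t : L => (η0 * φ ((g i2).coeff 2)) * (t ^ 2 - 1)) (E5_inf _ (mul_ne_zero hη hi2)) ?_
        rintro s ⟨t, rfl⟩
        have hFt := hF η0 t
        have e : (fun i => φ (x i) + (η0 * φ ((g i2).coeff 2)) * (t ^ 2 - 1) * (φ ((g i).coeff 2) / φ ((g i2).coeff 2))) =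
            fun i => η0 * (φ ((g i).coeff 0) + φ ((g i).coeff 1) * t + φ ((g i).coeff 2) * t ^ 2) := by
          funext i
          rw [hx i, hb1 i]
          field_simp
          ring
        have e2 := congrArg (fun v => MvPolynomial.aeval v FB) e
        exact e2.trans hFt
      · refine E.ln (fun i => φ ((g i).coeff 2) / φ ((g i2).coeff 2)) (fun i => rat' 2 i i2 hi2) ha0
          Set.univ Set.infinite_univ ?_
        intro s _
        have hzs := hz (s / (2 * φ ((g i2).coeff 2)))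
        have e : (fun i => φ (x i) + s * (φ ((g i).coeff 2) / φ ((g i2).coeff 2))) =
            fun i => φ (x i) + s / (2 * φ ((g i2).coeff 2)) * (φ ((g i).coeff 1) + 2 * φ ((g i).coeff 2)) := by
          funext i
          rw [hb1 i]
          have h2 : (2 : L) ≠ 0 := two_ne_zero
          field_simp
          ring
        have e2 := congrArg (fun v => MvPolynomial.aeval v FB) e
        exact e2.trans hzs
    · push Not at hb2
      have hk : φ ((g i0).coeff 0) ≠ 0 := by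
        have hk' : k0 = 0 := by
          rcases Nat.lt_or_ge k0 1 with h | h
          · omega
          · rcases Nat.lt_or_ge k0 2 with h' | h'
            · have : k0 = 1 := by omega
              subst this
              exact absurd (hb1 i0) hone
            · have : k0 = 2 := by omega
              subst this
              exact absurd (hb2 i0) hone
        subst hk'
        exact hone
      rcases hcase with ⟨η0, hη, hx⟩ | ⟨hz, _⟩
      · exfalso
        refine E.dead (fun i => φ ((g i).coeff 0) / φ ((g i0).coeff 0)) (fun i => rat' 0 i i0 hk) (η0 * φ ((g i0).coeff 0)) ?_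
        intro i
        rw [hx i, hb1 i, hb2 i]
        field_simp
        ring
      · exfalso
        have := hz i0
        rw [hb1 i0, hb2 i0, add_zero, add_zero] at this
        exact hk this

end MP2619.Q6
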