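import Pool.Agent.Lib.MP_2619d0_ag.U.E4
import Pool.Agent.Lib.MP_2619d0_ag.U.E5

/-!
Row e2-6: ESC2
-/

set_option autoImplicit false

namespace MP2619.Q6

open scoped NNReal
open IntermediateField MP2619.R MP2619.N Pool.Agent.Lib.MP_2619d0_ag Pool.Agent.Lib.MP_2619d0_ag.T
  MP2619.Q5

variable {B M L : Type} [Field B] [Field M] [Field L] [Algebra B M] [Algebra B L] {n : ℕ}
  {FB : MvPolynomial (Fin n) B} {P : ValuationSubring M} {φ : P →+* L} {rm : RMap B P φ}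
  {σ : M ≃ₐ[B] M} {Q1 : IntermediateField B M} {G : Fin n → Polynomial P} {d1 d2 : P}
  {q α β : M} {x y : Fin n → P} {w : B} {a : Fin n}

/-- ESC2 -/
theorem Dz.out [CharZero B] (E : Dz FB rm σ Q1 G d1 d2 q α β x y w a) :
    Out FB (fun i => φ (x i)) (fun i => φ (y i)) := by
  by_cases h : ∃ s ∈ Q1, P.valuation s * P.valuation ((d2 : M)⁻¹ - (d1 : M)⁻¹) = 1
  · obtain ⟨s, hs, h⟩ := h
    exact E.withS s hs h
  · exact E.noS h

end MP2619.Q6
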