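import Pool.Agent.Lib.MP_2619d0_ag.U.NDefs
import Pool.Agent.Lib.MP_2619d0_ag.Q8.N5V

/-!
Row u1-13: the Nullstellensatz
-/

set_option autoImplicit false

namespace MP2619.Q6

open IntermediateField MP2619.R MP2619.N Pool.Agent.Lib.MP_2619d0_ag Pool.Agent.Lib.MP_2619d0_ag.T
  MP2619.T MP2619.Q5

universe u

private theorem N1_lift {K σ : Type} [Field K] [Algebra K ℂ] (p : MvPolynomial σ ℂ)
    (h : ∀ m, ∃ c : K, algebraMap K ℂ c = MvPolynomial.coeff m p) :
    ∃ q : MvPolynomial σ K, MvPolynomial.map (algebraMap K ℂ) q = p := by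
  have h1 : p ∈ Set.range (MvPolynomial.map (σ := σ) (algebraMap K ℂ)) := by
    rw [MvPolynomial.mem_range_map_iff_coeffs_subset]
    intro x hx
    rw [Finset.mem_coe, MvPolynomial.mem_coeffs_iff] at hx
    obtain ⟨m, hm, rfl⟩ := hx
    exact h m
  exact h1

/-- finitely many homogeneous equations of `p` imply all of them -/
private theorem N1_gens {σ : Type} [Finite σ] {L : Type u} [Field L] [Algebra ℂ L] (p : σ → L) :
    ∃ cof : Set ℂ, cof.Finite ∧ ∀ (k0 : Type) [Field k0] [Algebra k0 ℂ],
      (∀ c ∈ cof, ∃ b : k0, algebraMap k0 ℂ b = c) → ∀ P : σ → ℂ,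
      (∀ (g : MvPolynomial σ k0) (d : ℕ), g.IsHomogeneous d →
        MvPolynomial.aeval p (MvPolynomial.map (algebraMap k0 ℂ) g) = 0 →
          MvPolynomial.aeval P g = 0) →
      ∀ (g : MvPolynomial σ ℂ) (d : ℕ), g.IsHomogeneous d →
        MvPolynomial.aeval p g = 0 → MvPolynomial.aeval P g = 0 := by
  classical
  obtain ⟨R, hR⟩ : ∃ R : Set (MvPolynomial σ ℂ), R = {g | ∃ d : ℕ, g.IsHomogeneous d ∧
      MvPolynomial.aeval p g = 0} := ⟨_, rfl⟩
  have hfg : (Ideal.span R).FG := IsNoetherian.noetherian _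
  obtain ⟨S, hS, hspan⟩ := (Submodule.fg_span_iff_fg_span_finset_subset R).1 hfg
  refine ⟨⋃ g ∈ S, ((g.support.image fun d => MvPolynomial.coeff d g : Finset ℂ) :
    Set ℂ), ?_, ?_⟩
  · exact Set.Finite.biUnion (Finset.finite_toSet S) fun g _ => Finset.finite_toSet _
  · intro k0 _ _ hk0 P hP g d hg h0
    -- the generators vanish at `P`
    have h1 : ∀ g ∈ S, MvPolynomial.aeval P g = 0 := by
      intro g hgS
      have h2 : g ∈ R := hS hgS
      rw [hR] at h2
      obtain ⟨d, hgd, hg0⟩ := h2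
      obtain ⟨g0, hg0'⟩ := N1_lift (K := k0) g fun m => by
        by_cases h : MvPolynomial.coeff m g = 0
        · exact ⟨0, by rw [h, map_zero]⟩
        · refine hk0 _ (Set.mem_iUnion₂.2 ⟨g, hgS, ?_⟩)
          rw [Finset.mem_coe, Finset.mem_image]
          exact ⟨m, MvPolynomial.mem_support_iff.2 h, rfl⟩
      have h3 := hP g0 d (by
        intro m hm
        refine hgd ?_
        rw [← hg0', MvPolynomial.coeff_map]
        exact fun h => hm ((map_eq_zero _).1 h)) (by rw [hg0']; exact hg0)
      rw [← hg0', MvPolynomial.aeval_map_algebraMap]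
      exact h3
    have h2 : Ideal.span R ≤ RingHom.ker (MvPolynomial.aeval P :
        MvPolynomial σ ℂ →ₐ[ℂ] ℂ) := by
      have h3 : Ideal.span R = Ideal.span (S : Set (MvPolynomial σ ℂ)) := hspan
      rw [h3, Ideal.span_le]
      intro g hg
      exact h1 g hg
    have h3 : g ∈ R := by
      rw [hR]
      exact ⟨d, hg, h0⟩
    exact h2 (Ideal.subset_span h3)

private theorem N1_hom {k A : Type} [Field k] [CommRing A] [Nontrivial A] [Algebra k A]
    [Algebra.FiniteType k A] [Algebra k ℂ] : Nonempty (A →ₐ[k] ℂ) := by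
  obtain ⟨m, hm⟩ := Ideal.exists_maximal A
  let _ : Field (A ⧸ m) := Ideal.Quotient.field m
  have hft : Algebra.FiniteType k (A ⧸ m) :=
    Algebra.FiniteType.of_surjective (Ideal.Quotient.mkₐ k m) (Ideal.Quotient.mkₐ_surjective k m)
  have hfin : Module.Finite k (A ⧸ m) := finite_of_finite_type_of_isJacobsonRing k (A ⧸ m)
  have halg : Algebra.IsAlgebraic k (A ⧸ m) := Algebra.IsAlgebraic.of_finite k (A ⧸ m)
  exact ⟨(IsAlgClosed.lift : (A ⧸ m) →ₐ[k] ℂ).comp (Ideal.Quotient.mkₐ k m)⟩

/-- a family over an extension of `k0`, seen over the complex numbers -/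
private theorem N1_key {k0 κ : Type} [Field k0] [Algebra k0 ℂ] [Field κ] [Algebra k0 κ] {n : ℕ}
    (D : Fin n → Polynomial κ) {e : ℕ} (hdeg : ∀ i, (D i).natDegree ≤ e) (hD : D ≠ 0) (t : κ) :
    ∃ (D1 : Fin n → Polynomial ℂ) (t1 : ℂ), (∀ i, (D1 i).natDegree ≤ e) ∧ D1 ≠ 0 ∧
      (∀ g : MvPolynomial (ℕ × Fin n) k0, MvPolynomial.aeval (co D) g = 0 →
        MvPolynomial.aeval (co D1) g = 0) ∧
      (∀ i l, (Polynomial.taylor t (D i)).coeff l = 0 →
        (Polynomial.taylor t1 (D1 i)).coeff l = 0) ∧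
      ∀ i l, (D i).coeff l = 0 → (D1 i).coeff l = 0 := by
  classical
  obtain ⟨i0, k1, hk1⟩ : ∃ i0 k1, (D i0).coeff k1 ≠ 0 := by
    by_contra h
    push Not at h
    apply hD
    funext i
    ext k
    rw [h i k]
    rfl
  let A : Subalgebra k0 κ := Algebra.adjoin k0 ((Set.range fun v : Fin (e + 1) × Fin n =>
    (D v.2).coeff v.1) ∪ {t, ((D i0).coeff k1)⁻¹})
  have hco : ∀ i k, (D i).coeff k ∈ A := by
    intro i k
    by_cases hk : k < e + 1
    · exact Algebra.subset_adjoin (Or.inl ⟨(⟨k, hk⟩, i), rfl⟩)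
    · have h1 : (D i).coeff k = 0 :=
        Polynomial.coeff_eq_zero_of_natDegree_lt (by have := hdeg i; omega)
      rw [h1]
      exact zero_mem A
  have ht : t ∈ A := Algebra.subset_adjoin (Or.inr (Or.inl rfl))
  have hinv : ((D i0).coeff k1)⁻¹ ∈ A := Algebra.subset_adjoin (Or.inr (Or.inr rfl))
  have hft : Algebra.FiniteType k0 A :=
    A.fg_iff_finiteType.1 (Subalgebra.fg_def.2
      ⟨_, (Set.finite_range _).union (Set.toFinite _), rfl⟩)
  obtain ⟨g⟩ : Nonempty (A →ₐ[k0] ℂ) := N1_hom
  -- the family over `A`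
  have hlift : ∀ i, ∃ DA : Polynomial A, DA.map (algebraMap A κ) = D i := by
    intro i
    have h1 : D i ∈ Polynomial.lifts (algebraMap A κ) := by
      rw [Polynomial.lifts_iff_coeff_lifts]
      intro k
      exact ⟨⟨(D i).coeff k, hco i k⟩, rfl⟩
    exact (Polynomial.mem_lifts _).1 h1
  choose DA hDA using hlift
  have hinj : Function.Injective (algebraMap A κ) := Subtype.val_injective
  have hcA : ∀ i k, algebraMap A κ ((DA i).coeff k) = (D i).coeff k := by
    intro i k
    rw [← hDA, Polynomial.coeff_map]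
  refine ⟨fun i => (DA i).map (g : A →+* ℂ), g ⟨t, ht⟩, ?_, ?_, ?_, ?_, ?_⟩
  · intro i
    have h1 : (DA i).natDegree = (D i).natDegree := by
      rw [← hDA, Polynomial.natDegree_map_eq_of_injective hinj]
    exact Polynomial.natDegree_map_le.trans (h1.le.trans (hdeg i))
  · intro h0
    have h1 : g ((DA i0).coeff k1) = 0 := by
      have h2 := congrArg (fun p : Polynomial ℂ => p.coeff k1) (congrFun h0 i0)
      simpa using h2
    have h2 : (DA i0).coeff k1 * ⟨((D i0).coeff k1)⁻¹, hinv⟩ = 1 := by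
      apply hinj
      rw [map_mul, hcA, map_one]
      exact mul_inv_cancel₀ hk1
    have h3 := congrArg g h2
    rw [map_mul, h1, zero_mul, map_one] at h3
    exact zero_ne_one h3
  · intro q hq
    have h1 := MvPolynomial.comp_aeval_apply (R := k0) (fun p : ℕ × Fin n => (DA p.2).coeff p.1)
      (IsScalarTower.toAlgHom k0 A κ) q
    have h2 : (fun p : ℕ × Fin n => (IsScalarTower.toAlgHom k0 A κ) ((DA p.2).coeff p.1)) = co D := by
      funext p
      exact hcA _ _
    rw [h2, hq] at h1
    have h3 : MvPolynomial.aeval (fun p : ℕ × Fin n => (DA p.2).coeff p.1) q = 0 := by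
      apply hinj
      rw [map_zero]
      exact h1
    have h4 := MvPolynomial.comp_aeval_apply (R := k0) (fun p : ℕ × Fin n => (DA p.2).coeff p.1) g q
    rw [h3, map_zero] at h4
    have h5 : (fun p : ℕ × Fin n => g ((DA p.2).coeff p.1)) =
        co fun i => (DA i).map (g : A →+* ℂ) := by
      funext p
      show _ = ((DA p.2).map (g : A →+* ℂ)).coeff p.1
      rw [Polynomial.coeff_map]
      rfl
    rw [h5] at h4
    exact h4.symm
  · intro i l hl
    have h1 : (Polynomial.taylor (⟨t, ht⟩ : A) (DA i)).coeff l = 0 := by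
      apply hinj
      rw [map_zero, ← Polynomial.coeff_map, Polynomial.map_taylor, hDA]
      exact hl
    have h2 := congrArg (g : A →+* ℂ) h1
    rw [map_zero, ← Polynomial.coeff_map, Polynomial.map_taylor] at h2
    exact h2
  · intro i l hl
    have h1 : (DA i).coeff l = 0 := by
      apply hinj
      rw [map_zero, hcA, hl]
    show ((DA i).map (g : A →+* ℂ)).coeff l = 0
    rw [Polynomial.coeff_map, h1, map_zero]

/-- PROOF. Model: `rel_gens` and `mult1V_of_CB` in Q8/N5V.lean. (1) The coefficients `(C i).coeff k`, `k > e`, are zero, so only the variables in `V = Fin (e + 1) × Fin n` matter. The ideal of `MvPolynomial V ℂ` generated by the homogeneous relations of the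
coefficients of `C` is generated by finitely many homogeneous relations `g_j` (Noetherian; `rel_gens` does this for the multihomogeneous relations, take one block, or copy its proof); `cof` = their coefficients. (2) Let `D` over `κ` be as in `NT` (`D ≠ 0`, `Spc k0 C' D`), so `g_j(co D) = 0` (`g_j` over `k0`).
Suppose that at some `t ∈ κ` all Taylor coefficients of order `≤ 2` are zero. They are polynomials `T_{l i}(Z, t)` with integer coefficients in the coefficients `Z` and `t`. Over `ℂ` the system `g_j(Z) = 0`, `T_{l i}(Z, t) = 0` (`l ≤ 2`) has only zeros with `Z = 0` (`hC`), so by the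
Nullstellensatz a power of every `Z_a` is in the ideal generated by the `g_j`, `T_{l i}` in `ℂ[Z, t]`, so also in `k0[Z, t]` (as in `mult1V_of_CB`: descent of the membership, or put the finitely many coefficients of the certificate into `cof` (then nothing has to be descended)): so `co D = 0` on `V`, `D = 0`.
(3) The same at infinity with the system `g_j(Z) = 0`, `Z_{e - l, i} = 0` (`l ≤ 2`, `l ≤ e`). -/
theorem nt_of_C {L : Type u} [Field L] [Algebra ℂ L] {n : ℕ} (e : ℕ) (C : Fin n → Polynomial L)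
    (hdeg : ∀ i, (C i).natDegree ≤ e) (hC : NTC e C) :
    ∃ cof : Set ℂ, cof.Finite ∧ ∀ (k0 Q : Type) [Field k0] [Algebra k0 ℂ] [Field Q] [Algebra k0 Q],
      (∀ c ∈ cof, ∃ b : k0, algebraMap k0 ℂ b = c) → ∀ C' : Fin n → Polynomial Q,
      (∀ (g : MvPolynomial (ℕ × Fin n) k0) (d : ℕ), g.IsHomogeneous d →
        MvPolynomial.aeval (co C) (MvPolynomial.map (algebraMap k0 ℂ) g) = 0 →
          MvPolynomial.aeval (co C') g = 0) → NT k0 e C' := by
  classical
  let ι : Fin (e + 1) × Fin n → ℕ × Fin n := fun v => ((v.1 : ℕ), v.2)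
  obtain ⟨cof, hcf, hgen⟩ := N1_gens (fun v => co C (ι v))
  refine ⟨cof, hcf, ?_⟩
  intro k0 Q _ _ _ _ hk0 C' hrel κ _ _ D hDdeg hD0 hspc
  have key : ∀ t : κ, ∃ (D1 : Fin n → Polynomial ℂ) (t1 : ℂ), (∀ i, (D1 i).natDegree ≤ e) ∧ D1 ≠ 0 ∧
      (∀ (g : MvPolynomial (ℕ × Fin n) ℂ) (d : ℕ), g.IsHomogeneous d →
        MvPolynomial.aeval (co C) g = 0 → MvPolynomial.aeval (co D1) g = 0) ∧
      (∀ i l, (Polynomial.taylor t (D i)).coeff l = 0 →
        (Polynomial.taylor t1 (D1 i)).coeff l = 0) ∧
      ∀ i l, (D i).coeff l = 0 → (D1 i).coeff l = 0 := by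
    intro t
    obtain ⟨D1, t1, hd1, hn1, hr1, ht1, hc1⟩ := N1_key (k0 := k0) D hDdeg hD0 t
    refine ⟨D1, t1, hd1, hn1, ?_, ht1, hc1⟩
    -- the relations over `k0` in finitely many variables
    have hV := hgen k0 hk0 (fun v => co D1 (ι v)) (by
      intro g d hg h0
      have e1 : MvPolynomial.aeval (co C) (MvPolynomial.map (algebraMap k0 ℂ)
          (MvPolynomial.rename ι g)) = 0 := by
        rw [MvPolynomial.map_rename, MvPolynomial.aeval_rename]
        exact h0
      have e2 := hrel _ d hg.rename_isHomogeneous e1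
      have e3 := hr1 _ (hspc _ d hg.rename_isHomogeneous e2)
      rw [MvPolynomial.aeval_rename] at e3
      exact e3)
    intro g d hg h0
    -- the polynomial in the variables of `V`
    let s : ℕ × Fin n → MvPolynomial (Fin (e + 1) × Fin n) ℂ := fun p =>
      if h : p.1 < e + 1 then MvPolynomial.X (⟨p.1, h⟩, p.2) else 0
    have hs : ∀ (K : Type u) [Field K] [Algebra ℂ K] (E : Fin n → Polynomial K),
        (∀ i, (E i).natDegree ≤ e) → MvPolynomial.aeval (fun v => co E (ι v))
          (MvPolynomial.aeval s g) = MvPolynomial.aeval (co E) g := by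
      intro K _ _ E hE
      have h1 := MvPolynomial.comp_aeval_apply (R := ℂ) s
        (MvPolynomial.aeval (fun v => co E (ι v)) : MvPolynomial (Fin (e + 1) × Fin n) ℂ →ₐ[ℂ] K) g
      rw [h1]
      congr 2
      funext p
      by_cases h : p.1 < e + 1
      · simp only [s, h, dif_pos, MvPolynomial.aeval_X, ι]
      · simp only [s, h, dif_neg, not_false_iff, map_zero]
        exact (Polynomial.coeff_eq_zero_of_natDegree_lt (by have := hE p.2; omega)).symm
    have hs0 : ∀ (E : Fin n → Polynomial ℂ),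
        (∀ i, (E i).natDegree ≤ e) → MvPolynomial.aeval (fun v => co E (ι v))
          (MvPolynomial.aeval s g) = MvPolynomial.aeval (co E) g := by
      intro E hE
      have h1 := MvPolynomial.comp_aeval_apply (R := ℂ) s
        (MvPolynomial.aeval (fun v => co E (ι v)) : MvPolynomial (Fin (e + 1) × Fin n) ℂ →ₐ[ℂ] ℂ) g
      rw [h1]
      congr 2
      funext p
      by_cases h : p.1 < e + 1
      · simp only [s, h, dif_pos, MvPolynomial.aeval_X, ι]
      · simp only [s, h, dif_neg, not_false_iff, map_zero]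
        exact (Polynomial.coeff_eq_zero_of_natDegree_lt (by have := hE p.2; omega)).symm
    have hsh : (MvPolynomial.aeval s g).IsHomogeneous d := by
      have h1 : ∀ p, (s p).IsHomogeneous 1 := by
        intro p
        by_cases h : p.1 < e + 1
        · simp only [s, h, dif_pos]
          exact MvPolynomial.isHomogeneous_X _ _
        · simp only [s, h, dif_neg, not_false_iff]
          exact MvPolynomial.isHomogeneous_zero _ _ _
      have h2 := hg.aeval s h1
      rwa [one_mul] at h2
    have h1 := hV (MvPolynomial.aeval s g) d hsh (by rw [hs L C hdeg]; exact h0)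
    rw [hs0 D1 hd1] at h1
    exact h1
  constructor
  · intro t
    by_contra hcon
    push Not at hcon
    obtain ⟨D1, t1, hd1, hn1, hr1, ht1, -⟩ := key t
    obtain ⟨l, hl, i, hi⟩ := (hC D1 hd1 hn1 hr1).1 t1
    exact hi (ht1 i l (hcon l hl i))
  · by_contra hcon
    push Not at hcon
    obtain ⟨D1, t1, hd1, hn1, hr1, -, hc1⟩ := key 0
    obtain ⟨l, hl, hle, i, hi⟩ := (hC D1 hd1 hn1 hr1).2
    exact hi (hc1 i _ (hcon l hl hle i))

end MP2619.Q6
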