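import Pool.Agent.Lib.MP_2619d0_ag.Q8.M0
import Pool.Agent.Lib.MP_2619d0_ag.R.A8

/-!
Row u1-9: the symmetry of the unipotent path
-/

set_option autoImplicit false

namespace MP2619.Q6

open scoped NNReal
open IntermediateField MP2619.R MP2619.N Pool.Agent.Lib.MP_2619d0_ag Pool.Agent.Lib.MP_2619d0_ag.T
  MP2619.Q5

theorem P9_gen {B N : Type} [Field B] [Field N] [Algebra B N] {n : ℕ} (f v : Fin n → N)
    (hv : AlgebraicIndependent B v) (hvf : ∀ i, v i ∈ adjoin B (Set.range f)) :
    AlgebraicIndependent B f := by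
  set L : IntermediateField B N := adjoin B (Set.range f) with hL
  let g : Fin n → L := fun i => ⟨f i, subset_adjoin B _ (Set.mem_range_self i)⟩
  have halg : Algebra.IsAlgebraic (Algebra.adjoin B (Set.range g)) L := by
    refine ⟨?_⟩
    rintro ⟨z, hz⟩
    induction hz using adjoin_induction with
    | mem z hz =>
      obtain ⟨i, rfl⟩ := hz
      exact isAlgebraic_algebraMap (⟨g i, Algebra.subset_adjoin (Set.mem_range_self i)⟩ :
        Algebra.adjoin B (Set.range g))
    | algebraMap c =>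
      exact isAlgebraic_algebraMap (algebraMap B (Algebra.adjoin B (Set.range g)) c)
    | add x y hx hy h1 h2 => exact h1.add h2
    | inv x hx h1 => exact h1.inv
    | mul x y hx hy h1 h2 => exact h1.mul h2
  let v' : Fin n → L := fun i => ⟨v i, hvf i⟩
  have hv' : AlgebraicIndependent B v' := AlgebraicIndependent.of_comp L.val hv
  have hb := Algebra.IsAlgebraic.isTranscendenceBasis_of_le_trdeg_of_finite B g
    (by simpa using hv'.cardinalMk_le_trdeg)
  exact hb.1.map' (f := L.val) L.val.injective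

private theorem P9_frac {B M : Type} [Field B] [Field M] [Algebra B M] {n : ℕ} (r : Fin n → M)
    (hr : AlgebraicIndependent B r) (h : adjoin B (Set.range r) = ⊤) :
    ∃ g : FractionRing (MvPolynomial (Fin n) B) ≃ₐ[B] M,
      ∀ i, g (algebraMap (MvPolynomial (Fin n) B) _ (MvPolynomial.X i)) = r i := by
  refine ⟨(hr.aevalEquivField.trans (IntermediateField.equivOfEq h)).trans
    IntermediateField.topEquiv, fun i => ?_⟩
  have h1 : ((hr.aevalEquivField (algebraMap (MvPolynomial (Fin n) B) _ (MvPolynomial.X i)) :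
      IntermediateField.adjoin B (Set.range r)) : M) = MvPolynomial.aeval r (MvPolynomial.X i) :=
    hr.aevalEquivField_algebraMap_apply_coe (MvPolynomial.X i)
  rw [MvPolynomial.aeval_X] at h1
  exact h1

private theorem P9_equiv {B M : Type} [Field B] [Field M] [Algebra B M] {n : ℕ}
    (r r' : Fin n → M) (hr : AlgebraicIndependent B r)
    (hr' : AlgebraicIndependent B r') (h : adjoin B (Set.range r) = ⊤)
    (h' : adjoin B (Set.range r') = ⊤) :
    ∃ e : M ≃ₐ[B] M, ∀ i, e (r i) = r' i := by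
  obtain ⟨g, hg⟩ := P9_frac r hr h
  obtain ⟨g', hg'⟩ := P9_frac r' hr' h'
  refine ⟨g.symm.trans g', fun i => ?_⟩
  rw [AlgEquiv.trans_apply, ← hg i, AlgEquiv.symm_apply_apply, hg' i]

/-- the symmetry `ε ↦ - ε`, `α ↔ β` -/
theorem exists_sigma_neg {B M : Type} [Field B] [Field M] [Algebra B M] (ε α β : M)
    (hind : AlgebraicIndependent B (g3 ε α β)) (hgen : adjoin B (Set.range (g3 ε α β)) = ⊤) :
    ∃ σ : M ≃ₐ[B] M, σ ε = -ε ∧ σ α = β ∧ σ β = α ∧ ∀ z, σ (σ z) = z := by
  classical
  have w0 : g3 (-ε) β α 0 = -ε := rfl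
  have w1 : g3 (-ε) β α 1 = β := rfl
  have w2 : g3 (-ε) β α 2 = α := rfl
  have v0 : g3 ε α β 0 = ε := rfl
  have v1 : g3 ε α β 1 = α := rfl
  have v2 : g3 ε α β 2 = β := rfl
  have hwL : ∀ i, g3 (-ε) β α i ∈ adjoin B (Set.range (g3 (-ε) β α)) :=
    fun i => subset_adjoin B _ (Set.mem_range_self i)
  have hmem : ∀ i, g3 ε α β i ∈ adjoin B (Set.range (g3 (-ε) β α)) := by
    intro i
    fin_cases i
    · have h1 := neg_mem (hwL 0)
      rw [w0, neg_neg] at h1
      exact h1
    · exact hwL 2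
    · exact hwL 1
  have hwind : AlgebraicIndependent B (g3 (-ε) β α) := P9_gen _ _ hind hmem
  have hwgen : adjoin B (Set.range (g3 (-ε) β α)) = ⊤ := by
    rw [eq_top_iff, ← hgen, adjoin_le_iff]
    rintro _ ⟨i, rfl⟩
    exact hmem i
  obtain ⟨σ, hσ⟩ := P9_equiv _ _ hind hwind hgen hwgen
  have s0 : σ ε = -ε := hσ 0
  have s1 : σ α = β := hσ 1
  have s2 : σ β = α := hσ 2
  have hcomp : ∀ i, σ (σ (g3 ε α β i)) = g3 ε α β i := by
    intro i
    fin_cases i
    · change σ (σ ε) = ε
      rw [s0, map_neg, s0, neg_neg]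
    · change σ (σ α) = α
      rw [s1, s2]
    · change σ (σ β) = β
      rw [s2, s1]
  refine ⟨σ, s0, s1, s2, fun z => ?_⟩
  have hz : z ∈ adjoin B (Set.range (g3 ε α β)) := by
    rw [hgen]
    exact mem_top
  induction hz using adjoin_induction with
  | mem z hz =>
    obtain ⟨i, rfl⟩ := hz
    exact hcomp i
  | algebraMap c => rw [AlgEquiv.commutes, AlgEquiv.commutes]
  | add x y hx hy h1 h2 => rw [map_add, map_add, h1, h2]
  | inv x hx h1 => rw [map_inv₀, map_inv₀, h1]
  | mul x y hx hy h1 h2 => rw [map_mul, map_mul, h1, h2]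

end MP2619.Q6
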