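import Pool.Agent.Lib.MP_2619d0_ag.U.P10
import Pool.Agent.Lib.MP_2619d0_ag.U.P9
import Pool.Agent.Lib.MP_2619d0_ag.Q5.M6a
import Pool.Agent.Lib.MP_2619d0_ag.Q8.M6

/-!
Row u1-11: the unipotent path at zero and at infinity
-/

set_option autoImplicit false

namespace MP2619.Q6

open scoped NNReal
open IntermediateField MP2619.R MP2619.N Pool.Agent.Lib.MP_2619d0_ag Pool.Agent.Lib.MP_2619d0_ag.T
  MP2619.Q5

/-- as `adj8` (Q8/M6.lean) -/
theorem adjU {B Q M : Type} [Field B] [Field Q] [Field M] [Algebra B Q] [Algebra Q M]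
    [Algebra B M] [IsScalarTower B Q M] {n : ℕ} (C : Fin n → Polynomial Q) (h : Q)
    (hg : Ch B C h = ⊤) (α β : M) (b : M) (hb : b ∈ adjoin Q ({α, β} : Set M)) :
    b ∈ adjoin B (insert (algebraMap Q M h)
      {z | ∃ i k, z = ((C i).map (algebraMap Q M)).coeff k} ∪ {α, β}) := by
  set L : IntermediateField B M := adjoin B (insert (algebraMap Q M h)
      {z | ∃ i k, z = ((C i).map (algebraMap Q M)).coeff k} ∪ {α, β}) with hL
  have hk : ∀ x : Q, algebraMap Q M x ∈ L := by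
    intro x
    have hx : x ∈ Ch B C h := by
      rw [hg]
      exact mem_top
    have hm : algebraMap Q M x ∈ (Ch B C h).map (IsScalarTower.toAlgHom B Q M) :=
      ⟨x, hx, rfl⟩
    unfold Ch at hm
    rw [adjoin_map] at hm
    refine adjoin.mono B _ _ ?_ hm
    rintro _ ⟨y, hy, rfl⟩
    rcases hy with rfl | ⟨i, k, rfl⟩
    · exact Or.inl (Or.inl rfl)
    · refine Or.inl (Or.inr ⟨i, k, ?_⟩)
      rw [Polynomial.coeff_map]
      rfl
  let L' : IntermediateField Q M := { L.toSubfield with algebraMap_mem' := hk }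
  have hle : adjoin Q ({α, β} : Set M) ≤ L' := by
    rw [adjoin_le_iff]
    intro y hy
    exact subset_adjoin B _ (Or.inr hy)
  exact hle hb

variable {n : ℕ} {F : MvPolynomial (Fin n) ℂ} {J : Type} {z : Exp3 n ⊕ J → ℂ} {A : Type} [Field A]
  [CharZero A] [Algebra ℂ A] {u l : Fin n → A} {v2 : Valuation ℚ ℝ≥0} {V : Valuation A ℝ≥0}

variable {k0 B M : Type} [Field k0] [Field B] [Field M] [Algebra k0 B]
  [Algebra k0 M] [Algebra B M] [IsScalarTower k0 B M]

/-- the values of a polynomial at a main place -/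
theorem res_poly {Q M : Type} [Field Q] [Field M] [Algebra Q M] (E0 : IntermediateField Q M)
    (P0 : ValuationSubring M) (φ : P0 →+* E0)
    (hE : ∀ b : E0, ∃ hb : (b : M) ∈ P0, φ ⟨(b : M), hb⟩ = b) (p : Polynomial Q) (q : Q) (δ : P0)
    (hδ : φ δ = 0) (c : M) (hc : c ∈ E0) :
    ∃ b : P0, (b : M) = c * (p.map (algebraMap Q M)).eval (algebraMap Q M q + δ) ∧
      ((φ b : E0) : M) = c * algebraMap Q M (p.eval q) := by
  have hEP : ∀ b ∈ E0, b ∈ P0 := fun b hb => (hE ⟨b, hb⟩).1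
  have hφE : ∀ (b : M) (hb : b ∈ E0), φ ⟨b, hEP b hb⟩ = ⟨b, hb⟩ := fun b hb => (hE ⟨b, hb⟩).2
  have hQP : ∀ q : Q, algebraMap Q M q ∈ P0 := fun q => hEP _ (E0.algebraMap_mem q)
  let jP : Q →+* P0 := (algebraMap Q M).codRestrict P0 hQP
  have hjP : φ.comp jP = algebraMap Q E0 := by
    ext q
    have h1 := hφE _ (E0.algebraMap_mem q)
    exact congrArg Subtype.val h1
  refine ⟨⟨c, hEP _ hc⟩ * (p.map jP).eval (jP q + δ), ?_, ?_⟩
  · change c * (((p.map jP).eval (jP q + δ) : P0) : M) = _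
    congr 1
    rw [Polynomial.eval_map, Polynomial.eval_map]
    exact Polynomial.hom_eval₂ p jP P0.subtype (jP q + δ)
  · rw [map_mul, hφE _ hc]
    change c * ((φ ((p.map jP).eval (jP q + δ)) : E0) : M) = _
    congr 1
    rw [Polynomial.eval_map, Polynomial.hom_eval₂, hjP, map_add, hδ, add_zero]
    have h1 : φ (jP q) = algebraMap Q E0 q := by
      rw [← hjP]
      rfl
    rw [h1]
    have h3 := Polynomial.hom_eval₂ p (RingHom.id Q) (algebraMap Q E0) q
    rw [RingHom.comp_id] at h3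
    exact (congrArg Subtype.val h3).symm

/-- the path at zero -/
theorem PU.zero (hn : 5 ≤ n) (S : St F z u l v2 V) (k1 : IntermediateField (Qz z) ℂ)
    (hk1 : FiniteDimensional (Qz z) k1) (w : k1)
    [Algebra B k1] [Algebra B A] [Algebra k1 M] [IsScalarTower B k1 M] [IsScalarTower B k1 A]
    (e1 : k1) (j : J) (hB : BE z k1 B e1 j) (hB' : BE z k1 B e1⁻¹ j)
    (wB : B) (hw : algebraMap B k1 wB = w) (FB : MvPolynomial (Fin n) B)
    (hF : MvPolynomial.map ((algebraMap k1 ℂ).comp (algebraMap B k1)) FB = F)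
    {Q : Type} [Field Q] [Algebra B Q] [Algebra Q M] [IsScalarTower B Q M]
    (C : Fin n → Polynomial Q) (d : ℕ) (h : Q) (hg : Ch B C h = ⊤) (α β : M)
    (hind : AlgebraicIndependent Q (g3 (algebraMap k1 M e1) α β))
    (hgen : adjoin Q (Set.range (g3 (algebraMap k1 M e1) α β)) = ⊤)
    (σQ : M ≃ₐ[Q] M) (s4 : σQ α = β) (s5 : σQ β = α) (σ : M ≃ₐ[B] M) (hσ : ∀ z, σ z = σQ z)
    (x y : Fin n → M)
    (E : PU k0 FB σ (fun i => (C i).map (algebraMap Q M)) d (algebraMap Q M h)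
      (algebraMap k1 M e1) α β x y) (hD : Dat F z k1 w x y) (a : Fin n)
    (x1 y1 : Fin n → adjoin Q ({α, β} : Set M))
    (hx1 : ∀ i, (x1 i : M) = α * algebraMap Q M ((C i).eval h))
    (hy1 : ∀ i, (y1 i : M) = β * algebraMap Q M ((C i).eval h)) :
    Even (gc V w u x y (Pi.single a 1) + gc V wB u x1 y1 (Pi.single a 1)) := by
  classical
  have hBc : CharZero B := (algebraMap B k1).charZero
  obtain ⟨he3, hg3, -⟩ := facts8 (algebraMap k1 M e1) α β hind hgen
  have hαE : α ∈ adjoin Q ({α, β} : Set M) := subset_adjoin _ _ (.inl rfl)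
  have hβE : β ∈ adjoin Q ({α, β} : Set M) := subset_adjoin _ _ (.inr rfl)
  refine main_place hn S k1 w e1 j hB wB hw α β he3 hg3 σQ s4 s5 σ hσ E.s_e E.sp x y E.sx E.sy hD a
    x1 y1 ?_ ?_
  · intro P0 φ rm hlt hE
    have hεP : algebraMap k1 M e1 ∈ P0 := (P0.valuation_le_one_iff _).1 hlt.le
    have hφε : φ ⟨algebraMap k1 M e1, hεP⟩ = 0 := (rm.zero _).2 hlt
    refine ⟨fun i => ?_, fun i => ?_⟩
    · obtain ⟨b, hb1, hb2⟩ := res_poly _ P0 φ hE (C i) h (-⟨algebraMap k1 M e1, hεP⟩)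
        (by rw [map_neg, hφε, neg_zero]) α hαE
      refine ⟨b, ?_, Subtype.ext (by rw [hb2, hx1])⟩
      rw [hb1, E.x_eq, sub_eq_add_neg]
      rfl
    · obtain ⟨b, hb1, hb2⟩ := res_poly _ P0 φ hE (C i) h ⟨algebraMap k1 M e1, hεP⟩ hφε β hβE
      refine ⟨b, ?_, Subtype.ext (by rw [hb2, hy1])⟩
      rw [hb1, E.y_eq]
  · intro P hP hs hne
    refine PU.place hn S k1 hk1 w e1 e1 j hB hB' hB wB hw FB hF σ _ d _ α β x y E hD a P hP hs ?_
    intro L _ _ _ _ φ' rm' hE'
    rcases hE'.zero hP.pos with h1 | h1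
    · exact absurd (fun b hb => h1 b (adjU C h hg α β b hb)) hne
    · exact h1

/-- the generators at infinity -/
theorem gens_inf {Q M : Type} [Field Q] [Field M] [Algebra Q M] (ε α β : M) (h : Q) (d : ℕ)
    (hind : AlgebraicIndependent Q (g3 ε α β)) (hgen : adjoin Q (Set.range (g3 ε α β)) = ⊤) :
    AlgebraicIndependent Q (g3 ε (α * (algebraMap Q M h - ε) ^ d) (β * (algebraMap Q M h + ε) ^ d)) ∧
    adjoin Q (Set.range (g3 ε (α * (algebraMap Q M h - ε) ^ d)
      (β * (algebraMap Q M h + ε) ^ d))) = ⊤ := by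
  have hεt : Transcendental Q ε := hind.transcendental 0
  have hne1 : algebraMap Q M h - ε ≠ 0 := by
    intro h0
    apply hεt
    rw [← sub_eq_zero.1 h0]
    exact isAlgebraic_algebraMap h
  have hne2 : algebraMap Q M h + ε ≠ 0 := by
    intro h0
    apply hεt
    have h1 : ε = algebraMap Q M (-h) := by
      rw [map_neg]
      exact (neg_eq_of_add_eq_zero_right h0).symm
    rw [h1]
    exact isAlgebraic_algebraMap (-h)
  set W : Fin 3 → M := g3 ε (α * (algebraMap Q M h - ε) ^ d) (β * (algebraMap Q M h + ε) ^ d)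
    with hW
  have hwL : ∀ i, W i ∈ adjoin Q (Set.range W) :=
    fun i => subset_adjoin Q _ (Set.mem_range_self i)
  have h0 : ε ∈ adjoin Q (Set.range W) := hwL 0
  have hh : algebraMap Q M h ∈ adjoin Q (Set.range W) := IntermediateField.algebraMap_mem _ h
  have h1 : α ∈ adjoin Q (Set.range W) := by
    have h2 : α = W 1 / (algebraMap Q M h - ε) ^ d := by
      have h3 : W 1 = α * (algebraMap Q M h - ε) ^ d := rfl
      rw [h3, mul_div_cancel_right₀ _ (pow_ne_zero d hne1)]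
    rw [h2]
    exact div_mem (hwL 1) (pow_mem (sub_mem hh h0) d)
  have h2 : β ∈ adjoin Q (Set.range W) := by
    have h2 : β = W 2 / (algebraMap Q M h + ε) ^ d := by
      have h3 : W 2 = β * (algebraMap Q M h + ε) ^ d := rfl
      rw [h3, mul_div_cancel_right₀ _ (pow_ne_zero d hne2)]
    rw [h2]
    exact div_mem (hwL 2) (pow_mem (add_mem hh h0) d)
  have hmem : ∀ i, g3 ε α β i ∈ adjoin Q (Set.range W) := by
    intro i
    fin_cases i
    · exact h0
    · exact h1
    · exact h2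
  refine ⟨P9_gen _ _ hind hmem, ?_⟩
  rw [eq_top_iff, ← hgen, adjoin_le_iff]
  rintro _ ⟨i, rfl⟩
  exact hmem i

/-- the path at infinity -/
theorem PU.inf (hn : 5 ≤ n) (S : St F z u l v2 V) (k1 : IntermediateField (Qz z) ℂ)
    (hk1 : FiniteDimensional (Qz z) k1) (w : k1)
    [Algebra B k1] [Algebra B A] [Algebra k1 M] [IsScalarTower B k1 M] [IsScalarTower B k1 A]
    (e1 : k1) (j : J) (hB : BE z k1 B e1 j) (hB' : BE z k1 B e1⁻¹ j)
    (wB : B) (hw : algebraMap B k1 wB = w) (FB : MvPolynomial (Fin n) B)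
    (hF : MvPolynomial.map ((algebraMap k1 ℂ).comp (algebraMap B k1)) FB = F)
    {Q : Type} [Field Q] [Algebra B Q] [Algebra Q M] [IsScalarTower B Q M]
    (C : Fin n → Polynomial Q) (d : ℕ) (hdeg : ∀ i, (C i).natDegree ≤ d) (h : Q)
    (hg : Ch B C h = ⊤) (α β : M)
    (hind : AlgebraicIndependent Q (g3 (algebraMap k1 M e1) α β))
    (hgen : adjoin Q (Set.range (g3 (algebraMap k1 M e1) α β)) = ⊤)
    (σQ : M ≃ₐ[Q] M) (s4 : σQ α = β) (s5 : σQ β = α) (σ : M ≃ₐ[B] M) (hσ : ∀ z, σ z = σQ z)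
    (x y : Fin n → M)
    (E : PU k0 FB σ (fun i => (C i).map (algebraMap Q M)) d (algebraMap Q M h)
      (algebraMap k1 M e1) α β x y) (hD : Dat F z k1 w x y) (a : Fin n)
    (α1 β1 : M) (hα1 : α1 = α * (algebraMap Q M h - algebraMap k1 M e1) ^ d)
    (hβ1 : β1 = β * (algebraMap Q M h + algebraMap k1 M e1) ^ d)
    (x1 y1 : Fin n → adjoin Q ({α1, β1} : Set M))
    (hx1 : ∀ i, (x1 i : M) = α1 * algebraMap Q M ((C i).coeff d))
    (hy1 : ∀ i, (y1 i : M) = β1 * algebraMap Q M ((C i).coeff d)) :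
    Even (gc V w u x y (Pi.single a 1) + gc V wB u x1 y1 (Pi.single a 1)) := by
  classical
  have hBc : CharZero B := (algebraMap B k1).charZero
  obtain ⟨hi1, hi2⟩ := gens_inf (algebraMap k1 M e1) α β h d hind hgen
  rw [← hα1, ← hβ1] at hi1 hi2
  obtain ⟨he3, hg3, -⟩ := facts8 (algebraMap k1 M e1) α1 β1 hi1 hi2
  have hαE : α1 ∈ adjoin Q ({α1, β1} : Set M) := subset_adjoin _ _ (.inl rfl)
  have hβE : β1 ∈ adjoin Q ({α1, β1} : Set M) := subset_adjoin _ _ (.inr rfl)
  have he0 : algebraMap k1 M e1 ≠ 0 := E.e0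
  have hi : algebraMap k1 M e1⁻¹ = (algebraMap k1 M e1)⁻¹ := map_inv₀ _ _
  have he3' : Transcendental (adjoin Q ({α1, β1} : Set M)) (algebraMap k1 M e1⁻¹) := by
    rw [hi]
    intro h1
    apply he3
    have h2 := h1.inv
    rwa [inv_inv] at h2
  have hg3' : adjoin (adjoin Q ({α1, β1} : Set M)) ({algebraMap k1 M e1⁻¹} : Set M) = ⊤ := by
    rw [hi, eq_top_iff, ← hg3, adjoin_simple_le_iff]
    have h1 := (adjoin (adjoin Q ({α1, β1} : Set M))
      ({(algebraMap k1 M e1)⁻¹} : Set M)).inv_mem (mem_adjoin_simple_self _ _)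
    rwa [inv_inv] at h1
  have hσε : σ (algebraMap k1 M e1) = -algebraMap k1 M e1 := E.s_e
  have hσh : σ (algebraMap Q M h) = algebraMap Q M h := E.s_h
  have s4' : σQ α1 = β1 := by
    rw [← hσ, hα1, hβ1, map_mul, map_pow, map_sub, hσε, hσh, sub_neg_eq_add, hσ, s4]
  have s5' : σQ β1 = α1 := by
    rw [← hσ, hα1, hβ1, map_mul, map_pow, map_add, hσε, hσh, ← sub_eq_add_neg, hσ, s5]
  -- values at infinity
  have hrev : ∀ (p : Polynomial Q) (T : M), p.natDegree ≤ d → T ≠ 0 →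
      (p.map (algebraMap Q M)).eval T =
        T ^ d * ((p.reflect d).map (algebraMap Q M)).eval T⁻¹ := by
    intro p T hp hT
    let _ : Invertible T := invertibleOfNonzero hT
    have h1 := Polynomial.eval₂_reflect_mul_pow (algebraMap Q M) T d p hp
    rw [invOf_eq_inv] at h1
    rw [Polynomial.eval_map, Polynomial.eval_map, ← h1]
    ring
  have hrc : ∀ p : Polynomial Q, (p.reflect d).eval 0 = p.coeff d := by
    intro p
    rw [← Polynomial.coeff_zero_eq_eval_zero, Polynomial.coeff_reflect,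
      Polynomial.revAt_le (Nat.zero_le d), Nat.sub_zero]
  refine main_place hn S k1 w e1⁻¹ j hB' wB hw α1 β1 he3' hg3' σQ s4' s5' σ hσ
    (by rw [hi, map_inv₀, hσε, inv_neg]) E.sp x y E.sx E.sy hD a x1 y1 ?_ ?_
  · intro P0 φ rm hlt hE
    rw [hi] at hlt
    have hhP : algebraMap Q M h ∈ P0 :=
      (hE ⟨_, IntermediateField.algebraMap_mem _ h⟩).1
    -- the inverse of `h + δ ε`
    have hgenr : ∀ T : M, (T = algebraMap Q M h - algebraMap k1 M e1 ∨
        T = algebraMap Q M h + algebraMap k1 M e1) → T ≠ 0 ∧ P0.valuation T⁻¹ < 1 := by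
      intro T hT
      have h1 : 1 < P0.valuation (algebraMap k1 M e1) := by
        rw [map_inv₀] at hlt
        exact (inv_lt_one₀ (zero_lt_iff.2 ((Valuation.ne_zero_iff _).2 he0))).1 hlt
      have h2 : P0.valuation (algebraMap Q M h) < P0.valuation (algebraMap k1 M e1) :=
        lt_of_le_of_lt ((P0.valuation_le_one_iff _).2 hhP) h1
      have h3 : P0.valuation T = P0.valuation (algebraMap k1 M e1) := by
        rcases hT with rfl | rfl
        · rw [sub_eq_add_neg, Valuation.map_add_eq_of_lt_right _ (by rwa [Valuation.map_neg]),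
            Valuation.map_neg]
        · exact Valuation.map_add_eq_of_lt_right _ h2
      have h4 : T ≠ 0 := by
        rintro rfl
        rw [map_zero] at h3
        rw [← h3] at h1
        exact not_lt_zero h1
      refine ⟨h4, ?_⟩
      rw [map_inv₀, h3]
      exact inv_lt_one_of_one_lt₀ h1
    have hone : ∀ (T c : M), (T = algebraMap Q M h - algebraMap k1 M e1 ∨
        T = algebraMap Q M h + algebraMap k1 M e1) → c * T ^ d ∈ adjoin Q ({α1, β1} : Set M) →
        ∀ i, ∃ b : P0, (b : M) = c * ((C i).map (algebraMap Q M)).eval T ∧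
          ((φ b : adjoin Q ({α1, β1} : Set M)) : M) = c * T ^ d * algebraMap Q M ((C i).coeff d) := by
      intro T c hT hc i
      obtain ⟨h1, h2⟩ := hgenr T hT
      have h3 : T⁻¹ ∈ P0 := (P0.valuation_le_one_iff _).1 h2.le
      obtain ⟨b, hb1, hb2⟩ := res_poly _ P0 φ hE ((C i).reflect d) 0 ⟨T⁻¹, h3⟩
        ((rm.zero _).2 h2) (c * T ^ d) hc
      refine ⟨b, ?_, ?_⟩
      · rw [hb1, hrev _ T (hdeg i) h1, map_zero, zero_add, mul_assoc]
      · rw [hb2, hrc]
    refine ⟨fun i => ?_, fun i => ?_⟩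
    · obtain ⟨b, hb1, hb2⟩ := hone _ α (Or.inl rfl) (by rw [← hα1]; exact hαE) i
      refine ⟨b, by rw [hb1, E.x_eq], Subtype.ext ?_⟩
      rw [hb2, hx1, ← hα1]
    · obtain ⟨b, hb1, hb2⟩ := hone _ β (Or.inr rfl) (by rw [← hβ1]; exact hβE) i
      refine ⟨b, by rw [hb1, E.y_eq], Subtype.ext ?_⟩
      rw [hb2, hy1, ← hβ1]
  · intro P hP hs hne
    refine PU.place hn S k1 hk1 w e1 e1⁻¹ j hB hB' hB' wB hw FB hF σ _ d _ α β x y E hD a P hP hs ?_
    intro L _ _ _ _ φ' rm' hE'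
    have hpos := hP.pos
    rw [hi] at hpos
    rcases hE'.infty hpos with h1 | h1
    · rw [← hα1, ← hβ1] at h1
      exact absurd (fun b hb => h1 b (adjU C h hg α1 β1 b hb)) hne
    · exact h1

end MP2619.Q6
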