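import Pool.Agent.Lib.MP_2619d0_ag.Q7.T5

/-!
One block of variables
-/

set_option autoImplicit false

namespace MP2619.Q6

open IntermediateField MP2619.R MP2619.N Pool.Agent.Lib.MP_2619d0_ag Pool.Agent.Lib.MP_2619d0_ag.T
  MP2619.T MP2619.Q5

universe u

/-- the coordinates `0, …, N` of `ℙ^N` as one block -/
def K1 (N : ℕ) : Bk N (N + 1) 1 where
  bl := fun _ => 0
  wt := fun j => j.val
  o := fun _ => 0
  bo := fun i => (Subsingleton.elim _ _)
  wo := fun _ => rfl
  inj := fun j j' _ h => Fin.ext h
  ix :=
    { toFun := fun j => ⟨j.1.val - 1, by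
        have h1 := j.2
        have h2 := j.1.isLt
        omega⟩
      invFun := fun j => ⟨j.succ, by
        rw [Fin.val_succ]
        omega⟩
      left_inv := fun j => by
        have h1 := j.2
        have h2 := j.1.isLt
        apply Subtype.ext
        apply Fin.ext
        change j.1.val - 1 + 1 = j.1.val
        omega
      right_inv := fun j => by
        apply Fin.ext
        change j.val + 1 - 1 = j.val
        omega }

/-- homogeneous polynomials -/
theorem K1_MH {N d : ℕ} {R : Type} [Field R] (f : MvPolynomial (Fin (N + 1)) R)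
    (h : f.IsHomogeneous d) : (K1 N).MH f (fun _ => d) := by
  classical
  intro m hm i
  have h1 : m.degree = d := by
    rw [Finsupp.degree_eq_weight_one]
    exact h hm
  rw [← h1, Finsupp.degree_eq_sum]
  congr 1
  ext l
  simp only [Finset.mem_filter, Finset.mem_univ, true_and, iff_true]
  exact Subsingleton.elim _ _

theorem K1_hom {N d : ℕ} {R : Type} [Field R] (f : MvPolynomial (Fin (N + 1)) R)
    (h : (K1 N).MH f (fun _ => d)) : f.IsHomogeneous d := by
  classical
  intro m hm
  have h1 : m.degree = d := by
    have h2 := h m hm 0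
    change ∑ j ∈ Finset.univ.filter (fun j => (K1 N).bl j = 0), m j = d at h2
    rw [Finsupp.degree_eq_sum, ← h2]
    congr 1
    ext l
    simp only [Finset.mem_filter, Finset.mem_univ, true_and, true_iff]
    exact Subsingleton.elim _ _
  have h3 : m.degree = Finsupp.weight 1 m := by
    rw [Finsupp.degree_eq_weight_one]
    rfl
  rw [← h3, h1]

end MP2619.Q6
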