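import Pool.Agent.Lib.MP_2619d0_ag.U.NDefs
import Pool.Agent.Lib.MP_2619d0_ag.U.K1
import Pool.Agent.Lib.MP_2619d0_ag.Q8.L8f

/-!
Definitions for the source of Theorem U2
-/

set_option autoImplicit false

namespace MP2619.Q6

open IntermediateField MP2619.R MP2619.N Pool.Agent.Lib.MP_2619d0_ag Pool.Agent.Lib.MP_2619d0_ag.T
  MP2619.T MP2619.Q5

universe u

/-- the point `C(h)` (`b = true`) or the coefficient `e` of `C`, the point at infinity (`b = false`) -/
def UP {K : Type u} [Field K] {n : ℕ} (C : Fin n → Polynomial K) (e : ℕ) (h : K) (b : Bool) :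
    Fin n → K :=
  fun i => if b then (C i).eval h else (C i).coeff e

/-- the point `X` is odd over `B`, for every choice of the two parameters -/
def PrA {Q : Type} (B : Type) [Field B] [Field Q] [Algebra B Q] {n : ℕ} (wB : B) (X : Fin n → Q) :
    Prop :=
  ∀ (O : Type) [Field O] [Algebra Q O] [Algebra B O] [IsScalarTower B Q O] (α β : O),
    AlgebraicIndependent Q ![α, β] → adjoin Q {α, β} = ⊤ → ∀ a : Fin n,
      Pr B (zg wB (fun i => α * algebraMap Q O (X i))
        (fun i => β * algebraMap Q O (X i)) (Pi.single a 1))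

/-- what follows if the point `X` is odd over `B` -/
def PrG {Q : Type} (B : Type) [Field B] [Field Q] [Algebra B Q] {m : ℕ} (wB : B)
    (X : Fin (m + 2) → Q) (G : Prop) : Prop :=
  ∀ (O : Type) [Field O] [Algebra Q O] [Algebra B O] [IsScalarTower B Q O] (α β : O),
    AlgebraicIndependent Q ![α, β] → adjoin Q {α, β} = ⊤ →
      Pr B (zg wB (fun i => α * algebraMap Q O (X i))
        (fun i => β * algebraMap Q O (X i)) (Pi.single (0 : Fin (m + 2)) 1)) → G

end MP2619.Q6
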