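import Pool.Agent.Lib.MP_2619d0_ag.Q6.M3
import Pool.Agent.Lib.MP_2619d0_ag.Q8.M11
import Pool.Agent.Lib.MP_2619d0_ag.U.P9
import Pool.Agent.Lib.MP_2619d0_ag.U.P11
import Pool.Agent.Lib.MP_2619d0_ag.U.SDefs

/-!
Row u1-12: the contradiction
-/

set_option autoImplicit false

namespace MP2619.Q6

open scoped NNReal
open IntermediateField MP2619.R MP2619.N Pool.Agent.Lib.MP_2619d0_ag Pool.Agent.Lib.MP_2619d0_ag.T
  MP2619.Q5

/-- The source of Theorem U2 over `B`: the family `C` of rational curves, the parameter `h`, `Q = B(C, h)`. -/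
structure SrcU {k0 B Q : Type} [Field k0] [Field B] [Field Q] [Algebra k0 B] [Algebra k0 Q]
    [Algebra B Q] {m : ℕ} (F0 : MvPolynomial (Fin (m + 2)) k0)
    (C : Fin (m + 2) → Polynomial Q) (e : ℕ) (h : Q) : Prop where
  deg : ∀ i, (C i).natDegree ≤ e
  gen : Ch B C h = ⊤
  van : ∀ (R : Type) [CommRing R] [Algebra Q R] [Algebra k0 R] [IsScalarTower k0 Q R] (t : R),
    MvPolynomial.aeval (fun i => Polynomial.aeval t (C i)) F0 = 0
  nt : NT k0 e C
  tr : Algebra.trdeg B Q ≤ m
  ph : ∃ i, (C i).eval h ≠ 0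
  pi : ∃ i, (C i).coeff e ≠ 0

variable {m : ℕ} {F : MvPolynomial (Fin (m + 2)) ℂ} {J : Type} {z : Exp3 (m + 2) ⊕ J → ℂ}
  {A : Type} [Field A] [CharZero A] [Algebra ℂ A] {u l : Fin (m + 2) → A}
  {v2 : Valuation ℚ ℝ≥0} {V : Valuation A ℝ≥0}

private theorem P12_smul {k M σ : Type} [Fintype σ] [Field k] [Field M] [Algebra k M] {d : ℕ}
    (F : MvPolynomial σ k) (hd : F.IsHomogeneous d) (c : M) (p : σ → M) :
    MvPolynomial.aeval (fun j => c * p j) F = c ^ d * MvPolynomial.aeval p F := by
  rw [MvPolynomial.aeval_def, MvPolynomial.aeval_def, MvPolynomial.eval₂_eq',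
    MvPolynomial.eval₂_eq', Finset.mul_sum]
  refine Finset.sum_congr rfl fun m hm => ?_
  have h1 : m.degree = d := by
    by_contra h
    exact (MvPolynomial.mem_support_iff.1 hm) (hd.coeff_eq_zero h)
  have h2 : ∏ j, c ^ m j = c ^ d := by
    rw [Finset.prod_pow_eq_pow_sum, ← h1, Finsupp.degree_eq_sum]
  rw [← h2]
  simp only [mul_pow, Finset.prod_mul_distrib]
  ring

/-- the leading coefficient of a relation -/
private theorem P12_lead {k Q : Type} [Field k] [Field Q] [Algebra k Q] {n : ℕ}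
    (F : MvPolynomial (Fin n) k) (hF : F.IsHomogeneous 3) (C : Fin n → Polynomial Q) (d : ℕ)
    (hd : ∀ i, (C i).natDegree ≤ d) (h : MvPolynomial.aeval C F = 0) :
    MvPolynomial.aeval (fun i => (C i).coeff d) F = 0 := by
  have key : (MvPolynomial.aeval C F).coeff (d * 3) =
      MvPolynomial.aeval (fun i => (C i).coeff d) F := by
    rw [MvPolynomial.aeval_def, MvPolynomial.aeval_def, MvPolynomial.eval₂_eq',
      MvPolynomial.eval₂_eq', Polynomial.finset_sum_coeff]
    refine Finset.sum_congr rfl fun m hm => ?_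
    have h1 : m.degree = 3 := by
      by_contra h
      exact (MvPolynomial.mem_support_iff.1 hm) (hF.coeff_eq_zero h)
    rw [IsScalarTower.algebraMap_apply k Q (Polynomial Q), Polynomial.algebraMap_eq,
      Polynomial.coeff_C_mul]
    congr 1
    have h2 : ∀ (s : Finset (Fin n)) , (∏ i ∈ s, C i ^ m i).coeff (d * ∑ i ∈ s, m i) =
        ∏ i ∈ s, (C i).coeff d ^ m i := by
      intro s
      classical
      induction s using Finset.induction_on with
      | empty => simp
      | insert a s ha ih =>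
        rw [Finset.prod_insert ha, Finset.prod_insert ha, Finset.sum_insert ha, mul_add,
          Polynomial.coeff_mul_add_eq_of_natDegree_le ?_ ?_, ih]
        · congr 1
          rw [mul_comm d]
          exact Polynomial.coeff_pow_of_natDegree_le (hd a)
        · rw [mul_comm d]
          exact Polynomial.natDegree_pow_le_of_le _ (hd a)
        · refine (Polynomial.natDegree_prod_le _ _).trans ?_
          rw [Finset.mul_sum]
          refine Finset.sum_le_sum fun i _ => ?_
          rw [mul_comm d]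
          exact Polynomial.natDegree_pow_le_of_le _ (hd i)
    rw [← h2, ← Finsupp.degree_eq_sum, h1]
  rw [← key, h, Polynomial.coeff_zero]

/-- the relations of the family over a larger field -/
theorem NT.map {k0 Q M : Type} [Field k0] [Field Q] [Field M] [Algebra k0 Q] [Algebra k0 M]
    [Algebra Q M] [IsScalarTower k0 Q M] {e n : ℕ} {C : Fin n → Polynomial Q} (hC : NT k0 e C) :
    NT k0 e (fun i => (C i).map (algebraMap Q M)) := by
  intro κ _ _ D hdeg hD hs
  refine hC κ D hdeg hD fun g d hg h0 => hs g d hg ?_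
  have h1 := MvPolynomial.comp_aeval_apply (R := k0) (fun p : ℕ × Fin n => (C p.2).coeff p.1)
    (IsScalarTower.toAlgHom k0 Q M) g
  rw [h0, map_zero] at h1
  have h2 : (fun p : ℕ × Fin n => ((C p.2).map (algebraMap Q M)).coeff p.1) =
      fun p : ℕ × Fin n => (IsScalarTower.toAlgHom k0 Q M) ((C p.2).coeff p.1) := by
    funext p
    rw [Polynomial.coeff_map]
    rfl
  rw [h2]
  exact h1.symm

/-- the field of the source over a larger field -/
theorem Ch_map {B Q M : Type} [Field B] [Field Q] [Field M] [Algebra B Q] [Algebra B M]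
    [Algebra Q M] [IsScalarTower B Q M] {n : ℕ} (C : Fin n → Polynomial Q) (h : Q) {D : Cardinal}
    (hC : Algebra.trdeg B (Ch B C h) ≤ D) :
    Algebra.trdeg B (Ch B (fun i => (C i).map (algebraMap Q M)) (algebraMap Q M h)) ≤ D := by
  have h1 : Ch B (fun i => (C i).map (algebraMap Q M)) (algebraMap Q M h) =
      (Ch B C h).map (IsScalarTower.toAlgHom B Q M) := by
    unfold Ch
    rw [adjoin_map]
    congr 1
    ext z
    constructor
    · rintro (rfl | ⟨i, k, rfl⟩)
      · exact ⟨h, Or.inl rfl, rfl⟩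
      · refine ⟨_, Or.inr ⟨i, k, rfl⟩, ?_⟩
        rw [Polynomial.coeff_map]
        rfl
    · rintro ⟨_, (rfl | ⟨i, k, rfl⟩), rfl⟩
      · exact Or.inl rfl
      · refine Or.inr ⟨i, k, ?_⟩
        rw [Polynomial.coeff_map]
        rfl
  rw [h1]
  refine le_trans (le_of_eq ?_) hC
  exact ((Ch B C h).equivMap (IsScalarTower.toAlgHom B Q M)).trdeg_eq.symm

/-- the converse of `main_odd` -/
theorem main_conv (S : St F z u l v2 V) (k1 : IntermediateField (Qz z) ℂ) {B E : Type} [Field B]
    [Field E] [Algebra B E] [Algebra B k1] [Algebra B A] [IsScalarTower B k1 A] (wB : B)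
    (hwB : wB ^ 2 + wB + 1 = 0) (X : Fin (m + 2) → E) (α β : E) (FB : MvPolynomial (Fin (m + 2)) B)
    (hFB : MvPolynomial.map ((algebraMap k1 ℂ).comp (algebraMap B k1)) FB = F)
    (hX : MvPolynomial.aeval X FB = 0) (a : Fin (m + 2)) (t : Fin (m + 2) → E) (ht : Pr B t)
    (hodd : Odd (gc V wB u (fun i => α * X i) (fun i => β * X i) (Pi.single a 1))) :
    Pr B (zg wB (fun i => α * X i) (fun i => β * X i) (Pi.single a 1)) := by
  have := S.ctx.closed
  have : CharZero B := (algebraMap B k1).charZero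
  have hu : AlgebraicIndependent ℂ u := S.ctx.ind.comp Sum.inl Sum.inl_injective
  have hu1 : AlgebraicIndependent k1 u := hu.restrictScalars (algebraMap k1 ℂ).injective
  have hu2 : AlgebraicIndependent B u := hu1.restrictScalars (algebraMap B k1).injective
  have hF : (algebraMap ℂ A).comp ((algebraMap k1 ℂ).comp (algebraMap B k1)) = algebraMap B A := by
    ext b
    rw [IsScalarTower.algebraMap_apply B k1 A, IsScalarTower.algebraMap_apply k1 ℂ A]
    rfl
  have hw : (algebraMap B A wB) ^ 2 + algebraMap B A wB + 1 = 0 := by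
    rw [← map_pow, ← map_add, ← map_one (algebraMap B A), ← map_add, hwB, map_zero]
  have hgood : ∀ τ : E →ₐ[B] A, (∀ i, τ (zg wB (fun i => α * X i) (fun i => β * X i)
      (Pi.single a 1) i) = u i) → ∀ i, V (τ (α * X i)) ≤ 1 := by
    intro τ hτ i
    have h1 : MvPolynomial.aeval (fun i => τ (X i)) F = 0 := by
      rw [← hFB, MvPolynomial.aeval_def, MvPolynomial.eval₂_map, hF, ← MvPolynomial.aeval_def]
      have h2 := congrArg τ hX
      rw [map_zero, MvPolynomial.comp_aeval_apply] at h2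
      exact h2
    rw [map_mul]
    refine good_main S (algebraMap B A wB) hw (fun i => τ (X i)) h1 (τ α) (τ β) a (fun j => ?_) i
    rw [← hτ j]
    simp only [zg, map_add, map_mul, AlgHom.commutes]
    by_cases hja : j = a
    · subst hja
      rw [if_pos rfl, Pi.single_eq_same, ZMod.val_one, pow_one]
    · rw [if_neg hja, Pi.single_eq_of_ne hja, ZMod.val_zero, pow_zero, map_one]
  have hind : AlgebraicIndependent B (zg wB (fun i => α * X i) (fun i => β * X i)
      (Pi.single a 1)) := by
    have h1 : Nat.card {τ : E →ₐ[B] A // (∀ i, τ (zg wB (fun i => α * X i) (fun i => β * X i)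
        (Pi.single a 1) i) = u i) ∧ ∀ i, V (τ (α * X i)) ≤ 1} ≠ 0 := hodd.pos.ne'
    obtain ⟨⟨τ, hτ, -⟩⟩ := (Nat.card_pos_iff.1 (Nat.pos_of_ne_zero h1)).1
    refine AlgebraicIndependent.of_comp τ ?_
    have h2 : (⇑τ ∘ zg wB (fun i => α * X i) (fun i => β * X i) (Pi.single a 1)) = u :=
      funext hτ
    rw [h2]
    exact hu2
  have hfin := (fin_iff_ind t _ ht.1 ht.2.pos.ne').1 hind
  have hcard : gc V wB u (fun i => α * X i) (fun i => β * X i) (Pi.single a 1) =
      Module.finrank (adjoin B (Set.range (zg wB (fun i => α * X i) (fun i => β * X i)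
        (Pi.single a 1)))) E := by
    rw [← card_emb u hu2 _ hind hfin]
    exact Nat.card_congr
      ⟨fun τ => ⟨τ.1, τ.2.1⟩, fun τ => ⟨τ.1, τ.2, hgood τ.1 τ.2⟩, fun τ => rfl, fun τ => rfl⟩
  refine ⟨hind, ?_⟩
  rw [← hcard]
  exact hodd

/-- the path from `C(h)` to the coefficient `d`: the parities agree -/
theorem u2_abs (hm3 : 3 ≤ m) (S : St F z u l v2 V) (k1 : IntermediateField (Qz z) ℂ)
    (hk1 : FiniteDimensional (Qz z) k1) {k0 B : Type} [Field k0] [Field B]
    [Algebra k0 B] [Algebra k0 k1] [Algebra B k1] [IsScalarTower k0 B k1] (w0 : k0)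
    (hw : w0 ^ 2 + w0 + 1 = 0) (F0 : MvPolynomial (Fin (m + 2)) k0)
    (hF0 : MvPolynomial.map ((algebraMap k1 ℂ).comp (algebraMap k0 k1)) F0 = F)
    (j : J) (e : k1) (hB : BE z k1 B e j) (hB' : BE z k1 B e⁻¹ j)
    {Q : Type} [Field Q] [Algebra k0 Q] [Algebra B Q] [IsScalarTower k0 B Q]
    (C : Fin (m + 2) → Polynomial Q) (d : ℕ) (h : Q) (hsrc : SrcU (B := B) F0 C d h) (b : Bool)
    (G : Prop) (hpr : PrA B (algebraMap k0 B w0) (UP C d h b))
    (hG : PrG B (algebraMap k0 B w0) (UP C d h (!b)) G) : G := by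
  revert hpr hG
  suffices hmain : (PrA B (algebraMap k0 B w0) (fun i => (C i).eval h) →
      PrG B (algebraMap k0 B w0) (fun i => (C i).coeff d) G → G) ∧
      (PrA B (algebraMap k0 B w0) (fun i => (C i).coeff d) →
      PrG B (algebraMap k0 B w0) (fun i => (C i).eval h) G → G) by
    cases b with
    | true => exact hmain.1
    | false => exact hmain.2
  classical
  let _ : Algebra B A := ((algebraMap k1 A).comp (algebraMap B k1)).toAlgebra
  have t5 : IsScalarTower B k1 A := IsScalarTower.of_algebraMap_eq fun _ => rfl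
  -- transcendence of `e`
  have he : Transcendental B e := by
    have h1 := BE_trans S k1 e j hB
    intro halg
    have h2 : IsAlgebraic B (algebraMap k1 A e) := halg.algebraMap
    have h3 : IsAlgebraic (adjoin B (Set.range u)) (algebraMap k1 A e) :=
      h2.tower_top (adjoin B (Set.range u))
    have h4 : algebraMap k1 A e ∈ algebraicClosure (adjoin B (Set.range u)) A :=
      mem_algebraicClosure_iff.mpr h3
    exact h1 (isAlgebraic_algebraMap
      (⟨algebraMap k1 A e, h4⟩ : algebraicClosure (adjoin B (Set.range u)) A))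
  have he0 : e ≠ 0 := by
    rintro rfl
    exact he isAlgebraic_zero
  obtain ⟨M, iF, iQ, ik, α, β, hcom, hind, hgen⟩ := exists_M8 (Q := Q) e he hB.gen
  -- algebra structures
  let _ : Algebra k0 M := ((algebraMap k1 M).comp (algebraMap k0 k1)).toAlgebra
  let _ : Algebra B M := ((algebraMap k1 M).comp (algebraMap B k1)).toAlgebra
  have t1 : IsScalarTower k0 k1 M := IsScalarTower.of_algebraMap_eq fun _ => rfl
  have t2 : IsScalarTower B k1 M := IsScalarTower.of_algebraMap_eq fun _ => rfl
  have t3 : IsScalarTower B Q M := IsScalarTower.of_algebraMap_eq fun b => (hcom b).symm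
  have t7 : IsScalarTower k0 B M := IsScalarTower.of_algebraMap_eq fun c => by
    show algebraMap k1 M (algebraMap k0 k1 c) = algebraMap k1 M (algebraMap B k1 (algebraMap k0 B c))
    rw [← IsScalarTower.algebraMap_apply k0 B k1]
  have t8 : IsScalarTower k0 Q M := IsScalarTower.of_algebraMap_eq fun c => by
    rw [IsScalarTower.algebraMap_apply k0 B Q, ← IsScalarTower.algebraMap_apply B Q M,
      ← IsScalarTower.algebraMap_apply k0 B M]
  -- the root of unity
  obtain ⟨w, hww⟩ : ∃ w : k1, w = algebraMap k0 k1 w0 := ⟨_, rfl⟩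
  have hwk : w ^ 2 + w + 1 = 0 := by
    have h1 := congrArg (algebraMap k0 k1) hw
    rw [map_add, map_add, map_pow, map_one, map_zero, ← hww] at h1
    exact h1
  have hwB : algebraMap B k1 (algebraMap k0 B w0) = w := by
    rw [← IsScalarTower.algebraMap_apply, hww]
  have hwB2 : (algebraMap k0 B w0) ^ 2 + algebraMap k0 B w0 + 1 = 0 := by
    have h1 := congrArg (algebraMap k0 B) hw
    rw [map_add, map_add, map_pow, map_one, map_zero] at h1
    exact h1
  -- the form
  have hinj : Function.Injective ((algebraMap k1 ℂ).comp (algebraMap k0 k1)) :=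
    RingHom.injective _
  have h3 : F0.IsHomogeneous 3 := by
    intro e hm0
    refine S.ctx.hom ?_
    rw [← hF0, MvPolynomial.coeff_map]
    exact fun h1 => hm0 (hinj (h1.trans (map_zero _).symm))
  have hFB : MvPolynomial.map ((algebraMap k1 ℂ).comp (algebraMap B k1))
      (MvPolynomial.map (algebraMap k0 B) F0) = F := by
    rw [MvPolynomial.map_map, ← hF0]
    refine congrArg (fun q => MvPolynomial.map q F0) ?_
    ext c
    show algebraMap k1 ℂ (algebraMap B k1 (algebraMap k0 B c)) =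
      algebraMap k1 ℂ (algebraMap k0 k1 c)
    rw [← IsScalarTower.algebraMap_apply k0 B k1]
  -- the family over `M`
  let CM : Fin (m + 2) → Polynomial M := fun i => (C i).map (algebraMap Q M)
  let hM : M := algebraMap Q M h
  have hvan0 : ∀ t : M, MvPolynomial.aeval (fun i => (CM i).eval t) F0 = 0 := by
    intro t
    have h1 := hsrc.van M t
    have h2 : (fun i => Polynomial.aeval t (C i)) = fun i => (CM i).eval t := by
      funext i
      rw [Polynomial.aeval_def, Polynomial.eval_map]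
    rwa [h2] at h1
  have hvan1 : ∀ r t : M, MvPolynomial.aeval (fun i => r * (CM i).eval t) F0 = 0 := by
    intro r t
    rw [P12_smul F0 h3, hvan0, mul_zero]
  -- the two points are on `X`
  have hvh : MvPolynomial.aeval (fun i => (C i).eval h) F0 = 0 := by
    have h5 := hsrc.van Q h
    exact h5
  have hvc : MvPolynomial.aeval (fun i => (C i).coeff d) F0 = 0 := by
    have h5 := hsrc.van (Polynomial Q) Polynomial.X
    have h6 : (fun i => Polynomial.aeval (Polynomial.X : Polynomial Q) (C i)) = C := by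
      funext i
      exact Polynomial.aeval_X_left_apply (C i)
    rw [h6] at h5
    exact P12_lead F0 h3 C d hsrc.deg h5
  have hvE : ∀ (E : IntermediateField Q M) (X : Fin (m + 2) → Q), MvPolynomial.aeval X F0 = 0 →
      MvPolynomial.aeval (fun i => algebraMap Q E (X i)) (MvPolynomial.map (algebraMap k0 B) F0) =
        0 := by
    intro E X hX
    rw [← MvPolynomial.aeval_map_algebraMap B] at hX
    have h7 := MvPolynomial.comp_aeval_apply (R := B) X
      (IsScalarTower.toAlgHom B Q E) (MvPolynomial.map (algebraMap k0 B) F0)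
    rw [hX, map_zero] at h7
    exact h7.symm
  -- the path
  let x : Fin (m + 2) → M := fun i => α * (CM i).eval (hM - algebraMap k1 M e)
  let y : Fin (m + 2) → M := fun i => β * (CM i).eval (hM + algebraMap k1 M e)
  obtain ⟨σQ, s1, s4, s5, s6⟩ := exists_sigma_neg _ α β hind hgen
  let σ : M ≃ₐ[B] M := σQ.restrictScalars B
  have hσ : ∀ z, σ z = σQ z := fun _ => rfl
  have hPU : PU k0 (MvPolynomial.map (algebraMap k0 B) F0) σ CM d hM (algebraMap k1 M e) α β x y :=
    { hom := h3.map _
      s_s := s6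
      s_C := by
        intro i k
        rw [hσ]
        show σQ (((C i).map (algebraMap Q M)).coeff k) = ((C i).map (algebraMap Q M)).coeff k
        rw [Polynomial.coeff_map]
        exact σQ.commutes _
      s_h := σQ.commutes _
      s_e := s1
      s_a := s4
      e0 := (map_ne_zero _).2 he0
      deg := fun i => (Polynomial.natDegree_map_le).trans (hsrc.deg i)
      x0 := by
        obtain ⟨i, hi⟩ := hsrc.ph
        refine ⟨i, ?_⟩
        show ((C i).map (algebraMap Q M)).eval (algebraMap Q M h) ≠ 0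
        rw [Polynomial.eval_map, Polynomial.eval₂_at_apply]
        exact (map_ne_zero _).2 hi
      x_eq := fun _ => rfl
      y_eq := fun _ => rfl
      van := by
        intro r t
        rw [MvPolynomial.aeval_map_algebraMap]
        exact hvan1 r t
      nt := hsrc.nt.map
      xi := by
        obtain ⟨i, hi⟩ := hsrc.pi
        refine ⟨i, ?_⟩
        show ((C i).map (algebraMap Q M)).coeff d ≠ 0
        rw [Polynomial.coeff_map]
        exact (map_ne_zero _).2 hi
      tr := by
        refine ⟨m - 1, by omega, ?_⟩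
        have h1 : m - 1 + 1 = m := by omega
        rw [h1]
        refine Ch_map C h (D := (m : Cardinal)) ?_
        rw [hsrc.gen]
        exact (topEquiv (F := B) (E := Q)).trdeg_eq.le.trans hsrc.tr }
  -- the residue field at zero
  obtain ⟨f1, f2, f3⟩ := facts8 _ α β hind hgen
  have hαm : α ∈ adjoin Q ({α, β} : Set M) := subset_adjoin _ _ (Or.inl rfl)
  have hβm : β ∈ adjoin Q ({α, β} : Set M) := subset_adjoin _ _ (Or.inr rfl)
  obtain ⟨g1, g2⟩ := f3 ⟨α, hαm⟩ ⟨β, hβm⟩ rfl rfl
  -- the residue field at infinity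
  obtain ⟨α1, hα1⟩ : ∃ α1 : M, α1 = α * (algebraMap Q M h - algebraMap k1 M e) ^ d := ⟨_, rfl⟩
  obtain ⟨β1, hβ1⟩ : ∃ β1 : M, β1 = β * (algebraMap Q M h + algebraMap k1 M e) ^ d := ⟨_, rfl⟩
  obtain ⟨hi1, hi2⟩ := gens_inf (algebraMap k1 M e) α β h d hind hgen
  rw [← hα1, ← hβ1] at hi1 hi2
  obtain ⟨f1', f2', f3'⟩ := facts8 _ α1 β1 hi1 hi2
  have hαm' : α1 ∈ adjoin Q ({α1, β1} : Set M) := subset_adjoin _ _ (Or.inl rfl)
  have hβm' : β1 ∈ adjoin Q ({α1, β1} : Set M) := subset_adjoin _ _ (Or.inr rfl)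
  obtain ⟨g1', g2'⟩ := f3' ⟨α1, hαm'⟩ ⟨β1, hβm'⟩ rfl rfl
  -- the two ends
  have hend : Dat F z k1 w x y → Even (
      gc V (algebraMap k0 B w0) u
        (fun i => (⟨α, hαm⟩ : adjoin Q ({α, β} : Set M)) *
          algebraMap Q (adjoin Q ({α, β} : Set M)) ((C i).eval h))
        (fun i => (⟨β, hβm⟩ : adjoin Q ({α, β} : Set M)) *
          algebraMap Q (adjoin Q ({α, β} : Set M)) ((C i).eval h)) (Pi.single 0 1) +
      gc V (algebraMap k0 B w0) u
        (fun i => (⟨α1, hαm'⟩ : adjoin Q ({α1, β1} : Set M)) *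
          algebraMap Q (adjoin Q ({α1, β1} : Set M)) ((C i).coeff d))
        (fun i => (⟨β1, hβm'⟩ : adjoin Q ({α1, β1} : Set M)) *
          algebraMap Q (adjoin Q ({α1, β1} : Set M)) ((C i).coeff d)) (Pi.single 0 1)) := by
    intro hD
    have e0 := PU.zero (by omega) S k1 hk1 w e j hB hB' (algebraMap k0 B w0) hwB _ hFB C d h
      hsrc.gen α β hind hgen σQ s4 s5 σ hσ x y hPU hD 0
      (fun i => (⟨α, hαm⟩ : adjoin Q ({α, β} : Set M)) *
          algebraMap Q (adjoin Q ({α, β} : Set M)) ((C i).eval h))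
      (fun i => (⟨β, hβm⟩ : adjoin Q ({α, β} : Set M)) *
          algebraMap Q (adjoin Q ({α, β} : Set M)) ((C i).eval h)) (fun i => rfl) (fun i => rfl)
    have e1 := PU.inf (by omega) S k1 hk1 w e j hB hB' (algebraMap k0 B w0) hwB _ hFB C d
      hsrc.deg h hsrc.gen α β hind hgen σQ s4 s5 σ hσ x y hPU hD 0 α1 β1 hα1 hβ1
      (fun i => (⟨α1, hαm'⟩ : adjoin Q ({α1, β1} : Set M)) *
          algebraMap Q (adjoin Q ({α1, β1} : Set M)) ((C i).coeff d))
      (fun i => (⟨β1, hβm'⟩ : adjoin Q ({α1, β1} : Set M)) *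
          algebraMap Q (adjoin Q ({α1, β1} : Set M)) ((C i).coeff d)) (fun i => rfl) (fun i => rfl)
    rw [Nat.even_add] at e0 e1 ⊢
    exact e0.symm.trans e1
  constructor
  · intro hpr hG
    have hp0 := hpr (adjoin Q ({α, β} : Set M)) ⟨α, hαm⟩ ⟨β, hβm⟩ g1 g2 0
    have hp1 := hpr (adjoin Q ({α1, β1} : Set M)) ⟨α1, hαm'⟩ ⟨β1, hβm'⟩ g1' g2' 0
    have hD : Dat F z k1 w x y := dat8 k1 hk1 w hwk F0 hF0 e hB.gen α β hind hgen _ hp0 x y
      (hvan1 _ _) (hvan1 _ _)
    have h0 := main_odd S k1 (algebraMap k0 B w0) hwB2 _ _ _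
      (MvPolynomial.map (algebraMap k0 B) F0) hFB (hvE _ _ hvh) 0 hp0
    have h1 := hend hD
    rw [Nat.even_add, ← Nat.not_odd_iff_even, ← Nat.not_odd_iff_even, not_iff_not] at h1
    exact hG _ _ _ g1' g2' (main_conv S k1 (algebraMap k0 B w0) hwB2 _ _ _
      (MvPolynomial.map (algebraMap k0 B) F0) hFB (hvE _ _ hvc) 0 _ hp1 (h1.1 h0))
  · intro hpr hG
    have hp0 := hpr (adjoin Q ({α, β} : Set M)) ⟨α, hαm⟩ ⟨β, hβm⟩ g1 g2 0
    have hp1 := hpr (adjoin Q ({α1, β1} : Set M)) ⟨α1, hαm'⟩ ⟨β1, hβm'⟩ g1' g2' 0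
    have hD : Dat F z k1 w x y := dat8 k1 hk1 w hwk F0 hF0 e hB.gen α β hind hgen _ hp0 x y
      (hvan1 _ _) (hvan1 _ _)
    have h0 := main_odd S k1 (algebraMap k0 B w0) hwB2 _ _ _
      (MvPolynomial.map (algebraMap k0 B) F0) hFB (hvE _ _ hvc) 0 hp1
    have h1 := hend hD
    rw [Nat.even_add, ← Nat.not_odd_iff_even, ← Nat.not_odd_iff_even, not_iff_not] at h1
    exact hG _ _ _ g1 g2 (main_conv S k1 (algebraMap k0 B w0) hwB2 _ _ _
      (MvPolynomial.map (algebraMap k0 B) F0) hFB (hvE _ _ hvh) 0 _ hp0 (h1.2 h0))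

end MP2619.Q6
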