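import Pool.Agent.Lib.MP_2619d0_ag.U.S6

/-!
Row v-7: the source of Theorem U2
-/

set_option autoImplicit false

namespace MP2619.Q6

open IntermediateField MP2619.R MP2619.N Pool.Agent.Lib.MP_2619d0_ag Pool.Agent.Lib.MP_2619d0_ag.T
  MP2619.T MP2619.Q5

universe u

/-- the names of the variables: `1`, the coefficients, `h` -/
private abbrev S7_I (e n : ℕ) : Type := Unit ⊕ ((Fin (e + 1) × Fin n) ⊕ Unit)

/-- the form `∑ X_(k, i) X_h ^ k X_0 ^ (e - k)` -/
private noncomputable def S7_f (k : Type) [Field k] {e n M : ℕ} (q : S7_I e n ≃ Fin M) (i : Fin n) :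
    MvPolynomial (Fin M) k :=
  ∑ l : Fin (e + 1), MvPolynomial.X (q (Sum.inr (Sum.inl (l, i)))) *
    MvPolynomial.X (q (Sum.inr (Sum.inr ()))) ^ (l : ℕ) *
    MvPolynomial.X (q (Sum.inl ())) ^ (e - (l : ℕ))

/-- the form `X_(e, i) X_0 ^ e` -/
private noncomputable def S7_g (k : Type) [Field k] {e n M : ℕ} (q : S7_I e n ≃ Fin M) (i : Fin n) :
    MvPolynomial (Fin M) k :=
  MvPolynomial.X (q (Sum.inr (Sum.inl (Fin.last e, i)))) * MvPolynomial.X (q (Sum.inl ())) ^ e

/-- the form of the point `UP` -/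
private noncomputable def S7_F (k : Type) [Field k] {e n M : ℕ} (q : S7_I e n ≃ Fin M) (b : Bool)
    (i : Fin n) : MvPolynomial (Fin M) k :=
  if b then S7_f k q i else S7_g k q i

private theorem S7_hom (k : Type) [Field k] {e n M : ℕ} (q : S7_I e n ≃ Fin M) (b : Bool)
    (i : Fin n) : (S7_F k q b i).IsHomogeneous (e + 1) := by
  unfold S7_F
  cases b
  · rw [if_neg Bool.false_ne_true]
    unfold S7_g
    have h1 : 1 + 1 * e = e + 1 := by
      omega
    have h2 := (MvPolynomial.isHomogeneous_X k (q (Sum.inr (Sum.inl (Fin.last e, i))))).mul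
      ((MvPolynomial.isHomogeneous_X k (q (Sum.inl ()))).pow e)
    rw [h1] at h2
    exact h2
  · rw [if_pos rfl]
    unfold S7_f
    refine MvPolynomial.IsHomogeneous.sum _ _ _ fun l _ => ?_
    have h1 : 1 + 1 * (l : ℕ) + 1 * (e - (l : ℕ)) = e + 1 := by
      have := l.isLt
      omega
    have h2 := (((MvPolynomial.isHomogeneous_X k (q (Sum.inr (Sum.inl (l, i))))).mul
      ((MvPolynomial.isHomogeneous_X k (q (Sum.inr (Sum.inr ())))).pow (l : ℕ)))).mul
      ((MvPolynomial.isHomogeneous_X k (q (Sum.inl ()))).pow (e - (l : ℕ)))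
    rw [h1] at h2
    exact h2

private theorem S7_map {k K : Type} [Field k] [Field K] (g : k →+* K) {e n M : ℕ}
    (q : S7_I e n ≃ Fin M) (b : Bool) (i : Fin n) :
    MvPolynomial.map g (S7_F k q b i) = S7_F K q b i := by
  unfold S7_F
  cases b
  · rw [if_neg Bool.false_ne_true, if_neg Bool.false_ne_true]
    unfold S7_g
    rw [map_mul, map_pow, MvPolynomial.map_X, MvPolynomial.map_X]
  · rw [if_pos rfl, if_pos rfl]
    unfold S7_f
    rw [map_sum]
    refine Finset.sum_congr rfl fun l _ => ?_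
    rw [map_mul, map_mul, map_pow, map_pow, MvPolynomial.map_X, MvPolynomial.map_X,
      MvPolynomial.map_X]

private theorem S7_val {k : Type} [Field k] {L : Type u} [Field L] [Algebra k L] {e n M : ℕ}
    (q : S7_I e n ≃ Fin M) (p : Fin M → L) (h0 : p (q (Sum.inl ())) = 1)
    (C : Fin n → Polynomial L) (hdeg : ∀ i, (C i).natDegree ≤ e) (h : L)
    (hC : ∀ (l : Fin (e + 1)) (i : Fin n), p (q (Sum.inr (Sum.inl (l, i)))) = (C i).coeff (l : ℕ))
    (hh : p (q (Sum.inr (Sum.inr ()))) = h) (b : Bool) (i : Fin n) :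
    MvPolynomial.aeval p (S7_F k q b i) = UP C e h b i := by
  unfold S7_F UP
  cases b
  · rw [if_neg Bool.false_ne_true, if_neg Bool.false_ne_true]
    unfold S7_g
    rw [map_mul, map_pow, MvPolynomial.aeval_X, MvPolynomial.aeval_X, h0, one_pow, mul_one, hC]
    rfl
  · rw [if_pos rfl, if_pos rfl]
    unfold S7_f
    rw [map_sum, Polynomial.eval_eq_sum_range' (Nat.lt_succ_of_le (hdeg i)) h, Finset.sum_range]
    refine Finset.sum_congr rfl fun l _ => ?_
    rw [map_mul, map_mul, map_pow, map_pow, MvPolynomial.aeval_X, MvPolynomial.aeval_X,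
      MvPolynomial.aeval_X, h0, one_pow, mul_one, hC, hh]

/-- PROOF. `exists_srcU` (U/N2.lean; read it, its private definitions and lemmas `N2_I`, `N2_f`, `N2_hom`, `N2_map`, `N2_val` can be copied) for the forms of the point `UP C e h b` (`b = true`: `N2_f`, `b = false`: `X_(e, i) * X_0 ^ e`, homogeneous of degree `e + 1`, value `(C i).coeff e`), with
`exists_srcf2` (U/S6.lean) in place of `exists_srcf`, `g` = the forms of the other point `UP C e h (!b)` (one definition of the forms with `b : Bool` serves both; `hg`: `hv`). -/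
theorem exists_srcU2 {D : ℕ} {F : MvPolynomial (Fin (D + 4)) ℂ} (hF : VG F) {L : Type u} [Field L]
    [Algebra ℂ L] (e : ℕ) (C : Fin (D + 4) → Polynomial L) (hdeg : ∀ i, (C i).natDegree ≤ e)
    (h : L) (b : Bool) (hx : HG F (UP C e h b))
    (hodd : Odd (Module.finrank (ratioField (UP C e h b)) L))
    (hv : MvPolynomial.aeval (UP C e h (!b)) F = 0) (w : ℂ) (hw : w ^ 2 + w + 1 = 0) :
    ∃ cof : Set ℂ, cof.Finite ∧ ∀ (k0 B : Type) [Field k0] [Field B] [Algebra k0 B]
      [Algebra B ℂ] [Algebra k0 ℂ] [IsScalarTower k0 B ℂ],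
      (∀ c ∈ cof, ∃ b : k0, algebraMap k0 ℂ b = c) → ∀ (wB : B), algebraMap B ℂ wB = w →
      ∃ (Q : Type) (_ : Field Q) (_ : Algebra k0 Q) (_ : Algebra B Q) (_ : IsScalarTower k0 B Q)
        (C' : Fin (D + 4) → Polynomial Q) (h' : Q) (ι : Q →+* L),
        (∀ b : B, ι (algebraMap B Q b) = algebraMap ℂ L (algebraMap B ℂ b)) ∧
        (∀ i, (C' i).map ι = C i) ∧ (∀ i, (C' i).natDegree ≤ e) ∧ ι h' = h ∧ Ch B C' h' = ⊤ ∧
        Algebra.trdeg B Q ≤ ((D + 2 : ℕ) : Cardinal) ∧ PrA B wB (UP C' e h' b) ∧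
        PrG (m := D + 2) B wB (UP C' e h' (!b))
          (HG F (UP C e h (!b)) ∧ Odd (Module.finrank (ratioField (UP C e h (!b))) L)) := by
  classical
  obtain ⟨N, hN⟩ : ∃ N, Fintype.card (S7_I e (D + 4)) = N + 1 :=
    Nat.exists_eq_succ_of_ne_zero (Fintype.card_ne_zero)
  let q : S7_I e (D + 4) ≃ Fin (N + 1) := Fintype.equivFinOfCardEq hN
  let p : Fin (N + 1) → L := fun j => Sum.elim (fun _ => (1 : L))
    (Sum.elim (fun ki : Fin (e + 1) × Fin (D + 4) => (C ki.2).coeff (ki.1 : ℕ)) (fun _ => h))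
    (q.symm j)
  have hp0 : p (q (Sum.inl ())) = 1 := by
    simp only [p, Equiv.symm_apply_apply, Sum.elim_inl]
  have hpC : ∀ (l : Fin (e + 1)) (i : Fin (D + 4)),
      p (q (Sum.inr (Sum.inl (l, i)))) = (C i).coeff (l : ℕ) := by
    intro l i
    simp only [p, Equiv.symm_apply_apply, Sum.elim_inl, Sum.elim_inr]
  have hph : p (q (Sum.inr (Sum.inr ()))) = h := by
    simp only [p, Equiv.symm_apply_apply, Sum.elim_inr]
  have hval : ∀ b : Bool, (fun i => MvPolynomial.aeval p (S7_F ℂ q b i)) = UP C e h b := by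
    intro b
    funext i
    exact S7_val q p hp0 C hdeg h hpC hph b i
  have hx' : HG F (fun i => MvPolynomial.aeval p (S7_F ℂ q b i)) := by
    rw [hval]
    exact hx
  have hodd' : Odd (Module.finrank
      (ratioField (fun i => MvPolynomial.aeval p (S7_F ℂ q b i))) L) := by
    rw [hval]
    exact hodd
  have hv' : MvPolynomial.aeval (fun i => MvPolynomial.aeval p (S7_F ℂ q (!b) i)) F = 0 := by
    rw [hval]
    exact hv
  obtain ⟨cof, hcf, hc⟩ := exists_srcf2 (K1 N) hF (e := fun _ => e + 1) (S7_F ℂ q b)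
    (fun i => K1_MH _ (S7_hom ℂ q b i)) (S7_F ℂ q (!b)) p (fun _ => q (Sum.inl ()))
    (fun i => Subsingleton.elim _ _) (fun _ => hp0) hx' hodd' hv' w hw
  rw [hval] at hc
  refine ⟨cof, hcf, ?_⟩
  intro k0 B _ _ _ _ _ _ hk0 wB hwB
  obtain ⟨Q, iQ1, iQ2, iQ3, iQ4, p', ι, hs, hι, hιp', hG⟩ := hc k0 B hk0 (S7_F k0 q b)
    (S7_F k0 q (!b)) (fun i => S7_map (algebraMap k0 ℂ) q b i)
    (fun i => S7_map (algebraMap k0 ℂ) q (!b) i) wB hwB
  have hp'0 : p' (q (Sum.inl ())) = 1 := by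
    apply ι.injective
    rw [hιp', hp0, map_one]
  let C' : Fin (D + 4) → Polynomial Q := fun i =>
    ∑ l : Fin (e + 1), Polynomial.monomial (l : ℕ) (p' (q (Sum.inr (Sum.inl (l, i)))))
  let h' : Q := p' (q (Sum.inr (Sum.inr ())))
  have hCc : ∀ (l : Fin (e + 1)) (i : Fin (D + 4)),
      p' (q (Sum.inr (Sum.inl (l, i)))) = (C' i).coeff (l : ℕ) := by
    intro l i
    change _ = (∑ l : Fin (e + 1), Polynomial.monomial (l : ℕ)
      (p' (q (Sum.inr (Sum.inl (l, i)))))).coeff (l : ℕ)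
    rw [Polynomial.finsetSum_coeff, Finset.sum_eq_single l]
    · rw [Polynomial.coeff_monomial, if_pos rfl]
    · intro b _ hb
      rw [Polynomial.coeff_monomial, if_neg (fun h1 => hb (Fin.ext h1))]
    · intro h1
      exact absurd (Finset.mem_univ _) h1
  have hdeg' : ∀ i, (C' i).natDegree ≤ e := by
    intro i
    refine Polynomial.natDegree_sum_le_of_forall_le _ _ fun l _ => ?_
    refine (Polynomial.natDegree_monomial_le _).trans ?_
    have := l.isLt
    omega
  have hev : ∀ b : Bool, (fun i => MvPolynomial.aeval p' (S7_F k0 q b i)) = UP C' e h' b := by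
    intro b
    funext i
    exact S7_val q p' hp'0 C' hdeg' h' hCc rfl b i
  refine ⟨Q, iQ1, iQ2, iQ3, iQ4, C', h', ι, hι, ?_, hdeg', ?_, ?_, hs.tr, ?_, ?_⟩
  · intro i
    change (∑ l : Fin (e + 1), Polynomial.monomial (l : ℕ)
      (p' (q (Sum.inr (Sum.inl (l, i)))))).map ι = C i
    rw [Polynomial.map_sum, Polynomial.as_sum_range' (C i) (e + 1) (Nat.lt_succ_of_le (hdeg i)),
      Finset.sum_range]
    refine Finset.sum_congr rfl fun l _ => ?_
    rw [Polynomial.map_monomial, hιp', hpC]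
  · rw [hιp', hph]
  · rw [eq_top_iff, ← hs.gen, IntermediateField.adjoin_le_iff]
    rintro _ ⟨j, rfl⟩
    obtain ⟨x, rfl⟩ := q.surjective j
    rcases x with x | ⟨l, i⟩ | x
    · rw [show q (Sum.inl x) = q (Sum.inl ()) from rfl, hp'0]
      exact one_mem _
    · rw [hCc]
      exact IntermediateField.subset_adjoin _ _ (Set.mem_insert_of_mem _ ⟨i, l, rfl⟩)
    · exact IntermediateField.subset_adjoin _ _ (Set.mem_insert _ _)
  · intro O _ _ _ _ α β hv hgen a
    have h1 := hs.pr O α β hv hgen a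
    have h2 : (fe (S7_F k0 q b) p' : Fin (D + 4) → Q) = UP C' e h' b := hev b
    rw [h2] at h1
    exact h1
  · have h2 := hG
    rw [hev] at h2
    exact h2

end MP2619.Q6
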