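import Pool.Agent.Lib.MP_2619d0_ag.Q6.M9
import Pool.Agent.Lib.MP_2619d0_ag.Q6.M9b
import Pool.Agent.Lib.MP_2619d0_ag.Q9.C1
import Pool.Agent.Lib.MP_2619d0_ag.U.P12
import Pool.Agent.Lib.MP_2619d0_ag.U.N1
import Pool.Agent.Lib.MP_2619d0_ag.U.S7

/-!
Theorem U2: odd points of a family of rational curves
-/

set_option autoImplicit false

namespace MP2619.Q6

open MP2619.Q5

universe u

open scoped NNReal
open IntermediateField MP2619.R MP2619.N Pool.Agent.Lib.MP_2619d0_ag Pool.Agent.Lib.MP_2619d0_ag.T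
  MP2619.T

private theorem M_gen {B k : Type} [Field B] [Field k] [Algebra B ℂ] [Algebra k ℂ] [Algebra B k]
    [IsScalarTower B k ℂ] (e : k)
    (h : ∀ c : k, algebraMap k ℂ c ∈ adjoin B ({algebraMap k ℂ e} : Set ℂ)) :
    adjoin B {e} = ⊤ := by
  rw [eq_top_iff]
  intro c _
  have h1 := h c
  have h2 : (adjoin B {e}).map (IsScalarTower.toAlgHom B k ℂ) =
      adjoin B ({algebraMap k ℂ e} : Set ℂ) := by
    rw [adjoin_map, Set.image_singleton]
    rfl
  rw [← h2] at h1
  obtain ⟨c', hc', h3⟩ := h1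
  have h4 : c' = c := (algebraMap k ℂ).injective h3
  rw [← h4]
  exact hc'

private theorem M_inv {B k : Type} [Field B] [Field k] [Algebra B k] (e : k)
    (h : adjoin B {e} = ⊤) : adjoin B {e⁻¹} = ⊤ := by
  rw [eq_top_iff, ← h, adjoin_simple_le_iff]
  have h1 := (adjoin B {e⁻¹}).inv_mem (mem_adjoin_simple_self B e⁻¹)
  rwa [inv_inv] at h1

private theorem M_lift {K : Type} [Field K] [Algebra K ℂ] {n : ℕ} (p : MvPolynomial (Fin n) ℂ)
    (h : ∀ m, ∃ c : K, algebraMap K ℂ c = MvPolynomial.coeff m p) :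
    ∃ q : MvPolynomial (Fin n) K, MvPolynomial.map (algebraMap K ℂ) q = p := by
  have h1 : p ∈ Set.range (MvPolynomial.map (σ := Fin n) (algebraMap K ℂ)) := by
    rw [MvPolynomial.mem_range_map_iff_coeffs_subset]
    intro x hx
    rw [Finset.mem_coe, MvPolynomial.mem_coeffs_iff] at hx
    obtain ⟨m, hm, rfl⟩ := hx
    exact h m
  exact h1

private theorem M_root : ∃ w : ℂ, w ^ 2 + w + 1 = 0 := by
  obtain ⟨r, hr⟩ := IsAlgClosed.exists_pow_nat_eq (-3 : ℂ) (n := 2) (by norm_num)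
  refine ⟨(-1 + r) / 2, ?_⟩
  linear_combination (1 / 4) * hr

section

variable {m : ℕ} {J : Type} (z : Exp3 (m + 2) ⊕ J → ℂ) (cof : Set ℂ)

private theorem M_inl (T : Set J) (d : Exp3 (m + 2)) : z (Sum.inl d) ∈ FK z cof T := by
  unfold FK
  exact subset_adjoin _ _ (Or.inl ⟨Sum.inl d, fun j' _ h => Sum.inl_ne_inr h, rfl⟩)

private theorem M_cof (T : Set J) (c : ℂ) (hc : c ∈ cof) : c ∈ FK z cof T := by
  unfold FK
  exact subset_adjoin _ _ (Or.inr hc)

private theorem M_z1 (s : Exp3 (m + 2) ⊕ J) : z s ∈ FK1 z cof :=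
  (FK1 z cof).algebraMap_mem ⟨z s, subset_adjoin _ _ (Set.mem_range_self _)⟩

private theorem M_coeff {F : MvPolynomial (Fin (m + 2)) ℂ} {A : Type} [Field A] [Algebra ℂ A]
    {u l : Fin (m + 2) → A} (h : Ctx F z u l) (T : Set J) (d : Fin (m + 2) →₀ ℕ) :
    MvPolynomial.coeff d F ∈ FK z cof T := by
  classical
  by_cases hd : d.degree = 3
  · rw [h.cf ⟨d, hd⟩]
    refine add_mem ?_ (mul_mem (ofNat_mem _ 2) (M_inl z cof T _))
    split_ifs
    · exact one_mem _
    · exact zero_mem _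
  · have h1 : MvPolynomial.coeff d F = 0 := by
      by_contra hne
      exact hd (by
        rw [Finsupp.degree_eq_weight_one]
        exact h.hom hne)
    rw [h1]
    exact zero_mem _

end

/-- the coefficients of the values -/
private theorem M_lead {k Q : Type*} [Field k] [Field Q] [Algebra k Q] {n : ℕ}
    (F : MvPolynomial (Fin n) k) (hF : F.IsHomogeneous 3) (C : Fin n → Polynomial Q) (d : ℕ)
    (hd : ∀ i, (C i).natDegree ≤ d) (h : MvPolynomial.aeval C F = 0) :
    MvPolynomial.aeval (fun i => (C i).coeff d) F = 0 := by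
  have key : (MvPolynomial.aeval C F).coeff (d * 3) =
      MvPolynomial.aeval (fun i => (C i).coeff d) F := by
    rw [MvPolynomial.aeval_def, MvPolynomial.aeval_def, MvPolynomial.eval₂_eq',
      MvPolynomial.eval₂_eq', Polynomial.finsetSum_coeff]
    refine Finset.sum_congr rfl fun m hm => ?_
    have h1 : m.degree = 3 := by
      by_contra h
      exact (MvPolynomial.mem_support_iff.1 hm) (hF.coeff_eq_zero h)
    rw [IsScalarTower.algebraMap_apply k Q (Polynomial Q), Polynomial.algebraMap_eq,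
      Polynomial.coeff_C_mul]
    congr 1
    have h2 : ∀ (s : Finset (Fin n)) , (∏ i ∈ s, C i ^ m i).coeff (d * ∑ i ∈ s, m i) =
        ∏ i ∈ s, (C i).coeff d ^ m i := by
      intro s
      classical
      induction s using Finset.induction_on with
      | empty => simp
      | insert a s ha ih =>
        rw [Finset.prod_insert ha, Finset.prod_insert ha, Finset.sum_insert ha, mul_add,
          Polynomial.coeff_mul_add_eq_of_natDegree_le ?_ ?_, ih]
        · congr 1
          rw [mul_comm d]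
          exact Polynomial.coeff_pow_of_natDegree_le (hd a)
        · rw [mul_comm d]
          exact Polynomial.natDegree_pow_le_of_le _ (hd a)
        · refine (Polynomial.natDegree_prod_le _ _).trans ?_
          rw [Finset.mul_sum]
          refine Finset.sum_le_sum fun i _ => ?_
          rw [mul_comm d]
          exact Polynomial.natDegree_pow_le_of_le _ (hd i)
    rw [← h2, ← Finsupp.degree_eq_sum, h1]
  rw [← key, h, Polynomial.coeff_zero]

/-- both points are on `X` -/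
theorem UP_van {D : ℕ} {F : MvPolynomial (Fin (D + 4)) ℂ} (hF : VG F) {L : Type u} [Field L]
    [Algebra ℂ L] (e : ℕ) (C : Fin (D + 4) → Polynomial L) (hdeg : ∀ i, (C i).natDegree ≤ e)
    (hC : MvPolynomial.aeval C F = 0) (h : L) (b : Bool) :
    MvPolynomial.aeval (UP C e h b) F = 0 := by
  cases b with
  | true =>
    have h1 := MvPolynomial.comp_aeval_apply (R := ℂ) C
      ((Polynomial.aeval h : Polynomial L →ₐ[L] L).restrictScalars ℂ) F
    rw [hC, map_zero] at h1
    have h2 : UP C e h true = fun i =>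
        ((Polynomial.aeval h : Polynomial L →ₐ[L] L).restrictScalars ℂ) (C i) := by
      funext i
      change (C i).eval h = Polynomial.aeval h (C i)
      rw [Polynomial.coe_aeval_eq_eval]
    rw [h2]
    exact h1.symm
  | false => exact M_lead F hF.1 C e hdeg hC

/-- a point of a family of rational curves is odd if another one is -/
theorem u2_core {D : ℕ} (hD : 1 ≤ D) {F : MvPolynomial (Fin (D + 4)) ℂ} (hF : VG F) {L : Type u}
    [Field L] [Algebra ℂ L] (e : ℕ) (C : Fin (D + 4) → Polynomial L)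
    (hdeg : ∀ i, (C i).natDegree ≤ e) (hC : MvPolynomial.aeval C F = 0) (hnt : NTC e C) (h : L)
    (hh : ∃ i, (C i).eval h ≠ 0) (hi : ∃ i, (C i).coeff e ≠ 0) (b : Bool)
    (hx : MP2619.Q9.OP F (UP C e h b)) : MP2619.Q9.OP F (UP C e h (!b)) := by
  classical
  obtain ⟨J, z, A, iF, iC, iA, u, l, hCt⟩ := exists_ctx (n := D + 2 + 2) hF
  have hcl := hCt.closed
  obtain ⟨v2, h2⟩ := exists_two
  obtain ⟨V, hV⟩ := exists_wt (k := ℚ) (zeta z u l) (zeta_ind hCt) (zeta_alg hCt) v2 (fun _ => 1)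
    (fun _ => one_pos)
  have S : St F z u l v2 V := ⟨hCt, h2, hV⟩
  obtain ⟨w, hw⟩ := M_root
  obtain ⟨cof1, hcf1, hS1⟩ := exists_srcU2 hF e C hdeg h b hx.1 hx.2
    (UP_van hF e C hdeg hC h (!b)) w hw
  obtain ⟨cof2, hcf2, hN⟩ := nt_of_C e C hdeg hnt
  obtain ⟨cof, hcofdef⟩ : ∃ cof : Set ℂ, cof = insert w (cof1 ∪ cof2) := ⟨_, rfl⟩
  have hcf : cof.Finite := by
    rw [hcofdef]
    exact (hcf1.union hcf2).insert w
  have hcw : w ∈ cof := by
    rw [hcofdef]
    exact Or.inl rfl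
  have hc1 : ∀ c ∈ cof1, c ∈ cof := fun c hc => by
    rw [hcofdef]
    exact Or.inr (Or.inl hc)
  have hc2 : ∀ c ∈ cof2, c ∈ cof := fun c hc => by
    rw [hcofdef]
    exact Or.inr (Or.inr hc)
  obtain ⟨g, hg, hga⟩ := exists_params z hCt.tb cof hcf 1
  obtain ⟨j, hj⟩ : ∃ j : J, j = g 0 := ⟨_, rfl⟩
  have hrange : Set.range g = {j} := by
    rw [hj]
    ext x
    constructor
    · rintro ⟨i, rfl⟩
      rw [Subsingleton.elim i 0]
      rfl
    · rintro rfl
      exact ⟨0, rfl⟩
  rw [hrange] at hga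
  -- the fields
  obtain ⟨K0, hK0⟩ : ∃ K0 : IntermediateField ℚ ℂ, K0 = FK z cof {j} := ⟨_, rfl⟩
  obtain ⟨KE, hKE⟩ : ∃ KE : IntermediateField ℚ ℂ, KE = FK z cof {j} := ⟨_, rfl⟩
  have h0E : K0 ≤ KE := by rw [hK0, hKE]
  have h0c : ∀ c ∈ cof, c ∈ K0 := fun c hc => by
    rw [hK0]
    exact M_cof z cof _ c hc
  have hE1 : ∀ c ∈ KE, c ∈ FK1 z cof := fun c hc => by
    rw [hKE] at hc
    exact FK_le1 z cof _ c hc
  let i2 : Algebra K0 KE := (inclusion h0E).toRingHom.toAlgebra
  let i5 : Algebra K0 (FK1 z cof) :=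
    ((algebraMap K0 ℂ).codRestrict (FK1 z cof) fun c => hE1 _ (h0E c.2)).toAlgebra
  let i7 : Algebra KE (FK1 z cof) :=
    ((algebraMap KE ℂ).codRestrict (FK1 z cof) fun c => hE1 _ c.2).toAlgebra
  have t3 : IsScalarTower K0 KE (FK1 z cof) := IsScalarTower.of_algebraMap_eq fun _ => rfl
  have t6 : IsScalarTower K0 KE ℂ := IsScalarTower.of_algebraMap_eq fun _ => rfl
  have t9 : IsScalarTower KE (FK1 z cof) ℂ := IsScalarTower.of_algebraMap_eq fun _ => rfl
  have hcomp : (algebraMap (FK1 z cof) ℂ).comp (algebraMap K0 (FK1 z cof)) = algebraMap K0 ℂ := rfl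
  obtain ⟨F0, hFF0⟩ : ∃ q : MvPolynomial (Fin (D + 2 + 2)) K0,
      MvPolynomial.map (algebraMap K0 ℂ) q = F :=
    M_lift F fun m => ⟨⟨_, by rw [hK0]; exact M_coeff z cof hCt _ m⟩, rfl⟩
  have hset : {s : Exp3 (D + 2 + 2) ⊕ J | ∀ j' ∈ ({j} : Set J), s ≠ Sum.inr j'} =
      {s | s ≠ Sum.inr j} := by
    ext s
    simp
  have hb : ∀ b : KE, ((algebraMap KE (FK1 z cof) b : FK1 z cof) : ℂ) = b := fun b =>
    (IsScalarTower.algebraMap_apply KE (FK1 z cof) ℂ b).symm
  have bE : BE z (FK1 z cof) KE (⟨z (Sum.inr j), M_z1 z cof _⟩ : FK1 z cof) j := by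
    refine ⟨fun b => ?_, M_gen _ fun c => ?_, Or.inl rfl⟩
    · rw [hb b]
      have h1 := FK_alg z cof {j} hga b (by rw [← hKE]; exact b.2)
      rwa [hset] at h1
    · have h1 := FK_gen z cof j c c.2
      subst hKE
      exact h1
  obtain ⟨Q, iQ, iQ0, iQB, tQ, C', h', ι, hι, hιC, hdeg', hιh, hgen, htr, hprA, hprG⟩ :=
    hS1 K0 KE (fun c hc => ⟨⟨c, h0c c (hc1 c hc)⟩, rfl⟩) ⟨w, h0E (h0c w hcw)⟩ rfl
  have hιK : ∀ c : K0, ι (algebraMap K0 Q c) = algebraMap ℂ L (algebraMap K0 ℂ c) := by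
    intro c
    rw [IsScalarTower.algebraMap_apply K0 KE Q, hι, ← IsScalarTower.algebraMap_apply K0 KE ℂ]
  have hιr : ι.comp (algebraMap K0 Q) = (algebraMap ℂ L).comp (algebraMap K0 ℂ) :=
    RingHom.ext hιK
  -- relations over `Q`
  have hvanC : MvPolynomial.aeval C' F0 = 0 := by
    apply Polynomial.map_injective ι ι.injective
    rw [Polynomial.map_zero, ← hC, ← hFF0, MvPolynomial.aeval_def, MvPolynomial.aeval_def,
      MvPolynomial.eval₂_map, ← Polynomial.coe_mapRingHom, MvPolynomial.hom_eval₂]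
    have h1 : (Polynomial.mapRingHom ι).comp (algebraMap K0 (Polynomial Q)) =
        (algebraMap ℂ (Polynomial L)).comp (algebraMap K0 ℂ) := by
      apply RingHom.ext
      intro c
      rw [RingHom.comp_apply, RingHom.comp_apply,
        IsScalarTower.algebraMap_apply K0 Q (Polynomial Q),
        IsScalarTower.algebraMap_apply ℂ L (Polynomial L), Polynomial.algebraMap_eq,
        Polynomial.algebraMap_eq, Polynomial.coe_mapRingHom, Polynomial.map_C, hιK]
    rw [h1]
    congr 1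
    funext i
    exact hιC i
  have hvan : ∀ (R : Type) [CommRing R] [Algebra Q R] [Algebra K0 R] [IsScalarTower K0 Q R] (t : R),
      MvPolynomial.aeval (fun i => Polynomial.aeval t (C' i)) F0 = 0 := by
    intro R _ _ _ _ t
    have h1 := MvPolynomial.comp_aeval_apply (R := K0) C'
      ((Polynomial.aeval t : Polynomial Q →ₐ[Q] R).restrictScalars K0) F0
    rw [hvanC, map_zero] at h1
    exact h1.symm
  have hrel : ∀ (g : MvPolynomial (ℕ × Fin (D + 4)) K0) (d : ℕ), g.IsHomogeneous d →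
      MvPolynomial.aeval (co C) (MvPolynomial.map (algebraMap K0 ℂ) g) = 0 →
        MvPolynomial.aeval (co C') g = 0 := by
    intro g d _ h0
    apply ι.injective
    rw [map_zero, ← h0, MvPolynomial.aeval_def, MvPolynomial.aeval_def, MvPolynomial.eval₂_map,
      MvPolynomial.hom_eval₂, hιr]
    congr 1
    funext p
    change ι ((C' p.2).coeff p.1) = (C p.2).coeff p.1
    rw [← hιC, Polynomial.coeff_map]
  have hsrc : SrcU (m := D + 2) (B := KE) F0 C' e h' :=
    { deg := hdeg'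
      gen := hgen
      van := hvan
      nt := hN K0 Q (fun c hc => ⟨⟨c, h0c c (hc2 c hc)⟩, rfl⟩) C' hrel
      tr := htr
      ph := by
        obtain ⟨i, hi⟩ := hh
        refine ⟨i, fun h0 => hi ?_⟩
        rw [← hιC, ← hιh, Polynomial.eval_map, Polynomial.eval₂_at_apply, h0, map_zero]
      pi := by
        obtain ⟨i, hi⟩ := hi
        refine ⟨i, fun h0 => hi ?_⟩
        rw [← hιC, Polynomial.coeff_map, h0, map_zero] }
  exact u2_abs (m := D + 2) (by omega) S (FK1 z cof) (FK1_fin z hCt.tb cof hcf) (k0 := K0) (B := KE)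
    ⟨w, h0c w hcw⟩ (Subtype.ext hw) F0 (by rw [hcomp]; exact hFF0) j
    ⟨z (Sum.inr j), M_z1 z cof _⟩ bE ⟨bE.alg, M_inv _ bE.gen, Or.inr rfl⟩ C' e h' hsrc b _ hprA hprG

/-- **Theorem U2.** Let `C` be a rational curve over `L` (forms of degree `e` on `ℙ¹`) in `X`, such that no limit over `ℂ` of the
curve (no specialization of its coefficients) has a common zero of order `≥ 3`. Then the point `C(h)` is odd if and only if
the point at infinity of `C` is odd. -/
theorem u2_link {D : ℕ} (hD : 1 ≤ D) {F : MvPolynomial (Fin (D + 4)) ℂ} (hF : VG F) {L : Type u}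
    [Field L] [Algebra ℂ L] (e : ℕ) (C : Fin (D + 4) → Polynomial L)
    (hdeg : ∀ i, (C i).natDegree ≤ e) (hC : MvPolynomial.aeval C F = 0) (hnt : NTC e C) (h : L)
    (hh : ∃ i, (C i).eval h ≠ 0) (hi : ∃ i, (C i).coeff e ≠ 0) :
    MP2619.Q9.OP F (fun i => (C i).eval h) ↔ MP2619.Q9.OP F (fun i => (C i).coeff e) :=
  ⟨u2_core hD hF e C hdeg hC hnt h hh hi true, u2_core hD hF e C hdeg hC hnt h hh hi false⟩

end MP2619.Q6
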