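import Pool.Agent.Lib.MP_2619d0_ag.U.PDefs
import Pool.Agent.Lib.MP_2619d0_ag.TTop

/-!
# Theorem U1 over the complex numbers, definitions
-/

set_option autoImplicit false

namespace MP2619.Q6

open IntermediateField MP2619.R MP2619.N Pool.Agent.Lib.MP_2619d0_ag Pool.Agent.Lib.MP_2619d0_ag.T
  MP2619.T MP2619.Q5

universe u

/-- the coefficients of the family `C` -/
noncomputable def co {K : Type u} [Field K] {n : ℕ} (C : Fin n → Polynomial K) : ℕ × Fin n → K :=
  fun p => (C p.2).coeff p.1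

/-- No specialization over `ℂ` of the family `C` (forms of degree `e` on `ℙ¹`) has a common zero of order `≥ 3`. -/
def NTC (e : ℕ) {L : Type u} [Field L] [Algebra ℂ L] {n : ℕ} (C : Fin n → Polynomial L) : Prop :=
  ∀ D : Fin n → Polynomial ℂ, (∀ i, (D i).natDegree ≤ e) → D ≠ 0 →
    (∀ (g : MvPolynomial (ℕ × Fin n) ℂ) (d : ℕ), g.IsHomogeneous d →
      MvPolynomial.aeval (co C) g = 0 → MvPolynomial.aeval (co D) g = 0) →
    (∀ t : ℂ, ∃ l ≤ 2, ∃ i, (Polynomial.taylor t (D i)).coeff l ≠ 0) ∧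
      ∃ l ≤ 2, l ≤ e ∧ ∃ i, (D i).coeff (e - l) ≠ 0

/-- the field of the coefficients, in a field of any universe -/
noncomputable def CfL {L : Type u} [Field L] [Algebra ℂ L] {n : ℕ} (C : Fin n → Polynomial L) :
    IntermediateField ℂ L := adjoin ℂ (Set.range (co C))

end MP2619.Q6
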