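import Pool.Agent.Lib.MP_2619d0_ag.U.CCDefs
import Pool.Agent.Lib.MP_2619d0_ag.Q6.CL4

/-!
# Lemma CC: elementary properties
-/

set_option autoImplicit false

namespace MP2619.Q6

open scoped NNReal
open IntermediateField MP2619.R MP2619.N Pool.Agent.Lib.MP_2619d0_ag Pool.Agent.Lib.MP_2619d0_ag.T
  MP2619.Q5

variable {B N N' : Type} [Field B] [Field N] [Field N'] [Algebra B N] [Algebra B N']
  [Algebra N N'] [IsScalarTower B N N'] {n : ℕ} {FB : MvPolynomial (Fin n) B}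
  {c0 c1 c2 : Fin n → N} {ρ η : N} {θ : N ≃ₐ[B] N}

private theorem CC1_pow {R A : Type} [CommSemiring R] [Semiring A] [Algebra R A] (τ : A ≃ₐ[R] A) {b : A}
    (h : τ (τ b) = b) : ∀ l : ℕ, Odd l → (τ ^ l) b = τ b := by
  rintro l ⟨q, rfl⟩
  induction q with
  | zero => simp
  | succ q ih =>
    have e : 2 * (q + 1) + 1 = (2 * q + 1) + 2 := by ring
    rw [e, pow_add, AlgEquiv.mul_apply]
    have h2 : (τ ^ 2) b = b := by
      rw [pow_two, AlgEquiv.mul_apply, h]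
    rw [h2, ih]

private theorem CC1_aeval {R A : Type} [CommSemiring R] [Semiring A] [Algebra R A] {m : ℕ}
    {C : Type} [CommRing C] [Algebra R C] (f : C →ₐ[R] C) (x y : Fin m → C)
    (hxy : ∀ i, f (x i) = y i) (G : MvPolynomial (Fin m) R) (hG : MvPolynomial.aeval x G = 0) :
    MvPolynomial.aeval y G = 0 := by
  have h1 := MvPolynomial.comp_aeval_apply (R := R) x f G
  rw [hG, map_zero] at h1
  have h2 : (fun i => f (x i)) = y := funext hxy
  rw [← h2]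
  exact h1.symm

/-- evaluation in every algebra -/
theorem ConIn.eval (h : ConIn FB c0 c1 c2) {R : Type} [CommRing R] [Algebra B R] [Algebra N R]
    [IsScalarTower B N R] (r t : R) :
    MvPolynomial.aeval (fun i => r * (algebraMap N R (c0 i) + algebraMap N R (c1 i) * t +
      algebraMap N R (c2 i) * t ^ 2)) FB = 0 := by
  have h1 := congrArg (MvPolynomial.aeval (R := N) ![r, t]) h
  rw [map_zero] at h1
  have h2 := MvPolynomial.comp_aeval_apply (R := B) (fun i => MvPolynomial.X 0 * (MvPolynomial.C (c0 i) +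
    MvPolynomial.C (c1 i) * MvPolynomial.X 1 + MvPolynomial.C (c2 i) * MvPolynomial.X 1 ^ 2) :
    Fin n → MvPolynomial (Fin 2) N)
    ((MvPolynomial.aeval (R := N) ![r, t]).restrictScalars B) FB
  have h3 : ((MvPolynomial.aeval (R := N) ![r, t]).restrictScalars B) (MvPolynomial.aeval
    (fun i => MvPolynomial.X 0 * (MvPolynomial.C (c0 i) +
    MvPolynomial.C (c1 i) * MvPolynomial.X 1 + MvPolynomial.C (c2 i) * MvPolynomial.X 1 ^ 2) :
    Fin n → MvPolynomial (Fin 2) N) FB) = 0 := h1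
  rw [h3] at h2
  rw [h2]
  congr 2
  funext i
  simp [MvPolynomial.aeval_C]

/-- odd powers of `θ` -/
theorem CD.pow (h : CD FB c0 c1 c2 ρ η θ) (l : ℕ) (hl : Odd l) :
    CD FB c0 c1 c2 ρ η (θ ^ l) ∧ (θ ^ l) ρ = θ ρ ∧ (θ ^ l) η = θ η := by
  have hρ : (θ ^ l) ρ = θ ρ := CC1_pow θ (by rw [h.tr, map_neg, h.tr, neg_neg]) l hl
  have hη : (θ ^ l) η = θ η := CC1_pow θ h.te l hl
  refine ⟨?_, hρ, hη⟩
  exact {
    t0 := fun i => by rw [CC1_pow θ (by rw [h.t0, h.t0]) l hl, h.t0]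
    t1 := fun i => by rw [CC1_pow θ (by rw [h.t1, h.t1]) l hl, h.t1]
    t2 := fun i => by rw [CC1_pow θ (by rw [h.t2, h.t2]) l hl, h.t2]
    tr := by rw [hρ, h.tr]
    te := by rw [hη, CC1_pow θ (by rw [h.te]) l hl, h.te]
    e0 := h.e0
    n2 := h.n2
    con := h.con
    trc := h.trc }

/-- the second point is the image of the first one; both lie on `F = 0` -/
theorem CD.point (h : CD FB c0 c1 c2 ρ η θ) :
    (∀ i, θ (pc c0 c1 c2 ρ η i) = pc c0 c1 c2 (θ ρ) (θ η) i) ∧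
    (∀ i, θ (pc c0 c1 c2 (θ ρ) (θ η) i) = pc c0 c1 c2 ρ η i) ∧
    MvPolynomial.aeval (pc c0 c1 c2 ρ η) FB = 0 ∧
    MvPolynomial.aeval (pc c0 c1 c2 (θ ρ) (θ η)) FB = 0 := by
  have hρ : θ (θ ρ) = ρ := by rw [h.tr, map_neg, h.tr, neg_neg]
  have h1 : ∀ i, θ (pc c0 c1 c2 ρ η i) = pc c0 c1 c2 (θ ρ) (θ η) i := by
    intro i
    unfold pc
    rw [map_mul, map_add, map_add, map_mul, map_mul, map_pow, h.t0, h.t1, h.t2]
  have h2 : ∀ i, θ (pc c0 c1 c2 (θ ρ) (θ η) i) = pc c0 c1 c2 ρ η i := by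
    intro i
    unfold pc
    rw [map_mul, map_add, map_add, map_mul, map_mul, map_pow, h.t0, h.t1, h.t2, hρ, h.te]
  have h3 : ∀ r η : N, MvPolynomial.aeval (pc c0 c1 c2 r η) FB = 0 := by
    intro r η
    have h4 := h.con.eval (R := N) η r
    exact h4
  exact ⟨h1, h2, h3 _ _, h3 _ _⟩

/-- the moved points -/
theorem CD.moved (h : CD FB c0 c1 c2 ρ η θ) (E : N') (σ : N' ≃ₐ[B] N')
    (hσ : ∀ b : N, σ (algebraMap N N' b) = algebraMap N N' (θ b)) (hσE : σ E = E) :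
    (∀ i, σ (qc c0 c1 c2 ρ η E i) = qc c0 c1 c2 (θ ρ) (θ η) E i) ∧
    (∀ i, σ (qc c0 c1 c2 (θ ρ) (θ η) E i) = qc c0 c1 c2 ρ η E i) ∧
    MvPolynomial.aeval (qc c0 c1 c2 ρ η E) FB = 0 ∧
    MvPolynomial.aeval (qc c0 c1 c2 (θ ρ) (θ η) E) FB = 0 := by
  have hρ : θ (θ ρ) = ρ := by rw [h.tr, map_neg, h.tr, neg_neg]
  have h1 : ∀ i, σ (qc c0 c1 c2 ρ η E i) = qc c0 c1 c2 (θ ρ) (θ η) E i := by
    intro i
    unfold qc pc
    rw [map_mul, map_add, map_add, map_mul, map_mul, map_pow, map_add, hσ, hσ, hσ, hσ, hσ, hσE,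
      h.t0, h.t1, h.t2]
  have h2 : ∀ i, σ (qc c0 c1 c2 (θ ρ) (θ η) E i) = qc c0 c1 c2 ρ η E i := by
    intro i
    unfold qc pc
    rw [map_mul, map_add, map_add, map_mul, map_mul, map_pow, map_add, hσ, hσ, hσ, hσ, hσ, hσE,
      h.t0, h.t1, h.t2, hρ, h.te]
  have h3 : ∀ (r η : N), MvPolynomial.aeval (qc c0 c1 c2 r η E) FB = 0 := by
    intro r η
    have h4 := h.con.eval (R := N') (algebraMap N N' η) (algebraMap N N' r + E)
    exact h4
  exact ⟨h1, h2, h3 _ _, h3 _ _⟩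

end MP2619.Q6
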