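import Pool.Agent.Lib.MP_2619d0_ag.U.CC1
import Pool.Agent.Lib.MP_2619d0_ag.Q6.CL2
import Pool.Agent.Lib.MP_2619d0_ag.Q6.CL3
import Pool.Agent.Lib.MP_2619d0_ag.Q6.C12
import Pool.Agent.Lib.MP_2619d0_ag.Q5.Lex

/-!
Row cc-2: Lemma CC: the path
-/

set_option autoImplicit false

namespace MP2619.Q6

open scoped NNReal
open IntermediateField MP2619.R MP2619.N Pool.Agent.Lib.MP_2619d0_ag Pool.Agent.Lib.MP_2619d0_ag.T
  MP2619.Q5

variable {n : ℕ} {F : MvPolynomial (Fin n) ℂ} {J : Type} {z : Exp3 n ⊕ J → ℂ} {A : Type} [Field A]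
  [CharZero A] [Algebra ℂ A] {u l : Fin n → A} {v2 : Valuation ℚ ℝ≥0} {V : Valuation A ℝ≥0}

private theorem CC2_lt {M : Type} [Field M] (P : ValuationSubring M) (a : M) :
    P.valuation a < 1 ↔ a = 0 ∨ a⁻¹ ∉ P := by
  rw [← P.valuation_le_one_iff, map_inv₀]
  rcases eq_or_ne a 0 with h | h
  · rw [h, map_zero]
    exact iff_of_true zero_lt_one (Or.inl rfl)
  · have h0 : 0 < P.valuation a := zero_lt_iff.mpr ((Valuation.ne_zero_iff _).mpr h)
    rw [inv_le_one₀ h0, not_le]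
    exact ⟨fun h1 => Or.inr h1, fun h1 => h1.resolve_left h⟩

/-- the data of a moved pair -/
private theorem CC2_dat {F : MvPolynomial (Fin n) ℂ} {J : Type} {z : Exp3 n ⊕ J → ℂ}
    {k1 : IntermediateField (Qz z) ℂ} {w : k1} {B : Type} [Field B] [Algebra B k1] {N' : Type}
    [Field N'] [Algebra B N'] [Algebra k1 N'] [IsScalarTower B k1 N'] {x y X Y : Fin n → N'}
    (FB : MvPolynomial (Fin n) B)
    (hF : MvPolynomial.map ((algebraMap k1 ℂ).comp (algebraMap B k1)) FB = F)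
    (hD : Dat F z k1 w x y) (hX : MvPolynomial.aeval X FB = 0) (hY : MvPolynomial.aeval Y FB = 0) :
    Dat F z k1 w X Y := by
  refine ⟨hD.fin, hD.om, ⟨MvPolynomial.map (algebraMap B k1) FB, ?_, ?_, ?_⟩, hD.fg⟩
  · rw [MvPolynomial.map_map]
    exact hF
  · rw [MvPolynomial.aeval_map_algebraMap]
    exact hX
  · rw [MvPolynomial.aeval_map_algebraMap]
    exact hY

/-- `Even (gr ..)` at a place fixed by an odd power -/
private theorem CC2_fix {F : MvPolynomial (Fin n) ℂ} {J : Type} {z : Exp3 n ⊕ J → ℂ} {A : Type}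
    [Field A] [CharZero A] [Algebra ℂ A] {u l : Fin n → A} {v2 : Valuation ℚ ℝ≥0}
    {V : Valuation A ℝ≥0} (S : St F z u l v2 V) (k1 : IntermediateField (Qz z) ℂ) (w : k1) {B : Type}
    [Field B] [Algebra B k1] [Algebra B A] [IsScalarTower B k1 A] (e : k1) (j : J)
    (hB : BE z k1 B e j) (wB : B) (hw : algebraMap B k1 wB = w) (b : Fin n) {N' : Type}
    [Field N'] [Algebra B N'] [Algebra k1 N'] [IsScalarTower B k1 N'] {X Y : Fin n → N'}
    (hD : Dat F z k1 w X Y) (P : ValuationSubring N')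
    (hP : EP B (algebraMap k1 N' e) X Y P)
    (H : ∀ (N2 : Type) [Field N2] [Algebra B N2] (φ : P →+* N2), RMap B P φ →
      AlgebraicIndependent B (zg wB (fun i => φ ⟨X i, hP.x_mem i⟩) (fun i => φ ⟨Y i, hP.y_mem i⟩)
        (Pi.single b 1)) →
      Module.finrank (adjoin B (Set.range (zg wB (fun i => φ ⟨X i, hP.x_mem i⟩)
        (fun i => φ ⟨Y i, hP.y_mem i⟩) (Pi.single b 1)))) N2 ≠ 0 →
      Even (gc V wB u (fun i => φ ⟨X i, hP.x_mem i⟩) (fun i => φ ⟨Y i, hP.y_mem i⟩)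
        (Pi.single b 1))) :
    Even (gr V wB u X Y P (Pi.single b 1)) := by
  by_cases hne : gr V wB u X Y P (Pi.single b 1) = 0
  · rw [hne]
    exact Even.zero
  obtain ⟨N2, _, _, φ, hφ⟩ := exists_RMap P hP.cst
  obtain ⟨h1, h2, -⟩ := gr_data S k1 w X Y hD e j hB wB hw P hP φ hφ _ hne
  rw [gr_eq V wB u X Y P φ hφ hP.x_mem hP.y_mem]
  exact H N2 φ hφ h1 h2

/-- The path. As `CL_path` (Q6/CL8a.lean), for the conic, `s = 1`. -/
theorem CC_path (hn : 5 ≤ n) (S : St F z u l v2 V) (k1 : IntermediateField (Qz z) ℂ)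
    (hk1 : FiniteDimensional (Qz z) k1) (w : k1) (hom : w ^ 2 + w + 1 = 0) {B : Type}
    [Field B] [Algebra B k1] [Algebra B A] [IsScalarTower B k1 A] (e : k1) (j : J)
    (hB : BE z k1 B e j) (hB' : BE z k1 B e⁻¹ j) (wB : B) (hw : algebraMap B k1 wB = w)
    (FB : MvPolynomial (Fin n) B)
    (hF : MvPolynomial.map ((algebraMap k1 ℂ).comp (algebraMap B k1)) FB = F) (b : Fin n)
    {N : Type} [Field N] [Algebra B N] {c0 c1 c2 : Fin n → N} {ρ η : N}
    {θ : N ≃ₐ[B] N} (h : CD FB c0 c1 c2 ρ η θ)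
    (hfg : ∃ z0 : Fin n → N, AlgebraicIndependent B z0 ∧
      Module.finrank (adjoin B (Set.range z0)) N ≠ 0)
    (hfix : ∀ (N' : Type) [Field N'] [Algebra B N'] [Algebra N N'] [IsScalarTower B N N']
      (N2 : Type) [Field N2] [Algebra B N2] (E : N') (θ' : N ≃ₐ[B] N) (σ : N' ≃ₐ[B] N')
      (P : ValuationSubring N') (X Y : Fin n → P) (φ : P →+* N2),
      CD FB c0 c1 c2 ρ η θ' → θ' ρ = θ ρ → θ' η = θ η →
      (∀ b : N, σ (algebraMap N N' b) = algebraMap N N' (θ' b)) → σ E = E → Transcendental N E →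
      (∀ c : N', σ c ∈ P ↔ c ∈ P) → (∀ i, (X i : N') = qc c0 c1 c2 ρ η E i) →
      (∀ i, (Y i : N') = qc c0 c1 c2 (θ ρ) (θ η) E i) → RMap B P φ →
      (P.valuation E⁻¹ < 1 ∨ (P.valuation E < 1 ∧ ¬ ∀ b : N, algebraMap N N' b ∈ P)) →
      AlgebraicIndependent B (zg wB (fun i => φ (X i)) (fun i => φ (Y i)) (Pi.single b 1)) →
      Module.finrank (adjoin B (Set.range (zg wB (fun i => φ (X i)) (fun i => φ (Y i))
        (Pi.single b 1)))) N2 ≠ 0 →
      Even (gc V wB u (fun i => φ (X i)) (fun i => φ (Y i)) (Pi.single b 1))) :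
    Even (gc V wB u (pc c0 c1 c2 ρ η) (pc c0 c1 c2 (θ ρ) (θ η)) (Pi.single b 1)) := by
  obtain ⟨hθx, hθy, hzx, hzy⟩ := h.point
  obtain ⟨N', _, _, _, _, _, _, hRF, hD0, -, -⟩ := exists_base S k1 hk1 w hom e j hB hfg
    (pc c0 c1 c2 ρ η) (pc c0 c1 c2 (θ ρ) (θ η)) FB hF hzx hzy
  obtain ⟨σ, hσ, hσE⟩ := exists_sigma_RF e hRF θ (1 : B) (one_mul 1)
  rw [map_one, one_mul] at hσE
  set E : N' := algebraMap k1 N' e with hEdef
  have hEt : Transcendental N E := hRF.trans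
  have hE0 : E ≠ 0 := by
    intro h0
    rw [h0] at hEt
    exact hEt isAlgebraic_zero
  obtain ⟨hm1, hm2, hm3, hm4⟩ := h.moved E σ hσ hσE
  set X : Fin n → N' := qc c0 c1 c2 ρ η E with hXdef
  set Y : Fin n → N' := qc c0 c1 c2 (θ ρ) (θ η) E with hYdef
  have hD : Dat F z k1 w X Y := CC2_dat FB hF hD0 hm3 hm4
  have hEi : algebraMap k1 N' e⁻¹ = E⁻¹ := by rw [map_inv₀]
  have hσEi : σ E⁻¹ = E⁻¹ := by rw [map_inv₀, hσE]
  have hpw : ∀ r : ℕ, Odd r → (∀ b : N, (σ ^ r) (algebraMap N N' b) =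
      algebraMap N N' ((θ ^ r) b)) ∧ (σ ^ r) E = E := by
    intro r hr
    obtain ⟨h1, h2⟩ := sigma_pow E 1 (Or.inl rfl) σ hσ (by rw [one_mul]; exact hσE) r hr
    exact ⟨h1, by rwa [one_mul] at h2⟩
  -- the side `E⁻¹`
  have hinf : Even (gc V w u X Y (Pi.single b 1)) := by
    have hlex := lex S.ctx v2 S.two V S.wt k1 w X Y hD (Pi.single b 1) e⁻¹ j hB' wB hw
    have h1 := lex_pairs hn S k1 w X Y hD e⁻¹ j hB' wB hw b hlex σ
      (fun P hP hv => by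
        rw [hEi] at hv ⊢
        rw [hσEi]
        exact ⟨hv, rfl⟩)
      hm1 hm2 ∅ (by simp) (by
        intro r hr P hP hfx _
        refine CC2_fix S k1 w e⁻¹ j hB' wB hw b hD P hP ?_
        intro N2 _ _ φ hφ hi1 hi2
        obtain ⟨hp1, hp2, hp3⟩ := h.pow r hr
        obtain ⟨hq1, hq2⟩ := hpw r hr
        have hv : P.valuation E⁻¹ < 1 := by
          have := hP.pos
          rwa [hEi] at this
        exact hfix N' N2 E (θ ^ r) (σ ^ r) P (fun i => ⟨X i, hP.x_mem i⟩)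
          (fun i => ⟨Y i, hP.y_mem i⟩) φ hp1 hp2 hp3 hq1 hq2 hEt hfx (fun i => rfl)
          (fun i => rfl) hφ (Or.inl hv) hi1 hi2)
    simpa using h1
  -- the main place
  obtain ⟨P0, φ0, hφ0, hdv0, hord0, hv0, hb0, huni⟩ := rf_place0 e hRF
  have hEP : E ∈ P0 := (P0.valuation_le_one_iff _).1 hv0.le
  have hιP : ∀ c : N, algebraMap N N' c ∈ P0 := fun c => (hb0 c).1
  have hXP : ∀ i, X i ∈ P0 := by
    intro i
    show algebraMap N N' η * (algebraMap N N' (c0 i) + algebraMap N N' (c1 i) *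
      (algebraMap N N' ρ + E) + algebraMap N N' (c2 i) * (algebraMap N N' ρ + E) ^ 2) ∈ P0
    exact mul_mem (hιP _) (add_mem (add_mem (hιP _) (mul_mem (hιP _) (add_mem (hιP _) hEP)))
      (mul_mem (hιP _) (pow_mem (add_mem (hιP _) hEP) 2)))
  have hYP : ∀ i, Y i ∈ P0 := by
    intro i
    show algebraMap N N' (θ η) * (algebraMap N N' (c0 i) + algebraMap N N' (c1 i) *
      (algebraMap N N' (θ ρ) + E) + algebraMap N N' (c2 i) * (algebraMap N N' (θ ρ) + E) ^ 2) ∈ P0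
    exact mul_mem (hιP _) (add_mem (add_mem (hιP _) (mul_mem (hιP _) (add_mem (hιP _) hEP)))
      (mul_mem (hιP _) (pow_mem (add_mem (hιP _) hEP) 2)))
  have hEP0 : EP B E X Y P0 := ⟨hdv0, hφ0.cst, hv0, hXP, hYP⟩
  have hσP0 : ∀ m : N', σ m ∈ P0 ↔ m ∈ P0 := by
    have h1 : P0.comap (σ : N' →+* N') = P0 := by
      refine huni _ ?_ ?_
      · intro c
        show σ (algebraMap N N' c) ∈ P0
        rw [hσ]
        exact hιP _
      · rw [CC2_lt]
        right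
        have h2 : E⁻¹ ∉ P0 := ((CC2_lt P0 E).1 hv0).resolve_left hE0
        show ¬ σ E⁻¹ ∈ P0
        rw [hσEi]
        exact h2
    intro m
    have h2 : m ∈ P0.comap (σ : N' →+* N') ↔ σ m ∈ P0 := Iff.rfl
    rw [← h2, h1]
  have hzero : Even (gc V w u X Y (Pi.single b 1) + gr V wB u X Y P0 (Pi.single b 1)) := by
    have hlex := lex S.ctx v2 S.two V S.wt k1 w X Y hD (Pi.single b 1) e j hB wB hw
    have h1 := lex_pairs hn S k1 w X Y hD e j hB wB hw b hlex σ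
      (fun P hP hv => by
        rw [← hEdef] at hv ⊢
        rw [hσE]
        exact ⟨hv, rfl⟩) hm1 hm2 {P0} (by
        intro P hP
        rw [Finset.mem_singleton] at hP
        subst hP
        exact ⟨hEP0, hσP0⟩) (by
        intro r hr P hP hfx hPZ
        refine CC2_fix S k1 w e j hB wB hw b hD P hP ?_
        intro N2 _ _ φ hφ hi1 hi2
        obtain ⟨hp1, hp2, hp3⟩ := h.pow r hr
        obtain ⟨hq1, hq2⟩ := hpw r hr
        have hv : P.valuation E < 1 := hP.pos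
        refine hfix N' N2 E (θ ^ r) (σ ^ r) P (fun i => ⟨X i, hP.x_mem i⟩)
          (fun i => ⟨Y i, hP.y_mem i⟩) φ hp1 hp2 hp3 hq1 hq2 hEt hfx (fun i => rfl)
          (fun i => rfl) hφ (Or.inr ⟨hv, ?_⟩) hi1 hi2
        intro hall
        exact hPZ (Finset.mem_singleton.2 (huni P hall hv)))
    rw [Finset.sum_singleton, hord0] at h1
    simpa using h1
  have hgr : Even (gr V wB u X Y P0 (Pi.single b 1)) := (Nat.even_add.1 hzero).1 hinf
  rw [gr_eq V wB u X Y P0 φ0 hφ0 hXP hYP] at hgr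
  have hφE : φ0 ⟨E, hEP⟩ = 0 := (hφ0.zero _).2 hv0
  have hb1 : ∀ c : N, φ0 ⟨algebraMap N N' c, hιP c⟩ = c := fun c => (hb0 c).2
  have hφX : (fun i => φ0 ⟨X i, hXP i⟩) = pc c0 c1 c2 ρ η := by
    funext i
    have h1 : (⟨X i, hXP i⟩ : P0) = ⟨algebraMap N N' η, hιP _⟩ * (⟨algebraMap N N' (c0 i), hιP _⟩ +
        ⟨algebraMap N N' (c1 i), hιP _⟩ * (⟨algebraMap N N' ρ, hιP _⟩ + ⟨E, hEP⟩) +
        ⟨algebraMap N N' (c2 i), hιP _⟩ * (⟨algebraMap N N' ρ, hιP _⟩ + ⟨E, hEP⟩) ^ 2) := rfl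
    rw [h1, map_mul, map_add, map_add, map_mul, map_mul, map_pow, map_add, hb1, hb1, hb1, hb1, hb1,
      hφE, add_zero]
    rfl
  have hφY : (fun i => φ0 ⟨Y i, hYP i⟩) = pc c0 c1 c2 (θ ρ) (θ η) := by
    funext i
    have h1 : (⟨Y i, hYP i⟩ : P0) = ⟨algebraMap N N' (θ η), hιP _⟩ *
        (⟨algebraMap N N' (c0 i), hιP _⟩ +
        ⟨algebraMap N N' (c1 i), hιP _⟩ * (⟨algebraMap N N' (θ ρ), hιP _⟩ + ⟨E, hEP⟩) +
        ⟨algebraMap N N' (c2 i), hιP _⟩ * (⟨algebraMap N N' (θ ρ), hιP _⟩ + ⟨E, hEP⟩) ^ 2) := rfl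
    rw [h1, map_mul, map_add, map_add, map_mul, map_mul, map_pow, map_add, hb1, hb1, hb1, hb1, hb1,
      hφE, add_zero]
    rfl
  rw [hφX, hφY] at hgr
  exact hgr

end MP2619.Q6
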