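import Pool.Agent.Lib.MP_2619d0_ag.U.CC1
import Pool.Agent.Lib.MP_2619d0_ag.Q6.K5

/-!
Row cc-3: the conic over the residue field
-/

set_option autoImplicit false

namespace MP2619.Q6

open scoped NNReal
open IntermediateField MP2619.R MP2619.N Pool.Agent.Lib.MP_2619d0_ag Pool.Agent.Lib.MP_2619d0_ag.T
  MP2619.Q5

variable {n : ℕ}

private theorem CC3_det_mem {A : Type} [Field A] (K : Subfield A) (M : Matrix (Fin 3) (Fin 3) A)
    (h : ∀ i j, M i j ∈ K) : M.det ∈ K := by
  rw [Matrix.det_apply']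
  refine sum_mem fun σ _ => mul_mem ?_ (prod_mem fun i _ => h _ _)
  exact intCast_mem K _

private theorem CC3_inv_mem {A : Type} [Field A] (K : Subfield A) (M : Matrix (Fin 3) (Fin 3) A)
    (h : ∀ i j, M i j ∈ K) : ∀ i j, M⁻¹ i j ∈ K := by
  intro i j
  rw [Matrix.inv_def, Matrix.smul_apply, Ring.inverse_eq_inv', smul_eq_mul,
    Matrix.adjugate_apply]
  refine mul_mem (inv_mem (CC3_det_mem K M h)) (CC3_det_mem K _ ?_)
  intro a c
  rw [Matrix.updateRow_apply]
  split_ifs
  · rw [Pi.single_apply]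
    split_ifs
    · exact one_mem K
    · exact zero_mem K
  · exact h a c

private theorem CC3_minor {A : Type} [Field A] (b : Fin 3 → Fin n → A)
    (hb : LinearIndependent A b) :
    ∃ r : Fin 3 → Fin n, (Matrix.of fun k j => b k (r j)).det ≠ 0 := by
  classical
  set M : Matrix (Fin 3) (Fin n) A := Matrix.of b with hM
  have h1 : M.rank = 3 := by
    have := LinearIndependent.rank_matrix (M := M) hb
    simpa using this
  rw [Matrix.rank_eq_finrank_span_cols] at h1
  obtain ⟨κ, a, ha, hsp, hli⟩ := exists_linearIndependent' A M.col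
  have hfin : Finite κ := Finite.of_injective a ha
  have hκ := Fintype.ofFinite κ
  have h2 : Fintype.card κ = 3 := by
    have h3 := finrank_span_eq_card hli
    rw [hsp, h1] at h3
    exact h3.symm
  have e : Fin 3 ≃ κ := (Fintype.equivFinOfCardEq h2).symm
  refine ⟨fun j => a (e j), ?_⟩
  have h4 : LinearIndependent A (fun j : Fin 3 => M.col (a (e j))) :=
    hli.comp e e.injective
  have h5 : LinearIndependent A (Matrix.of fun k j => b k (a (e j))).col := h4
  have h6 := Matrix.linearIndependent_cols_iff_isUnit.mp h5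
  rw [Matrix.isUnit_iff_isUnit_det] at h6
  exact h6.ne_zero

/-- the lattice, for every valuation -/
private theorem CC3_lat {A Γ : Type} [Field A] [LinearOrderedCommGroupWithZero Γ] (V : Valuation A Γ)
    (K : Subfield A) (b : Fin 3 → Fin n → A) (hbK : ∀ k i, b k i ∈ K) (hb : LinearIndependent A b) :
    ∃ (g : Matrix (Fin 3) (Fin 3) A) (r : Fin 3 → Fin n), g.det ≠ 0 ∧ (∀ i j, g i j ∈ K) ∧
      (∀ k j, (∑ m, g k m * b m (r j)) = if k = j then 1 else 0) ∧
      ∀ k i, V (∑ m, g k m * b m i) ≤ 1 := by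
  classical
  obtain ⟨r0, hr0⟩ := CC3_minor b hb
  obtain ⟨r, -, hr⟩ := Finset.exists_max_image (Finset.univ : Finset (Fin 3 → Fin n))
    (fun r => V (Matrix.of fun k j => b k (r j)).det) ⟨r0, Finset.mem_univ _⟩
  set M : Matrix (Fin 3) (Fin 3) A := Matrix.of fun k j => b k (r j) with hM
  have hdet : M.det ≠ 0 := by
    intro h0
    have h1 := hr r0 (Finset.mem_univ _)
    rw [h0, map_zero, le_zero_iff, map_eq_zero] at h1
    exact hr0 h1
  have hu : IsUnit M.det := isUnit_iff_ne_zero.mpr hdet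
  have hMK : ∀ i j, M i j ∈ K := fun i j => hbK _ _
  refine ⟨M⁻¹, r, ?_, CC3_inv_mem K M hMK, ?_, ?_⟩
  · rw [Matrix.det_nonsing_inv, Ring.inverse_eq_inv']
    exact inv_ne_zero hdet
  · intro k j
    have h1 := congrFun (congrFun (Matrix.nonsing_inv_mul M hu) k) j
    rw [Matrix.mul_apply, Matrix.one_apply] at h1
    exact h1
  · intro k i
    have h1 : ∑ m, M⁻¹ k m * b m i =
        M.det⁻¹ * (Matrix.of fun a j => b a (Function.update r k i j)).det := by
      have h2 : ∑ m, M⁻¹ k m * b m i = (M⁻¹.mulVec fun m => b m i) k := rfl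
      rw [h2, Matrix.inv_def, Matrix.smul_mulVec, Pi.smul_apply, smul_eq_mul,
        ← Matrix.cramer_eq_adjugate_mulVec, Matrix.cramer_apply, Ring.inverse_eq_inv']
      congr 2
      ext a j
      rw [Matrix.updateCol_apply, Matrix.of_apply, hM, Matrix.of_apply, Function.update_apply]
      split_ifs <;> rfl
    rw [h1, map_mul, map_inv₀]
    have h3 := hr (Function.update r k i) (Finset.mem_univ _)
    have h4 : V M.det ≠ 0 := (map_ne_zero V).mpr hdet
    calc (V M.det)⁻¹ * V (Matrix.of fun a j => b a (Function.update r k i j)).det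
        ≤ (V M.det)⁻¹ * V M.det := mul_le_mul_right h3 _
      _ = 1 := inv_mul_cancel₀ h4

/-- the coefficients of the form after a change of the basis -/
private def CC3_c {A : Type} [Field A] (c : Fin 6 → A) (g : Matrix (Fin 3) (Fin 3) A) : Fin 6 → A :=
  ![qf c (g 0), qf c (g 1), qf c (g 2), qp c (g 1) (g 2), qp c (g 0) (g 2), qp c (g 0) (g 1)]

private theorem CC3_vm {A : Type} [Field A] (g : Matrix (Fin 3) (Fin 3) A) (X : Fin 3 → A)
    (i : Fin 3) : (Matrix.vecMul X g) i = X 0 * g 0 i + X 1 * g 1 i + X 2 * g 2 i := by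
  simp [Matrix.vecMul, dotProduct, Fin.sum_univ_three]

private theorem CC3_qf {A : Type} [Field A] (c : Fin 6 → A) (g : Matrix (Fin 3) (Fin 3) A)
    (X : Fin 3 → A) : qf (CC3_c c g) X = qf c (Matrix.vecMul X g) := by
  have e0 : CC3_c c g 0 = qf c (g 0) := rfl
  have e1 : CC3_c c g 1 = qf c (g 1) := rfl
  have e2 : CC3_c c g 2 = qf c (g 2) := rfl
  have e3 : CC3_c c g 3 = qp c (g 1) (g 2) := rfl
  have e4 : CC3_c c g 4 = qp c (g 0) (g 2) := rfl
  have e5 : CC3_c c g 5 = qp c (g 0) (g 1) := rfl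
  have h : qf (CC3_c c g) X = qf c (g 0) * X 0 ^ 2 + qf c (g 1) * X 1 ^ 2 + qf c (g 2) * X 2 ^ 2 +
      qp c (g 1) (g 2) * (X 1 * X 2) + qp c (g 0) (g 2) * (X 0 * X 2) +
      qp c (g 0) (g 1) * (X 0 * X 1) := by
    rw [← e0, ← e1, ← e2, ← e3, ← e4, ← e5]
    rfl
  rw [h]
  unfold qf qp
  rw [CC3_vm, CC3_vm, CC3_vm]
  ring

private theorem CC3_zero {A : Type} [Field A] (c : Fin 6 → A) (h : ∀ X : Fin 3 → A, qf c X = 0) :
    c = 0 := by
  have h0 := h ![1, 0, 0]
  have h1 := h ![0, 1, 0]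
  have h2 := h ![0, 0, 1]
  have h3 := h ![0, 1, 1]
  have h4 := h ![1, 0, 1]
  have h5 := h ![1, 1, 0]
  simp [qf] at h0 h1 h2 h3 h4 h5
  simp [h0, h1, h2] at h3 h4 h5
  funext i
  fin_cases i
  · exact h0
  · exact h1
  · exact h2
  · exact h3
  · exact h4
  · exact h5

private theorem CC3_qfK {A : Type} [Field A] (K : Subfield A) (c : Fin 6 → A) (hc : ∀ i, c i ∈ K)
    (X : Fin 3 → A) (hX : ∀ i, X i ∈ K) : qf c X ∈ K := by
  unfold qf
  exact add_mem (add_mem (add_mem (add_mem (add_mem (mul_mem (hc 0) (pow_mem (hX 0) 2))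
    (mul_mem (hc 1) (pow_mem (hX 1) 2))) (mul_mem (hc 2) (pow_mem (hX 2) 2)))
    (mul_mem (hc 3) (mul_mem (hX 1) (hX 2)))) (mul_mem (hc 4) (mul_mem (hX 0) (hX 2))))
    (mul_mem (hc 5) (mul_mem (hX 0) (hX 1)))

private theorem CC3_qpK {A : Type} [Field A] (K : Subfield A) (c : Fin 6 → A) (hc : ∀ i, c i ∈ K)
    (X Y : Fin 3 → A) (hX : ∀ i, X i ∈ K) (hY : ∀ i, Y i ∈ K) : qp c X Y ∈ K := by
  have h1 := qf_add c X Y
  have h2 : qp c X Y = qf c (X + Y) - qf c X - qf c Y := by rw [h1]; ring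
  rw [h2]
  exact sub_mem (sub_mem (CC3_qfK K c hc _ fun i => add_mem (hX i) (hY i)) (CC3_qfK K c hc X hX))
    (CC3_qfK K c hc Y hY)

private theorem CC3_cK {A : Type} [Field A] (K : Subfield A) (c : Fin 6 → A) (hc : ∀ i, c i ∈ K)
    (g : Matrix (Fin 3) (Fin 3) A) (hg : ∀ i j, g i j ∈ K) (i : Fin 6) : CC3_c c g i ∈ K := by
  fin_cases i
  · exact CC3_qfK K c hc _ fun i => hg 0 i
  · exact CC3_qfK K c hc _ fun i => hg 1 i
  · exact CC3_qfK K c hc _ fun i => hg 2 i
  · exact CC3_qpK K c hc _ _ (fun i => hg 1 i) fun i => hg 2 i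
  · exact CC3_qpK K c hc _ _ (fun i => hg 0 i) fun i => hg 2 i
  · exact CC3_qpK K c hc _ _ (fun i => hg 0 i) fun i => hg 1 i

private theorem CC3_qf_map {R S : Type} [CommRing R] [CommRing S] (f : R →+* S) (c : Fin 6 → R)
    (X : Fin 3 → R) : f (qf c X) = qf (fun i => f (c i)) (fun i => f (X i)) := by
  unfold qf
  simp only [map_add, map_mul, map_pow]

/-- PROOF. Copy `lat` (Q6/K2.lean) for the valuation `P.valuation` (any linearly ordered value group; nothing in the proof uses `ℝ≥0`): among the `3 × 3` minors of `b` (rows `r 0, r 1, r 2`)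
one with maximal `P.valuation` of the determinant; `g` = its inverse (entries in `K`): the vectors `b1 k = ∑ m, g k m • b m` have entries in `K`, in `P`, and `b1 k (r j) = δ_kj`.
`c1` = the coefficients of the form in the new coordinates (see `K3_c`, `K3_qf` in Q5/K3.lean), divided by one of maximal valuation, so in `K`, in `P`, one of them is `1`.
`b' k i = φ (b1 k i)`, `c' = φ (c1)`; `b' k (r j) = δ_kj` gives the linear independence. For `X = cv b X'` put `X1 = X' g⁻¹`: `X = cv b1 X1`, `qf c1 X1 = 0`, `X1 j = X (r j) ∈ P`;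
`X2 j = φ (X1 j)`. `mem_resI` (Q5/CDefs) for the residues. -/
theorem CC_res {B N' N2 : Type} [Field B] [Field N'] [Field N2] [Algebra B N'] [Algebra B N2]
    {P : ValuationSubring N'} {φ : P →+* N2} (hφ : RMap B P φ) (K : IntermediateField B N')
    (b : Fin 3 → Fin n → K) (c : Fin 6 → K)
    (hb : LinearIndependent N' (fun k i => (b k i : N'))) (hc : c ≠ 0) :
    ∃ (b' : Fin 3 → Fin n → resI hφ K) (c' : Fin 6 → resI hφ K),
      LinearIndependent N2 (fun k i => (b' k i : N2)) ∧ c' ≠ 0 ∧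
      ∀ (X : Fin n → P) (X' : Fin 3 → N'),
        (fun i => (X i : N')) = cv (fun k i => (b k i : N')) X' →
        qf (fun i => (c i : N')) X' = 0 →
        ∃ X2 : Fin 3 → N2, (fun i => φ (X i)) = cv (fun k i => (b' k i : N2)) X2 ∧
          qf (fun i => (c' i : N2)) X2 = 0 := by
  classical
  set b0 : Fin 3 → Fin n → N' := fun k i => (b k i : N') with hb0
  set c0 : Fin 6 → N' := fun i => (c i : N') with hc0
  have hbK : ∀ k i, b0 k i ∈ K.toSubfield := fun k i => (b k i).2
  have hcK : ∀ i, c0 i ∈ K.toSubfield := fun i => (c i).2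
  obtain ⟨g, r, hdet, hgK, hr, hb1⟩ := CC3_lat P.valuation K.toSubfield b0 hbK hb
  have hgu : IsUnit g.det := isUnit_iff_ne_zero.2 hdet
  have hψφ : ∀ Z : Fin 3 → N', Matrix.vecMul (Matrix.vecMul Z g⁻¹) g = Z := by
    intro Z
    rw [Matrix.vecMul_vecMul, Matrix.nonsing_inv_mul g hgu, Matrix.vecMul_one]
  have hc0' : c0 ≠ 0 := by
    intro h0
    apply hc
    funext i
    exact Subtype.ext (congrFun h0 i)
  -- the new basis
  set b1 : Fin 3 → Fin n → N' := fun k i => ∑ m, g k m * b0 m i with hb1def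
  have hb1K : ∀ k i, b1 k i ∈ K := fun k i =>
    K.toSubfield.sum_mem fun m _ => mul_mem (hgK k m) (hbK m i)
  have hb1P : ∀ k i, b1 k i ∈ P := fun k i => (P.valuation_le_one_iff _).1 (hb1 k i)
  have hcv0 : ∀ Z : Fin 3 → N', cv b1 Z = cv b0 (Matrix.vecMul Z g) := by
    intro Z
    funext i
    show ∑ k, Z k * ∑ m, g k m * b0 m i = ∑ m, (Matrix.vecMul Z g) m * b0 m i
    simp only [Fin.sum_univ_three, CC3_vm]
    ring
  -- the new form
  set c1 : Fin 6 → N' := CC3_c c0 g with hc1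
  have hc1K : ∀ i, c1 i ∈ K := fun i => CC3_cK K.toSubfield c0 hcK g hgK i
  have hc1ne : c1 ≠ 0 := by
    intro h0
    apply hc0'
    apply CC3_zero
    intro Z
    rw [← hψφ Z, ← CC3_qf, ← hc1, h0]
    simp [qf]
  obtain ⟨i0, -, hi0⟩ := Finset.exists_max_image (Finset.univ : Finset (Fin 6))
    (fun i => P.valuation (c1 i)) ⟨0, Finset.mem_univ _⟩
  have hi0ne : c1 i0 ≠ 0 := by
    intro h0
    apply hc1ne
    funext i
    have h1 := hi0 i (Finset.mem_univ _)
    rw [h0, map_zero, le_zero_iff, map_eq_zero] at h1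
    exact h1
  have hv0 : P.valuation (c1 i0) ≠ 0 := (map_ne_zero _).2 hi0ne
  set c2 : Fin 6 → N' := fun i => (c1 i0)⁻¹ * c1 i with hc2
  have hc2K : ∀ i, c2 i ∈ K := fun i => K.mul_mem (K.inv_mem (hc1K i0)) (hc1K i)
  have hc2P : ∀ i, c2 i ∈ P := by
    intro i
    rw [← P.valuation_le_one_iff, hc2, map_mul, map_inv₀]
    calc (P.valuation (c1 i0))⁻¹ * P.valuation (c1 i)
        ≤ (P.valuation (c1 i0))⁻¹ * P.valuation (c1 i0) :=
          mul_le_mul_right (hi0 i (Finset.mem_univ _)) _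
      _ = 1 := inv_mul_cancel₀ hv0
  have hc2one : c2 i0 = 1 := inv_mul_cancel₀ hi0ne
  have hqf2 : ∀ Z : Fin 3 → N', qf c2 Z = (c1 i0)⁻¹ * qf c0 (Matrix.vecMul Z g) := by
    intro Z
    rw [← CC3_qf, ← hc1]
    simp only [qf, hc2]
    ring
  -- the residues
  refine ⟨fun k i => ⟨φ ⟨b1 k i, hb1P k i⟩, (mem_resI hφ K _).2 ⟨_, hb1K k i, rfl⟩⟩,
    fun i => ⟨φ ⟨c2 i, hc2P i⟩, (mem_resI hφ K _).2 ⟨_, hc2K i, rfl⟩⟩, ?_, ?_, ?_⟩
  · rw [Fintype.linearIndependent_iff]
    intro a ha j
    have h1 := congrFun ha (r j)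
    simp only [Finset.sum_apply, Pi.smul_apply, smul_eq_mul, Pi.zero_apply] at h1
    have h2 : ∀ k, φ ⟨b1 k (r j), hb1P k (r j)⟩ = if k = j then 1 else 0 := by
      intro k
      have h3 : (⟨b1 k (r j), hb1P k (r j)⟩ : P) = if k = j then 1 else 0 := by
        apply Subtype.ext
        show b1 k (r j) = _
        rw [hb1def]
        simp only []
        rw [hr k j]
        split_ifs <;> rfl
      rw [h3]
      split_ifs
      · exact map_one φ
      · exact map_zero φ
    simp only [h2, mul_ite, mul_one, mul_zero, Finset.sum_ite_eq', Finset.mem_univ, if_true] at h1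
    exact h1
  · intro h0
    have h1 := congrArg (fun z : resI hφ K => (z : N2)) (congrFun h0 i0)
    have h2 : (⟨c2 i0, hc2P i0⟩ : P) = 1 := Subtype.ext hc2one
    simp only [h2, map_one] at h1
    exact one_ne_zero h1
  · intro X X' hX hX'
    set X1 : Fin 3 → N' := Matrix.vecMul X' g⁻¹ with hX1
    have h1 : (fun i => (X i : N')) = cv b1 X1 := by
      rw [hcv0, hX1, hψφ]
      exact hX
    have h2 : ∀ j, X1 j = (X (r j) : N') := by
      intro j
      have h3 := congrFun h1 (r j)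
      have h4 : cv b1 X1 (r j) = X1 j := by
        show ∑ k, X1 k * b1 k (r j) = X1 j
        have h5 : ∀ k, b1 k (r j) = if k = j then 1 else 0 := fun k => hr k j
        simp only [h5, mul_ite, mul_one, mul_zero, Finset.sum_ite_eq', Finset.mem_univ, if_true]
      rw [h4] at h3
      exact h3.symm
    have h3 : qf c2 X1 = 0 := by
      rw [hqf2, hX1, hψφ, hX', mul_zero]
    refine ⟨fun j => φ (X (r j)), ?_, ?_⟩
    · funext i
      have h4 : X i = ∑ k, X (r k) * ⟨b1 k i, hb1P k i⟩ := by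
        apply Subtype.ext
        have h5 := congrFun h1 i
        have h6 : cv b1 X1 i = ∑ k, (X (r k) : N') * b1 k i := by
          show ∑ k, X1 k * b1 k i = _
          exact Finset.sum_congr rfl fun k _ => by rw [h2 k]
        rw [h6] at h5
        rw [h5]
        simp
      show φ (X i) = ∑ k, φ (X (r k)) * φ ⟨b1 k i, hb1P k i⟩
      rw [h4, map_sum]
      exact Finset.sum_congr rfl fun k _ => map_mul _ _ _
    · have h4 : qf (fun i => (⟨c2 i, hc2P i⟩ : P)) (fun j => X (r j)) = 0 := by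
        apply Subtype.ext
        have h5 := CC3_qf_map P.subtype (fun i => (⟨c2 i, hc2P i⟩ : P)) (fun j => X (r j))
        have h6 : (fun j => X1 j) = fun j => (X (r j) : N') := funext h2
        have h7 : qf c2 (fun j => (X (r j) : N')) = 0 := by rw [← h6]; exact h3
        exact h5.trans h7
      have h5 := CC3_qf_map φ (fun i => (⟨c2 i, hc2P i⟩ : P)) (fun j => X (r j))
      rw [h4, map_zero] at h5
      exact h5.symm

end MP2619.Q6
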