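import Pool.Agent.Lib.MP_2619d0_ag.U.CC1
import Pool.Agent.Lib.MP_2619d0_ag.Q6.K5

/-!
Row cc-3b: the plane of the conic
-/

set_option autoImplicit false

namespace MP2619.Q6

open scoped NNReal
open IntermediateField MP2619.R MP2619.N Pool.Agent.Lib.MP_2619d0_ag Pool.Agent.Lib.MP_2619d0_ag.T
  MP2619.Q5

variable {n : ℕ}

/-- extension of scalars keeps linear independence -/
private theorem CC3b_li {B N : Type} [Field B] [Field N] [Algebra B N] {K : IntermediateField B N}
    (b : Fin 3 → Fin n → K) (h : LinearIndependent K b) :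
    LinearIndependent N (fun k i => (b k i : N)) := by
  classical
  obtain ⟨g, hg⟩ := LinearMap.exists_leftInverse_of_injective (Finsupp.linearCombination K b)
    (LinearMap.ker_eq_bot.mpr h)
  have hb : ∀ k j, ∑ i, b k i * (g (Pi.single i 1)) j = if k = j then 1 else 0 := by
    intro k j
    have h1 : g (b k) = Finsupp.single k 1 := by
      have h2 := LinearMap.congr_fun hg (Finsupp.single k 1)
      simpa using h2
    have h3 : g (b k) = ∑ i, b k i • g (Pi.single i 1) := by
      conv_lhs => rw [pi_eq_sum_univ' (b k)]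
      rw [map_sum]
      refine Finset.sum_congr rfl fun i _ => ?_
      rw [map_smul]
    have h4 := DFunLike.congr_fun (h3.symm.trans h1) j
    rw [Finsupp.finsetSum_apply, Finsupp.single_apply] at h4
    rw [← h4]
    refine Finset.sum_congr rfl fun i _ => ?_
    rw [Finsupp.smul_apply, smul_eq_mul]
  have hbN : ∀ k j, ∑ i, (b k i : N) * ((g (Pi.single i 1)) j : N) = if k = j then 1 else 0 := by
    intro k j
    have h1 := congrArg (algebraMap K N) (hb k j)
    have h2 : algebraMap K N (if k = j then 1 else 0) = if k = j then 1 else 0 := by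
      split_ifs <;> simp
    rw [h2, map_sum] at h1
    rw [← h1]
    exact Finset.sum_congr rfl fun i _ => (map_mul (algebraMap K N) _ _).symm
  rw [Fintype.linearIndependent_iff]
  intro a ha j
  have h2 : ∀ i, ∑ k, a k * (b k i : N) = 0 := fun i => by
    have h3 := congrFun ha i
    simpa using h3
  calc a j = ∑ k, a k * (if k = j then 1 else 0) := by simp
    _ = ∑ k, a k * ∑ i, (b k i : N) * ((g (Pi.single i 1)) j : N) := by
      refine Finset.sum_congr rfl fun k _ => ?_
      rw [hbN]
    _ = ∑ i, (∑ k, a k * (b k i : N)) * ((g (Pi.single i 1)) j : N) := by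
      simp_rw [Finset.mul_sum, Finset.sum_mul]
      rw [Finset.sum_comm]
      refine Finset.sum_congr rfl fun i _ => Finset.sum_congr rfl fun k _ => ?_
      ring
    _ = 0 := by simp [h2]

/-- a linearly independent family of at most two vectors is contained in the span of two linearly
independent vectors -/
private theorem CC3b_two {K M : Type} [Field K] [AddCommGroup M] [Module K M]
    (hM : 3 ≤ Module.finrank K M) : ∀ k d : ℕ, d + k = 2 → ∀ v : Fin d → M, LinearIndependent K v →
    ∃ v2 : Fin 2 → M, LinearIndependent K v2 ∧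
      Submodule.span K (Set.range v) ≤ Submodule.span K (Set.range v2) := by
  intro k
  induction k with
  | zero =>
    intro d hd v hv
    obtain rfl : d = 2 := by omega
    exact ⟨v, hv, le_refl _⟩
  | succ k ih =>
    intro d hd v hv
    obtain ⟨x, hx⟩ := exists_linearIndependent_snoc_of_lt_finrank hv (by omega)
    obtain ⟨v2, h2, h3⟩ := ih (d + 1) (by omega) _ hx
    refine ⟨v2, h2, le_trans (Submodule.span_mono ?_) h3⟩
    rintro _ ⟨i, rfl⟩
    exact ⟨i.castSucc, by simp⟩

/-- PROOF. If `c0, c1, c2` are linearly independent over `N`: `b = ![c0, c1, c2]`, `X = ![r, r t, r t²]`, the form is `X 0 X 2 - X 1 ²`. Otherwise there are (`3 ≤ n`) linearly independent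
`b 0, b 1, b 2` with entries in `Kc` such that `c0, c1, c2` are in the span (over `Kc`) of `b 0, b 1`: the vectors `c_i` as vectors over `Kc` are linearly dependent (linear
independence does not depend on the field: `LinearIndependent` over `Kc` of vectors of `Fin n → Kc` gives it over `N`, e.g. by a minor, `LinearIndependent.map_of_injective`-type lemmas or
`Matrix.rank`), so their span `W` over `Kc` has dimension `≤ 2 < n`; extend a basis of `W` (or any subspace of dimension two containing `W`) to three independent vectors of `Fin n → Kc`.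
The form is `X 2 ²`. (`qf c X = c 0 X 0² + c 1 X 1² + c 2 X 2² + c 3 X 1 X 2 + c 4 X 0 X 2 + c 5 X 0 X 1`, Q5/CDefs.lean.) -/
theorem CC_plane {B N : Type} [Field B] [Field N] [Algebra B N] (hn : 3 ≤ n)
    (c0 c1 c2 : Fin n → N) :
    ∃ (b : Fin 3 → Fin n → Kc B c0 c1 c2) (c : Fin 6 → Kc B c0 c1 c2),
      LinearIndependent N (fun k i => (b k i : N)) ∧ c ≠ 0 ∧
      ∀ (N' : Type) [Field N'] [Algebra N N'] (r t : N'), ∃ X : Fin 3 → N',
        (fun i => r * (algebraMap N N' (c0 i) + algebraMap N N' (c1 i) * t +
          algebraMap N N' (c2 i) * t ^ 2)) = cv (fun k i => algebraMap N N' (b k i : N)) X ∧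
        qf (fun i => algebraMap N N' (c i : N)) X = 0 := by
  classical
  have hm0 : ∀ i, c0 i ∈ Kc B c0 c1 c2 := fun i =>
    subset_adjoin _ _ (Or.inl (Or.inl ⟨i, rfl⟩))
  have hm1 : ∀ i, c1 i ∈ Kc B c0 c1 c2 := fun i =>
    subset_adjoin _ _ (Or.inl (Or.inr ⟨i, rfl⟩))
  have hm2 : ∀ i, c2 i ∈ Kc B c0 c1 c2 := fun i =>
    subset_adjoin _ _ (Or.inr ⟨i, rfl⟩)
  set K := Kc B c0 c1 c2 with hK
  let C : Fin 3 → Fin n → K := ![fun i => ⟨c0 i, hm0 i⟩, fun i => ⟨c1 i, hm1 i⟩,
    fun i => ⟨c2 i, hm2 i⟩]
  by_cases hC : LinearIndependent K C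
  · refine ⟨C, ![0, -1, 0, 0, 1, 0], CC3b_li C hC, ?_, ?_⟩
    · intro h
      have h1 := congrFun h 4
      exact one_ne_zero h1
    · intro N' _ _ r t
      refine ⟨![r, r * t, r * t ^ 2], ?_, ?_⟩
      · funext i
        simp only [cv, Fin.sum_univ_three, C]
        simp
        ring
      · simp [qf]
        ring
  · have hfr : Module.finrank K (Fin n → K) = n := by simp
    have hlt : (Set.range C).finrank K ≤ 2 := by
      have h1 : (Set.range C).finrank K ≤ Fintype.card (Fin 3) := finrank_range_le_card C
      have h2 : Fintype.card (Fin 3) ≠ (Set.range C).finrank K := fun h3 =>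
        hC (linearIndependent_iff_card_eq_finrank_span.mpr h3)
      simp only [Fintype.card_fin] at h1 h2
      omega
    set W := Submodule.span K (Set.range C) with hW
    have hWfr : Module.finrank K W ≤ 2 := hlt
    let bW := Module.finBasis K W
    have hbW : LinearIndependent K (fun i => (bW i : Fin n → K)) :=
      bW.linearIndependent.map' W.subtype (Submodule.ker_subtype W)
    obtain ⟨v2, hv2, hv3⟩ := CC3b_two (K := K) (M := Fin n → K) (by rw [hfr]; exact hn)
      (2 - Module.finrank K W) (Module.finrank K W) (by omega) _ hbW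
    have hWle : W ≤ Submodule.span K (Set.range v2) := by
      refine le_trans ?_ hv3
      have h1 : Submodule.span K (Set.range fun i => (bW i : Fin n → K)) = W := by
        have h2 := congrArg (Submodule.map W.subtype) bW.span_eq
        rw [Submodule.map_span, ← Set.range_comp, Submodule.map_top, Submodule.range_subtype] at h2
        exact h2
      rw [h1]
    obtain ⟨x, hx⟩ := exists_linearIndependent_snoc_of_lt_finrank hv2 (by rw [hfr]; omega)
    have hco : ∀ k : Fin 3, ∃ p q : K, C k = p • v2 0 + q • v2 1 := by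
      intro k
      have h1 : C k ∈ Submodule.span K (Set.range v2) := hWle (Submodule.subset_span ⟨k, rfl⟩)
      have h2 : Set.range v2 = {v2 0, v2 1} := by
        ext z
        constructor
        · rintro ⟨i, rfl⟩
          fin_cases i
          · exact Or.inl rfl
          · exact Or.inr rfl
        · rintro (h | h)
          · exact ⟨0, h.symm⟩
          · exact ⟨1, h.symm⟩
      rw [h2, Submodule.mem_span_pair] at h1
      obtain ⟨p, q, h3⟩ := h1
      exact ⟨p, q, h3.symm⟩
    choose p q hpq using hco
    have h0 : ∀ i, c0 i = (p 0 : N) * (v2 0 i : N) + (q 0 : N) * (v2 1 i : N) := fun i =>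
      congrArg (fun z : K => (z : N)) (congrFun (hpq 0) i)
    have h1 : ∀ i, c1 i = (p 1 : N) * (v2 0 i : N) + (q 1 : N) * (v2 1 i : N) := fun i =>
      congrArg (fun z : K => (z : N)) (congrFun (hpq 1) i)
    have h2 : ∀ i, c2 i = (p 2 : N) * (v2 0 i : N) + (q 2 : N) * (v2 1 i : N) := fun i =>
      congrArg (fun z : K => (z : N)) (congrFun (hpq 2) i)
    refine ⟨Fin.snoc v2 x, ![0, 0, 1, 0, 0, 0], CC3b_li _ hx, ?_, ?_⟩
    · intro h
      have h1 := congrFun h 2
      exact one_ne_zero h1
    · intro N' _ _ r t
      refine ⟨![r * (algebraMap N N' (p 0) + algebraMap N N' (p 1) * t +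
        algebraMap N N' (p 2) * t ^ 2), r * (algebraMap N N' (q 0) + algebraMap N N' (q 1) * t +
        algebraMap N N' (q 2) * t ^ 2), 0], ?_, ?_⟩
      · funext i
        have e0 : (Fin.snoc v2 x : Fin 3 → Fin n → K) 0 = v2 0 := rfl
        have e1 : (Fin.snoc v2 x : Fin 3 → Fin n → K) 1 = v2 1 := rfl
        simp only [cv, Fin.sum_univ_three]
        rw [e0, e1, h0, h1, h2]
        simp
        ring
      · simp [qf]

end MP2619.Q6
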