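import Pool.Agent.Lib.MP_2619d0_ag.U.CC1
import Pool.Agent.Lib.MP_2619d0_ag.U.CC3
import Pool.Agent.Lib.MP_2619d0_ag.U.CC3b
import Pool.Agent.Lib.MP_2619d0_ag.Q5.G1
import Pool.Agent.Lib.MP_2619d0_ag.Q6.C10b
import Pool.Agent.Lib.MP_2619d0_ag.Q6.K5

/-!
Row cc-4: places which are not trivial on the field of the conic
-/

set_option autoImplicit false

namespace MP2619.Q6

open scoped NNReal
open IntermediateField MP2619.R MP2619.N Pool.Agent.Lib.MP_2619d0_ag Pool.Agent.Lib.MP_2619d0_ag.T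
  MP2619.Q5

variable {B N N' N2 : Type} [Field B] [Field N] [Field N'] [Field N2] [Algebra B N] [Algebra B N']
  [Algebra N N'] [IsScalarTower B N N'] [Algebra B N2] {n : ℕ} {FB : MvPolynomial (Fin n) B}
  {c0 c1 c2 : Fin n → N} {ρ η : N} {θ : N ≃ₐ[B] N}

private theorem CC4_alg {M' : Type} [Field M'] [Algebra B M'] {P : ValuationSubring M'}
    {φ : P →+* N2} (hφ : RMap B P φ) {p : M'} (hp0 : p ≠ 0) (hp1 : P.valuation p < 1) :
    Transcendental B p := by
  have hA : ∀ z ∈ (⊥ : Subalgebra B M'), z ∈ P ∧ (P.valuation z < 1 → z = 0) := by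
    intro z hz
    obtain ⟨b, rfl⟩ := Algebra.mem_bot.1 hz
    refine ⟨hφ.cst b, fun hv => ?_⟩
    by_contra hne
    have hb : b ≠ 0 := by
      rintro rfl
      exact hne (map_zero _)
    have h1 : P.valuation (algebraMap B M' b⁻¹) ≤ 1 :=
      (P.valuation_le_one_iff _).2 (hφ.cst b⁻¹)
    have h2 : P.valuation (algebraMap B M' b) * P.valuation (algebraMap B M' b⁻¹) = 1 := by
      rw [← map_mul, ← map_mul, mul_inv_cancel₀ hb, map_one, map_one]
    have h3 : P.valuation (algebraMap B M' b) * P.valuation (algebraMap B M' b⁻¹) < 1 :=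
      lt_of_le_of_lt (mul_le_of_le_one_right' h1) hv
    rw [h2] at h3
    exact lt_irrefl _ h3
  have h1 := transc_adj (⊥ : Subalgebra B M') hA p hp0 hp1
  intro halg
  apply h1
  obtain ⟨Q, hQ0, hQ⟩ := halg
  refine ⟨Q.map (algebraMap B (⊥ : Subalgebra B M')), ?_, ?_⟩
  · intro h2
    apply hQ0
    rw [← Polynomial.map_zero (algebraMap B (⊥ : Subalgebra B M'))] at h2
    exact Polynomial.map_injective _ (algebraMap B (⊥ : Subalgebra B M')).injective h2
  · rw [Polynomial.aeval_map_algebraMap]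
    exact hQ

private theorem CC4_ind {b : Fin 3 → Fin n → N} (hb : LinearIndependent N b) :
    LinearIndependent N' (fun k i => algebraMap N N' (b k i)) := by
  classical
  obtain ⟨g, hg⟩ := LinearMap.exists_leftInverse_of_injective (Fintype.linearCombination N b)
    (LinearMap.ker_eq_bot.2
      ((linearIndependent_iff_injective_fintypeLinearCombination (R := N) (v := b)).1 hb))
  have key : ∀ j k : Fin 3, ∑ i, b j i * g (Pi.single i 1) k = if j = k then 1 else 0 := by
    intro j k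
    have h1 : Fintype.linearCombination N b (Pi.single j 1) = b j := by
      rw [Fintype.linearCombination_apply_single, one_smul]
    have h2 : g (b j) = Pi.single j 1 := by
      have := congrArg (fun f => f (Pi.single j 1)) hg
      simp only [LinearMap.comp_apply, LinearMap.id_apply] at this
      rwa [h1] at this
    have h3 : b j = ∑ i, b j i • (Pi.single i (1 : N) : Fin n → N) := by
      funext m
      simp [Finset.sum_apply, Pi.single_apply]
    have h4 : g (b j) k = ∑ i, b j i * g (Pi.single i 1) k := by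
      conv_lhs => rw [h3]
      rw [map_sum, Finset.sum_apply]
      refine Finset.sum_congr rfl fun i _ => ?_
      rw [map_smul, Pi.smul_apply, smul_eq_mul]
    rw [← h4, h2, Pi.single_apply]
    by_cases hjk : j = k
    · rw [if_pos hjk, if_pos hjk.symm]
    · rw [if_neg hjk, if_neg (Ne.symm hjk)]
  rw [Fintype.linearIndependent_iff]
  intro X hX k
  have h5 : ∀ i, ∑ j, X j * algebraMap N N' (b j i) = 0 := by
    intro i
    have := congrFun hX i
    simpa [Finset.sum_apply] using this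
  have h6 : ∑ i, (∑ j, X j * algebraMap N N' (b j i)) * algebraMap N N' (g (Pi.single i 1) k) = 0 :=
    Finset.sum_eq_zero fun i _ => by rw [h5 i, zero_mul]
  have h7 : ∑ i, (∑ j, X j * algebraMap N N' (b j i)) * algebraMap N N' (g (Pi.single i 1) k) =
      ∑ j, X j * algebraMap N N' (∑ i, b j i * g (Pi.single i 1) k) := by
    simp only [Finset.sum_mul]
    rw [Finset.sum_comm]
    refine Finset.sum_congr rfl fun j _ => ?_
    rw [map_sum, Finset.mul_sum]
    refine Finset.sum_congr rfl fun i _ => ?_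
    rw [map_mul, mul_assoc]
  rw [h7] at h6
  have h8 : ∀ j, X j * algebraMap N N' (∑ i, b j i * g (Pi.single i 1) k) =
      if j = k then X j else 0 := by
    intro j
    rw [key]
    split_ifs
    · rw [map_one, mul_one]
    · rw [map_zero, mul_zero]
  rw [Finset.sum_congr rfl fun j _ => h8 j, Finset.sum_ite_eq' Finset.univ k X] at h6
  simpa using h6

/-- PROOF. `KE` = the image of `Kc` in `N'` (`IntermediateField.map`): `trdeg ≤ D`, `D + 3 ≤ n` (`h.trc`), and some `c ∈ Kc` has `c ∉ P`, so `c⁻¹ ∈ KE` is small and not zero: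
`trdeg_resI_lt` (Q5/G1; `D = D' + 1`; `D = 0` is impossible: then `KE` is algebraic over `B ⊆ P`): `trdeg B (resI hφ KE) ≤ D'`, `D' + 4 ≤ n`.
`CC_plane` (`3 ≤ n`), transported to `KE`, `CC_res`: `b'`, `c'`, and the coordinates of `φ X`, `φ Y` (`X`, `Y` are `r (c0 + c1 t + c2 t²)` with `r = η`, `t = ρ + E`, resp. `θ η`, `θ ρ + E`, see `qc`, `pc`).
`θ2` = `exists_res_aut` (Q6/C10b); it fixes `resI hφ KE`: `σ` fixes `KE`, because `θ` fixes `Kc` (`h.t0`, `h.t1`, `h.t2`). `h.moved`: `σ X = Y`, `σ Y = X`. `CPL` (Q6/K5.lean). -/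
theorem CC_nontriv [CharZero B] (hn : 3 ≤ n) (h : CD FB c0 c1 c2 ρ η θ) (E : N')
    (σ : N' ≃ₐ[B] N') (hσ : ∀ b : N, σ (algebraMap N N' b) = algebraMap N N' (θ b))
    (hσE : σ E = E) (P : ValuationSubring N') (hσP : ∀ c : N', σ c ∈ P ↔ c ∈ P)
    (X Y : Fin n → P) (hX : ∀ i, (X i : N') = qc c0 c1 c2 ρ η E i)
    (hY : ∀ i, (Y i : N') = qc c0 c1 c2 (θ ρ) (θ η) E i) {φ : P →+* N2} (hφ : RMap B P φ)
    (hK : ¬ ∀ c ∈ Kc B c0 c1 c2, algebraMap N N' c ∈ P)
    {A : Type} [Field A] [Algebra B A] [IsAlgClosed A] (V : Valuation A ℝ≥0) (hV2 : V 2 < 1)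
    (w : B) (hw : w ^ 2 + w + 1 = 0) (u : Fin n → A) (hu : IsGauss B V u)
    (huI : AlgebraicIndependent B u) (a : Fin n)
    (hfin : Module.finrank (adjoin B (Set.range (zg w (fun i => φ (X i)) (fun i => φ (Y i))
      (Pi.single a 1)))) N2 ≠ 0) :
    Even (gc V w u (fun i => φ (X i)) (fun i => φ (Y i)) (Pi.single a 1)) := by
  classical
  obtain ⟨D, hDn, hD⟩ := h.trc
  set ι : N →ₐ[B] N' := IsScalarTower.toAlgHom B N N' with hι
  have hιa : ∀ b : N, ι b = algebraMap N N' b := fun b => rfl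
  set KE : IntermediateField B N' := (Kc B c0 c1 c2).map ι with hKE
  have hmem : ∀ b ∈ Kc B c0 c1 c2, algebraMap N N' b ∈ KE := fun b hb => ⟨b, hb, rfl⟩
  have hKEd : Algebra.trdeg B KE ≤ D := by
    have := ((Kc B c0 c1 c2).equivMap ι).trdeg_eq
    rw [← this]
    exact hD
  -- a small element
  push Not at hK
  obtain ⟨c, hcK, hcP⟩ := hK
  set p : N' := (algebraMap N N' c)⁻¹ with hp
  have hpK : p ∈ KE := KE.inv_mem (hmem c hcK)
  have hc0 : algebraMap N N' c ≠ 0 := by
    intro h0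
    rw [h0] at hcP
    exact hcP P.zero_mem
  have hp0 : p ≠ 0 := inv_ne_zero hc0
  have hp1 : P.valuation p < 1 := by
    have h1 : 1 < P.valuation (algebraMap N N' c) := by
      rw [← not_le, P.valuation_le_one_iff]
      exact hcP
    rw [hp, map_inv₀]
    exact inv_lt_one_of_one_lt₀ h1
  -- the degree
  obtain ⟨D', rfl⟩ : ∃ D', D = D' + 1 := by
    rcases D with _ | D'
    · exfalso
      have h1 : Algebra.trdeg B KE = 0 := le_antisymm (by simpa using hKEd) bot_le
      rw [trdeg_eq_zero_iff] at h1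
      have h2 : IsAlgebraic B (⟨p, hpK⟩ : KE) := h1.isAlgebraic _
      have h3 : IsAlgebraic B p := h2.algHom KE.val
      exact CC4_alg hφ hp0 hp1 h3
    · exact ⟨D', rfl⟩
  have hres := trdeg_resI_lt hφ KE D' hKEd p hpK hp0 hp1
  -- the plane
  obtain ⟨b, cc, hb, hcc, hpl⟩ := CC_plane (B := B) hn c0 c1 c2
  let bE : Fin 3 → Fin n → KE := fun k i => ⟨algebraMap N N' (b k i : N), hmem _ (b k i).2⟩
  let cE : Fin 6 → KE := fun i => ⟨algebraMap N N' (cc i : N), hmem _ (cc i).2⟩
  have hbE : LinearIndependent N' (fun k i => (bE k i : N')) := CC4_ind hb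
  have hcE : cE ≠ 0 := by
    intro h0
    apply hcc
    funext i
    have h1 : algebraMap N N' (cc i : N) = 0 := congrArg Subtype.val (congrFun h0 i)
    have h2 : (cc i : N) = 0 := (algebraMap N N').injective (by rw [h1, map_zero])
    exact Subtype.ext h2
  obtain ⟨b', c', hb', hc', hlift⟩ := CC_res hφ KE bE cE hbE hcE
  obtain ⟨X', hX1, hX2⟩ := hpl N' (algebraMap N N' η) (algebraMap N N' ρ + E)
  obtain ⟨Y', hY1, hY2⟩ := hpl N' (algebraMap N N' (θ η)) (algebraMap N N' (θ ρ) + E)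
  obtain ⟨X2, hX3, hX4⟩ := hlift X X' (by
    rw [← hX1]
    funext i
    rw [hX]
    rfl) hX2
  obtain ⟨Y2, hY3, hY4⟩ := hlift Y Y' (by
    rw [← hY1]
    funext i
    rw [hY]
    rfl) hY2
  obtain ⟨θ2, hθ2⟩ := exists_res_aut σ P hσP φ hφ
  obtain ⟨hm1, hm2, -, -⟩ := h.moved E σ hσ hσE
  have hfixK : ∀ b ∈ Kc B c0 c1 c2, θ b = b := by
    intro b hb
    unfold Kc at hb
    induction hb using IntermediateField.adjoin_induction with
    | mem x hx =>
      rcases hx with (⟨i, rfl⟩ | ⟨i, rfl⟩) | ⟨i, rfl⟩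
      · exact h.t0 i
      · exact h.t1 i
      · exact h.t2 i
    | algebraMap x => exact θ.commutes x
    | add x y _ _ hx hy => rw [map_add, hx, hy]
    | inv x _ hx => rw [map_inv₀, hx]
    | mul x y _ _ hx hy => rw [map_mul, hx, hy]
  have hθ : ∀ m ∈ resI hφ KE, θ2 m = m := by
    intro m hm
    obtain ⟨a, haK, rfl⟩ := (mem_resI hφ KE m).1 hm
    rw [hθ2]
    congr 1
    apply Subtype.ext
    obtain ⟨b, hb, hba⟩ := haK
    change σ (a : N') = (a : N')
    rw [← hba]
    change σ (algebraMap N N' b) = algebraMap N N' b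
    rw [hσ, hfixK b hb]
  have hθx : ∀ i, θ2 (φ (X i)) = φ (Y i) := by
    intro i
    rw [hθ2]
    congr 1
    apply Subtype.ext
    change σ (X i : N') = (Y i : N')
    rw [hX, hm1, hY]
  have hθy : ∀ i, θ2 (φ (Y i)) = φ (X i) := by
    intro i
    rw [hθ2]
    congr 1
    apply Subtype.ext
    change σ (Y i : N') = (X i : N')
    rw [hY, hm2, hX]
  exact CPL D' (by omega) V hV2 w hw u hu huI (fun i => φ (X i)) (fun i => φ (Y i)) a hfin
    (resI hφ KE) hres b' hb' c' hc' X2 Y2 hX3 hY3 hX4 hY4 θ2 hθ hθx hθy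

end MP2619.Q6
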