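import Pool.Agent.Lib.MP_2619d0_ag.U.CC1
import Pool.Agent.Lib.MP_2619d0_ag.Q5.G1

/-!
Row cc-5a: residues, places which are trivial on the field of the conic
-/

set_option autoImplicit false

namespace MP2619.Q6

open scoped NNReal
open IntermediateField MP2619.R MP2619.N Pool.Agent.Lib.MP_2619d0_ag Pool.Agent.Lib.MP_2619d0_ag.T
  MP2619.Q5

/-- a valuation ring which contains a field contains its algebraic elements -/
private theorem CC5a_alg {L N' : Type} [Field L] [Field N'] [Algebra L N'] (P : ValuationSubring N')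
    (hL : ∀ c : L, algebraMap L N' c ∈ P) (w : N') (hw : IsAlgebraic L w) : w ∈ P := by
  have h1 : IsIntegral L w := hw.isIntegral
  obtain ⟨p, hp, hp0⟩ := h1
  let i : L →+* P := (algebraMap L N').codRestrict P hL
  have h2 : IsIntegral P w := by
    refine ⟨p.map i, hp.map i, ?_⟩
    rw [Polynomial.eval₂_map]
    have h3 : (algebraMap P N').comp i = algebraMap L N' := RingHom.ext fun c => rfl
    rw [h3]
    exact hp0
  obtain ⟨y, hy⟩ := IsIntegrallyClosed.isIntegral_iff.mp h2
  rw [← hy]
  exact y.2

/-- Residues over a valued field on which `P` is trivial: `K ≤ P`, `t` is not in `P` or its residue is algebraic over the residues of `K`, and `t` is transcendental over `K`; then every residue of an element of `K(t)` is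
algebraic over the field of the residues of `K`. PROOF. Suppose `φ z` is transcendental over `κ = resI hφ K` for a `z ∈ K(t) ∩ P`. Then (lift of algebraic independence, `ind_lift` in Q5/G1 over the constants
`K`; view `P` as a valuation ring over the constants `K`: `RMap K P φ` for the algebra `K → κ → N2`, or directly) `z` is transcendental over `K`, and `P` is trivial on `K(z)`. As `t` and `z` are both
transcendental over `K` in a field of transcendence degree one, `t` is algebraic over `K(z)`; a valuation ring which contains a field contains its algebraic closure, so `t ∈ P` and `P` is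
trivial on `K(z, t) ∋ t, t⁻¹`; so the residue map is injective on `K(z, t)` and `φ t` is transcendental over `κ`: contradiction in both cases. -/
theorem alg_res {B N' N2 : Type} [Field B] [Field N'] [Field N2] [Algebra B N'] [Algebra B N2]
    {P : ValuationSubring N'} {φ : P →+* N2} (hφ : RMap B P φ) (K : IntermediateField B N')
    (hK : ∀ c ∈ K, c ∈ P) (t : N') (ht : Transcendental K t)
    (ht' : ∀ h : t ∈ P, IsAlgebraic (resI hφ K) (φ ⟨t, h⟩)) (z : P)
    (hz : (z : N') ∈ adjoin B ((K : Set N') ∪ {t})) : IsAlgebraic (resI hφ K) (φ z) := by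
  by_contra hcon
  let i : K →+* P := (algebraMap K N').codRestrict P (fun c => hK _ c.2)
  let ψ : K →+* (resI hφ K) := (φ.comp i).codRestrict (resI hφ K)
    (fun c => (mem_resI hφ K _).2 ⟨i c, c.2, rfl⟩)
  have hψ : (algebraMap (resI hφ K) N2).comp ψ = φ.comp i := RingHom.ext fun c => rfl
  have hi : (algebraMap P N').comp i = algebraMap K N' := RingHom.ext fun c => rfl
  -- evaluation
  have hev : ∀ (w : P) (q : Polynomial K), ((Polynomial.eval₂ i w q : P) : N') = Polynomial.aeval (w : N') q := by
    intro w q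
    have h1 := Polynomial.hom_eval₂ q i (algebraMap P N') w
    rw [hi] at h1
    exact h1
  have hφev : ∀ (w : P) (q : Polynomial K), φ (Polynomial.eval₂ i w q) =
      Polynomial.aeval (φ w) (q.map ψ) := by
    intro w q
    rw [Polynomial.hom_eval₂, Polynomial.aeval_def, Polynomial.eval₂_map, hψ]
  have hne : ∀ q : Polynomial K, q ≠ 0 → φ (Polynomial.eval₂ i z q) ≠ 0 := by
    intro q hq h0
    rw [hφev] at h0
    exact hcon ⟨q.map ψ, (Polynomial.map_ne_zero_iff ψ.injective).2 hq, h0⟩
  have hunit : ∀ x : P, φ x ≠ 0 → ((x : N')⁻¹) ∈ P := by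
    intro x hx
    have h1 : P.valuation (x : N') = 1 := by
      refine le_antisymm ((P.valuation_le_one_iff _).2 x.2)
        (not_lt.1 fun h2 => hx ((hφ.zero _).2 h2))
    rw [← P.valuation_le_one_iff, map_inv₀, h1, inv_one]
  -- `K(z)` is contained in `P`
  have hL : ∀ c : (K⟮(z : N')⟯), algebraMap (K⟮(z : N')⟯) N' c ∈ P := by
    rintro ⟨c, hc⟩
    obtain ⟨r, s, hrs⟩ := (IntermediateField.mem_adjoin_simple_iff K c).1 hc
    change c ∈ P
    rw [hrs, ← hev, ← hev]
    by_cases hs : s = 0
    · rw [hs]
      simp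
    · rw [div_eq_mul_inv]
      exact P.mul_mem _ _ (Subtype.coe_prop _) (hunit _ (hne s hs))
  -- `z = a(t)/b(t)`
  have hz2 : (z : N') ∈ K⟮t⟯ := by
    have h1 := IntermediateField.restrictScalars_adjoin B K ({t} : Set N')
    rw [← h1] at hz
    exact hz
  obtain ⟨a, b, hab⟩ := (IntermediateField.mem_adjoin_simple_iff K (z : N')).1 hz2
  have hz0 : (z : N') ≠ 0 := by
    intro h0
    have h1 := hne Polynomial.X Polynomial.X_ne_zero
    rw [Polynomial.eval₂_X] at h1
    apply h1
    have h2 : z = 0 := Subtype.ext h0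
    rw [h2, map_zero]
  have hb : Polynomial.aeval t b ≠ 0 := by
    intro h0
    rw [h0, div_zero] at hab
    exact hz0 hab
  have hmul : Polynomial.aeval t a = (z : N') * Polynomial.aeval t b := by
    rw [hab, div_mul_cancel₀ _ hb]
  -- `t` is algebraic over `K(z)`
  let zL : (K⟮(z : N')⟯) := ⟨z, IntermediateField.mem_adjoin_simple_self K (z : N')⟩
  have hta : IsAlgebraic (K⟮(z : N')⟯) t := by
    refine ⟨a.map (algebraMap K (K⟮(z : N')⟯)) - Polynomial.C zL * b.map (algebraMap K (K⟮(z : N')⟯)), ?_, ?_⟩
    · intro h0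
      have hb0 : b ≠ 0 := by
        intro h1
        rw [h1] at hb
        exact hb (map_zero _)
      obtain ⟨l, hl⟩ : ∃ l, b.coeff l ≠ 0 := by
        by_contra h1
        push Not at h1
        exact hb0 (Polynomial.ext (by simpa using h1))
      have h2 := congrArg (fun p => Polynomial.coeff p l) h0
      simp only [Polynomial.coeff_sub, Polynomial.coeff_C_mul, Polynomial.coeff_map, Polynomial.coeff_zero] at h2
      have h3 : (a.coeff l : N') = (z : N') * (b.coeff l : N') := by
        have h4 := congrArg (algebraMap (K⟮(z : N')⟯) N') (sub_eq_zero.1 h2)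
        rw [map_mul] at h4
        exact h4
      have hbl : ((b.coeff l : K) : N') ≠ 0 := fun h5 => hl (Subtype.ext h5)
      have h6 : (z : N') = ((a.coeff l / b.coeff l : K) : N') := by
        have h7 : ((a.coeff l / b.coeff l : K) : N') = (a.coeff l : N') / (b.coeff l : N') := rfl
        rw [h7, h3, mul_div_cancel_right₀ _ hbl]
      have h8 := hne (Polynomial.X - Polynomial.C (a.coeff l / b.coeff l)) (Polynomial.X_sub_C_ne_zero _)
      apply h8
      have h9 : Polynomial.eval₂ i z (Polynomial.X - Polynomial.C (a.coeff l / b.coeff l)) = 0 := by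
        apply Subtype.ext
        rw [hev]
        simp only [map_sub, Polynomial.aeval_X, Polynomial.aeval_C]
        rw [h6]
        exact sub_self _
      rw [h9, map_zero]
    · rw [map_sub, map_mul, Polynomial.aeval_C, Polynomial.aeval_map_algebraMap, Polynomial.aeval_map_algebraMap, hmul]
      exact sub_self _
  have hint : Algebra.IsAlgebraic (K⟮(z : N')⟯) ((K⟮(z : N')⟯)⟮t⟯) :=
    IntermediateField.isAlgebraic_adjoin_simple hta.isIntegral
  have hmemP : ∀ w ∈ ((K⟮(z : N')⟯)⟮t⟯), w ∈ P := by
    intro w hw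
    refine CC5a_alg P hL w ?_
    have h1 := hint.isAlgebraic (⟨w, hw⟩ : ((K⟮(z : N')⟯)⟮t⟯))
    exact (IntermediateField.isAlgebraic_iff).1 h1
  have htL : t ∈ ((K⟮(z : N')⟯)⟮t⟯) := IntermediateField.mem_adjoin_simple_self _ t
  have htP : t ∈ P := hmemP t htL
  have hbL : Polynomial.aeval t b ∈ ((K⟮(z : N')⟯)⟮t⟯) := by
    rw [← Polynomial.aeval_map_algebraMap (K⟮(z : N')⟯) t b]
    exact (IntermediateField.mem_adjoin_simple_iff _ _).2
      ⟨b.map (algebraMap K (K⟮(z : N')⟯)), 1, by rw [map_one, div_one]⟩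
  have hbinv : (Polynomial.aeval t b)⁻¹ ∈ P := hmemP _ (inv_mem hbL)
  let tP : P := ⟨t, htP⟩
  have e1 : φ (Polynomial.eval₂ i tP b) ≠ 0 := by
    intro h0
    have h1 : (Polynomial.eval₂ i tP b) * ⟨(Polynomial.aeval t b)⁻¹, hbinv⟩ = 1 := by
      apply Subtype.ext
      change ((Polynomial.eval₂ i tP b : P) : N') * (Polynomial.aeval t b)⁻¹ = 1
      rw [hev]
      exact mul_inv_cancel₀ hb
    have h2 := congrArg φ h1
    rw [map_mul, h0, zero_mul, map_one] at h2
    exact zero_ne_one h2
  have e2 : Polynomial.eval₂ i tP a = z * Polynomial.eval₂ i tP b := by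
    apply Subtype.ext
    change ((Polynomial.eval₂ i tP a : P) : N') = (z : N') * ((Polynomial.eval₂ i tP b : P) : N')
    rw [hev, hev]
    exact hmul
  have e3 := congrArg φ e2
  rw [map_mul, hφev, hφev] at e3
  rw [hφev] at e1
  have e4 : φ z = Polynomial.aeval (φ tP) (a.map ψ) / Polynomial.aeval (φ tP) (b.map ψ) := by
    rw [e3, mul_div_cancel_right₀ _ e1]
  have hta2 : IsAlgebraic (resI hφ K) (φ tP) := ht' htP
  have hint2 : Algebra.IsAlgebraic (resI hφ K) ((resI hφ K)⟮φ tP⟯) :=
    IntermediateField.isAlgebraic_adjoin_simple hta2.isIntegral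
  have hmem : φ z ∈ ((resI hφ K)⟮φ tP⟯) :=
    (IntermediateField.mem_adjoin_simple_iff _ _).2 ⟨_, _, e4⟩
  have h1 := hint2.isAlgebraic (⟨φ z, hmem⟩ : ((resI hφ K)⟮φ tP⟯))
  exact hcon ((IntermediateField.isAlgebraic_iff).1 h1)

end MP2619.Q6
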