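import Pool.Agent.Lib.MP_2619d0_ag.U.CC1
import Pool.Agent.Lib.MP_2619d0_ag.U.CC5a
import Pool.Agent.Lib.MP_2619d0_ag.Q5.G1
import Pool.Agent.Lib.MP_2619d0_ag.Q6.CL6b
import Pool.Agent.Lib.MP_2619d0_ag.Q6.C6

/-!
Row cc-5: places which are trivial on the field of the conic
-/

set_option autoImplicit false

namespace MP2619.Q6

open scoped NNReal
open IntermediateField MP2619.R MP2619.N Pool.Agent.Lib.MP_2619d0_ag Pool.Agent.Lib.MP_2619d0_ag.T
  MP2619.Q5

variable {B N N' N2 : Type} [Field B] [Field N] [Field N'] [Field N2] [Algebra B N] [Algebra B N']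
  [Algebra N N'] [IsScalarTower B N N'] [Algebra B N2] {n : ℕ} {FB : MvPolynomial (Fin n) B}
  {c0 c1 c2 : Fin n → N} {ρ η : N} {θ : N ≃ₐ[B] N}

private theorem CC5_trdeg {B N2 : Type} [Field B] [Field N2] [Algebra B N2]
    (K F : IntermediateField B N2) (D : ℕ) (hK : Algebra.trdeg B K ≤ D)
    (hF : ∀ x ∈ F, IsAlgebraic K x) : Algebra.trdeg B F ≤ D := by
  let f : F →ₐ[B] algebraicClosure K N2 :=
    { toFun := fun x => ⟨(x : N2), mem_algebraicClosure_iff.2 (hF x x.2)⟩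
      map_one' := rfl
      map_mul' := fun _ _ => rfl
      map_zero' := rfl
      map_add' := fun _ _ => rfl
      commutes' := fun _ => rfl }
  have hf : Function.Injective f := f.toRingHom.injective
  have h1 := trdeg_le_of_injective f hf
  have h2 := trdeg_add_eq B K (A := algebraicClosure K N2)
  have h3 : Algebra.trdeg K (algebraicClosure K N2) = 0 := by
    have := algebraicClosure.isAlgebraic K N2
    exact trdeg_eq_zero
  rw [h3, add_zero] at h2
  rw [← h2] at h1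
  exact h1.trans hK

private theorem CC5_transc (K : IntermediateField B N) (E : N') (hEt : Transcendental N E) (r : N) :
    Transcendental (K.map (IsScalarTower.toAlgHom B N N')) (algebraMap N N' r + E) := by
  intro h
  let e := IntermediateField.equivMap K (IsScalarTower.toAlgHom B N N')
  let f : (K.map (IsScalarTower.toAlgHom B N N')) →+* N :=
    (K.val : K →+* N).comp (e.symm : (K.map (IsScalarTower.toAlgHom B N N')) →+* K)
  have hf : Function.Injective f := f.injective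
  have hc : (algebraMap N N').comp f = RingHom.comp (RingHom.id N')
      (algebraMap (K.map (IsScalarTower.toAlgHom B N N')) N') := by
    ext x
    obtain ⟨y, rfl⟩ := e.surjective x
    change algebraMap N N' ((e.symm (e y) : K) : N) = ((e y : (K.map (IsScalarTower.toAlgHom B N N'))) : N')
    rw [e.symm_apply_apply]
    rfl
  have h1 : IsAlgebraic N (algebraMap N N' r + E) := IsAlgebraic.ringHom_of_comp_eq f (RingHom.id N') h hf hc
  have h2 := h1.sub (isAlgebraic_algebraMap (R := N) (A := N') r)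
  rw [add_sub_cancel_left] at h2
  exact hEt h2

private theorem CC5_inv {P : ValuationSubring N'} {φ : P →+* N2} (hφ : RMap B P φ) (x : P)
    (hx : φ x ≠ 0) : ∃ h : ((x : N')⁻¹) ∈ P, φ ⟨(x : N')⁻¹, h⟩ = (φ x)⁻¹ := by
  have h1 : P.valuation (x : N') = 1 := by
    refine le_antisymm ((P.valuation_le_one_iff _).2 x.2)
      (not_lt.1 fun h2 => hx ((hφ.zero _).2 h2))
  have h2 : ((x : N')⁻¹) ∈ P := by
    rw [← P.valuation_le_one_iff, map_inv₀, h1, inv_one]
  have h3 : (x : N') ≠ 0 := by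
    intro h4
    rw [h4, map_zero] at h1
    exact zero_ne_one h1
  refine ⟨h2, ?_⟩
  have h4 : x * ⟨(x : N')⁻¹, h2⟩ = 1 := Subtype.ext (mul_inv_cancel₀ h3)
  have h5 : φ x * φ ⟨(x : N')⁻¹, h2⟩ = 1 := by rw [← map_mul, h4, map_one]
  exact eq_inv_of_mul_eq_one_right h5

private theorem CC5_ratio {P : ValuationSubring N'} {φ : P →+* N2} (hφ : RMap B P φ)
    (κ : IntermediateField B N2) (L : IntermediateField B N')
    (halg : ∀ z : P, (z : N') ∈ L → IsAlgebraic κ (φ z)) (X : Fin n → P) (a : N') (G : Fin n → N')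
    (hG : ∀ i, G i ∈ L) (hX : ∀ i, (X i : N') = a * G i) :
    ∀ x ∈ rat B (fun i => φ (X i)), IsAlgebraic κ x := by
  have h1 : rat B (fun i => φ (X i)) ≤ (algebraicClosure κ N2).restrictScalars B := by
    rw [rat, adjoin_le_iff]
    rintro _ ⟨i, j, rfl⟩
    change φ (X i) / φ (X j) ∈ algebraicClosure κ N2
    rw [mem_algebraicClosure_iff]
    by_cases h0 : φ (X j) = 0
    · rw [h0, div_zero]
      exact isAlgebraic_zero
    · obtain ⟨h2, h3⟩ := CC5_inv hφ (X j) h0
      have h4 : (X j : N') ≠ 0 := by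
        intro h5
        apply h0
        have h6 : X j = 0 := Subtype.ext h5
        rw [h6, map_zero]
      have ha : a ≠ 0 := by
        intro h5
        apply h4
        rw [hX, h5, zero_mul]
      have h5 := halg (X i * ⟨(X j : N')⁻¹, h2⟩) (by
        have h6 : ((X i * ⟨(X j : N')⁻¹, h2⟩ : P) : N') = (X i : N') / (X j : N') := by
          rw [div_eq_mul_inv]
          rfl
        rw [h6, hX i, hX j, mul_div_mul_left _ _ ha]
        exact div_mem (hG i) (hG j))
      rw [map_mul, h3, ← div_eq_mul_inv] at h5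
      exact h5
  intro x hx
  exact mem_algebraicClosure_iff.1 (h1 hx)

private theorem CC5_point {P : ValuationSubring N'} {φ : P →+* N2} {E : N'} (hEP : E ∈ P)
    (hE0 : φ ⟨E, hEP⟩ = 0) (r e : N) (hr : algebraMap N N' r + E ∈ P) (he : algebraMap N N' e ∈ P)
    (h0 : ∀ i, algebraMap N N' (c0 i) ∈ P) (h1 : ∀ i, algebraMap N N' (c1 i) ∈ P)
    (h2 : ∀ i, algebraMap N N' (c2 i) ∈ P) (X : Fin n → P)
    (hX : ∀ i, (X i : N') = qc c0 c1 c2 r e E i) (m : Fin n) :
    ∃ (b : N) (hb : algebraMap N N' b ∈ P), φ ⟨algebraMap N N' b, hb⟩ = φ (X m) := by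
  have hr' : algebraMap N N' r ∈ P := by
    have h3 := P.sub_mem hr hEP
    rwa [add_sub_cancel_right] at h3
  have hφr : φ ⟨algebraMap N N' r + E, hr⟩ = φ ⟨algebraMap N N' r, hr'⟩ := by
    have h3 : (⟨algebraMap N N' r + E, hr⟩ : P) = ⟨algebraMap N N' r, hr'⟩ + ⟨E, hEP⟩ := rfl
    rw [h3, map_add, hE0, add_zero]
  have hb : algebraMap N N' (pc c0 c1 c2 r e m) = ((⟨algebraMap N N' e, he⟩ *
      (⟨algebraMap N N' (c0 m), h0 m⟩ + ⟨algebraMap N N' (c1 m), h1 m⟩ * ⟨algebraMap N N' r, hr'⟩ +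
        ⟨algebraMap N N' (c2 m), h2 m⟩ * ⟨algebraMap N N' r, hr'⟩ ^ 2) : P) : N') := by
    unfold pc
    rw [map_mul, map_add, map_add, map_mul, map_mul, map_pow]
    rfl
  have hbP : algebraMap N N' (pc c0 c1 c2 r e m) ∈ P := by
    rw [hb]
    exact Subtype.coe_prop _
  refine ⟨pc c0 c1 c2 r e m, hbP, ?_⟩
  have e1 : (⟨algebraMap N N' (pc c0 c1 c2 r e m), hbP⟩ : P) = (⟨algebraMap N N' e, he⟩ *
      (⟨algebraMap N N' (c0 m), h0 m⟩ + ⟨algebraMap N N' (c1 m), h1 m⟩ * ⟨algebraMap N N' r, hr'⟩ +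
        ⟨algebraMap N N' (c2 m), h2 m⟩ * ⟨algebraMap N N' r, hr'⟩ ^ 2)) := Subtype.ext hb
  have e2 : X m = (⟨algebraMap N N' e, he⟩ *
      (⟨algebraMap N N' (c0 m), h0 m⟩ + ⟨algebraMap N N' (c1 m), h1 m⟩ *
        ⟨algebraMap N N' r + E, hr⟩ +
        ⟨algebraMap N N' (c2 m), h2 m⟩ * ⟨algebraMap N N' r + E, hr⟩ ^ 2)) := by
    apply Subtype.ext
    rw [hX m]
    rfl
  rw [e1, e2]
  simp only [map_mul, map_add, map_pow]
  rw [hφr]

/-- PROOF. `KE` = the image of `Kc` in `N'`, `KE ≤ P`, `κ = resI hφ KE` (`trdeg ≤ D`, `trdeg_resI`). `t = ι ρ + E`, `t' = ι (θ ρ) + E = -ι ρ + E` (`h.tr`), `σ t = t'`, so `t ∈ P ↔ t' ∈ P`. `E` is transcendental over `N`, so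
`t` is transcendental over `KE`. The claim: all ratios of the `φ (X i)` and of the `φ (Y i)` are algebraic over `κ`; then `rat ⊔ rat` is in the algebraic closure of `κ` in `N2`, of transcendence degree
`≤ D`, `D + 3 ≤ n`, against `trdeg_rat_rat` (Q6/C6). The ratios of the `X i` are residues of elements of `KE(t)` (`X i = ι η (ι c0 i + ι c1 i t + ι c2 i t²)`, choose `i1` with `φ (X i1) ≠ 0`; for the others
`X i / X i1` is in `P` with residue `φ (X i) / φ (X i1)`), of the `Y i` in `KE(t')`: `alg_res` for `t` and `t'`. So it remains to show: not (`t ∈ P` and `φ t` transcendental over `κ`) (and the same for `t'`; the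
same by `θ2` = `exists_res_aut` which fixes `κ`, or by `φ t' = - φ t` when `E` is small). Suppose `t ∈ P`. Then `t' ∈ P`, `2 E ∈ P`, `2 ι ρ ∈ P` (`2` is a unit of `P`), so `P.valuation E⁻¹ < 1` is impossible
(`E ≠ 0`) and we are in the second case of `hE`: `E` is small, `φ t = φ (ι ρ)`. If it is transcendental over `κ` then `P` is trivial on `KE(ι ρ)` (a polynomial in `ι ρ` over `KE` with small value, not zero, after division by a coefficient (`KE` is trivially valued) gives an algebraic relation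
for `φ (ι ρ)`), `hp`: some coordinate `c0 i + c1 i ρ + c2 i ρ² ≠ 0`, its image is a unit of `P`, `X i ∈ P`, so `ι η ∈ P`; `σ`: `ι (θ η) ∈ P`, and
`φ (X i) = φ (ι η) (φ (ι c0 i) + φ (ι c1 i) φ (ι ρ) + φ (ι c2 i) φ (ι ρ)²)`, the same for `Y`; `triv_of_full` (Q6/CL6b; compare `triv_main` there) with `S` = the residues of
`c0, c1, c2, ρ, η, θ η` and `z = zg ..`: all of `N` is in `P`, against `hE`. -/
theorem CC_triv [CharZero B] (h : CD FB c0 c1 c2 ρ η θ)
    (hfg : ∃ z0 : Fin n → N, AlgebraicIndependent B z0 ∧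
      Module.finrank (adjoin B (Set.range z0)) N ≠ 0) (E : N') (hEt : Transcendental N E)
    (σ : N' ≃ₐ[B] N') (hσ : ∀ b : N, σ (algebraMap N N' b) = algebraMap N N' (θ b))
    (hσE : σ E = E) (P : ValuationSubring N') (hσP : ∀ c : N', σ c ∈ P ↔ c ∈ P)
    (X Y : Fin n → P) (hX : ∀ i, (X i : N') = qc c0 c1 c2 ρ η E i)
    (hY : ∀ i, (Y i : N') = qc c0 c1 c2 (θ ρ) (θ η) E i) {φ : P →+* N2} (hφ : RMap B P φ)
    (hK : ∀ c ∈ Kc B c0 c1 c2, algebraMap N N' c ∈ P)
    (hE : P.valuation E⁻¹ < 1 ∨ (P.valuation E < 1 ∧ ¬ ∀ b : N, algebraMap N N' b ∈ P))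
    (hp : pc c0 c1 c2 ρ η ≠ 0) (wB : B) (γ : Fin n → ZMod 3)
    (hind : AlgebraicIndependent B (zg wB (fun i => φ (X i)) (fun i => φ (Y i)) γ)) : False := by
  classical
  obtain ⟨D, hD, htr⟩ := h.trc
  obtain ⟨KE, hKE⟩ : ∃ KE : IntermediateField B N', KE =
    (Kc B c0 c1 c2).map (IsScalarTower.toAlgHom B N N') := ⟨_, rfl⟩
  have hKEt : Algebra.trdeg B KE ≤ D := by
    rw [hKE, ← (IntermediateField.equivMap (Kc B c0 c1 c2)
      (IsScalarTower.toAlgHom B N N')).trdeg_eq]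
    exact htr
  have hKP : ∀ c ∈ KE, c ∈ P := by
    intro c hc
    rw [hKE] at hc
    obtain ⟨c', hc', rfl⟩ := hc
    exact hK c' hc'
  have hκ := trdeg_resI hφ KE D hKEt
  have hm0 : ∀ i, algebraMap N N' (c0 i) ∈ KE := fun i => by
    rw [hKE]
    exact ⟨c0 i, subset_adjoin _ _ (Or.inl (Or.inl ⟨i, rfl⟩)), rfl⟩
  have hm1 : ∀ i, algebraMap N N' (c1 i) ∈ KE := fun i => by
    rw [hKE]
    exact ⟨c1 i, subset_adjoin _ _ (Or.inl (Or.inr ⟨i, rfl⟩)), rfl⟩
  have hm2 : ∀ i, algebraMap N N' (c2 i) ∈ KE := fun i => by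
    rw [hKE]
    exact ⟨c2 i, subset_adjoin _ _ (Or.inr ⟨i, rfl⟩), rfl⟩
  have hP0 : ∀ i, algebraMap N N' (c0 i) ∈ P := fun i => hKP _ (hm0 i)
  have hP1 : ∀ i, algebraMap N N' (c1 i) ∈ P := fun i => hKP _ (hm1 i)
  have hP2 : ∀ i, algebraMap N N' (c2 i) ∈ P := fun i => hKP _ (hm2 i)
  have hσt : σ (algebraMap N N' ρ + E) = algebraMap N N' (θ ρ) + E := by
    rw [map_add, hσ, hσE]
  have hEne : E ≠ 0 := by
    rintro rfl
    exact hEt isAlgebraic_zero
  have hsum : (algebraMap N N' ρ + E) + (algebraMap N N' (θ ρ) + E) = 2 * E := by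
    rw [h.tr, map_neg]
    ring
  -- if `t` is in `P`, then `E` is small
  have key : algebraMap N N' ρ + E ∈ P → algebraMap N N' (θ ρ) + E ∈ P ∧ E ∈ P ∧
      P.valuation E < 1 ∧ ¬ ∀ b : N, algebraMap N N' b ∈ P := by
    intro ht
    have ht' : algebraMap N N' (θ ρ) + E ∈ P := by
      rw [← hσt]
      exact (hσP _).2 ht
    have hEP : E ∈ P := by
      have h1 : algebraMap B N' (2⁻¹) * ((algebraMap N N' ρ + E) + (algebraMap N N' (θ ρ) + E)) ∈ P :=
        P.mul_mem _ _ (hφ.cst _) (P.add_mem _ _ ht ht')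
      have h2 : algebraMap B N' (2⁻¹) * ((algebraMap N N' ρ + E) + (algebraMap N N' (θ ρ) + E)) = E := by
        rw [hsum, map_inv₀, map_ofNat]
        have h3 : (2 : N') ≠ 0 := by
          have h4 : algebraMap B N' 2 ≠ 0 := by
            rw [Ne, map_eq_zero]
            exact two_ne_zero
          rwa [map_ofNat] at h4
        rw [← mul_assoc, inv_mul_cancel₀ h3, one_mul]
      rwa [h2] at h1
    refine ⟨ht', hEP, ?_⟩
    rcases hE with hE1 | hE1
    · exfalso
      have h1 : P.valuation E⁻¹ * P.valuation E = 1 := by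
        rw [← map_mul, inv_mul_cancel₀ hEne, map_one]
      have h2 : P.valuation E ≤ 1 := (P.valuation_le_one_iff _).2 hEP
      have h3 : P.valuation E⁻¹ * P.valuation E < 1 := (mul_le_of_le_one_right' h2).trans_lt hE1
      rw [h1] at h3
      exact lt_irrefl _ h3
    · exact hE1
  have halg_t : ∀ ht : algebraMap N N' ρ + E ∈ P,
      IsAlgebraic (resI hφ KE) (φ ⟨algebraMap N N' ρ + E, ht⟩) := by
    intro ht
    by_contra hcon
    obtain ⟨ht', hEP, hE1, hE2⟩ := key ht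
    have hE0 : φ ⟨E, hEP⟩ = 0 := (hφ.zero _).2 hE1
    have hunit : ∀ (x : N) (hx : algebraMap N N' x ∈ KE), x ≠ 0 →
        φ ⟨algebraMap N N' x, hKP _ hx⟩ ≠ 0 := by
      intro x hx hx0 h0
      have hx1 : algebraMap N N' x ≠ 0 := (map_ne_zero _).2 hx0
      have h1 : (algebraMap N N' x)⁻¹ ∈ P := hKP _ (KE.inv_mem hx)
      have h2 : (⟨algebraMap N N' x, hKP _ hx⟩ : P) * ⟨(algebraMap N N' x)⁻¹, h1⟩ = 1 :=
        Subtype.ext (mul_inv_cancel₀ hx1)
      have h3 := congrArg φ h2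
      rw [map_mul, h0, zero_mul, map_one] at h3
      exact zero_ne_one h3
    obtain ⟨i, hi⟩ := Function.ne_iff.1 hp
    have hi' : η * (c0 i + c1 i * ρ + c2 i * ρ ^ 2) ≠ 0 := hi
    -- the polynomial
    let k0 : resI hφ KE := ⟨φ ⟨algebraMap N N' (c0 i), hP0 i⟩, ⟨_, hm0 i, rfl⟩⟩
    let k1 : resI hφ KE := ⟨φ ⟨algebraMap N N' (c1 i), hP1 i⟩, ⟨_, hm1 i, rfl⟩⟩
    let k2 : resI hφ KE := ⟨φ ⟨algebraMap N N' (c2 i), hP2 i⟩, ⟨_, hm2 i, rfl⟩⟩
    have hpoly : φ ⟨algebraMap N N' (c0 i), hP0 i⟩ + φ ⟨algebraMap N N' (c1 i), hP1 i⟩ *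
        φ ⟨algebraMap N N' ρ + E, ht⟩ + φ ⟨algebraMap N N' (c2 i), hP2 i⟩ *
        φ ⟨algebraMap N N' ρ + E, ht⟩ ^ 2 ≠ 0 := by
      intro h0
      have h1 : Polynomial.aeval (φ ⟨algebraMap N N' ρ + E, ht⟩)
          (Polynomial.C k0 + Polynomial.C k1 * Polynomial.X + Polynomial.C k2 * Polynomial.X ^ 2) = 0 := by
        simp only [map_add, map_mul, map_pow, Polynomial.aeval_C, Polynomial.aeval_X]
        exact h0
      have h2 : Polynomial.C k0 + Polynomial.C k1 * Polynomial.X +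
          Polynomial.C k2 * Polynomial.X ^ 2 = 0 := by
        by_contra h3
        exact hcon ⟨_, h3, h1⟩
      have h3 : k0 = 0 := by
        have := congrArg (fun q => Polynomial.coeff q 0) h2
        simpa using this
      have h4 : k1 = 0 := by
        have := congrArg (fun q => Polynomial.coeff q 1) h2
        simpa [Polynomial.coeff_X, Polynomial.coeff_C] using this
      have h5 : k2 = 0 := by
        have := congrArg (fun q => Polynomial.coeff q 2) h2
        simpa [Polynomial.coeff_X, Polynomial.coeff_C] using this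
      have g0 : c0 i = 0 := by
        by_contra hne
        exact hunit _ (hm0 i) hne (congrArg Subtype.val h3)
      have g1 : c1 i = 0 := by
        by_contra hne
        exact hunit _ (hm1 i) hne (congrArg Subtype.val h4)
      have g2 : c2 i = 0 := by
        by_contra hne
        exact hunit _ (hm2 i) hne (congrArg Subtype.val h5)
      apply hi'
      rw [g0, g1, g2]
      ring
    obtain ⟨G, hG⟩ : ∃ G : P, G = ⟨algebraMap N N' (c0 i), hP0 i⟩ +
      ⟨algebraMap N N' (c1 i), hP1 i⟩ * ⟨algebraMap N N' ρ + E, ht⟩ +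
      ⟨algebraMap N N' (c2 i), hP2 i⟩ * ⟨algebraMap N N' ρ + E, ht⟩ ^ 2 := ⟨_, rfl⟩
    have hφG : φ G ≠ 0 := by
      rw [hG]
      simp only [map_mul, map_add, map_pow]
      exact hpoly
    obtain ⟨hGi, -⟩ := CC5_inv hφ G hφG
    have hG0 : (G : N') ≠ 0 := by
      intro h5
      apply hφG
      have h6 : G = 0 := Subtype.ext h5
      rw [h6, map_zero]
    have hXG : (X i : N') = algebraMap N N' η * (G : N') := by
      rw [hX i, hG]
      rfl
    have hη : algebraMap N N' η ∈ P := by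
      have h1 := P.mul_mem _ _ (X i).2 hGi
      rwa [hXG, mul_assoc, mul_inv_cancel₀ hG0, mul_one] at h1
    have hθη : algebraMap N N' (θ η) ∈ P := by
      rw [← hσ]
      exact (hσP _).2 hη
    set S : Set N2 := {z | ∃ (b : N) (hb : algebraMap N N' b ∈ P),
      φ ⟨algebraMap N N' b, hb⟩ = z} with hS
    have hX' : ∀ m, φ (X m) ∈ S := fun m =>
      CC5_point hEP hE0 ρ η ht hη hP0 hP1 hP2 X hX m
    have hY' : ∀ m, φ (Y m) ∈ S := fun m =>
      CC5_point hEP hE0 (θ ρ) (θ η) ht' hθη hP0 hP1 hP2 Y hY m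
    refine hE2 (triv_of_full hfg P hφ S (fun z hz => hz) _ hind fun m => ?_)
    exact add_mem (mul_mem ((adjoin B S).algebraMap_mem _) (subset_adjoin _ _ (hX' m)))
      (subset_adjoin _ _ (hY' m))
  have halg_t' : ∀ ht' : algebraMap N N' (θ ρ) + E ∈ P,
      IsAlgebraic (resI hφ KE) (φ ⟨algebraMap N N' (θ ρ) + E, ht'⟩) := by
    intro ht'
    have ht : algebraMap N N' ρ + E ∈ P := by
      rw [← hσP, hσt]
      exact ht'
    obtain ⟨-, hEP, hE1, -⟩ := key ht
    have hE0 : φ ⟨E, hEP⟩ = 0 := (hφ.zero _).2 hE1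
    have h1 : (⟨algebraMap N N' (θ ρ) + E, ht'⟩ : P) =
        ⟨E, hEP⟩ + ⟨E, hEP⟩ - ⟨algebraMap N N' ρ + E, ht⟩ := by
      apply Subtype.ext
      change algebraMap N N' (θ ρ) + E = E + E - (algebraMap N N' ρ + E)
      rw [h.tr, map_neg]
      ring
    rw [h1, map_sub, map_add, hE0, add_zero, zero_sub]
    exact (halg_t ht).neg
  -- the ratios
  have htK : Transcendental KE (algebraMap N N' ρ + E) := by
    rw [hKE]
    exact CC5_transc (Kc B c0 c1 c2) E hEt ρ
  have htK' : Transcendental KE (algebraMap N N' (θ ρ) + E) := by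
    rw [hKE]
    exact CC5_transc (Kc B c0 c1 c2) E hEt (θ ρ)
  have hG : ∀ (t : N') (i : Fin n), algebraMap N N' (c0 i) + algebraMap N N' (c1 i) * t +
      algebraMap N N' (c2 i) * t ^ 2 ∈ adjoin B ((KE : Set N') ∪ {t}) := by
    intro t i
    have h1 : ∀ c ∈ KE, c ∈ adjoin B ((KE : Set N') ∪ {t}) := fun c hc =>
      subset_adjoin _ _ (Or.inl hc)
    have h2 : t ∈ adjoin B ((KE : Set N') ∪ {t}) := subset_adjoin _ _ (Or.inr rfl)
    exact add_mem (add_mem (h1 _ (hm0 i)) (mul_mem (h1 _ (hm1 i)) h2))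
      (mul_mem (h1 _ (hm2 i)) (pow_mem h2 2))
  have hrX := CC5_ratio hφ (resI hφ KE) _ (fun z hz => alg_res hφ KE hKP _ htK halg_t z hz) X
    (algebraMap N N' η) _ (hG (algebraMap N N' ρ + E)) (fun i => by rw [hX i]; rfl)
  have hrY := CC5_ratio hφ (resI hφ KE) _ (fun z hz => alg_res hφ KE hKP _ htK' halg_t' z hz) Y
    (algebraMap N N' (θ η)) _ (hG (algebraMap N N' (θ ρ) + E)) (fun i => by rw [hY i]; rfl)
  refine trdeg_rat_rat D hD wB (fun i => φ (X i)) (fun i => φ (Y i)) γ ?_ hind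
  apply CC5_trdeg (resI hφ KE) _ D hκ
  have hle : (rat B (fun i => φ (X i)) ⊔ rat B (fun i => φ (Y i)) : IntermediateField B N2) ≤
      (algebraicClosure (resI hφ KE) N2).restrictScalars B :=
    sup_le (fun x hx => mem_algebraicClosure_iff.2 (hrX x hx))
      (fun x hx => mem_algebraicClosure_iff.2 (hrY x hx))
  intro x hx
  exact mem_algebraicClosure_iff.1 (hle hx)

end MP2619.Q6
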