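import Pool.Agent.Lib.MP_2619d0_ag.U.CC2
import Pool.Agent.Lib.MP_2619d0_ag.U.CC4
import Pool.Agent.Lib.MP_2619d0_ag.U.CC5
import Pool.Agent.Lib.MP_2619d0_ag.Q6.CL8b

/-!
Row cc-6: LEMMA CC
-/

set_option autoImplicit false

namespace MP2619.Q6

open scoped NNReal
open IntermediateField MP2619.R MP2619.N Pool.Agent.Lib.MP_2619d0_ag Pool.Agent.Lib.MP_2619d0_ag.T
  MP2619.Q5

variable {n : ℕ} {F : MvPolynomial (Fin n) ℂ} {J : Type} {z : Exp3 n ⊕ J → ℂ} {A : Type} [Field A]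
  [CharZero A] [Algebra ℂ A] {u l : Fin n → A} {v2 : Valuation ℚ ℝ≥0} {V : Valuation A ℝ≥0}

/-- LEMMA CC -/
theorem CC (hn : 5 ≤ n) (S : St F z u l v2 V) (k1 : IntermediateField (Qz z) ℂ)
    (hk1 : FiniteDimensional (Qz z) k1) (w : k1) (hom : w ^ 2 + w + 1 = 0) {B : Type}
    [Field B] [Algebra B k1] [Algebra B A] [IsScalarTower B k1 A] (e : k1) (j : J)
    (hB : BE z k1 B e j) (hB' : BE z k1 B e⁻¹ j) (wB : B) (hw : algebraMap B k1 wB = w)
    (FB : MvPolynomial (Fin n) B)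
    (hF : MvPolynomial.map ((algebraMap k1 ℂ).comp (algebraMap B k1)) FB = F) (b : Fin n)
    {N : Type} [Field N] [Algebra B N] {c0 c1 c2 : Fin n → N} {ρ η : N}
    {θ : N ≃ₐ[B] N} (h : CD FB c0 c1 c2 ρ η θ)
    (hfg : ∃ z0 : Fin n → N, AlgebraicIndependent B z0 ∧
      Module.finrank (adjoin B (Set.range z0)) N ≠ 0) :
    Even (gc V wB u (pc c0 c1 c2 ρ η) (pc c0 c1 c2 (θ ρ) (θ η)) (Pi.single b 1)) := by
  have : CharZero B := (algebraMap B k1).charZero
  have := S.ctx.closed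
  have hu : AlgebraicIndependent ℂ u := S.ctx.ind.comp Sum.inl Sum.inl_injective
  have hu1 : AlgebraicIndependent k1 u := hu.restrictScalars (algebraMap k1 ℂ).injective
  have hu2 : AlgebraicIndependent B u := hu1.restrictScalars (algebraMap B k1).injective
  have hw2 : wB ^ 2 + wB + 1 = 0 := (algebraMap B k1).injective (by
    rw [map_add, map_add, map_pow, hw, map_one, map_zero, hom])
  obtain ⟨hV2, hGk⟩ := St_gauss S b k1
  have hG : IsGauss B V u := gauss_restrict V u hGk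
  by_cases hp : pc c0 c1 c2 ρ η = 0
  · -- the points are zero
    have hz : gc V wB u (pc c0 c1 c2 ρ η) (pc c0 c1 c2 (θ ρ) (θ η)) (Pi.single b 1) = 0 := by
      by_contra hne
      have h1 := (zg_ind V wB u hu2 _ _ _ hne).ne_zero b
      apply h1
      have hp1 : pc c0 c1 c2 ρ η b = 0 := congrFun hp b
      have hp2 : pc c0 c1 c2 (θ ρ) (θ η) b = 0 := by rw [← h.point.1 b, hp1, map_zero]
      unfold zg
      rw [hp1, hp2]
      simp
    rw [hz]
    exact Even.zero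
  refine CC_path hn S k1 hk1 w hom e j hB hB' wB hw FB hF b h hfg ?_
  intro N' _ _ _ _ N2 _ _ E θ' σ P X Y φ hCD hθρ hθη hσ hσE hEt hσP hX hY hφ hE hind hfin
  rw [← hθρ, ← hθη] at hY
  by_cases hK : ∀ c ∈ Kc B c0 c1 c2, algebraMap N N' c ∈ P
  · exact absurd (CC_triv hCD hfg E hEt σ hσ hσE P hσP X Y hX hY hφ hK hE hp wB _ hind) id
  · exact CC_nontriv (by omega) hCD E σ hσ hσE P hσP X Y hX hY hφ hK V hV2 wB hw2 u hG hu2 b hfin

end MP2619.Q6
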