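import Pool.Agent.Lib.MP_2619d0_ag.Q6.CLDefs

/-!
# Lemma CC (conjugate points on a conic): definitions
-/

set_option autoImplicit false

namespace MP2619.Q6

open scoped NNReal
open IntermediateField MP2619.R MP2619.N Pool.Agent.Lib.MP_2619d0_ag Pool.Agent.Lib.MP_2619d0_ag.T
  MP2619.Q5

/-- all points `r (c0 + T c1 + T² c2)` are zeros of `FB` -/
def ConIn {B N : Type} [Field B] [Field N] [Algebra B N] {n : ℕ} (FB : MvPolynomial (Fin n) B)
    (c0 c1 c2 : Fin n → N) : Prop :=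
  MvPolynomial.aeval (fun i => MvPolynomial.X 0 * (MvPolynomial.C (c0 i) +
    MvPolynomial.C (c1 i) * MvPolynomial.X 1 + MvPolynomial.C (c2 i) * MvPolynomial.X 1 ^ 2) :
    Fin n → MvPolynomial (Fin 2) N) FB = 0

/-- the field of the conic -/
def Kc (B : Type) {N : Type} [Field B] [Field N] [Algebra B N] {n : ℕ} (c0 c1 c2 : Fin n → N) :
    IntermediateField B N := adjoin B (Set.range c0 ∪ Set.range c1 ∪ Set.range c2)

/-- the point `η (c0 + ρ c1 + ρ² c2)` -/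
def pc {N : Type} [Field N] {n : ℕ} (c0 c1 c2 : Fin n → N) (ρ η : N) : Fin n → N :=
  fun i => η * (c0 i + c1 i * ρ + c2 i * ρ ^ 2)

/-- the point with the parameter `ρ + E` over a larger field -/
def qc {N N' : Type} [Field N] [Field N'] [Algebra N N'] {n : ℕ} (c0 c1 c2 : Fin n → N) (ρ η : N)
    (E : N') : Fin n → N' :=
  pc (fun i => algebraMap N N' (c0 i)) (fun i => algebraMap N N' (c1 i))
    (fun i => algebraMap N N' (c2 i)) (algebraMap N N' ρ + E) (algebraMap N N' η)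

/-- The conic `C(T) = c0 + T c1 + T² c2` in `F = 0`, fixed by `θ`, over a field of transcendence degree at most `n - 3`. The two
points are `η C(ρ)` and `θ(η) C(θ ρ)`, `θ ρ = - ρ`. -/
structure CD {B N : Type} [Field B] [Field N] [Algebra B N] {n : ℕ} (FB : MvPolynomial (Fin n) B)
    (c0 c1 c2 : Fin n → N) (ρ η : N) (θ : N ≃ₐ[B] N) : Prop where
  t0 : ∀ i, θ (c0 i) = c0 i
  t1 : ∀ i, θ (c1 i) = c1 i
  t2 : ∀ i, θ (c2 i) = c2 i
  tr : θ ρ = -ρ
  te : θ (θ η) = η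
  e0 : η ≠ 0
  n2 : c2 ≠ 0
  con : ConIn FB c0 c1 c2
  trc : ∃ D : ℕ, D + 3 ≤ n ∧ Algebra.trdeg B (Kc B c0 c1 c2) ≤ D

end MP2619.Q6
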