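import Pool.Agent.Lib.MP_2619d0_ag.U.EDefs

/-!
Row e2-2: scaling
-/

set_option autoImplicit false

namespace MP2619.Q6

open scoped NNReal
open IntermediateField MP2619.R MP2619.N Pool.Agent.Lib.MP_2619d0_ag Pool.Agent.Lib.MP_2619d0_ag.T
  MP2619.Q5

variable {B M L : Type} [Field B] [Field M] [Field L] [Algebra B M] [Algebra B L] {n : ℕ}
  {FB : MvPolynomial (Fin n) B} {P : ValuationSubring M} {φ : P →+* L} {rm : RMap B P φ}
  {σ : M ≃ₐ[B] M} {Q1 : IntermediateField B M} {G : Fin n → Polynomial P} {d1 d2 : P}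
  {q α β : M} {x y : Fin n → P} {w : B} {a : Fin n}

private theorem E2_eval {P : ValuationSubring M} (f : Polynomial P) (t : P) (N : ℕ) (hN : f.natDegree < N) :
    ((f.eval t : P) : M) = ∑ k ∈ Finset.range N, (f.coeff k : M) * (t : M) ^ k := by
  rw [Polynomial.eval_eq_sum_range' hN]
  push_cast
  rfl

private theorem E2_poly {P : ValuationSubring M} (q : ℕ → P) (N : ℕ) (hq : ∀ k, N ≤ k → q k = 0) :
    ∃ g : Polynomial P, (∀ k, g.coeff k = q k) ∧ g.natDegree ≤ N := by
  classical
  refine ⟨∑ k ∈ Finset.range N, Polynomial.monomial k (q k), ?_, ?_⟩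
  · intro k
    rw [Polynomial.finsetSum_coeff]
    simp only [Polynomial.coeff_monomial]
    rw [Finset.sum_ite_eq' (Finset.range N) k]
    split_ifs with h
    · rfl
    · rw [Finset.mem_range, not_lt] at h
      exact (hq k h).symm
  · rw [Polynomial.natDegree_le_iff_coeff_eq_zero]
    intro k hk
    rw [Polynomial.finsetSum_coeff]
    refine Finset.sum_eq_zero fun j hj => ?_
    rw [Polynomial.coeff_monomial, if_neg]
    rintro rfl
    rw [Finset.mem_range] at hj
    omega

/-- `Q1` plays no role. Choose `k0 ≤ 2`, `i0` with `P.valuation (coeff k0 (G i0) * s ^ k0)` maximal, `D0` = this product; by `E.low` some `coeff k (G i)`, `k ≤ 2`, is a unit of `P`, so `D0 ≠ 0` and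
`P.valuation (s ^ 3) < P.valuation (s ^ 2) ≤ P.valuation D0`; for `k ≥ 3`: `P.valuation (coeff k (G i) * s ^ k) ≤ P.valuation (s ^ 3) < P.valuation D0`. `g i` = the polynomial with the coefficients
`coeff k (G i) * s ^ k / D0 ∈ P` (e.g. `∑ k ∈ range (natDegree (G i) + 1), monomial k ⟨_, _⟩`). The last claims: `eval` as a sum; `E.van` for `u = s t` and `r / D0`. -/
theorem Dz.scaled (E : Dz FB rm σ Q1 G d1 d2 q α β x y w a) (s : M) (hs0 : s ≠ 0)
    (hs : P.valuation s < 1) :
    ∃ (g : Fin n → Polynomial P) (k0 : ℕ) (i0 : Fin n) (D0 : M), k0 ≤ 2 ∧ D0 ≠ 0 ∧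
      D0 = ((G i0).coeff k0 : M) * s ^ k0 ∧ (g i0).coeff k0 = 1 ∧
      (∀ i k, ((g i).coeff k : M) * D0 = ((G i).coeff k : M) * s ^ k) ∧
      (∀ i k, 3 ≤ k → φ ((g i).coeff k) = 0) ∧
      (∀ (r : M) (t : P), MvPolynomial.aeval (fun i => r * (((g i).eval t : P) : M)) FB = 0) ∧
      (∀ i (t u : P), (u : M) = s * t → (((G i).eval u : P) : M) = D0 * (((g i).eval t : P) : M)) := by
  classical
  have hv0 : 0 < P.valuation s := (Valuation.pos_iff P.valuation).2 hs0
  have hsP : s ∈ P := (P.valuation_le_one_iff s).1 hs.le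
  obtain ⟨k1, hk1, i1, hki⟩ := E.low
  have hunit : P.valuation ((G i1).coeff k1 : M) = 1 := by
    refine le_antisymm (P.valuation_le_one _) ?_
    rw [← not_lt]
    exact fun h => hki ((rm.zero _).2 h)
  obtain ⟨⟨k0, i0⟩, -, hmax⟩ := Finset.exists_max_image (Finset.univ : Finset (Fin 3 × Fin n))
    (fun z => P.valuation (((G z.2).coeff (z.1 : ℕ) : M) * s ^ (z.1 : ℕ)))
    ⟨(⟨k1, by omega⟩, i1), Finset.mem_univ _⟩
  set D0 : M := ((G i0).coeff (k0 : ℕ) : M) * s ^ (k0 : ℕ) with hD0
  have hle2 : P.valuation (s ^ 2) ≤ P.valuation D0 := by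
    refine le_trans ?_ (hmax (⟨k1, by omega⟩, i1) (Finset.mem_univ _))
    show P.valuation (s ^ 2) ≤ P.valuation (((G i1).coeff k1 : M) * s ^ k1)
    rw [map_mul, hunit, one_mul, map_pow, map_pow]
    exact pow_le_pow_right_of_le_one' hs.le hk1
  have hlt3 : P.valuation (s ^ 3) < P.valuation D0 := by
    refine lt_of_lt_of_le ?_ hle2
    rw [map_pow, map_pow]
    exact pow_lt_pow_right_of_lt_one₀ hv0 hs (by norm_num)
  have hDpos : 0 < P.valuation D0 := lt_of_le_of_lt zero_le' hlt3
  have hD : D0 ≠ 0 := (Valuation.pos_iff P.valuation).1 hDpos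
  have hbig : ∀ i k, 3 ≤ k → P.valuation (((G i).coeff k : M) * s ^ k) < P.valuation D0 := by
    intro i k hk
    refine lt_of_le_of_lt ?_ hlt3
    rw [map_mul, map_pow, map_pow]
    calc P.valuation ((G i).coeff k : M) * P.valuation s ^ k ≤ 1 * P.valuation s ^ 3 :=
          mul_le_mul' (P.valuation_le_one _) (pow_le_pow_right_of_le_one' hs.le hk)
      _ = P.valuation s ^ 3 := one_mul _
  have hall : ∀ i k, P.valuation (((G i).coeff k : M) * s ^ k) ≤ P.valuation D0 := by
    intro i k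
    rcases Nat.lt_or_ge k 3 with h | h
    · exact hmax (⟨k, h⟩, i) (Finset.mem_univ _)
    · exact (hbig i k h).le
  have hmem : ∀ i k, ((G i).coeff k : M) * s ^ k / D0 ∈ P := by
    intro i k
    rw [← P.valuation_le_one_iff, map_div₀]
    exact div_le_one_of_le₀ (hall i k) zero_le'
  have hex : ∀ i, ∃ g : Polynomial P, (∀ k, g.coeff k = ⟨((G i).coeff k : M) * s ^ k / D0, hmem i k⟩) ∧
      g.natDegree ≤ (G i).natDegree + 1 := by
    intro i
    refine E2_poly (fun k => ⟨((G i).coeff k : M) * s ^ k / D0, hmem i k⟩) ((G i).natDegree + 1) ?_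
    intro k hk
    apply Subtype.ext
    have h0 : (G i).coeff k = 0 := Polynomial.coeff_eq_zero_of_natDegree_lt (by omega)
    simp [h0]
  choose g hg hgd using hex
  have hgM : ∀ i k, ((g i).coeff k : M) = ((G i).coeff k : M) * s ^ k / D0 := fun i k => by rw [hg i k]
  have heval : ∀ i (t u : P), (u : M) = s * t →
      (((G i).eval u : P) : M) = D0 * (((g i).eval t : P) : M) := by
    intro i t u hu
    rw [E2_eval (G i) u ((G i).natDegree + 2) (by omega), E2_eval (g i) t ((G i).natDegree + 2)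
      (by have := hgd i; omega), Finset.mul_sum]
    refine Finset.sum_congr rfl fun k _ => ?_
    rw [hgM i k, hu, mul_pow]
    field_simp
  refine ⟨g, k0, i0, D0, by omega, hD, rfl, ?_, ?_, ?_, ?_, heval⟩
  · rw [hg i0 k0]
    apply Subtype.ext
    show ((G i0).coeff (k0 : ℕ) : M) * s ^ (k0 : ℕ) / D0 = 1
    rw [← hD0]
    exact div_self hD
  · intro i k
    rw [hgM i k]
    field_simp
  · intro i k hk
    rw [rm.zero, hgM i k, map_div₀]
    exact (div_lt_one₀ hDpos).2 (hbig i k hk)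
  · intro r t
    have h := E.van (r / D0) (⟨s, hsP⟩ * t)
    have e : (fun i => r / D0 * (((G i).eval (⟨s, hsP⟩ * t) : P) : M)) =
        fun i => r * (((g i).eval t : P) : M) := by
      funext i
      rw [heval i t (⟨s, hsP⟩ * t) rfl]
      field_simp
    rw [e] at h
    exact h

end MP2619.Q6
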