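import Pool.Agent.Lib.MP_2619d0_ag.U.EDefs
import Pool.Agent.Lib.MP_2619d0_ag.Q6.T10

/-!
Row e2-3: the limit form and the translation
-/

set_option autoImplicit false

namespace MP2619.Q6

open scoped NNReal
open IntermediateField MP2619.R MP2619.N Pool.Agent.Lib.MP_2619d0_ag Pool.Agent.Lib.MP_2619d0_ag.T
  MP2619.Q5

variable {B M L : Type} [Field B] [Field M] [Field L] [Algebra B M] [Algebra B L] {n : ℕ}
  {FB : MvPolynomial (Fin n) B} {P : ValuationSubring M} {φ : P →+* L}

private theorem E3_cast (rm : RMap B P φ) (y : Fin n → P)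
    (hy : MvPolynomial.aeval (fun i => (y i : M)) FB = 0) :
    MvPolynomial.aeval (fun i => φ (y i)) FB = 0 := by
  let j0 : B →+* P := (algebraMap B M).codRestrict P rm.cst
  let _ : Algebra B P := j0.toAlgebra
  have castM : ((MvPolynomial.aeval y FB : P) : M) = MvPolynomial.aeval (fun j => (y j : M)) FB :=
    MvPolynomial.hom_eval₂ FB j0 P.subtype y
  have castN : φ (MvPolynomial.aeval y FB : P) = MvPolynomial.aeval (fun j => φ (y j)) FB := by
    have h1 := MvPolynomial.hom_eval₂ FB j0 φ y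
    have e1 : φ.comp j0 = algebraMap B L := by
      ext c
      exact rm.alg c
    rw [e1] at h1
    exact h1
  have hP : (MvPolynomial.aeval y FB : P) = 0 := by
    apply Subtype.ext
    rw [castM]
    exact hy
  rw [← castN, hP, map_zero]

private theorem E3_map (g : Polynomial P) (t : P) : (g.map φ).eval (φ t) = φ (g.eval t) := by
  rw [Polynomial.eval_map, Polynomial.eval₂_at_apply]

/-- `r`, `t` are residues (`rm.surj`) of `r1`, `t1 ∈ P`; the value at `r1`, `t1` is an element of `P` (`P` is a `B`-algebra by the constants, see `translate` in Q6/T10.lean for `castM`, `castN`), it is zero, so its residue is zero;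
`φ ((g i).eval t1) = ((g i).map φ).eval (φ t1)` (`Polynomial.eval_map`, `Polynomial.hom_eval₂`). -/
theorem lim_van (rm : RMap B P φ) (g : Fin n → Polynomial P)
    (hv : ∀ (r : M) (t : P), MvPolynomial.aeval (fun i => r * (((g i).eval t : P) : M)) FB = 0)
    (r t : L) : MvPolynomial.aeval (fun i => r * ((g i).map φ).eval t) FB = 0 := by
  obtain ⟨r1, rfl⟩ := rm.surj r
  obtain ⟨t1, rfl⟩ := rm.surj t
  have h := E3_cast rm (fun i => r1 * (g i).eval t1) (hv r1 t1)
  have e : (fun i => φ (r1 * (g i).eval t1)) = fun i => φ r1 * ((g i).map φ).eval (φ t1) := by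
    funext i
    rw [map_mul, E3_map]
  rw [e] at h
  exact h

/-- `α g(τ + v / α)`, `v ∈ P` with residue `b`: Taylor over the ring `P`: `g(τ + h) = g(τ) + h g'(τ) + h² ρ` with `ρ ∈ P` (`Polynomial.evalSubFactor`/`Polynomial.binomExpansion`: `(g i).eval (τ + h) = eval τ + eval τ g' * h + k h²`), `h = v β`, `β = α⁻¹ ∈ P` with residue zero: the
vector `α g_i(τ + v β) = x i + v g_i'(τ) + v² β ρ_i` is in `P` with residue `φ (x i) + b g_i'(τ)‾`, and it is a zero of `FB` by `hv`. Model: `translate` (Q6/T10.lean). -/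
theorem translate_g (rm : RMap B P φ) (g : Fin n → Polynomial P)
    (hv : ∀ (r : M) (t : P), MvPolynomial.aeval (fun i => r * (((g i).eval t : P) : M)) FB = 0)
    (α : M) (hα0 : α ≠ 0) (hα : P.valuation α⁻¹ < 1) (τ : P) (x : Fin n → P)
    (hx : ∀ i, (x i : M) = α * (((g i).eval τ : P) : M)) (b : L) :
    MvPolynomial.aeval (fun i => φ (x i) + b * ((g i).map φ).derivative.eval (φ τ)) FB = 0 := by
  have hβm : α⁻¹ ∈ P := (P.valuation_le_one_iff _).1 hα.le
  obtain ⟨β, hβ⟩ : ∃ β : P, (β : M) = α⁻¹ := ⟨⟨α⁻¹, hβm⟩, rfl⟩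
  have hφβ : φ β = 0 := (rm.zero β).2 (by rw [hβ]; exact hα)
  obtain ⟨u, hu⟩ := rm.surj b
  have hbin : ∀ i, ∃ ρ : P, (g i).eval (τ + u * β) =
      (g i).eval τ + (g i).derivative.eval τ * (u * β) + ρ * (u * β) ^ 2 := fun i =>
    ⟨(Polynomial.binomExpansion (g i) τ (u * β)).1, (Polynomial.binomExpansion (g i) τ (u * β)).2⟩
  choose ρ hρ using hbin
  let Y : Fin n → P := fun i => x i + u * (g i).derivative.eval τ + u ^ 2 * β * ρ i
  have hY : ∀ i, (Y i : M) = α * (((g i).eval (τ + u * β) : P) : M) := by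
    intro i
    rw [hρ i]
    push_cast
    have e2 : (Y i : M) = (x i : M) + (u : M) * (((g i).derivative.eval τ : P) : M) +
        (u : M) ^ 2 * (β : M) * (ρ i : M) := rfl
    rw [e2, hx i, hβ]
    field_simp
  have hYM : MvPolynomial.aeval (fun i => (Y i : M)) FB = 0 := by
    have e1 : (fun i => (Y i : M)) = fun i => α * (((g i).eval (τ + u * β) : P) : M) := funext hY
    rw [e1]
    exact hv α (τ + u * β)
  have h := E3_cast rm Y hYM
  have e4 : (fun i => φ (Y i)) =
      fun i => φ (x i) + b * ((g i).map φ).derivative.eval (φ τ) := by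
    funext i
    have e5 : φ (Y i) = φ (x i) + φ u * φ ((g i).derivative.eval τ) + φ u ^ 2 * φ β * φ (ρ i) := by
      simp only [Y, map_add, map_mul, map_pow]
    rw [e5, hφβ, hu, Polynomial.derivative_map, E3_map]
    ring
  rw [e4] at h
  exact h

end MP2619.Q6
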