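import Pool.Agent.Lib.MP_2619d0_ag.U.E1
import Pool.Agent.Lib.MP_2619d0_ag.U.E2
import Pool.Agent.Lib.MP_2619d0_ag.U.E3

/-!
Row e2-3b: the limit form of the scaled polynomials
-/

set_option autoImplicit false

namespace MP2619.Q6

open scoped NNReal
open IntermediateField MP2619.R MP2619.N Pool.Agent.Lib.MP_2619d0_ag Pool.Agent.Lib.MP_2619d0_ag.T
  MP2619.Q5

variable {B M L : Type} [Field B] [Field M] [Field L] [Algebra B M] [Algebra B L] {n : ℕ}
  {FB : MvPolynomial (Fin n) B} {P : ValuationSubring M} {φ : P →+* L} {rm : RMap B P φ}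
  {σ : M ≃ₐ[B] M} {Q1 : IntermediateField B M} {G : Fin n → Polynomial P} {d1 d2 : P}
  {q α β : M} {x y : Fin n → P} {w : B} {a : Fin n}

private theorem E3b_map (φ : P →+* L) (g : Polynomial P) (h : ∀ k, 3 ≤ k → φ (g.coeff k) = 0) :
    g.map φ = Polynomial.C (φ (g.coeff 0)) + Polynomial.C (φ (g.coeff 1)) * Polynomial.X +
      Polynomial.C (φ (g.coeff 2)) * Polynomial.X ^ 2 := by
  ext k
  rw [Polynomial.coeff_map, Polynomial.coeff_add, Polynomial.coeff_add, Polynomial.coeff_C,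
    Polynomial.coeff_C_mul, Polynomial.coeff_C_mul, Polynomial.coeff_X, Polynomial.coeff_X_pow]
  rcases k with _ | _ | _ | k
  · simp
  · simp
  · simp
  · rw [h (k + 1 + 1 + 1) (by omega)]
    simp

private theorem E3b_eval (φ : P →+* L) (g : Polynomial P) (h : ∀ k, 3 ≤ k → φ (g.coeff k) = 0)
    (t : L) : (g.map φ).eval t = φ (g.coeff 0) + φ (g.coeff 1) * t + φ (g.coeff 2) * t ^ 2 := by
  rw [E3b_map φ g h]
  simp

private theorem E3b_der (φ : P →+* L) (g : Polynomial P) (h : ∀ k, 3 ≤ k → φ (g.coeff k) = 0)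
    (t : L) : (g.map φ).derivative.eval t = φ (g.coeff 1) + 2 * φ (g.coeff 2) * t := by
  rw [E3b_map φ g h]
  simp
  ring

/-- `D0`, `g` as in `Dz.scaled`, `d1 = s τ`: then `x i = α D0 g_i(τ)` (`E.x_eq`). `b k i = φ ((g i).coeff k)`: the higher coefficients of `(g i).map φ` are zero, so `((g i).map φ).eval t = b 0 i + b 1 i t + b 2 i t²` (e.g. `(g i).map φ = C + C X + C X²`
by `Polynomial.ext`) and its derivative has the value `b 1 i + 2 b 2 i t`. The third claim is `lim_van`. If some `φ (g_i(τ)) ≠ 0`, `g_i(τ)` is a unit of `P`, `α D0 = x i / g_i(τ) ∈ P`, `η0 = φ (α D0)`; `η0 ≠ 0` because not all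
`φ (x i)` are zero (`E.ind`, see `hx0` in Q8/T20.lean: needs `φ (y i) = θ (φ (x i))`, `E.theta`). Otherwise `P.valuation (α D0)⁻¹ < 1` (some `x i` is a unit, `g_i(τ)` is small; `α ≠ 0` for the same reason): `translate_g`. -/
theorem Dz.lim (E : Dz FB rm σ Q1 G d1 d2 q α β x y w a) (g : Fin n → Polynomial P) (D0 s : M)
    (hD0 : D0 ≠ 0) (h3 : ∀ i k, 3 ≤ k → φ ((g i).coeff k) = 0)
    (hv : ∀ (r : M) (t : P), MvPolynomial.aeval (fun i => r * (((g i).eval t : P) : M)) FB = 0)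
    (he : ∀ i (t u : P), (u : M) = s * t → (((G i).eval u : P) : M) = D0 * (((g i).eval t : P) : M))
    (τ : P) (hτ : (d1 : M) = s * τ) :
    (∀ r t : L, MvPolynomial.aeval (fun i => r * (φ ((g i).coeff 0) + φ ((g i).coeff 1) * t +
      φ ((g i).coeff 2) * t ^ 2)) FB = 0) ∧
    ((∃ η0 : L, η0 ≠ 0 ∧ ∀ i, φ (x i) = η0 * (φ ((g i).coeff 0) + φ ((g i).coeff 1) * φ τ +
      φ ((g i).coeff 2) * φ τ ^ 2)) ∨
     ((∀ i, φ ((g i).coeff 0) + φ ((g i).coeff 1) * φ τ + φ ((g i).coeff 2) * φ τ ^ 2 = 0) ∧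
      ∀ b : L, MvPolynomial.aeval (fun i => φ (x i) + b * (φ ((g i).coeff 1) +
        2 * φ ((g i).coeff 2) * φ τ)) FB = 0)) := by
  have hev : ∀ i, φ ((g i).eval τ) = φ ((g i).coeff 0) + φ ((g i).coeff 1) * φ τ +
      φ ((g i).coeff 2) * φ τ ^ 2 := by
    intro i
    rw [← E3b_eval φ (g i) (h3 i), Polynomial.eval_map, Polynomial.eval₂_at_apply]
  have hx : ∀ i, (x i : M) = α * D0 * (((g i).eval τ : P) : M) := by
    intro i
    rw [E.x_eq, he i τ d1 hτ, mul_assoc]
  have hx0 : ∃ i, φ (x i) ≠ 0 := by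
    by_contra hcon
    push Not at hcon
    obtain ⟨θ, -, hθx, -⟩ := E.theta
    have hy : ∀ i, φ (y i) = 0 := by
      intro i
      rw [← hθx, hcon, map_zero]
    have h1 := E.ind.ne_zero a
    apply h1
    show algebraMap B L _ * φ (x a) + φ (y a) = 0
    rw [hcon, hy, mul_zero, add_zero]
  have hA0 : α * D0 ≠ 0 := by
    intro h
    obtain ⟨i, hi⟩ := hx0
    apply hi
    have h1 : x i = 0 := Subtype.ext (by rw [hx, h, zero_mul]; rfl)
    rw [h1, map_zero]
  have hunit : ∀ c : P, φ c ≠ 0 → P.valuation (c : M) = 1 := fun c hc =>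
    le_antisymm ((P.valuation_le_one_iff _).2 c.2) (not_lt.1 fun h => hc ((rm.zero _).2 h))
  refine ⟨fun r t => ?_, ?_⟩
  · have h1 := lim_van rm g hv r t
    have h2 : (fun i => r * ((g i).map φ).eval t) = fun i => r * (φ ((g i).coeff 0) +
        φ ((g i).coeff 1) * t + φ ((g i).coeff 2) * t ^ 2) := by
      funext i
      rw [E3b_eval φ (g i) (h3 i)]
    rw [h2] at h1
    exact h1
  by_cases hc : ∃ j, φ ((g j).eval τ) ≠ 0
  · left
    obtain ⟨j, hj⟩ := hc
    have hAP : α * D0 ∈ P := by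
      rw [← P.valuation_le_one_iff]
      have h1 : P.valuation (x j : M) ≤ 1 := (P.valuation_le_one_iff _).2 (x j).2
      rw [hx j, map_mul, hunit _ hj, mul_one] at h1
      exact h1
    have h2 : ∀ i, φ (x i) = φ ⟨α * D0, hAP⟩ * φ ((g i).eval τ) := by
      intro i
      rw [← map_mul]
      congr 1
      exact Subtype.ext (hx i)
    refine ⟨φ ⟨α * D0, hAP⟩, ?_, fun i => ?_⟩
    · intro h
      obtain ⟨i, hi⟩ := hx0
      apply hi
      rw [h2, h, zero_mul]
    · rw [h2, hev]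
  · right
    push Not at hc
    refine ⟨fun i => by rw [← hev, hc], fun b => ?_⟩
    have hA : P.valuation (α * D0)⁻¹ < 1 := by
      obtain ⟨i, hi⟩ := hx0
      have h1 := (rm.zero _).1 (hc i)
      have h2 : (((g i).eval τ : P) : M) = (x i : M) * (α * D0)⁻¹ := by
        rw [hx i, mul_comm, ← mul_assoc, inv_mul_cancel₀ hA0, one_mul]
      rw [h2, map_mul, hunit _ hi, one_mul] at h1
      exact h1
    have h3' := translate_g rm g hv (α * D0) hA0 hA τ x hx b
    have h4 : (fun i => φ (x i) + b * ((g i).map φ).derivative.eval (φ τ)) = fun i => φ (x i) +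
        b * (φ ((g i).coeff 1) + 2 * φ ((g i).coeff 2) * φ τ) := by
      funext i
      rw [E3b_der φ (g i) (h3 i)]
    rw [h4] at h3'
    exact h3'

end MP2619.Q6
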