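import Pool.Agent.Lib.MP_2619d0_ag.U.E1

/-!
Row e2-4A: the limit form is not zero at the parameter
-/

set_option autoImplicit false

namespace MP2619.Q6

open scoped NNReal
open IntermediateField MP2619.R MP2619.N Pool.Agent.Lib.MP_2619d0_ag Pool.Agent.Lib.MP_2619d0_ag.T
  MP2619.Q5

variable {B M L : Type} [Field B] [Field M] [Field L] [Algebra B M] [Algebra B L] {n : ℕ}
  {FB : MvPolynomial (Fin n) B} {P : ValuationSubring M} {φ : P →+* L} {rm : RMap B P φ}
  {σ : M ≃ₐ[B] M} {Q1 : IntermediateField B M} {G : Fin n → Polynomial P} {d1 d2 : P}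
  {q α β : M} {x y : Fin n → P} {w : B} {a : Fin n}

private theorem E4A_trdeg_mono {B' L' : Type} [Field B'] [Field L'] [Algebra B' L']
    {K1 K2 : IntermediateField B' L'} (h : K1 ≤ K2) :
    Algebra.trdeg B' K1 ≤ Algebra.trdeg B' K2 :=
  _root_.trdeg_le_of_injective (IntermediateField.inclusion h)
    (IntermediateField.inclusion_injective h)

/-- the two-variable polynomial of a conic, evaluated -/
private theorem E4A_eval {B' L' : Type} [Field B'] [Field L'] [Algebra B' L'] {m : ℕ}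
    (F0 : MvPolynomial (Fin m) B') (c0 c1 c2 : Fin m → L') (v : Fin 2 → L') :
    MvPolynomial.eval v (MvPolynomial.aeval (fun i => MvPolynomial.X 0 * (MvPolynomial.C (c0 i) +
      MvPolynomial.C (c1 i) * MvPolynomial.X 1 + MvPolynomial.C (c2 i) * MvPolynomial.X 1 ^ 2) :
      Fin m → MvPolynomial (Fin 2) L') F0) =
    MvPolynomial.aeval (fun i => v 0 * (c0 i + c1 i * v 1 + c2 i * v 1 ^ 2)) F0 := by
  have h2 := MvPolynomial.comp_aeval_apply (R := B') (fun i => MvPolynomial.X 0 *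
    (MvPolynomial.C (c0 i) + MvPolynomial.C (c1 i) * MvPolynomial.X 1 +
      MvPolynomial.C (c2 i) * MvPolynomial.X 1 ^ 2) : Fin m → MvPolynomial (Fin 2) L')
    ((MvPolynomial.aeval (R := L') v).restrictScalars B') F0
  have h3 : MvPolynomial.eval v (MvPolynomial.aeval (fun i => MvPolynomial.X 0 *
      (MvPolynomial.C (c0 i) + MvPolynomial.C (c1 i) * MvPolynomial.X 1 +
      MvPolynomial.C (c2 i) * MvPolynomial.X 1 ^ 2) : Fin m → MvPolynomial (Fin 2) L') F0) =
    ((MvPolynomial.aeval (R := L') v).restrictScalars B') (MvPolynomial.aeval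
      (fun i => MvPolynomial.X 0 * (MvPolynomial.C (c0 i) +
      MvPolynomial.C (c1 i) * MvPolynomial.X 1 + MvPolynomial.C (c2 i) * MvPolynomial.X 1 ^ 2) :
      Fin m → MvPolynomial (Fin 2) L') F0) := by
    rw [AlgHom.restrictScalars_apply]
    rfl
  rw [h3, h2]
  congr 2
  funext i
  simp

/-- the conic after an inversion of the parameter -/
private theorem E4A_con {B' L' : Type} [Field B'] [Field L'] [Algebra B' L'] [CharZero L'] {m : ℕ}
    (F0 : MvPolynomial (Fin m) B') (b0 b1 b2 : Fin m → L') (κ : L')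
    (hF : ∀ r t : L', MvPolynomial.aeval (fun i => r * (b0 i + b1 i * t + b2 i * t ^ 2)) F0 = 0) :
    ConIn F0 (fun i => κ ^ 2 * b0 i + κ * b1 i + b2 i) (fun i => -2 * κ * b0 i - b1 i) b0 := by
  have hX : (MvPolynomial.X 1 - MvPolynomial.C κ : MvPolynomial (Fin 2) L') ≠ 0 := by
    intro h
    have h1 := congrArg (MvPolynomial.eval ![0, κ + 1]) h
    simp at h1
  have h0 : (MvPolynomial.aeval (fun i => MvPolynomial.X 0 * (MvPolynomial.C
      (κ ^ 2 * b0 i + κ * b1 i + b2 i) +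
      MvPolynomial.C (-2 * κ * b0 i - b1 i) * MvPolynomial.X 1 +
      MvPolynomial.C (b0 i) * MvPolynomial.X 1 ^ 2) :
      Fin m → MvPolynomial (Fin 2) L') F0) * (MvPolynomial.X 1 - MvPolynomial.C κ) = 0 := by
    apply MvPolynomial.funext
    intro v
    rw [map_mul, map_zero, map_sub, MvPolynomial.eval_X, MvPolynomial.eval_C, E4A_eval]
    by_cases hv : v 1 - κ = 0
    · rw [hv, mul_zero]
    · have hv' : κ - v 1 ≠ 0 := by
        intro h
        apply hv
        rw [← neg_sub, h, neg_zero]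
      have h1 := hF (v 0 * (κ - v 1) ^ 2) (κ - v 1)⁻¹
      have e1 : (fun i => v 0 * (κ - v 1) ^ 2 * (b0 i + b1 i * (κ - v 1)⁻¹ +
          b2 i * (κ - v 1)⁻¹ ^ 2)) = fun i => v 0 * ((κ ^ 2 * b0 i + κ * b1 i + b2 i) +
          (-2 * κ * b0 i - b1 i) * v 1 + b0 i * v 1 ^ 2) := by
        funext i
        field_simp
        ring
      rw [e1] at h1
      rw [h1, zero_mul]
  exact (mul_eq_zero.1 h0).resolve_right hX

/-- PROOF. `C(t) = b0 + b1 t + b2 t²`, `t1 = 1/(κ - ρ)`. `C'(u) = b0 (κ - u)² + b1 (κ - u) + b2 = (κ² b0 + κ b1 + b2) + u (- 2 κ b0 - b1) + u² b0`, `C'(ρ) = (κ - ρ)² C(t1)`, `φ x = η0 C(t1) = η C'(ρ)`, `η = η0 t1²`.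
 (A1) `b0 ≠ 0`: `CD` with `c0, c1, c2` = the coefficients of `C'` and `ρ`, `η`, `θ`: `t0, t1, t2`: they are in `resI rm Q1`; `con`: the polynomial in two variables vanishes at all `(r, u)` with `u ≠ κ` because
 `F (r C'(u)) = F (r (κ - u)² C(1/(κ - u))) = 0`, so it is zero (multiply by `X 1 - κ` and use `MvPolynomial.funext`, `L` is infinite); `trc`: `Kc B c0 c1 c2 ≤ resI rm Q1`, `E.tr1`. The second point by applying `θ`.
 (A2) `b0 = 0`, `b1 ≠ 0`: `φ x = η (b2 + (κ - ρ) b1)`; `E.ln` with `a' = b1`, `S` = all `s ≠ - η (κ - ρ)`: `φ x + s b1 = η b2 + ν b1`, `ν = η (κ - ρ) + s ≠ 0`, and this is `r (b1 t + b2 t²)` for `t = η / ν`, `r = ν² / η`.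
 (A3) `b0 = b1 = 0`: `φ x = η b2`: `E.dead`. -/
theorem Dz.caseA [CharZero B] (E : Dz FB rm σ Q1 G d1 d2 q α β x y w a) (θ : L ≃ₐ[B] L)
    (hθx : ∀ i, θ (φ (x i)) = φ (y i)) (hθθ : ∀ z, θ (θ z) = z)
    (hθQ : ∀ z ∈ resI rm Q1, θ z = z) (b0 b1 b2 : Fin n → L) (h0 : ∀ i, b0 i ∈ resI rm Q1)
    (h1 : ∀ i, b1 i ∈ resI rm Q1) (h2 : ∀ i, b2 i ∈ resI rm Q1) (κ ρ t1 : L)
    (hκ : κ ∈ resI rm Q1) (hρ : θ ρ = -ρ) (ht1 : t1 * (κ - ρ) = 1)
    (hF : ∀ r t : L, MvPolynomial.aeval (fun i => r * (b0 i + b1 i * t + b2 i * t ^ 2)) FB = 0)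
    (η0 : L) (hη : η0 ≠ 0) (hx : ∀ i, φ (x i) = η0 * (b0 i + b1 i * t1 + b2 i * t1 ^ 2)) :
    Out FB (fun i => φ (x i)) (fun i => φ (y i)) := by
  have hL : CharZero L := charZero_of_injective_algebraMap (algebraMap B L).injective
  have hk : κ - ρ ≠ 0 := by
    intro h
    rw [h, mul_zero] at ht1
    exact zero_ne_one ht1
  have ht0 : t1 ≠ 0 := by
    intro h
    rw [h, zero_mul] at ht1
    exact zero_ne_one ht1
  obtain ⟨η, hη1⟩ : ∃ η : L, η = η0 * t1 ^ 2 := ⟨_, rfl⟩
  have hη0 : η ≠ 0 := by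
    rw [hη1]
    exact mul_ne_zero hη (pow_ne_zero 2 ht0)
  by_cases hb0 : b0 = 0
  · by_cases hb1 : b1 = 0
    · exfalso
      refine E.dead b2 h2 η ?_
      intro i
      rw [hx i, hb0, hb1, hη1]
      simp only [Pi.zero_apply]
      ring
    · -- (A2)
      refine E.ln b1 h1 hb1 {s | s ≠ -(η * (κ - ρ))} ?_ ?_
      · have : {s : L | s ≠ -(η * (κ - ρ))} = {-(η * (κ - ρ))}ᶜ := by
          ext s
          simp
        rw [this]
        exact (Set.finite_singleton _).infinite_compl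
      · intro s hs
        have hν : η * (κ - ρ) + s ≠ 0 := by
          intro h
          apply hs
          rw [eq_neg_iff_add_eq_zero, add_comm]
          exact h
        have h3 := hF ((η * (κ - ρ) + s) ^ 2 / η) (η / (η * (κ - ρ) + s))
        have e1 : (fun i => (η * (κ - ρ) + s) ^ 2 / η * (b0 i + b1 i * (η / (η * (κ - ρ) + s)) +
            b2 i * (η / (η * (κ - ρ) + s)) ^ 2)) = fun i => φ (x i) + s * b1 i := by
          funext i
          have e2 : φ (x i) = η * b2 i + η * (κ - ρ) * b1 i := by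
            have e3 : t1 = t1 ^ 2 * (κ - ρ) := by
              rw [pow_two, mul_assoc, ht1, mul_one]
            rw [hx i, hb0, hη1]
            simp only [Pi.zero_apply]
            have e4 : η0 * (0 + b1 i * t1 + b2 i * t1 ^ 2) =
                η0 * (b1 i * (t1 ^ 2 * (κ - ρ)) + b2 i * t1 ^ 2) := by
              rw [← e3]
              ring
            rw [e4]
            ring
          rw [e2, hb0]
          simp only [Pi.zero_apply]
          field_simp
          ring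
        rw [e1] at h3
        exact h3
  · -- (A1)
    right
    obtain ⟨D, hD, htr⟩ := E.tr1
    have hc0 : ∀ i, κ ^ 2 * b0 i + κ * b1 i + b2 i ∈ resI rm Q1 := fun i =>
      add_mem (add_mem (mul_mem (pow_mem hκ 2) (h0 i)) (mul_mem hκ (h1 i))) (h2 i)
    have hc1 : ∀ i, -2 * κ * b0 i - b1 i ∈ resI rm Q1 := by
      intro i
      have e1 : -2 * κ * b0 i - b1 i = -(κ * b0 i) - κ * b0 i - b1 i := by ring
      rw [e1]
      exact sub_mem (sub_mem (neg_mem (mul_mem hκ (h0 i))) (mul_mem hκ (h0 i))) (h1 i)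
    have hCD : CD FB (fun i => κ ^ 2 * b0 i + κ * b1 i + b2 i) (fun i => -2 * κ * b0 i - b1 i) b0
        ρ η θ := {
      t0 := fun i => hθQ _ (hc0 i)
      t1 := fun i => hθQ _ (hc1 i)
      t2 := fun i => hθQ _ (h0 i)
      tr := hρ
      te := hθθ η
      e0 := hη0
      n2 := hb0
      con := E4A_con FB b0 b1 b2 κ hF
      trc := by
        refine ⟨D, hD, le_trans (E4A_trdeg_mono ?_) htr⟩
        unfold Kc
        rw [adjoin_le_iff]
        rintro z ((⟨i, rfl⟩ | ⟨i, rfl⟩) | ⟨i, rfl⟩)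
        · exact hc0 i
        · exact hc1 i
        · exact h0 i }
    have hxp : (fun i => φ (x i)) = pc (fun i => κ ^ 2 * b0 i + κ * b1 i + b2 i)
        (fun i => -2 * κ * b0 i - b1 i) b0 ρ η := by
      funext i
      unfold pc
      rw [hx i, hη1]
      have e1 : η0 * (b0 i + b1 i * t1 + b2 i * t1 ^ 2) =
          η0 * (b0 i * (t1 * (κ - ρ)) ^ 2 + b1 i * t1 * (t1 * (κ - ρ)) + b2 i * t1 ^ 2) := by
        rw [ht1]
        ring
      rw [e1]
      ring
    refine ⟨_, _, _, ρ, η, θ, hCD, hxp, ?_⟩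
    funext i
    have h3 := hCD.point.1 i
    rw [← h3, ← hθx i]
    exact congrArg θ (congrFun hxp i)

end MP2619.Q6
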