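import Pool.Agent.Lib.MP_2619d0_ag.U.E1

/-!
Row e2-4B: the limit form is zero at the parameter
-/

set_option autoImplicit false

namespace MP2619.Q6

open scoped NNReal
open IntermediateField MP2619.R MP2619.N Pool.Agent.Lib.MP_2619d0_ag Pool.Agent.Lib.MP_2619d0_ag.T
  MP2619.Q5

variable {B M L : Type} [Field B] [Field M] [Field L] [Algebra B M] [Algebra B L] {n : ℕ}
  {FB : MvPolynomial (Fin n) B} {P : ValuationSubring M} {φ : P →+* L} {rm : RMap B P φ}
  {σ : M ≃ₐ[B] M} {Q1 : IntermediateField B M} {G : Fin n → Polynomial P} {d1 d2 : P}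
  {q α β : M} {x y : Fin n → P} {w : B} {a : Fin n}

/-- PROOF. Apply `θ` to `b0 + b1 t1 + b2 t1² = 0` (`θ` fixes the `b`; `θ t1 = t2 = 1/(κ + ρ)` because `θ (κ - ρ) = κ + ρ`): `b0 + b1 t2 + b2 t2² = 0`; `t1 ≠ t2` because `ρ ≠ 0`. So `b1 = - (t1 + t2) b2`, `b0 = t1 t2 b2`, and `b2 ≠ 0` (otherwise all are zero, `hne`).
`b1 + 2 b2 t1 = (t1 - t2) b2`: `F (φ x + b (t1 - t2) b2) = 0` for all `b`: `E.ln` with `a' = b2`, `S = univ`. -/
theorem Dz.caseB [CharZero B] (E : Dz FB rm σ Q1 G d1 d2 q α β x y w a) (θ : L ≃ₐ[B] L)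
    (hθQ : ∀ z ∈ resI rm Q1, θ z = z) (b0 b1 b2 : Fin n → L) (h0 : ∀ i, b0 i ∈ resI rm Q1)
    (h1 : ∀ i, b1 i ∈ resI rm Q1) (h2 : ∀ i, b2 i ∈ resI rm Q1) (κ ρ t1 : L)
    (hκ : κ ∈ resI rm Q1) (hρ : θ ρ = -ρ) (hρ0 : ρ ≠ 0) (ht1 : t1 * (κ - ρ) = 1)
    (hne : ∃ i, b0 i ≠ 0 ∨ b1 i ≠ 0 ∨ b2 i ≠ 0)
    (hz : ∀ i, b0 i + b1 i * t1 + b2 i * t1 ^ 2 = 0)
    (hF : ∀ b : L, MvPolynomial.aeval (fun i => φ (x i) + b * (b1 i + 2 * b2 i * t1)) FB = 0) :
    Out FB (fun i => φ (x i)) (fun i => φ (y i)) := by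
  have : CharZero L := charZero_of_injective_algebraMap (algebraMap B L).injective
  have ht10 : t1 ≠ 0 := left_ne_zero_of_mul_eq_one ht1
  have ht2 : θ t1 * (κ + ρ) = 1 := by
    have h := congrArg θ ht1
    rw [map_mul, map_sub, hθQ κ hκ, hρ, map_one, sub_neg_eq_add] at h
    exact h
  have hne12 : t1 - θ t1 ≠ 0 := by
    intro h
    have h' : θ t1 = t1 := (sub_eq_zero.mp h).symm
    rw [h'] at ht2
    have h3 : t1 * (2 * ρ) = 0 := by
      have : t1 * (2 * ρ) = t1 * (κ + ρ) - t1 * (κ - ρ) := by ring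
      rw [this, ht1, ht2, sub_self]
    rcases mul_eq_zero.mp h3 with h4 | h4
    · exact ht10 h4
    · rcases mul_eq_zero.mp h4 with h5 | h5
      · exact two_ne_zero h5
      · exact hρ0 h5
  have hz2 : ∀ i, b0 i + b1 i * θ t1 + b2 i * (θ t1) ^ 2 = 0 := by
    intro i
    have h := congrArg θ (hz i)
    rw [map_add, map_add, map_mul, map_mul, map_pow, hθQ _ (h0 i), hθQ _ (h1 i), hθQ _ (h2 i),
      map_zero] at h
    exact h
  have hb1 : ∀ i, b1 i = -(t1 + θ t1) * b2 i := by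
    intro i
    have h : (t1 - θ t1) * (b1 i + (t1 + θ t1) * b2 i) = 0 := by
      linear_combination hz i - hz2 i
    rcases mul_eq_zero.mp h with h' | h'
    · exact absurd h' hne12
    · linear_combination h'
  have hb2 : b2 ≠ 0 := by
    intro h
    obtain ⟨i, hi⟩ := hne
    have e2 : b2 i = 0 := by rw [h]; rfl
    have e1 : b1 i = 0 := by rw [hb1 i, e2, mul_zero]
    have e0 : b0 i = 0 := by
      have := hz i
      rw [e1, e2, zero_mul, zero_mul, add_zero, add_zero] at this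
      exact this
    rcases hi with hi | hi | hi
    · exact hi e0
    · exact hi e1
    · exact hi e2
  have : Infinite L := inferInstance
  refine E.ln b2 h2 hb2 Set.univ Set.infinite_univ (fun s _ => ?_)
  have h := hF (s / (t1 - θ t1))
  have e : (fun i => φ (x i) + s / (t1 - θ t1) * (b1 i + 2 * b2 i * t1)) =
      fun i => φ (x i) + s * b2 i := by
    funext i
    have e1 : b1 i + 2 * b2 i * t1 = (t1 - θ t1) * b2 i := by
      rw [hb1 i]; ring
    rw [e1, ← mul_assoc, div_mul_cancel₀ _ hne12]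
  rw [e] at h
  exact h

end MP2619.Q6
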