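import Pool.Agent.Lib.MP_2619d0_ag.U.E3b
import Pool.Agent.Lib.MP_2619d0_ag.U.E4a
import Pool.Agent.Lib.MP_2619d0_ag.U.E4A
import Pool.Agent.Lib.MP_2619d0_ag.U.E4B

/-!
Row e2-4: there is a scale
-/

set_option autoImplicit false

namespace MP2619.Q6

open scoped NNReal
open IntermediateField MP2619.R MP2619.N Pool.Agent.Lib.MP_2619d0_ag Pool.Agent.Lib.MP_2619d0_ag.T
  MP2619.Q5

variable {B M L : Type} [Field B] [Field M] [Field L] [Algebra B M] [Algebra B L] {n : ℕ}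
  {FB : MvPolynomial (Fin n) B} {P : ValuationSubring M} {φ : P →+* L} {rm : RMap B P φ}
  {σ : M ≃ₐ[B] M} {Q1 : IntermediateField B M} {G : Fin n → Polynomial P} {d1 d2 : P}
  {q α β : M} {x y : Fin n → P} {w : B} {a : Fin n}

/-- PROOF. `E.theta`, `E.pars`, `E.scaled`, `E.lim`, `E.caseA`, `E.caseB` -/
theorem Dz.withS [CharZero B] (E : Dz FB rm σ Q1 G d1 d2 q α β x y w a) (s : M) (hsQ : s ∈ Q1)
    (hs : P.valuation s * P.valuation ((d2 : M)⁻¹ - (d1 : M)⁻¹) = 1) :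
    Out FB (fun i => φ (x i)) (fun i => φ (y i)) := by
  obtain ⟨θ, hθ, hθx, hθy, hθθ, hθQ⟩ := E.theta
  obtain ⟨hs0, hs1, τ1, τ2, κ, ρ, hd1, hd2, hκ, hρ, hρ0, ht1, ht2⟩ := E.pars s hsQ hs θ hθ hθQ
  obtain ⟨g, k0, i0, D0, hk0, hD0, hD, h1, hco, h3, hv, he⟩ := E.scaled s hs0 hs1
  have hDQ : D0 ∈ Q1 := by
    rw [hD]
    exact mul_mem (E.co _ _) (pow_mem hsQ _)
  have hcQ : ∀ i k, φ ((g i).coeff k) ∈ resI rm Q1 := by
    intro i k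
    refine (mem_resI rm _ _).2 ⟨_, ?_, rfl⟩
    have h4 : ((g i).coeff k : M) = ((G i).coeff k : M) * s ^ k / D0 := by
      rw [eq_div_iff hD0, hco]
    rw [h4]
    exact div_mem (mul_mem (E.co _ _) (pow_mem hsQ _)) hDQ
  obtain ⟨hF, hA | hB⟩ := E.lim g D0 s hD0 h3 hv he τ1 hd1
  · obtain ⟨η0, hη, hx⟩ := hA
    exact E.caseA θ hθx hθθ hθQ _ _ _ (fun i => hcQ i 0) (fun i => hcQ i 1) (fun i => hcQ i 2)
      κ ρ (φ τ1) hκ hρ ht1 hF η0 hη hx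
  · refine E.caseB θ hθQ _ _ _ (fun i => hcQ i 0) (fun i => hcQ i 1) (fun i => hcQ i 2)
      κ ρ (φ τ1) hκ hρ hρ0 ht1 ⟨i0, ?_⟩ hB.1 hB.2
    have h5 : φ ((g i0).coeff k0) ≠ 0 := by
      rw [h1, map_one]
      exact one_ne_zero
    have h6 : k0 = 0 ∨ k0 = 1 ∨ k0 = 2 := by omega
    rcases h6 with rfl | rfl | rfl
    · exact Or.inl h5
    · exact Or.inr (Or.inl h5)
    · exact Or.inr (Or.inr h5)

end MP2619.Q6
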