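import Pool.Agent.Lib.MP_2619d0_ag.U.PDefs
import Pool.Agent.Lib.MP_2619d0_ag.Q5.G1

/-!
Row u1-1: the normalised family
-/

set_option autoImplicit false

namespace MP2619.Q6

open scoped NNReal
open IntermediateField MP2619.R MP2619.N Pool.Agent.Lib.MP_2619d0_ag Pool.Agent.Lib.MP_2619d0_ag.T
  MP2619.Q5

variable {k0 B M L : Type} [Field k0] [Field B] [Field M] [Field L] [Algebra k0 B]
  [Algebra k0 M] [Algebra k0 L] [Algebra B M] [Algebra B L] [IsScalarTower k0 B M]
  [IsScalarTower k0 B L] {n : ℕ} {FB : MvPolynomial (Fin n) B} {P : ValuationSubring M}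
  {φ : P →+* L} {rm : RMap B P φ} {σ : M ≃ₐ[B] M} {C : Fin n → Polynomial M} {e : ℕ}
  {h ε α β : M} {x y : Fin n → P} {w : B} {a : Fin n}

/-- a homogeneous relation at the multiples `γ a` holds at the residues of `a` -/
private theorem P1_rel {ι : Type} (rm0 : RMap k0 P φ) (a : ι → P) (γ : M) (hγ : γ ≠ 0)
    (g : MvPolynomial ι k0) (d : ℕ) (hg : g.IsHomogeneous d)
    (h0 : MvPolynomial.aeval (fun p => γ * (a p : M)) g = 0) :
    MvPolynomial.aeval (fun p => φ (a p)) g = 0 := by
  have h1 : MvPolynomial.aeval (fun p => γ * (a p : M)) g =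
      γ ^ d * MvPolynomial.aeval (fun p => (a p : M)) g := by
    rw [MvPolynomial.aeval_def, MvPolynomial.aeval_def, MvPolynomial.eval₂_eq,
      MvPolynomial.eval₂_eq, Finset.mul_sum]
    refine Finset.sum_congr rfl fun s hs => ?_
    have h2 : ∑ i ∈ s.support, s i = d := by
      have h3 := hg (MvPolynomial.mem_support_iff.1 hs)
      rw [← h3, Finsupp.weight_apply, Finsupp.sum]
      simp
    have h4 : ∏ i ∈ s.support, (γ * (a i : M)) ^ s i =
        γ ^ d * ∏ i ∈ s.support, (a i : M) ^ s i := by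
      simp_rw [mul_pow]
      rw [Finset.prod_mul_distrib, Finset.prod_pow_eq_pow_sum, h2]
    rw [h4]
    ring
  rw [h1] at h0
  have h2 : MvPolynomial.aeval (fun p => (a p : M)) g = 0 :=
    (mul_eq_zero.1 h0).resolve_left (pow_ne_zero _ hγ)
  rw [← eval_coe rm0.cst a g] at h2
  have h3 : MvPolynomial.eval₂ ((algebraMap k0 M).codRestrict P rm0.cst) a g = 0 := Subtype.ext h2
  have h4 := MvPolynomial.eval₂_comp_left φ ((algebraMap k0 M).codRestrict P rm0.cst) a g
  have h5 : φ.comp ((algebraMap k0 M).codRestrict P rm0.cst) = algebraMap k0 L :=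
    RingHom.ext fun c => rm0.alg c
  rw [h5, h3, map_zero] at h4
  rw [MvPolynomial.aeval_def]
  exact h4.symm

/-- Some coefficient is not zero (`E.x0`); there are finitely many (`E.deg`): let `γ` be one with `P.valuation γ` maximal, `Ct i` = the polynomial with the coefficients `(C i).coeff k / γ ∈ P`. Let `D i = (Ct i).map φ`: `natDegree ≤ e`, one
coefficient is `1`, and `Spc k0 C D`: a homogeneous relation `g` of degree `d` at the `c_{k i}` holds at the `c_{k i} / γ` (times `γ ^ d`), that is in `P`, and `φ` commutes with `aeval` (constants: `rm.restrict` (Q5/G1), compare `sp_res` in Q8/V0.lean).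
So `E.nt` gives the last two claims (`Polynomial.map_taylor`, `Polynomial.coeff_map`). -/
theorem EU.norm (E : EU (k0 := k0) FB rm σ C e h ε α β x y w a) :
    ∃ (γ : M) (Ct : Fin n → Polynomial P), γ ≠ 0 ∧ γ ∈ Cf B C ∧
      (∀ i k, ((C i).coeff k : M) = γ * ((Ct i).coeff k : P)) ∧
      (∀ i, (C i).natDegree ≤ e ∧ (Ct i).natDegree ≤ e) ∧
      (∀ i (t : P), (C i).eval (t : M) = γ * (((Ct i).eval t : P) : M)) ∧
      (∀ t : P, ∃ l ≤ 2, ∃ i, φ ((Polynomial.taylor t (Ct i)).coeff l) ≠ 0) ∧
      ∃ l ≤ 2, l ≤ e ∧ ∃ i, φ ((Ct i).coeff (e - l)) ≠ 0 := by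
  classical
  obtain ⟨i1, hi1⟩ := E.x0
  obtain ⟨j0, hj0, hmax⟩ := Finset.exists_max_image
    (Finset.univ ×ˢ Finset.range (e + 1) : Finset (Fin n × ℕ))
    (fun p => P.valuation ((C p.1).coeff p.2))
    ⟨(i1, 0), by simp⟩
  set γ : M := (C j0.1).coeff j0.2 with hγdef
  have hhi : ∀ i k, e < k → (C i).coeff k = 0 := fun i k hk =>
    Polynomial.coeff_eq_zero_of_natDegree_lt (lt_of_le_of_lt (E.deg i) hk)
  have hle : ∀ i k, P.valuation ((C i).coeff k) ≤ P.valuation γ := by
    intro i k
    by_cases hk : k ≤ e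
    · exact hmax (i, k) (by simp; omega)
    · rw [hhi i k (by omega), map_zero]
      exact zero_le
  have hγ0 : γ ≠ 0 := by
    intro h0
    apply hi1
    have h1 : C i1 = 0 := by
      ext k
      have h2 := hle i1 k
      rw [h0, map_zero, le_zero_iff, map_eq_zero] at h2
      rw [h2, Polynomial.coeff_zero]
    rw [h1, Polynomial.eval_zero]
  have hmem : ∀ i k, (C i).coeff k / γ ∈ P := by
    intro i k
    rw [← P.valuation_le_one_iff, map_div₀]
    exact div_le_one_of_le₀ (hle i k) zero_le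
  set c : Fin n → ℕ → P := fun i k => ⟨(C i).coeff k / γ, hmem i k⟩ with hcdef
  have hc : ∀ i k, γ * (c i k : M) = (C i).coeff k := fun i k => mul_div_cancel₀ _ hγ0
  set Ct : Fin n → Polynomial P := fun i => ∑ k ∈ Finset.range (e + 1), Polynomial.monomial k (c i k)
    with hCt
  have hco : ∀ i k, (Ct i).coeff k = c i k := by
    intro i k
    rw [hCt]
    simp only [Polynomial.finsetSum_coeff, Polynomial.coeff_monomial, Finset.sum_ite_eq',
      Finset.mem_range]
    split_ifs with hk
    · rfl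
    · refine Subtype.ext ?_
      change (0 : M) = (C i).coeff k / γ
      rw [hhi i k (by omega), zero_div]
  have hnat : ∀ i, (Ct i).natDegree ≤ e := by
    intro i
    rw [Polynomial.natDegree_le_iff_coeff_eq_zero]
    intro k hk
    rw [hco]
    refine Subtype.ext ?_
    change (C i).coeff k / γ = (0 : M)
    rw [hhi i k (by omega), zero_div]
  have heq : ∀ i, C i = Polynomial.C γ * (Ct i).map P.subtype := by
    intro i
    ext k
    rw [Polynomial.coeff_C_mul, Polynomial.coeff_map, hco]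
    exact (hc i k).symm
  have hSpc : Spc k0 C (fun i => (Ct i).map φ) := by
    intro g d hg h0
    have h1 := P1_rel (rm.restrict : RMap k0 P φ) (fun p : ℕ × Fin n => c p.2 p.1) γ hγ0 g d hg
      (by simpa only [hc] using h0)
    simpa only [Polynomial.coeff_map, hco] using h1
  have hD0 : (fun i => (Ct i).map φ) ≠ 0 := by
    intro h0
    have h1 := congrArg (fun p => Polynomial.coeff p j0.2) (congrFun h0 j0.1)
    simp only [Polynomial.coeff_map, hco, Pi.zero_apply, Polynomial.coeff_zero] at h1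
    have h2 : c j0.1 j0.2 = 1 := Subtype.ext (div_self hγ0)
    rw [h2, map_one] at h1
    exact one_ne_zero h1
  obtain ⟨hA, l, hl2, hle', i2, hi2⟩ := E.nt L (fun i => (Ct i).map φ)
    (fun i => (Polynomial.natDegree_map_le).trans (hnat i)) hD0 hSpc
  refine ⟨γ, Ct, hγ0, subset_adjoin _ _ ⟨j0.1, j0.2, rfl⟩, fun i k => by rw [hco]; exact (hc i k).symm,
    fun i => ⟨E.deg i, hnat i⟩, fun i t => ?_, fun t => ?_, l, hl2, hle', i2, ?_⟩
  · rw [heq i, Polynomial.eval_mul, Polynomial.eval_C, Polynomial.eval_map]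
    congr 1
    have := Polynomial.hom_eval₂ (Ct i) (RingHom.id P) P.subtype t
    rw [RingHom.comp_id] at this
    exact this.symm
  · obtain ⟨l, hl, i, hi⟩ := hA (φ t)
    refine ⟨l, hl, i, ?_⟩
    rw [← Polynomial.map_taylor, Polynomial.coeff_map] at hi
    exact hi
  · rw [Polynomial.coeff_map] at hi2
    exact hi2

end MP2619.Q6
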