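import Pool.Agent.Lib.MP_2619d0_ag.U.P7
import Pool.Agent.Lib.MP_2619d0_ag.U.P8
import Pool.Agent.Lib.MP_2619d0_ag.Q5.Lex
import Pool.Agent.Lib.MP_2619d0_ag.Q6.C7a
import Pool.Agent.Lib.MP_2619d0_ag.Q6.C12
import Pool.Agent.Lib.MP_2619d0_ag.Q5.M6a
import Pool.Agent.Lib.MP_2619d0_ag.Q8.M6

/-!
Row u1-10: the unipotent path: one place, the main place
-/

set_option autoImplicit false

namespace MP2619.Q6

open scoped NNReal
open IntermediateField MP2619.R MP2619.N Pool.Agent.Lib.MP_2619d0_ag Pool.Agent.Lib.MP_2619d0_ag.T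
  MP2619.Q5

/-- the unipotent path -/
structure PU (k0 : Type) {B M : Type} [Field k0] [Field B] [Field M] [Algebra k0 B] [Algebra k0 M]
    [Algebra B M] {n : ℕ} (FB : MvPolynomial (Fin n) B) (σ : M ≃ₐ[B] M)
    (C : Fin n → Polynomial M) (e : ℕ) (h ε α β : M) (x y : Fin n → M) : Prop where
  hom : FB.IsHomogeneous 3
  s_s : ∀ z, σ (σ z) = z
  s_C : ∀ i k, σ ((C i).coeff k) = (C i).coeff k
  s_h : σ h = h
  s_e : σ ε = -ε
  s_a : σ α = β
  e0 : ε ≠ 0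
  deg : ∀ i, (C i).natDegree ≤ e
  x0 : ∃ i, (C i).eval h ≠ 0
  x_eq : ∀ i, x i = α * (C i).eval (h - ε)
  y_eq : ∀ i, y i = β * (C i).eval (h + ε)
  van : ∀ r t : M, MvPolynomial.aeval (fun i => r * (C i).eval t) FB = 0
  nt : NT k0 e C
  xi : ∃ i, (C i).coeff e ≠ 0
  tr : ∃ D : ℕ, D + 3 ≤ n ∧ Algebra.trdeg B (Ch B C h) ≤ (D + 1 : ℕ)

section

variable {k0 B M : Type} [Field k0] [Field B] [Field M] [Algebra k0 B] [Algebra k0 M]
  [Algebra B M] {n : ℕ} {FB : MvPolynomial (Fin n) B} {σ : M ≃ₐ[B] M}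
  {C : Fin n → Polynomial M} {e : ℕ} {h ε α β : M} {x y : Fin n → M}

theorem eval_sigma (σ : M ≃ₐ[B] M) (p : Polynomial M) (hp : ∀ k, σ (p.coeff k) = p.coeff k)
    (t : M) : σ (p.eval t) = p.eval (σ t) := by
  have h1 : p.map (σ : M →+* M) = p := by
    ext k
    rw [Polynomial.coeff_map]
    exact hp k
  have h2 := Polynomial.hom_eval₂ p (RingHom.id M) (σ : M →+* M) t
  rw [RingHom.comp_id] at h2
  have h3 : p.eval (σ t) = (p.map (σ : M →+* M)).eval (σ t) := by rw [h1]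
  rw [h3, Polynomial.eval_map]
  exact h2

theorem PU.sx (E : PU k0 FB σ C e h ε α β x y) : ∀ i, σ (x i) = y i := by
  intro i
  rw [E.x_eq, E.y_eq, map_mul, E.s_a, eval_sigma σ _ (E.s_C i), map_sub, E.s_h, E.s_e, sub_neg_eq_add]

theorem PU.sy (E : PU k0 FB σ C e h ε α β x y) : ∀ i, σ (y i) = x i := by
  intro i
  rw [← E.sx, E.s_s]

theorem PU.sp (E : PU k0 FB σ C e h ε α β x y) : ∀ r : ℕ, Odd r → ∀ z : M, (σ ^ r) z = σ z := by
  rintro r ⟨i, rfl⟩ z
  have h2 : σ ^ 2 = 1 := by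
    ext z
    rw [pow_two]
    exact E.s_s z
  rw [pow_succ, pow_mul, h2, one_pow, one_mul]

theorem PU.eu {L : Type} [Field L] [Algebra k0 L] [Algebra B L] (E : PU k0 FB σ C e h ε α β x y)
    {P : ValuationSubring M} {φ : P →+* L} (rm : RMap B P φ) (hs : ∀ z : M, σ z ∈ P ↔ z ∈ P)
    (hx : ∀ i, x i ∈ P) (hy : ∀ i, y i ∈ P) (w : B) (a : Fin n)
    (ind : AlgebraicIndependent B (zg w (fun i => φ ⟨x i, hx i⟩) (fun i => φ ⟨y i, hy i⟩)
      (Pi.single a 1))) :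
    EU (k0 := k0) FB rm σ C e h ε α β (fun i => ⟨x i, hx i⟩) (fun i => ⟨y i, hy i⟩) w a :=
  { hom := E.hom
    sig := hs
    s_s := E.s_s
    s_C := E.s_C
    s_h := E.s_h
    s_e := E.s_e
    s_a := E.s_a
    e0 := E.e0
    deg := E.deg
    x0 := E.x0
    x_eq := E.x_eq
    y_eq := E.y_eq
    van := E.van
    nt := E.nt
    xi := E.xi
    tr := E.tr
    ind := ind }

end

variable {n : ℕ} {F : MvPolynomial (Fin n) ℂ} {J : Type} {z : Exp3 n ⊕ J → ℂ} {A : Type} [Field A]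
  [CharZero A] [Algebra ℂ A] {u l : Fin n → A} {v2 : Valuation ℚ ℝ≥0} {V : Valuation A ℝ≥0}

variable {k0 B M : Type} [Field k0] [Field B] [Field M] [Algebra k0 B]
  [Algebra k0 M] [Algebra B M] [IsScalarTower k0 B M]

/-- one place -/
theorem PU.place (hn : 5 ≤ n) (S : St F z u l v2 V) (k1 : IntermediateField (Qz z) ℂ)
    (hk1 : FiniteDimensional (Qz z) k1) (w : k1)
    [Algebra B k1] [Algebra B A] [Algebra k1 M] [IsScalarTower B k1 M] [IsScalarTower B k1 A]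
    (e1 e2 : k1) (j : J) (hB : BE z k1 B e1 j) (hB' : BE z k1 B e1⁻¹ j) (hB2 : BE z k1 B e2 j)
    (wB : B) (hw : algebraMap B k1 wB = w) (FB : MvPolynomial (Fin n) B)
    (hF : MvPolynomial.map ((algebraMap k1 ℂ).comp (algebraMap B k1)) FB = F)
    (σ : M ≃ₐ[B] M) (C : Fin n → Polynomial M) (d : ℕ) (h α β : M) (x y : Fin n → M)
    (E : PU k0 FB σ C d h (algebraMap k1 M e1) α β x y) (hD : Dat F z k1 w x y) (a : Fin n)
    (P : ValuationSubring M) (hP : EP B (algebraMap k1 M e2) x y P)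
    (hs : ∀ z : M, σ z ∈ P ↔ z ∈ P)
    (hout : ∀ (L : Type) [Field L] [Algebra k0 L] [Algebra B L] [IsScalarTower k0 B L]
      (φ : P →+* L) (rm : RMap B P φ), EU (k0 := k0) FB rm σ C d h (algebraMap k1 M e1) α β
        (fun i => ⟨x i, hP.x_mem i⟩) (fun i => ⟨y i, hP.y_mem i⟩) wB a →
      Out FB (fun i => φ ⟨x i, hP.x_mem i⟩) (fun i => φ ⟨y i, hP.y_mem i⟩)) :
    Even (gr V wB u x y P (Pi.single a 1)) := by
  by_contra hodd
  have hne0 : gr V wB u x y P (Pi.single a 1) ≠ 0 := by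
    intro h0
    exact hodd (by rw [h0]; exact Even.zero)
  obtain ⟨N', iN, aBN, φ, hφ⟩ := exists_RMap P hP.cst
  obtain ⟨hind, hfin, -⟩ := gr_data S k1 w x y hD e2 j hB2 wB hw P hP φ hφ (Pi.single a 1) hne0
  let ak0N : Algebra k0 N' := ((algebraMap B N').comp (algebraMap k0 B)).toAlgebra
  have t2 : IsScalarTower k0 B N' := IsScalarTower.of_algebraMap_eq fun _ => rfl
  have h1 := hout N' φ hφ (E.eu hφ hs hP.x_mem hP.y_mem wB a hind)
  apply hodd
  rw [gr_eq V wB u x y P φ hφ hP.x_mem hP.y_mem]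
  exact h1.even hn S k1 hk1 w hD.om e1 j hB hB' wB hw FB hF a ⟨_, hind, hfin⟩

/-- one main place, all other invariant places are even -/
theorem main_place (hn : 5 ≤ n) (S : St F z u l v2 V) (k1 : IntermediateField (Qz z) ℂ) (w : k1)
    [Algebra B k1] [Algebra B A] [Algebra k1 M] [IsScalarTower B k1 M] [IsScalarTower B k1 A]
    (e1 : k1) (j : J) (hB : BE z k1 B e1 j) (wB : B) (hw : algebraMap B k1 wB = w)
    {Q : Type} [Field Q] [Algebra B Q] [Algebra Q M] [IsScalarTower B Q M] (α β : M)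
    (he3 : Transcendental (adjoin Q ({α, β} : Set M)) (algebraMap k1 M e1))
    (hg3 : adjoin (adjoin Q ({α, β} : Set M)) ({algebraMap k1 M e1} : Set M) = ⊤)
    (σQ : M ≃ₐ[Q] M) (s4 : σQ α = β) (s5 : σQ β = α) (σ : M ≃ₐ[B] M) (hσ : ∀ z, σ z = σQ z)
    (hσε : σ (algebraMap k1 M e1) = -algebraMap k1 M e1)
    (hpow : ∀ r : ℕ, Odd r → ∀ z : M, (σ ^ r) z = σ z)
    (x y : Fin n → M) (hσx : ∀ i, σ (x i) = y i) (hσy : ∀ i, σ (y i) = x i)
    (hD : Dat F z k1 w x y) (a : Fin n) (x1 y1 : Fin n → adjoin Q ({α, β} : Set M))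
    (hres : ∀ (P0 : ValuationSubring M) (φ : P0 →+* adjoin Q ({α, β} : Set M)),
      RMap Q P0 φ → P0.valuation (algebraMap k1 M e1) < 1 →
      (∀ b : adjoin Q ({α, β} : Set M), ∃ hb : (b : M) ∈ P0, φ ⟨(b : M), hb⟩ = b) →
      (∀ i, ∃ b : P0, (b : M) = x i ∧ φ b = x1 i) ∧ ∀ i, ∃ b : P0, (b : M) = y i ∧ φ b = y1 i)
    (hoth : ∀ P : ValuationSubring M, EP B (algebraMap k1 M e1) x y P →
      (∀ z : M, σ z ∈ P ↔ z ∈ P) → (¬ ∀ b ∈ adjoin Q ({α, β} : Set M), b ∈ P) →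
      Even (gr V wB u x y P (Pi.single a 1))) :
    Even (gc V w u x y (Pi.single a 1) + gc V wB u x1 y1 (Pi.single a 1)) := by
  classical
  set ε : M := algebraMap k1 M e1 with hε
  obtain ⟨P0, φ, rm, dv, ho, hlt, hE, huniq⟩ := place0 (adjoin Q ({α, β} : Set M)) ε he3 hg3
  have rmB : RMap B P0 φ := rm.restrict
  have hEP : ∀ b ∈ adjoin Q ({α, β} : Set M), b ∈ P0 := fun b hb => (hE ⟨b, hb⟩).1
  obtain ⟨hxr, hyr⟩ := hres P0 φ rm hlt hE
  have hxP : ∀ i, x i ∈ P0 := by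
    intro i
    obtain ⟨b, hb, -⟩ := hxr i
    rw [← hb]
    exact b.2
  have hyP : ∀ i, y i ∈ P0 := by
    intro i
    obtain ⟨b, hb, -⟩ := hyr i
    rw [← hb]
    exact b.2
  have hg0 : gr V wB u x y P0 (Pi.single a 1) = gc V wB u x1 y1 (Pi.single a 1) := by
    rw [gr_eq V wB u x y P0 φ rmB hxP hyP]
    congr 1
    · funext i
      obtain ⟨b, hb1, hb2⟩ := hxr i
      have h1 : b = ⟨x i, hxP i⟩ := Subtype.ext hb1
      rw [← h1, hb2]
    · funext i
      obtain ⟨b, hb1, hb2⟩ := hyr i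
      have h1 : b = ⟨y i, hyP i⟩ := Subtype.ext hb1
      rw [← h1, hb2]
  -- the symmetry
  have hs0 : ∀ m : M, σ m ∈ P0 ↔ m ∈ P0 := by
    have hP' : ∀ m : M, m ∈ P0.comap (σ : M →+* M) ↔ σ m ∈ P0 := fun m => Iff.rfl
    have h2 : ∀ m ∈ adjoin Q ({α, β} : Set M), σ m ∈ P0 := by
      intro m hm
      have h3 : σQ m ∈ (adjoin Q ({α, β} : Set M)).map (σQ : M →ₐ[Q] M) := ⟨m, hm, rfl⟩
      rw [adjoin_map] at h3
      rw [hσ]
      refine hEP _ ?_
      have h4 : ((σQ : M →ₐ[Q] M) '' ({α, β} : Set M)) = ({β, α} : Set M) := by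
        rw [Set.image_pair]
        change ({σQ α, σQ β} : Set M) = _
        rw [s4, s5]
      rw [h4, Set.pair_comm] at h3
      exact h3
    have h3 : ∀ m : M, σ.symm m ∈ P0.comap (σ : M →+* M) ↔ m ∈ P0 := by
      intro m
      rw [hP', σ.apply_symm_apply]
    obtain ⟨-, -, h4⟩ := ord_map σ.symm P0 (P0.comap (σ : M →+* M)) h3 dv
    have h5 : (P0.comap (σ : M →+* M)).valuation ε < 1 := by
      have h7 := (h4 (σ ε)).2 (by rw [hσε, Valuation.map_neg]; exact hlt)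
      rw [σ.symm_apply_apply] at h7
      exact h7
    have h6 : P0.comap (σ : M →+* M) = P0 := huniq _ (fun m hm => (hP' m).2 (h2 m hm)) h5
    intro m
    rw [← hP', h6]
  -- the end
  have hlex := lex_pairs hn S k1 w x y hD e1 j hB wB hw a
    (lex S.ctx v2 S.two V S.wt k1 w x y hD _ e1 j hB wB hw) σ
    (fun P hP h => by
      rw [← hε] at h ⊢
      rw [hσε, Valuation.map_neg, ord_neg]
      exact ⟨h, rfl⟩)
    hσx hσy {P0} (fun P hP => by
      rw [Finset.mem_singleton] at hP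
      rw [hP]
      exact ⟨⟨dv, rmB.cst, hlt, hxP, hyP⟩, hs0⟩) (by
      intro r hr P hP hs hne
      rw [Finset.mem_singleton] at hne
      have hs' : ∀ z : M, σ z ∈ P ↔ z ∈ P := by
        intro z
        rw [← hpow r hr z]
        exact hs z
      exact hoth P hP hs' fun hall => hne (huniq P hall hP.pos))
  rw [Finset.sum_singleton, ho] at hlex
  change Even (gc V w u x y (Pi.single a 1) + 1 * gr V wB u x y P0 (Pi.single a 1)) at hlex
  rw [one_mul, hg0] at hlex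
  exact hlex

end MP2619.Q6
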