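import Pool.Agent.Lib.MP_2619d0_ag.U.PDefs
import Pool.Agent.Lib.MP_2619d0_ag.U.E6
import Pool.Agent.Lib.MP_2619d0_ag.Q5.G1
import Pool.Agent.Lib.MP_2619d0_ag.Q6.T21

/-!
Row u1-2: the builder
-/

set_option autoImplicit false

namespace MP2619.Q6

open scoped NNReal
open IntermediateField MP2619.R MP2619.N Pool.Agent.Lib.MP_2619d0_ag Pool.Agent.Lib.MP_2619d0_ag.T
  MP2619.Q5

variable {k0 B M L : Type} [Field k0] [Field B] [Field M] [Field L] [Algebra k0 B]
  [Algebra k0 M] [Algebra k0 L] [Algebra B M] [Algebra B L] [IsScalarTower k0 B M]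
  [IsScalarTower k0 B L] {n : ℕ} {FB : MvPolynomial (Fin n) B} {P : ValuationSubring M}
  {φ : P →+* L} {rm : RMap B P φ} {σ : M ≃ₐ[B] M} {C : Fin n → Polynomial M} {e : ℕ}
  {h ε α β : M} {x y : Fin n → P} {w : B} {a : Fin n}

private theorem P2_add {k K L : Type} [Field k] [Field K] [Field L] [Algebra k K] [Algebra K L]
    [Algebra k L] [IsScalarTower k K L] :
    Algebra.trdeg k K + Algebra.trdeg K L = Algebra.trdeg k L :=
  trdeg_add_eq k K

private theorem P2_insert {B M : Type} [Field B] [Field M] [Algebra B M] (X : Set M) (a : M) (D : ℕ)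
    (h : Algebra.trdeg B (adjoin B X) ≤ D) :
    Algebra.trdeg B (adjoin B (insert a X)) ≤ (D + 1 : ℕ) := by
  have h1 : adjoin B (insert a X) =
      (adjoin (adjoin B X) ({a} : Set M)).restrictScalars B := by
    rw [adjoin_adjoin_left, Set.union_singleton]
  have h2 : Algebra.trdeg (adjoin B X) (adjoin (adjoin B X) ({a} : Set M)) ≤ 1 := by
    have h3 := trdeg_adjoin_finset (k := adjoin B X) ({a} : Finset M)
    rw [Finset.coe_singleton, Finset.card_singleton, Nat.cast_one] at h3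
    exact h3
  have h4 : Algebra.trdeg B (adjoin B X) +
      Algebra.trdeg (adjoin B X) (adjoin (adjoin B X) ({a} : Set M)) =
      Algebra.trdeg B (adjoin (adjoin B X) ({a} : Set M)) := P2_add
  have h5 : Algebra.trdeg B (adjoin B (insert a X)) =
      Algebra.trdeg B (adjoin (adjoin B X) ({a} : Set M)) := by
    rw [h1]
    rfl
  rw [h5, ← h4, Nat.cast_add, Nat.cast_one]
  exact add_le_add h h2

/-- the symmetry and the evaluation of polynomials with fixed coefficients -/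
private theorem P2_eval (σ : M ≃ₐ[B] M) (p : Polynomial M) (hp : ∀ k, σ (p.coeff k) = p.coeff k)
    (z : M) : σ (p.eval z) = p.eval (σ z) := by
  rw [Polynomial.eval_eq_sum, Polynomial.eval_eq_sum, Polynomial.sum, Polynomial.sum, map_sum]
  refine Finset.sum_congr rfl fun k _ => ?_
  rw [map_mul, map_pow, hp]

private theorem P2_coe (p : Polynomial P) (z : P) :
    ((p.eval z : P) : M) = (p.map P.subtype).eval (z : M) := by
  have h1 := Polynomial.eval_map_apply (f := P.subtype) (p := p) z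
  exact h1.symm

private theorem P2_fix (E : EU (k0 := k0) FB rm σ C e h ε α β x y w a) :
    ∀ z ∈ Ch B C h, σ z = z := by
  intro z hz
  unfold Ch at hz
  induction hz using adjoin_induction with
  | mem z hz =>
    rcases hz with rfl | ⟨i, k, rfl⟩
    · exact E.s_h
    · exact E.s_C i k
  | algebraMap c => exact σ.commutes c
  | add x y hx hy h1 h2 => rw [map_add, h1, h2]
  | inv x hx h1 => rw [map_inv₀, h1]
  | mul x y hx hy h1 h2 => rw [map_mul, h1, h2]

private theorem P2_evmem (L0 : IntermediateField B M) (p : Polynomial M) (hp : ∀ k, p.coeff k ∈ L0)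
    (z : M) (hz : z ∈ L0) : p.eval z ∈ L0 := by
  rw [Polynomial.eval_eq_sum, Polynomial.sum]
  exact sum_mem fun k _ => mul_mem (hp k) (pow_mem hz k)

private theorem P2_rat (L0 : IntermediateField B M) (c : M) (v : Fin n → M) (hv : ∀ i, v i ∈ L0) :
    rat B (fun i => c * v i) ≤ L0 := by
  refine (rat_smul_le _ _).trans ?_
  unfold rat
  rw [IntermediateField.adjoin_le_iff]
  rintro _ ⟨i, l, rfl⟩
  exact L0.div_mem (hv i) (hv l)

/-- `Ch` has transcendence degree at most one more than `Cf` (`trdeg_insert8`, Q8/T0, is the same statement) -/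
theorem EU.trh (E : EU (k0 := k0) FB rm σ C e h ε α β x y w a) :
    ∃ D : ℕ, D + 3 ≤ n ∧ Algebra.trdeg B (Ch B C h) ≤ (D + 1 : ℕ) ∧
      Algebra.trdeg B (adjoin B (insert ε (Ch B C h : Set M))) ≤ (D + 2 : ℕ) := by
  obtain ⟨D, h1, h3⟩ := E.tr
  refine ⟨D, h1, h3, ?_⟩
  refine P2_insert (Ch B C h : Set M) ε (D + 1) ?_
  rw [IntermediateField.adjoin_self]
  exact h3

/-- `Dz.out` (U/E6.lean) for `d2 = σ d1`, `β' = σ α'`. `y_eq`: `σ (x i) = y i` (`E.x_eq`, `E.y_eq`, `σ` commutes with `eval`: `E.s_C`, `E.s_h`, `E.s_e`), apply `σ` to `hx`. `s_Q`: `σ` fixes `Ch`.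
`trj`: all ratios of the `x i` and of the `y i` are in `L0 = adjoin B (insert ε (Ch ..))` of transcendence degree `≤ D + 2` (`E.trh`), `ε ∈ L0` or `ε⁻¹ ∈ L0` is small: `trdeg_resI_lt`: `resI rm L0` has `trdeg ≤ D + 1`, it contains
`resI rm Q1`, `rat B (φ x)`, `rat B (φ y)` (`rat_resI`, Q5/G1). Model: `esc_tr2_8` (Q8/T8b.lean). -/
theorem EU.dz [CharZero B] (E : EU (k0 := k0) FB rm σ C e h ε α β x y w a)
    (hε : P.valuation ε < 1 ∨ P.valuation ε⁻¹ < 1) (Q1 : IntermediateField B M)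
    (hQ1 : Q1 ≤ Ch B C h) (G : Fin n → Polynomial P) (d1 : P) (q α' : M)
    (co : ∀ i k, ((G i).coeff k : M) ∈ Q1) (qQ : q ∈ Q1) (d0 : (d1 : M) ≠ 0)
    (dl : P.valuation (d1 : M) < 1)
    (h1 : P.valuation ((d1 : M)⁻¹ + (σ (d1 : M))⁻¹ - 2 * q) <
      P.valuation ((σ (d1 : M))⁻¹ - (d1 : M)⁻¹))
    (h2 : P.valuation q ≤ P.valuation ((σ (d1 : M))⁻¹ - (d1 : M)⁻¹))
    (hx : ∀ i, (x i : M) = α' * (((G i).eval d1 : P) : M))
    (low : ∃ k ≤ 2, ∃ i, φ ((G i).coeff k) ≠ 0)
    (van : ∀ (r : M) (t : P), MvPolynomial.aeval (fun i => r * (((G i).eval t : P) : M)) FB = 0)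
    (tr1 : ∃ D : ℕ, D + 3 ≤ n ∧ Algebra.trdeg B (resI rm Q1) ≤ D) :
    Out FB (fun i => φ (x i)) (fun i => φ (y i)) := by
  have hfix := P2_fix E
  have hfq : ∀ z ∈ Q1, σ z = z := fun z hz => hfix z (hQ1 hz)
  let d2 : P := ⟨σ (d1 : M), (E.sig _).2 d1.2⟩
  have hsx : ∀ i, σ (x i : M) = (y i : M) := by
    intro i
    rw [E.x_eq, E.y_eq, map_mul, E.s_a, P2_eval σ (C i) (fun k => E.s_C i k), map_sub, E.s_h, E.s_e, sub_neg_eq_add]
  have hev : ∀ i, σ (((G i).eval d1 : P) : M) = (((G i).eval d2 : P) : M) := by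
    intro i
    rw [P2_coe, P2_coe, P2_eval σ ((G i).map P.subtype) (fun k => by
      rw [Polynomial.coeff_map]
      exact hfq _ (co i k))]
  obtain ⟨D, hD1, hD2, hD4⟩ := E.trh
  refine Dz.out (Q1 := Q1) (G := G) (d1 := d1) (d2 := d2) (q := q) (α := α') (β := σ α') (w := w) (a := a)
    { hom := E.hom
      sig := E.sig
      s_s := E.s_s
      s_Q := hfq
      s_d := rfl
      s_a := rfl
      co := co
      qQ := qQ
      d0 := d0
      dl := dl
      h1 := h1
      h2 := h2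
      x_eq := hx
      y_eq := fun i => by rw [← hsx, hx, map_mul, hev]
      low := low
      van := van
      tr1 := tr1
      trj := ?_
      ind := E.ind }
  set L0 : IntermediateField B M := adjoin B (insert ε (Ch B C h : Set M)) with hL0
  have hCL : Ch B C h ≤ L0 := by
    intro z hz
    exact subset_adjoin B _ (Set.mem_insert_of_mem _ hz)
  have hεL : ε ∈ L0 := subset_adjoin B _ (Set.mem_insert _ _)
  have hhL : h ∈ L0 := hCL (subset_adjoin B _ (Set.mem_insert _ _))
  have hcL : ∀ i k, (C i).coeff k ∈ L0 := fun i k =>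
    hCL (subset_adjoin B _ (Set.mem_insert_of_mem _ ⟨i, k, rfl⟩))
  have htr : Algebra.trdeg B (resI rm L0) ≤ (D + 1 : ℕ) := by
    rcases hε with hε | hε
    · exact trdeg_resI_lt rm L0 (D + 1) hD4 ε hεL E.e0 hε
    · exact trdeg_resI_lt rm L0 (D + 1) hD4 ε⁻¹ (inv_mem hεL) (inv_ne_zero E.e0) hε
  have hQ : resI rm Q1 ≤ resI rm L0 := by
    intro z hz
    obtain ⟨b, hb, hb2⟩ := (mem_resI rm Q1 z).1 hz
    exact (mem_resI rm L0 z).2 ⟨b, hCL (hQ1 hb), hb2⟩
  have hxr : rat B (fun i => φ (x i)) ≤ resI rm L0 := by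
    refine rat_resI rm x L0 ?_
    have e1 : (fun i => (x i : M)) = fun i => α * (C i).eval (h - ε) := funext E.x_eq
    rw [e1]
    exact P2_rat L0 α _ (fun i => P2_evmem L0 (C i) (hcL i) _ (sub_mem hhL hεL))
  have hyr : rat B (fun i => φ (y i)) ≤ resI rm L0 := by
    refine rat_resI rm y L0 ?_
    have e1 : (fun i => (y i : M)) = fun i => β * (C i).eval (h + ε) := funext E.y_eq
    rw [e1]
    exact P2_rat L0 β _ (fun i => P2_evmem L0 (C i) (hcL i) _ (add_mem hhL hεL))
  have hle : (resI rm Q1 ⊔ rat B (fun i => φ (x i)) ⊔ rat B (fun i => φ (y i)) :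
      IntermediateField B L) ≤ resI rm L0 := sup_le (sup_le hQ hxr) hyr
  exact ⟨D + 1, by omega, (_root_.trdeg_le_of_injective (IntermediateField.inclusion hle)
    (IntermediateField.inclusion hle).injective).trans htr⟩

end MP2619.Q6
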