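import Pool.Agent.Lib.MP_2619d0_ag.U.P1

/-!
Row u1-3: the reflected family
-/

set_option autoImplicit false

namespace MP2619.Q6

open scoped NNReal
open IntermediateField MP2619.R MP2619.N Pool.Agent.Lib.MP_2619d0_ag Pool.Agent.Lib.MP_2619d0_ag.T
  MP2619.Q5

variable {k0 B M L : Type} [Field k0] [Field B] [Field M] [Field L] [Algebra k0 B]
  [Algebra k0 M] [Algebra k0 L] [Algebra B M] [Algebra B L] [IsScalarTower k0 B M]
  [IsScalarTower k0 B L] {n : ℕ} {FB : MvPolynomial (Fin n) B} {P : ValuationSubring M}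
  {φ : P →+* L} {rm : RMap B P φ} {σ : M ≃ₐ[B] M} {C : Fin n → Polynomial M} {e : ℕ}
  {h ε α β : M} {x y : Fin n → P} {w : B} {a : Fin n}

/-- `R i = Polynomial.reflect e (Ct i)` (`coeff_reflect`, `revAt_le`). `(C i).eval T = γ T ^ e (R i).eval (T⁻¹)`: `Polynomial.eval₂_reflect_mul_pow`, or sums. `van`: for `s ≠ 0` it is `E.van` with `t = s⁻¹` and `r s ^ e / γ`; the polynomial in `s`
(over the infinite field `M`) then vanishes also at `s = 0`. -/
theorem EU.refl [CharZero M] (E : EU (k0 := k0) FB rm σ C e h ε α β x y w a) (γ : M)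
    (hγ : γ ≠ 0) (Ct : Fin n → Polynomial P)
    (hc : ∀ i k, ((C i).coeff k : M) = γ * ((Ct i).coeff k : P))
    (hd : ∀ i, (Ct i).natDegree ≤ e) :
    ∃ R : Fin n → Polynomial P, (∀ i, ∀ l ≤ e, (R i).coeff l = (Ct i).coeff (e - l)) ∧
      (∀ i k, ∃ k', (R i).coeff k = (Ct i).coeff k' ∨ (R i).coeff k = 0) ∧
      (∀ i (T : M) (s : P), T ≠ 0 → (s : M) = T⁻¹ →
        (C i).eval T = γ * T ^ e * (((R i).eval s : P) : M)) ∧
      ∀ (r : M) (s : P), MvPolynomial.aeval (fun i => r * (((R i).eval s : P) : M)) FB = 0 := by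
  classical
  have key : ∀ i (T : M), T ≠ 0 → (C i).eval T =
      γ * T ^ e * Polynomial.eval₂ P.subtype T⁻¹ ((Ct i).reflect e) := by
    intro i T hT
    have hCi : C i = Polynomial.C γ * (Ct i).map P.subtype := by
      ext k
      rw [Polynomial.coeff_C_mul, Polynomial.coeff_map, hc]
      rfl
    letI : Invertible T := invertibleOfNonzero hT
    have h1 := Polynomial.eval₂_reflect_mul_pow P.subtype T e (Ct i) (hd i)
    rw [invOf_eq_inv] at h1
    rw [hCi, Polynomial.eval_mul, Polynomial.eval_C, Polynomial.eval_map, ← h1]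
    ring
  have hev : ∀ i (s : P), ((((Ct i).reflect e).eval s : P) : M) =
      Polynomial.eval₂ P.subtype (s : M) ((Ct i).reflect e) := fun i s =>
    (Polynomial.eval₂_at_apply P.subtype s).symm
  refine ⟨fun i => (Ct i).reflect e, ?_, ?_, ?_, ?_⟩
  · intro i l hl
    rw [Polynomial.coeff_reflect, Polynomial.revAt_le hl]
  · intro i k
    exact ⟨Polynomial.revAt e k, Or.inl (Polynomial.coeff_reflect e (Ct i) k)⟩
  · intro i T s hT hs
    rw [hev, hs]
    exact key i T hT
  · intro r s
    let Q : Polynomial M := MvPolynomial.aeval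
      (fun i => Polynomial.C r * ((Ct i).reflect e).map P.subtype) FB
    have hQ : ∀ z : M, Q.eval z = MvPolynomial.aeval
        (fun i => r * Polynomial.eval₂ P.subtype z ((Ct i).reflect e)) FB := by
      intro z
      have h1 := MvPolynomial.comp_aeval_apply (R := B)
        (fun i => Polynomial.C r * ((Ct i).reflect e).map P.subtype)
        ((Polynomial.aeval z : Polynomial M →ₐ[M] M).restrictScalars B) FB
      have h2 : ((Polynomial.aeval z : Polynomial M →ₐ[M] M).restrictScalars B) Q = Q.eval z := by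
        rw [AlgHom.restrictScalars_apply, Polynomial.coe_aeval_eq_eval]
      rw [← h2, h1]
      congr 2
      funext i
      rw [AlgHom.restrictScalars_apply, Polynomial.coe_aeval_eq_eval, Polynomial.eval_mul,
        Polynomial.eval_C, Polynomial.eval_map]
    have hroot : ∀ z : M, z ≠ 0 → Q.eval z = 0 := by
      intro z hz
      rw [hQ, ← E.van (r / (γ * z⁻¹ ^ e)) z⁻¹]
      congr 2
      funext i
      rw [key i z⁻¹ (inv_ne_zero hz), inv_inv]
      have h3 : γ * z⁻¹ ^ e ≠ 0 := mul_ne_zero hγ (pow_ne_zero _ (inv_ne_zero hz))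
      rw [← mul_assoc, div_mul_cancel₀ _ h3]
    have hQ0 : Q = 0 := by
      apply Polynomial.eq_zero_of_infinite_isRoot
      refine Set.Infinite.mono (s := Set.range fun m : ℕ => ((m + 1 : ℕ) : M)) ?_ ?_
      · rintro _ ⟨m, rfl⟩
        exact hroot _ (Nat.cast_ne_zero.mpr (Nat.succ_ne_zero m))
      · refine Set.infinite_range_of_injective fun m m' hm => ?_
        have h4 : m + 1 = m' + 1 := Nat.cast_injective hm
        omega
    have h5 := hQ (s : M)
    rw [hQ0, Polynomial.eval_zero] at h5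
    rw [h5]
    congr 2
    funext i
    rw [hev]

end MP2619.Q6
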