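import Pool.Agent.Lib.MP_2619d0_ag.U.P1
import Pool.Agent.Lib.MP_2619d0_ag.U.P2
import Pool.Agent.Lib.MP_2619d0_ag.Q5.G1
import Pool.Agent.Lib.MP_2619d0_ag.Q8.T0

/-!
Row u1-4: the centre h
-/

set_option autoImplicit false

namespace MP2619.Q6

open scoped NNReal
open IntermediateField MP2619.R MP2619.N Pool.Agent.Lib.MP_2619d0_ag Pool.Agent.Lib.MP_2619d0_ag.T
  MP2619.Q5

variable {k0 B M L : Type} [Field k0] [Field B] [Field M] [Field L] [Algebra k0 B]
  [Algebra k0 M] [Algebra k0 L] [Algebra B M] [Algebra B L] [IsScalarTower k0 B M]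
  [IsScalarTower k0 B L] {n : ℕ} {FB : MvPolynomial (Fin n) B} {P : ValuationSubring M}
  {φ : P →+* L} {rm : RMap B P φ} {σ : M ≃ₐ[B] M} {C : Fin n → Polynomial M} {e : ℕ}
  {h ε α β : M} {x y : Fin n → P} {w : B} {a : Fin n}

private theorem P4_phi_eval {M L : Type} [Field M] [Field L] {P : ValuationSubring M} {φ : P →+* L}
    (f : Polynomial P) (t u : P) (hu : φ u = 0) : φ (f.eval (t + u)) = φ (f.eval t) := by
  rw [← Polynomial.eval₂_at_apply, ← Polynomial.eval₂_at_apply, map_add, hu, add_zero]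

private theorem P4_taylor_mem {M : Type} [Field M] {P : ValuationSubring M} (S : Subfield M)
    (f : Polynomial P) (hf : ∀ k, ((f.coeff k : P) : M) ∈ S) (t : P) (ht : (t : M) ∈ S) (k : ℕ) :
    (((Polynomial.taylor t f).coeff k : P) : M) ∈ S := by
  have hmem : ∀ g : Polynomial P, (∀ k, ((g.coeff k : P) : M) ∈ S) → ((g.eval t : P) : M) ∈ S := by
    intro g hg
    rw [Polynomial.eval_eq_sum_range]
    have e : (((∑ i ∈ Finset.range (g.natDegree + 1), g.coeff i * t ^ i : P)) : M) =
        ∑ i ∈ Finset.range (g.natDegree + 1), ((g.coeff i : P) : M) * (t : M) ^ i := by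
      push_cast
      rfl
    rw [e]
    exact sum_mem fun i _ => mul_mem (hg i) (pow_mem ht i)
  rw [Polynomial.taylor_coeff]
  refine hmem _ fun j => ?_
  rw [Polynomial.hasseDeriv_coeff]
  have e : ((((j + k).choose k : P) * f.coeff (j + k) : P) : M) =
      ((j + k).choose k : M) * ((f.coeff (j + k) : P) : M) := by
    push_cast
    rfl
  rw [e]
  exact mul_mem (natCast_mem S _) (hf _)

private theorem P4_eval_mem {B M : Type} [Field B] [Field M] [Algebra B M] (S : IntermediateField B M)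
    (f : Polynomial M) (hf : ∀ k, f.coeff k ∈ S) (t : M) (ht : t ∈ S) : f.eval t ∈ S := by
  rw [Polynomial.eval_eq_sum_range]
  exact sum_mem fun i _ => mul_mem (hf i) (pow_mem ht i)

private theorem P4_card {B L : Type} [Field B] [Field L] [Algebra B L] {n : ℕ} (z : Fin n → L)
    (hz : AlgebraicIndependent B z) (E : IntermediateField B L) (hE : ∀ i, z i ∈ E) (D : ℕ)
    (hD : Algebra.trdeg B E ≤ D) : n ≤ D := by
  have h2 : AlgebraicIndependent B (fun i => (⟨z i, hE i⟩ : E)) := by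
    refine AlgebraicIndependent.of_comp E.val ?_
    exact hz
  have h3 := h2.lift_cardinalMk_le_trdeg
  have h4 : ((n : ℕ) : Cardinal) ≤ Algebra.trdeg B E := by
    simpa using h3
  have h5 := h4.trans hD
  exact_mod_cast h5

/-- PROOF. `E.norm`: `γ`, `Ct`; `hP : P` for `h`. `c i = (Ct i).eval h ∈ P`, `(C i).eval h = γ c i`, `(C i).eval (h - ε) = γ (Ct i).eval (h - ε)` and `φ ((Ct i).eval (h - ε)) = φ (c i)`.
(a) Some `φ (c i) ≠ 0`: then `α γ = x i / ((Ct i).eval (h - ε)) ∈ P`, so `φ (x i) = φ (α γ) φ (c i)` for all `i` is the residue of `α (C i).eval h ∈ L1 = adjoin B (insert h {coefficients} ∪ {α, β})`; by `σ` (or in the same way) `φ (y i)` is the residue of `β (C i).eval h ∈ L1`.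
`trdeg B L1 ≤ D + 3 ≤ n` (`E.trh` and two generators). If some `b ∈ L1` is not in `P`, then `b⁻¹ ∈ L1` is small, not zero, so `trdeg B (resI rm L1) ≤ n - 1` (`trdeg_resI_lt`), but `resI rm L1` contains the `n` algebraically independent elements `zg (φ x) (φ y)` (`E.ind`). So the first alternative holds.
(b) All `φ (c i) = 0`. Some `c i ≠ 0` (`E.x0`), it is small and in `Ch B C h` (`(C i).eval h / γ`): `trdeg_resI_lt` with `E.trh`: `tr1` for `Q1 = Ch B C h`. `E.dz` with `G i = Polynomial.taylor h (Ct i)`, `d1 = - ε`, `q = 0`, `α' = α γ`: `d1⁻¹ + (σ d1)⁻¹ = 0`,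
`(σ d1)⁻¹ - d1⁻¹ = 2 ε⁻¹`; `low` by `E.norm` at `t = h`; `co`: Taylor coefficients are polynomials in `h` and the coefficients (`taylor_coeff`, `hasseDeriv`, or `eval`/sums); `van`: `taylor_eval`, `E.van`. -/
theorem EU.ch [CharZero B] (E : EU (k0 := k0) FB rm σ C e h ε α β x y w a)
    (hε : P.valuation ε < 1) (hh : h ∈ P) :
    (∀ b ∈ adjoin B (insert h {z | ∃ i k, z = (C i).coeff k} ∪ {α, β}), b ∈ P) ∨
      Out FB (fun i => φ (x i)) (fun i => φ (y i)) := by
  classical
  obtain ⟨γ, Ct, hγ0, hγC, hco, hdg, hev, htay, -⟩ := E.norm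
  obtain ⟨D, hDn, hCh, -⟩ := E.trh
  have hεP : ε ∈ P := (P.valuation_le_one_iff _).1 hε.le
  set hP : P := ⟨h, hh⟩ with hhP
  set eP : P := ⟨ε, hεP⟩ with heP
  have hφe : φ eP = 0 := (rm.zero eP).2 hε
  have hφe' : φ (-eP) = 0 := by rw [map_neg, hφe, neg_zero]
  have hcM : ∀ i, (C i).eval h = γ * (((Ct i).eval hP : P) : M) := fun i => hev i hP
  have hsub : ∀ i, (C i).eval (h - ε) = γ * (((Ct i).eval (hP + -eP) : P) : M) := by
    intro i
    have h1 := hev i (hP + -eP)
    have h2 : ((hP + -eP : P) : M) = h - ε := by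
      rw [hhP, heP]; push_cast; ring
    rw [← h2]
    exact h1
  have hadd : ∀ i, (C i).eval (h + ε) = γ * (((Ct i).eval (hP + eP) : P) : M) := by
    intro i
    have h1 := hev i (hP + eP)
    have h2 : ((hP + eP : P) : M) = h + ε := by
      rw [hhP, heP]; push_cast; rfl
    rw [← h2]
    exact h1
  have hφsub : ∀ i, φ ((Ct i).eval (hP + -eP)) = φ ((Ct i).eval hP) := fun i =>
    P4_phi_eval _ _ _ hφe'
  have hφadd : ∀ i, φ ((Ct i).eval (hP + eP)) = φ ((Ct i).eval hP) := fun i =>
    P4_phi_eval _ _ _ hφe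
  by_cases hc : ∃ i, φ ((Ct i).eval hP) ≠ 0
  · -- the curve is not at a zero
    left
    obtain ⟨i0, hi0⟩ := hc
    -- units
    have hunit : ∀ z : P, φ z ≠ 0 → (z : M) ≠ 0 ∧ (z : M)⁻¹ ∈ P := by
      intro z hz
      have h1 : P.valuation (z : M) = 1 := by
        refine le_antisymm ((P.valuation_le_one_iff _).2 z.2) (not_lt.1 fun h2 => hz ((rm.zero z).2 h2))
      have h3 : (z : M) ≠ 0 := by
        rintro h4
        rw [h4, map_zero] at h1
        exact zero_ne_one h1
      refine ⟨h3, ?_⟩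
      rw [← P.valuation_le_one_iff, map_inv₀, h1, inv_one]
    have hmul : ∀ (δ : M) (v : P) (z : P), (v : M) = δ * (γ * (z : M)) → φ z ≠ 0 → δ * γ ∈ P := by
      intro δ v z hv hz
      obtain ⟨h1, h2⟩ := hunit z hz
      have h3 : δ * γ = (v : M) * (z : M)⁻¹ := by
        rw [hv]
        field_simp
      rw [h3]
      exact P.mul_mem _ _ v.2 h2
    have hαγ : α * γ ∈ P := hmul α (x i0) ((Ct i0).eval (hP + -eP)) (by rw [E.x_eq, hsub])
      (by rw [hφsub]; exact hi0)
    have hβγ : β * γ ∈ P := hmul β (y i0) ((Ct i0).eval (hP + eP)) (by rw [E.y_eq, hadd])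
      (by rw [hφadd]; exact hi0)
    intro b hb
    by_contra hbP
    set L1 : IntermediateField B M := adjoin B (insert h {z | ∃ i k, z = (C i).coeff k} ∪ {α, β})
      with hL1
    have hset : (insert h {z | ∃ i k, z = (C i).coeff k} ∪ {α, β} : Set M) =
        insert α (insert β (insert h {z | ∃ i k, z = (C i).coeff k})) := by
      ext z
      exact Iff.trans or_comm or_assoc
    have htr : Algebra.trdeg B L1 ≤ (D + 1 + 1 + 1 : ℕ) := by
      rw [hL1, hset]
      exact trdeg_insert8 _ α (D + 1 + 1) (trdeg_insert8 _ β (D + 1) hCh)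
    have hb0 : b ≠ 0 := by
      rintro rfl
      exact hbP P.zero_mem
    have hbv : P.valuation b⁻¹ < 1 := by
      rw [map_inv₀]
      have h1 : 1 < P.valuation b := by
        rw [← not_le]
        intro h2
        exact hbP ((P.valuation_le_one_iff _).1 h2)
      exact inv_lt_one_of_one_lt₀ h1
    have hres := trdeg_resI_lt rm L1 (D + 1 + 1) htr b⁻¹ (inv_mem hb) (inv_ne_zero hb0) hbv
    have hhL : h ∈ L1 := subset_adjoin B _ (Or.inl (Set.mem_insert _ _))
    have hcL : ∀ i k, (C i).coeff k ∈ L1 := fun i k =>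
      subset_adjoin B _ (Or.inl (Set.mem_insert_of_mem _ ⟨i, k, rfl⟩))
    have hαL : α ∈ L1 := subset_adjoin B _ (Or.inr (Set.mem_insert _ _))
    have hβL : β ∈ L1 := subset_adjoin B _ (Or.inr (Set.mem_insert_of_mem _ rfl))
    have hgen : ∀ (δ : M) (hδ : δ * γ ∈ P) (v z : P) (i : Fin n), δ ∈ L1 → (v : M) = δ * (γ * (z : M)) →
        φ z = φ ((Ct i).eval hP) → φ v ∈ resI rm L1 := by
      intro δ hδ v z i hδL hv hz
      refine (mem_resI rm L1 _).2 ⟨⟨δ * γ, hδ⟩ * (Ct i).eval hP, ?_, ?_⟩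
      · have h1 : ((⟨δ * γ, hδ⟩ * (Ct i).eval hP : P) : M) = δ * (C i).eval h := by
          rw [hcM i]
          push_cast
          ring
        rw [h1]
        exact mul_mem hδL (P4_eval_mem L1 _ (hcL i) _ hhL)
      · rw [map_mul, ← hz, ← map_mul]
        congr 1
        apply Subtype.ext
        rw [hv]
        push_cast
        ring
    have hxL : ∀ i, φ (x i) ∈ resI rm L1 := fun i =>
      hgen α hαγ (x i) ((Ct i).eval (hP + -eP)) i hαL (by rw [E.x_eq, hsub]) (hφsub i)
    have hyL : ∀ i, φ (y i) ∈ resI rm L1 := fun i =>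
      hgen β hβγ (y i) ((Ct i).eval (hP + eP)) i hβL (by rw [E.y_eq, hadd]) (hφadd i)
    have hn := P4_card _ E.ind (resI rm L1) (fun i => by
      unfold zg
      exact add_mem (mul_mem ((resI rm L1).algebraMap_mem _) (hxL i)) (hyL i)) (D + 1 + 1) hres
    omega
  · right
    push Not at hc
    obtain ⟨i0, hi0⟩ := E.x0
    have hcne : (((Ct i0).eval hP : P) : M) ≠ 0 := by
      intro h1
      rw [hcM i0, h1, mul_zero] at hi0
      exact hi0 rfl
    have hCf_le : Cf B C ≤ Ch B C h := by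
      unfold Cf Ch
      exact adjoin.mono B _ _ (Set.subset_insert _ _)
    have hγh : γ ∈ Ch B C h := hCf_le hγC
    have hhh : h ∈ Ch B C h := by
      unfold Ch
      exact subset_adjoin B _ (Set.mem_insert _ _)
    have hCc : ∀ i k, (C i).coeff k ∈ Ch B C h := by
      intro i k
      unfold Ch
      exact subset_adjoin B _ (Set.mem_insert_of_mem _ ⟨i, k, rfl⟩)
    have hCtc : ∀ i k, (((Ct i).coeff k : P) : M) ∈ Ch B C h := by
      intro i k
      have h1 : (((Ct i).coeff k : P) : M) = (C i).coeff k / γ := by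
        rw [hco i k, mul_div_cancel_left₀ _ hγ0]
      rw [h1]
      exact div_mem (hCc i k) hγh
    have hcmem : (((Ct i0).eval hP : P) : M) ∈ Ch B C h := by
      have h1 : (((Ct i0).eval hP : P) : M) = (C i0).eval h / γ := by
        rw [hcM i0, mul_div_cancel_left₀ _ hγ0]
      rw [h1]
      exact div_mem (P4_eval_mem _ _ (hCc i0) _ hhh) hγh
    have hres := trdeg_resI_lt rm (Ch B C h) D hCh _ hcmem hcne ((rm.zero _).1 (hc i0))
    have hσ : σ ((-eP : P) : M) = ε := by
      have h1 : ((-eP : P) : M) = -ε := by rw [heP]; push_cast; rfl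
      rw [h1, map_neg, E.s_e, neg_neg]
    have hm : ((-eP : P) : M) = -ε := by rw [heP]; push_cast; rfl
    have hcz : (2 : M) ≠ 0 := by
      have h1 : (2 : M) = algebraMap B M 2 := by rw [map_ofNat]
      rw [h1]
      exact (map_ne_zero _).2 two_ne_zero
    refine E.dz (Or.inl hε) (Ch B C h) le_rfl (fun i => Polynomial.taylor hP (Ct i)) (-eP) 0 (α * γ)
      ?_ (zero_mem _) ?_ ?_ ?_ ?_ ?_ (htay hP) ?_ ⟨D, hDn, hres⟩
    · intro i k
      exact P4_taylor_mem (Ch B C h).toSubfield (Ct i) (hCtc i) hP hhh k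
    · rw [hm]
      exact neg_ne_zero.2 E.e0
    · rw [hm, Valuation.map_neg]
      exact hε
    · rw [hσ, hm]
      have h1 : (-ε)⁻¹ + ε⁻¹ - 2 * 0 = 0 := by
        rw [inv_neg]; ring
      have h2 : ε⁻¹ - (-ε)⁻¹ = 2 * ε⁻¹ := by
        rw [inv_neg]; ring
      rw [h1, h2, map_zero]
      exact zero_lt_iff.2 ((Valuation.ne_zero_iff _).2 (mul_ne_zero hcz (inv_ne_zero E.e0)))
    · rw [map_zero]
      exact zero_le
    · intro i
      rw [E.x_eq, hsub, Polynomial.taylor_eval, add_comm (-eP) hP]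
      ring
    · intro r t
      have h1 := E.van (r / γ) ((t + hP : P) : M)
      have h2 : (fun i => r * (((Polynomial.taylor hP (Ct i)).eval t : P) : M)) =
          fun i => r / γ * (C i).eval ((t + hP : P) : M) := by
        funext i
        rw [hev i (t + hP), Polynomial.taylor_eval]
        field_simp
      rw [h2]
      exact h1

end MP2619.Q6
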