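import Pool.Agent.Lib.MP_2619d0_ag.U.P2
import Pool.Agent.Lib.MP_2619d0_ag.Q5.G1
import Pool.Agent.Lib.MP_2619d0_ag.Q8.T0

/-!
Row u1-4m: the main place
-/

set_option autoImplicit false

namespace MP2619.Q6

open scoped NNReal
open IntermediateField MP2619.R MP2619.N Pool.Agent.Lib.MP_2619d0_ag Pool.Agent.Lib.MP_2619d0_ag.T
  MP2619.Q5

variable {k0 B M L : Type} [Field k0] [Field B] [Field M] [Field L] [Algebra k0 B]
  [Algebra k0 M] [Algebra k0 L] [Algebra B M] [Algebra B L] [IsScalarTower k0 B M]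
  [IsScalarTower k0 B L] {n : ℕ} {FB : MvPolynomial (Fin n) B} {P : ValuationSubring M}
  {φ : P →+* L} {rm : RMap B P φ} {σ : M ≃ₐ[B] M} {C : Fin n → Polynomial M} {e : ℕ}
  {h ε α β : M} {x y : Fin n → P} {w : B} {a : Fin n}

private theorem P4m_phi_eval {M L : Type} [Field M] [Field L] {P : ValuationSubring M} {φ : P →+* L}
    (f : Polynomial P) (t u : P) (hu : φ u = 0) : φ (f.eval (t + u)) = φ (f.eval t) := by
  rw [← Polynomial.eval₂_at_apply, ← Polynomial.eval₂_at_apply, map_add, hu, add_zero]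

private theorem P4m_taylor_mem {M : Type} [Field M] {P : ValuationSubring M} (S : Subfield M)
    (f : Polynomial P) (hf : ∀ k, ((f.coeff k : P) : M) ∈ S) (t : P) (ht : (t : M) ∈ S) (k : ℕ) :
    (((Polynomial.taylor t f).coeff k : P) : M) ∈ S := by
  have hmem : ∀ g : Polynomial P, (∀ k, ((g.coeff k : P) : M) ∈ S) → ((g.eval t : P) : M) ∈ S := by
    intro g hg
    rw [Polynomial.eval_eq_sum_range]
    have e : (((∑ i ∈ Finset.range (g.natDegree + 1), g.coeff i * t ^ i : P)) : M) =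
        ∑ i ∈ Finset.range (g.natDegree + 1), ((g.coeff i : P) : M) * (t : M) ^ i := by
      push_cast
      rfl
    rw [e]
    exact sum_mem fun i _ => mul_mem (hg i) (pow_mem ht i)
  rw [Polynomial.taylor_coeff]
  refine hmem _ fun j => ?_
  rw [Polynomial.hasseDeriv_coeff]
  have e : ((((j + k).choose k : P) * f.coeff (j + k) : P) : M) =
      ((j + k).choose k : M) * ((f.coeff (j + k) : P) : M) := by
    push_cast
    rfl
  rw [e]
  exact mul_mem (natCast_mem S _) (hf _)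

private theorem P4m_eval_mem {B M : Type} [Field B] [Field M] [Algebra B M] (S : IntermediateField B M)
    (f : Polynomial M) (hf : ∀ k, f.coeff k ∈ S) (t : M) (ht : t ∈ S) : f.eval t ∈ S := by
  rw [Polynomial.eval_eq_sum_range]
  exact sum_mem fun i _ => mul_mem (hf i) (pow_mem ht i)

private theorem P4m_card {B L : Type} [Field B] [Field L] [Algebra B L] {n : ℕ} (z : Fin n → L)
    (hz : AlgebraicIndependent B z) (E : IntermediateField B L) (hE : ∀ i, z i ∈ E) (D : ℕ)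
    (hD : Algebra.trdeg B E ≤ D) : n ≤ D := by
  have h2 : AlgebraicIndependent B (fun i => (⟨z i, hE i⟩ : E)) := by
    refine AlgebraicIndependent.of_comp E.val ?_
    exact hz
  have h3 := h2.lift_cardinalMk_le_trdeg
  have h4 : ((n : ℕ) : Cardinal) ≤ Algebra.trdeg B E := by
    simpa using h3
  have h5 := h4.trans hD
  exact_mod_cast h5

/-- the main place: `x i = α1 γ z_i`, `z_i` has the residue of `r_i`, `γ r_i ∈ Ch`, not all residues are zero -/
theorem EU.main (E : EU (k0 := k0) FB rm σ C e h ε α β x y w a) (γ : M) (r : Fin n → P)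
    (hr : ∀ i, γ * (r i : M) ∈ Ch B C h) (hr0 : ∃ i, φ (r i) ≠ 0) (α1 β1 : M) (z z' : Fin n → P)
    (hx : ∀ i, (x i : M) = α1 * (γ * (z i : M))) (hy : ∀ i, (y i : M) = β1 * (γ * (z' i : M)))
    (hz : ∀ i, φ (z i) = φ (r i)) (hz' : ∀ i, φ (z' i) = φ (r i)) :
    ∀ b ∈ adjoin B (insert h {z | ∃ i k, z = (C i).coeff k} ∪ {α1, β1}), b ∈ P := by
  classical
  obtain ⟨D, hDn, hCh, -⟩ := E.trh
  obtain ⟨i0, hi0⟩ := hr0
  -- units
  have hunit : ∀ z : P, φ z ≠ 0 → (z : M) ≠ 0 ∧ (z : M)⁻¹ ∈ P := by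
    intro z hz
    have h1 : P.valuation (z : M) = 1 := by
      refine le_antisymm ((P.valuation_le_one_iff _).2 z.2) (not_lt.1 fun h2 => hz ((rm.zero z).2 h2))
    have h3 : (z : M) ≠ 0 := by
      rintro h4
      rw [h4, map_zero] at h1
      exact zero_ne_one h1
    refine ⟨h3, ?_⟩
    rw [← P.valuation_le_one_iff, map_inv₀, h1, inv_one]
  have hmul : ∀ (δ : M) (v : P) (z : P), (v : M) = δ * (γ * (z : M)) → φ z ≠ 0 → δ * γ ∈ P := by
    intro δ v z hv hz
    obtain ⟨h1, h2⟩ := hunit z hz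
    have h3 : δ * γ = (v : M) * (z : M)⁻¹ := by
      rw [hv]
      field_simp
    rw [h3]
    exact P.mul_mem _ _ v.2 h2
  have hαγ : α1 * γ ∈ P := hmul α1 (x i0) (z i0) (hx i0) (by rw [hz]; exact hi0)
  have hβγ : β1 * γ ∈ P := hmul β1 (y i0) (z' i0) (hy i0) (by rw [hz']; exact hi0)
  intro b hb
  by_contra hbP
  set L1 : IntermediateField B M := adjoin B (insert h {z | ∃ i k, z = (C i).coeff k} ∪ {α1, β1})
    with hL1
  have hset : (insert h {z | ∃ i k, z = (C i).coeff k} ∪ {α1, β1} : Set M) =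
      insert α1 (insert β1 (insert h {z | ∃ i k, z = (C i).coeff k})) := by
    ext z
    exact Iff.trans or_comm or_assoc
  have htr : Algebra.trdeg B L1 ≤ (D + 1 + 1 + 1 : ℕ) := by
    rw [hL1, hset]
    exact trdeg_insert8 _ α1 (D + 1 + 1) (trdeg_insert8 _ β1 (D + 1) hCh)
  have hb0 : b ≠ 0 := by
    rintro rfl
    exact hbP P.zero_mem
  have hbv : P.valuation b⁻¹ < 1 := by
    rw [map_inv₀]
    have h1 : 1 < P.valuation b := by
      rw [← not_le]
      intro h2
      exact hbP ((P.valuation_le_one_iff _).1 h2)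
    exact inv_lt_one_of_one_lt₀ h1
  have hres := trdeg_resI_lt rm L1 (D + 1 + 1) htr b⁻¹ (inv_mem hb) (inv_ne_zero hb0) hbv
  have hChL : Ch B C h ≤ L1 := adjoin.mono B _ _ Set.subset_union_left
  have hαL : α1 ∈ L1 := subset_adjoin B _ (Or.inr (Set.mem_insert _ _))
  have hβL : β1 ∈ L1 := subset_adjoin B _ (Or.inr (Set.mem_insert_of_mem _ rfl))
  have hgen : ∀ (δ : M) (hδ : δ * γ ∈ P) (v z : P) (i : Fin n), δ ∈ L1 → (v : M) = δ * (γ * (z : M)) →
      φ z = φ (r i) → φ v ∈ resI rm L1 := by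
    intro δ hδ v z i hδL hv hz
    refine (mem_resI rm L1 _).2 ⟨⟨δ * γ, hδ⟩ * r i, ?_, ?_⟩
    · have h1 : ((⟨δ * γ, hδ⟩ * r i : P) : M) = δ * (γ * (r i : M)) := by
        push_cast
        ring
      rw [h1]
      exact mul_mem hδL (hChL (hr i))
    · rw [map_mul, ← hz, ← map_mul]
      congr 1
      apply Subtype.ext
      rw [hv]
      push_cast
      ring
  have hxL : ∀ i, φ (x i) ∈ resI rm L1 := fun i => hgen α1 hαγ (x i) (z i) i hαL (hx i) (hz i)
  have hyL : ∀ i, φ (y i) ∈ resI rm L1 := fun i => hgen β1 hβγ (y i) (z' i) i hβL (hy i) (hz' i)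
  have hn := P4m_card _ E.ind (resI rm L1) (fun i => by
    unfold zg
    exact add_mem (mul_mem ((resI rm L1).algebraMap_mem _) (hxL i)) (hyL i)) (D + 1 + 1) hres
  omega

end MP2619.Q6
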