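import Pool.Agent.Lib.MP_2619d0_ag.U.P1
import Pool.Agent.Lib.MP_2619d0_ag.U.P2
import Pool.Agent.Lib.MP_2619d0_ag.U.P3

/-!
Row u1-5: the centre 1/h
-/

set_option autoImplicit false

namespace MP2619.Q6

open scoped NNReal
open IntermediateField MP2619.R MP2619.N Pool.Agent.Lib.MP_2619d0_ag Pool.Agent.Lib.MP_2619d0_ag.T
  MP2619.Q5

variable {k0 B M L : Type} [Field k0] [Field B] [Field M] [Field L] [Algebra k0 B]
  [Algebra k0 M] [Algebra k0 L] [Algebra B M] [Algebra B L] [IsScalarTower k0 B M]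
  [IsScalarTower k0 B L] {n : ℕ} {FB : MvPolynomial (Fin n) B} {P : ValuationSubring M}
  {φ : P →+* L} {rm : RMap B P φ} {σ : M ≃ₐ[B] M} {C : Fin n → Polynomial M} {e : ℕ}
  {h ε α β : M} {x y : Fin n → P} {w : B} {a : Fin n}

/-- the value of a polynomial over `P` with coefficients in `Q` at a point of `Q` -/
private theorem P5_eval (Q : IntermediateField B M) (p : Polynomial P) (u : P) (hu : (u : M) ∈ Q)
    (hp : ∀ k, (p.coeff k : M) ∈ Q) : ((p.eval u : P) : M) ∈ Q := by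
  rw [Polynomial.eval_eq_sum_range]
  push_cast
  exact sum_mem fun i _ => mul_mem (hp i) (pow_mem hu i)

private theorem P5_taylor (Q : IntermediateField B M) (p : Polynomial P) (u : P) (hu : (u : M) ∈ Q)
    (hp : ∀ k, (p.coeff k : M) ∈ Q) (k : ℕ) : ((Polynomial.taylor u p).coeff k : M) ∈ Q := by
  rw [Polynomial.taylor_coeff]
  apply P5_eval Q _ u hu
  intro l
  rw [Polynomial.hasseDeriv_coeff]
  push_cast
  exact mul_mem (IntermediateField.natCast_mem Q _) (hp _)

private theorem P5_two [CharZero B] (rm : RMap B P φ) : P.valuation (2 : M) = 1 := by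
  have h2 : (2 : M) ∈ P := by
    have := rm.cst 2
    rwa [map_ofNat] at this
  have h3 : (2 : M)⁻¹ ∈ P := by
    have := rm.cst (2 : B)⁻¹
    rwa [map_inv₀, map_ofNat] at this
  have h0 : (2 : B) ≠ 0 := two_ne_zero
  have h0' : (2 : M) ≠ 0 := by
    have := (map_ne_zero (algebraMap B M)).2 h0
    rwa [map_ofNat] at this
  have h4 := (P.valuation_le_one_iff _).2 h2
  have h5 := (P.valuation_le_one_iff _).2 h3
  have h6 : P.valuation (2 : M) * P.valuation (2 : M)⁻¹ = 1 := by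
    rw [← map_mul, mul_inv_cancel₀ h0', map_one]
  refine le_antisymm h4 ?_
  rw [← h6]
  exact mul_le_of_le_one_right' h5

/-- PROOF. `E.norm`, `E.refl`: `R`. `u = h⁻¹ ∈ P` is small and in `Ch B C h`, so `tr1` for `Q1 = Ch B C h` (`trdeg_resI_lt`, `E.trh`). `E.dz` with `G i = Polynomial.taylor u (R i)`, `d1 = ε / (h (h - ε)) = 1/(h - ε) - 1/h`, `q = - h`, `α' = α γ (h - ε) ^ e`:
`P.valuation (h - ε) = P.valuation h` (`ε` is smaller than `h`); `d1⁻¹ = h² / ε - h`, `(σ d1)⁻¹ = - h² / ε - h`: the sum is `2 q`, the difference is `- 2 h² / ε`, of value `> P.valuation h`. `d1 + u = 1/(h - ε)`: `(G i).eval d1 = (R i).eval (d1 + u)` (`taylor_eval`).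
`low`: the coefficient `l` of `taylor u (R i)` has the residue of the coefficient `l` of `R i` (`φ u = 0`, `Polynomial.map_taylor`), that is of `(Ct i).coeff (e - l)`: `E.norm`. `van`: `taylor_eval`, `E.refl`. `P.valuation 2 = 1` (a constant). -/
theorem EU.cu [CharZero B] (E : EU (k0 := k0) FB rm σ C e h ε α β x y w a)
    (hε : P.valuation ε < 1 ∨ P.valuation ε⁻¹ < 1) (hh : P.valuation h⁻¹ < 1) (hh0 : h ≠ 0)
    (hεh : P.valuation ε < P.valuation h) : Out FB (fun i => φ (x i)) (fun i => φ (y i)) := by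
  have : CharZero M := charZero_of_injective_algebraMap (algebraMap B M).injective
  obtain ⟨γ, Ct, hγ, hγC, hc, hd, -, -, l, hl2, hle, i0, hi0⟩ := E.norm
  obtain ⟨R, hR1, hR2, hR3, hR4⟩ := E.refl γ hγ Ct hc (fun i => (hd i).2)
  have hε0 : ε ≠ 0 := E.e0
  have hvh0 : P.valuation h ≠ 0 := (Valuation.ne_zero_iff _).2 hh0
  have hvε0 : P.valuation ε ≠ 0 := (Valuation.ne_zero_iff _).2 hε0
  have hvhe : P.valuation (h - ε) = P.valuation h := by
    rw [sub_eq_add_neg]
    exact Valuation.map_add_eq_of_lt_left _ (by rwa [Valuation.map_neg])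
  have hvhe' : P.valuation (h + ε) = P.valuation h := Valuation.map_add_eq_of_lt_left _ hεh
  have hhe : h - ε ≠ 0 := fun h0 => by
    rw [h0, map_zero] at hvhe
    exact hvh0 hvhe.symm
  have hhe' : h + ε ≠ 0 := fun h0 => by
    rw [h0, map_zero] at hvhe'
    exact hvh0 hvhe'.symm
  have huP : h⁻¹ ∈ P := (P.valuation_le_one_iff _).1 hh.le
  have hsP : (h - ε)⁻¹ ∈ P := by
    rw [← P.valuation_le_one_iff, map_inv₀, hvhe, ← map_inv₀]
    exact hh.le
  -- the point `d1`
  obtain ⟨u, hu⟩ : ∃ u : P, (u : M) = h⁻¹ := ⟨⟨h⁻¹, huP⟩, rfl⟩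
  obtain ⟨s, hs⟩ : ∃ s : P, (s : M) = (h - ε)⁻¹ := ⟨⟨(h - ε)⁻¹, hsP⟩, rfl⟩
  have hφu : φ u = 0 := (rm.zero u).2 (by rw [hu]; exact hh)
  have hd1 : ((s - u : P) : M) = ε / (h * (h - ε)) := by
    push_cast
    rw [hs, hu]
    field_simp
    ring
  have hσd : σ ((s - u : P) : M) = -ε / (h * (h + ε)) := by
    rw [hd1, map_div₀, map_mul, map_sub, E.s_h, E.s_e, sub_neg_eq_add]
  have hd1i : (((s - u : P) : M))⁻¹ = h ^ 2 / ε - h := by
    rw [hd1]
    field_simp
  have hσdi : (σ ((s - u : P) : M))⁻¹ = -(h ^ 2 / ε) - h := by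
    rw [hσd]
    field_simp
    ring
  have hmem : ∀ i k, (((R i).coeff k : P) : M) ∈ Ch B C h := by
    intro i k
    have hCf : γ ∈ Ch B C h := by
      have h1 : Cf B C ≤ Ch B C h := adjoin.mono _ _ _ (Set.subset_insert _ _)
      exact h1 hγC
    obtain ⟨k', hk' | hk'⟩ := hR2 i k
    · rw [hk']
      have h2 : ((Ct i).coeff k' : M) = (C i).coeff k' / γ := by
        rw [hc i k', mul_div_cancel_left₀ _ hγ]
      rw [h2]
      exact div_mem (subset_adjoin B _ (Set.mem_insert_of_mem _ ⟨i, k', rfl⟩)) hCf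
    · rw [hk']
      exact zero_mem _
  have hhC : h ∈ Ch B C h := subset_adjoin B _ (Set.mem_insert _ _)
  have huC : (u : M) ∈ Ch B C h := by rw [hu]; exact inv_mem hhC
  refine E.dz hε (Ch B C h) le_rfl (fun i => Polynomial.taylor u (R i)) (s - u) (-h)
    (α * γ * (h - ε) ^ e) ?_ (neg_mem hhC) ?_ ?_ ?_ ?_ ?_ ?_ ?_ ?_
  · intro i k
    exact P5_taylor _ _ u huC (hmem i) k
  · rw [hd1]
    exact div_ne_zero hε0 (mul_ne_zero hh0 hhe)
  · rw [hd1, map_div₀, map_mul, hvhe]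
    have h1 : P.valuation h * P.valuation h⁻¹ = 1 := by
      rw [← map_mul, mul_inv_cancel₀ hh0, map_one]
    rw [div_lt_one₀ (zero_lt_iff.2 (mul_ne_zero hvh0 hvh0))]
    have h2 : 1 ≤ P.valuation h := by
      rw [← h1]
      exact mul_le_of_le_one_right' hh.le
    calc P.valuation ε < P.valuation h := hεh
      _ = P.valuation h * 1 := (mul_one _).symm
      _ ≤ P.valuation h * P.valuation h := mul_le_mul_right h2 _
  · rw [hd1i, hσdi]
    have h1 : h ^ 2 / ε - h + (-(h ^ 2 / ε) - h) - 2 * -h = 0 := by ring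
    rw [h1, map_zero, zero_lt_iff, Valuation.ne_zero_iff]
    have h2 : -(h ^ 2 / ε) - h - (h ^ 2 / ε - h) = -(2 * (h ^ 2 / ε)) := by ring
    rw [h2]
    exact neg_ne_zero.2 (mul_ne_zero two_ne_zero (div_ne_zero (pow_ne_zero _ hh0) hε0))
  · rw [hd1i, hσdi]
    have h2 : -(h ^ 2 / ε) - h - (h ^ 2 / ε - h) = -(2 * (h ^ 2 / ε)) := by ring
    rw [h2, Valuation.map_neg, Valuation.map_neg, map_mul, P5_two rm, one_mul, map_div₀, map_pow,
      le_div_iff₀ (zero_lt_iff.2 hvε0), pow_two]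
    exact mul_le_mul_right hεh.le _
  · intro i
    have h1 : (Polynomial.taylor u (R i)).eval (s - u) = (R i).eval s := by
      rw [Polynomial.taylor_eval, sub_add_cancel]
    rw [h1, E.x_eq, hR3 i (h - ε) s hhe hs]
    ring
  · refine ⟨l, hl2, i0, ?_⟩
    have h1 : φ ((Polynomial.taylor u (R i0)).coeff l) = φ ((R i0).coeff l) := by
      rw [← Polynomial.coeff_map, Polynomial.map_taylor, hφu, Polynomial.taylor_zero, Polynomial.coeff_map]
    rw [h1, hR1 i0 l hle]
    exact hi0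
  · intro r t
    simp only [Polynomial.taylor_eval]
    exact hR4 r (t + u)
  · obtain ⟨D, hD, hD1, -⟩ := E.trh
    exact ⟨D, hD, trdeg_resI_lt rm _ D hD1 (u : M) huC (by rw [hu]; exact inv_ne_zero hh0)
      (by rw [hu]; exact hh)⟩

end MP2619.Q6
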