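import Pool.Agent.Lib.MP_2619d0_ag.U.P1
import Pool.Agent.Lib.MP_2619d0_ag.U.P2
import Pool.Agent.Lib.MP_2619d0_ag.U.P4m
import Pool.Agent.Lib.MP_2619d0_ag.U.P3

/-!
Row u1-6: the centre at infinity
-/

set_option autoImplicit false

namespace MP2619.Q6

open scoped NNReal
open IntermediateField MP2619.R MP2619.N Pool.Agent.Lib.MP_2619d0_ag Pool.Agent.Lib.MP_2619d0_ag.T
  MP2619.Q5

variable {k0 B M L : Type} [Field k0] [Field B] [Field M] [Field L] [Algebra k0 B]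
  [Algebra k0 M] [Algebra k0 L] [Algebra B M] [Algebra B L] [IsScalarTower k0 B M]
  [IsScalarTower k0 B L] {n : ℕ} {FB : MvPolynomial (Fin n) B} {P : ValuationSubring M}
  {φ : P →+* L} {rm : RMap B P φ} {σ : M ≃ₐ[B] M} {C : Fin n → Polynomial M} {e : ℕ}
  {h ε α β : M} {x y : Fin n → P} {w : B} {a : Fin n}

/-- two is a unit at `P` -/
private theorem P6_two {B M L : Type} [Field B] [Field M] [Field L] [Algebra B M] [Algebra B L]
    [CharZero B] {P : ValuationSubring M} {φ : P →+* L} (rm : RMap B P φ) :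
    P.valuation (2 : M) = 1 := by
  have h2 : (2 : M) ∈ P := by
    have h := rm.cst 2
    rwa [map_ofNat] at h
  have h2i : ((2 : M)⁻¹) ∈ P := by
    have h := rm.cst (2⁻¹)
    rwa [map_inv₀, map_ofNat] at h
  have hc : CharZero M := charZero_of_injective_algebraMap (algebraMap B M).injective
  have h20 : (2 : M) ≠ 0 := two_ne_zero
  refine le_antisymm ((P.valuation_le_one_iff _).2 h2) ?_
  have h3 := (P.valuation_le_one_iff _).2 h2i
  rw [map_inv₀] at h3
  exact (inv_le_one₀ (zero_lt_iff.mpr ((Valuation.ne_zero_iff _).mpr h20))).1 h3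

/-- comparison of values as membership of the quotient -/
private theorem P6_le {M : Type} [Field M] (P : ValuationSubring M) {a b : M} (hb : b ≠ 0) :
    P.valuation a ≤ P.valuation b ↔ a / b ∈ P := by
  have h0 : 0 < P.valuation b := zero_lt_iff.mpr ((Valuation.ne_zero_iff _).mpr hb)
  rw [← P.valuation_le_one_iff, map_div₀, div_le_one₀ h0]

omit [IsScalarTower k0 B M] [IsScalarTower k0 B L] in
/-- the value of `h - ε` -/
private theorem P6_sub [CharZero B] (E : EU (k0 := k0) FB rm σ C e h ε α β x y w a)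
    (hh : P.valuation h ≤ P.valuation ε) : P.valuation (h - ε) = P.valuation ε := by
  have hc : CharZero M := charZero_of_injective_algebraMap (algebraMap B M).injective
  have hne1 : h - ε ≠ 0 := by
    intro h0
    have h1 : h = ε := sub_eq_zero.1 h0
    have h2 := E.s_h
    rw [h1, E.s_e] at h2
    exact E.e0 (self_eq_neg.1 h2.symm)
  have hs : σ (h - ε) = h + ε := by
    rw [map_sub, E.s_h, E.s_e, sub_neg_eq_add]
  have hne2 : h + ε ≠ 0 := by
    rw [← hs]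
    exact (map_ne_zero_iff σ σ.injective).2 hne1
  refine le_antisymm ?_ ?_
  · exact (P.valuation.map_sub h ε).trans (max_le hh le_rfl)
  · by_contra hlt
    have hlt2 : ¬ P.valuation ε ≤ P.valuation (h + ε) := by
      intro h1
      apply hlt
      rw [P6_le P hne1, ← E.sig, map_div₀, E.s_e, hs, neg_div, neg_mem_iff, ← P6_le P hne2]
      exact h1
    rw [not_le] at hlt hlt2
    have h3 : P.valuation (2 * ε) < P.valuation ε := by
      have h4 : 2 * ε = (h + ε) - (h - ε) := by ring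
      rw [h4]
      exact lt_of_le_of_lt (P.valuation.map_sub _ _) (max_lt hlt2 hlt)
    rw [map_mul, P6_two rm, one_mul] at h3
    exact lt_irrefl _ h3

/-- PROOF. `1 < P.valuation ε`, `P.valuation h ≤ P.valuation ε`. `P.valuation (h - ε) = P.valuation ε`: clear if `h` is smaller; otherwise, if `h - ε` is smaller than `ε`, then so is `σ (h - ε) = h + ε` (`P.valuation (σ z) ≤ P.valuation c ↔ ..`: `σ` preserves `P`, `σ (z / ε) = - σ z / ε`: `z / ε` is in the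
maximal ideal iff `σ z / ε` is), so the difference `2 ε` is smaller than `ε`: contradiction. `E.norm`, `E.refl`: `R`; `d1 = (h - ε)⁻¹`, `σ d1 = (h + ε)⁻¹`, `G = R`, `α' = α γ (h - ε) ^ e`, `(σ d1)⁻¹ - d1⁻¹ = 2 ε`, `d1⁻¹ + (σ d1)⁻¹ = 2 h`. `low`: `E.norm`.
(a) `P.valuation h < P.valuation ε`: `Q1 = Cf B C`, `q = 0`, `tr1`: `trdeg_resI` and `E.trC`. (b) equal: `Q1 = Ch B C h`, `q = h`, `h⁻¹` is small, not zero: `tr1` by `trdeg_resI_lt` and `E.trh`; `h1`: `0 < P.valuation (2 ε)`. `E.dz`. -/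
theorem EU.ci [CharZero B] (E : EU (k0 := k0) FB rm σ C e h ε α β x y w a)
    (hε : P.valuation ε⁻¹ < 1) (hh : P.valuation h ≤ P.valuation ε) :
    (∀ b ∈ adjoin B (insert h {z | ∃ i k, z = (C i).coeff k} ∪
      {α * (h - ε) ^ e, β * (h + ε) ^ e}), b ∈ P) ∨ Out FB (fun i => φ (x i)) (fun i => φ (y i)) := by
  have hc : CharZero M := charZero_of_injective_algebraMap (algebraMap B M).injective
  have hv := P6_sub E hh
  have hε0 : 0 < P.valuation ε := zero_lt_iff.mpr ((Valuation.ne_zero_iff _).mpr E.e0)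
  have hne1 : h - ε ≠ 0 := by
    rw [← Valuation.ne_zero_iff P.valuation, hv]
    exact hε0.ne'
  have hs : σ (h - ε) = h + ε := by
    rw [map_sub, E.s_h, E.s_e, sub_neg_eq_add]
  have hne2 : h + ε ≠ 0 := by
    rw [← hs]
    exact (map_ne_zero_iff σ σ.injective).2 hne1
  have hvd : P.valuation (h - ε)⁻¹ < 1 := by
    rw [map_inv₀, hv, ← map_inv₀]
    exact hε
  obtain ⟨γ, Ct, hγ, hγC, hc1, hd, hev, htay, l, hl2, hle, i0, hlow⟩ := E.norm
  obtain ⟨R, hR1, hR2, hR3, hR4⟩ := E.refl γ hγ Ct hc1 (fun i => (hd i).2)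
  have hCfCh : Cf B C ≤ Ch B C h := by
    rw [Cf, Ch]
    exact adjoin.mono _ _ _ (Set.subset_insert _ _)
  have hco : ∀ i k, ((R i).coeff k : M) ∈ Cf B C := by
    intro i k
    obtain ⟨k', hk | hk⟩ := hR2 i k
    · rw [hk]
      have h1 : (((Ct i).coeff k' : P) : M) = (C i).coeff k' / γ := by
        rw [hc1, mul_div_cancel_left₀ _ hγ]
      rw [h1]
      refine div_mem ?_ hγC
      rw [Cf]
      exact subset_adjoin _ _ ⟨i, k', rfl⟩
    · rw [hk]
      exact (Cf B C).zero_mem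
  have hsd : σ ((h - ε)⁻¹) = (h + ε)⁻¹ := by
    rw [map_inv₀, hs]
  have hD : P.valuation ((σ ((h - ε)⁻¹))⁻¹ - ((h - ε)⁻¹)⁻¹) = P.valuation ε := by
    rw [hsd, inv_inv, inv_inv]
    have h1 : h + ε - (h - ε) = 2 * ε := by ring
    rw [h1, map_mul, P6_two rm, one_mul]
  have hx : ∀ i, (x i : M) = (α * γ * (h - ε) ^ e) *
      (((R i).eval (⟨(h - ε)⁻¹, (P.valuation_le_one_iff _).1 hvd.le⟩ : P) : P) : M) := by
    intro i
    rw [E.x_eq i, hR3 i (h - ε) ⟨(h - ε)⁻¹, (P.valuation_le_one_iff _).1 hvd.le⟩ hne1 rfl]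
    ring
  have hlow' : ∃ k ≤ 2, ∃ i, φ ((R i).coeff k) ≠ 0 := by
    refine ⟨l, hl2, i0, ?_⟩
    rw [hR1 i0 l hle]
    exact hlow
  have hlt1 : ∀ z : M, z ≠ 0 → (P.valuation z⁻¹ < 1 ↔ z ∉ P) := by
    intro z hz
    have h0 : 0 < P.valuation z := zero_lt_iff.mpr ((Valuation.ne_zero_iff _).mpr hz)
    rw [map_inv₀, inv_lt_one₀ h0, ← not_le, P.valuation_le_one_iff]
  have hvd2 : P.valuation (h + ε)⁻¹ < 1 := by
    rw [hlt1 _ hne2, ← hs, E.sig, ← hlt1 _ hne1]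
    exact hvd
  have hd1P : (h - ε)⁻¹ ∈ P := (P.valuation_le_one_iff _).1 hvd.le
  have hd2P : (h + ε)⁻¹ ∈ P := (P.valuation_le_one_iff _).1 hvd2.le
  have hφd1 : φ ⟨(h - ε)⁻¹, hd1P⟩ = 0 := (rm.zero _).2 hvd
  have hφd2 : φ ⟨(h + ε)⁻¹, hd2P⟩ = 0 := (rm.zero _).2 hvd2
  have hev0 : ∀ (p : Polynomial P) (z : P), φ z = 0 → φ (p.eval z) = φ (p.coeff 0) := by
    intro p z hz
    have h1 := Polynomial.hom_eval₂ p (RingHom.id P) φ z
    rw [RingHom.comp_id, hz] at h1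
    have h2 : φ (p.eval z) = p.eval₂ φ 0 := h1
    rw [h2, Polynomial.eval₂_at_zero]
  have hc0 : ∀ i, (R i).coeff 0 = (Ct i).coeff e := fun i => by
    rw [hR1 i 0 (Nat.zero_le _), Nat.sub_zero]
  have hrCh : ∀ i, γ * (((R i).coeff 0 : P) : M) ∈ Ch B C h := by
    intro i
    rw [hc0, ← hc1]
    rw [Ch]
    exact subset_adjoin _ _ (Set.mem_insert_of_mem _ ⟨i, e, rfl⟩)
  have hy : ∀ i, (y i : M) = (β * γ * (h + ε) ^ e) *
      (((R i).eval (⟨(h + ε)⁻¹, hd2P⟩ : P) : P) : M) := by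
    intro i
    rw [E.y_eq i, hR3 i (h + ε) ⟨(h + ε)⁻¹, hd2P⟩ hne2 rfl]
    ring
  by_cases hr : ∃ i, φ ((R i).coeff 0) ≠ 0
  · left
    refine E.main γ (fun i => (R i).coeff 0) hrCh hr (α * (h - ε) ^ e) (β * (h + ε) ^ e)
      (fun i => (R i).eval ⟨(h - ε)⁻¹, hd1P⟩) (fun i => (R i).eval ⟨(h + ε)⁻¹, hd2P⟩) ?_ ?_
      (fun i => hev0 _ _ hφd1) (fun i => hev0 _ _ hφd2)
    · intro i
      rw [hx i]
      ring
    · intro i
      rw [hy i]
      ring
  · right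
    push Not at hr
    obtain ⟨i1, hi1⟩ := E.xi
    have hne : (((R i1).coeff 0 : P) : M) ≠ 0 := by
      intro h0
      apply hi1
      rw [hc1 i1 e, ← hc0, h0, mul_zero]
    have hmem : (((R i1).coeff 0 : P) : M) ∈ Ch B C h := hCfCh (hco i1 0)
    have hsm : P.valuation (((R i1).coeff 0 : P) : M) < 1 := (rm.zero _).1 (hr i1)
    obtain ⟨D, hD1, hD2, -⟩ := E.trh
    have hhC : h ∈ Ch B C h := by
      rw [Ch]
      exact subset_adjoin _ _ (Set.mem_insert _ _)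
    refine E.dz (Or.inr hε) (Ch B C h) le_rfl R ⟨(h - ε)⁻¹, (P.valuation_le_one_iff _).1 hvd.le⟩ h
      (α * γ * (h - ε) ^ e) (fun i k => hCfCh (hco i k)) hhC (inv_ne_zero hne1) hvd ?_ ?_ hx hlow'
      hR4 ⟨D, hD1, trdeg_resI_lt rm (Ch B C h) D hD2 _ hmem hne hsm⟩
    · change P.valuation (((h - ε)⁻¹)⁻¹ + (σ ((h - ε)⁻¹))⁻¹ - 2 * h) <
        P.valuation ((σ ((h - ε)⁻¹))⁻¹ - ((h - ε)⁻¹)⁻¹)
      rw [hD, hsd, inv_inv, inv_inv]
      have h1 : h - ε + (h + ε) - 2 * h = 0 := by ring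
      rw [h1, map_zero]
      exact hε0
    · change P.valuation h ≤ P.valuation ((σ ((h - ε)⁻¹))⁻¹ - ((h - ε)⁻¹)⁻¹)
      rw [hD]
      exact hh

end MP2619.Q6
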