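import Pool.Agent.Lib.MP_2619d0_ag.U.P4
import Pool.Agent.Lib.MP_2619d0_ag.U.P5
import Pool.Agent.Lib.MP_2619d0_ag.U.P6

/-!
Row u1-7: the places of the path
-/

set_option autoImplicit false

namespace MP2619.Q6

open scoped NNReal
open IntermediateField MP2619.R MP2619.N Pool.Agent.Lib.MP_2619d0_ag Pool.Agent.Lib.MP_2619d0_ag.T
  MP2619.Q5

variable {k0 B M L : Type} [Field k0] [Field B] [Field M] [Field L] [Algebra k0 B]
  [Algebra k0 M] [Algebra k0 L] [Algebra B M] [Algebra B L] [IsScalarTower k0 B M]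
  [IsScalarTower k0 B L] {n : ℕ} {FB : MvPolynomial (Fin n) B} {P : ValuationSubring M}
  {φ : P →+* L} {rm : RMap B P φ} {σ : M ≃ₐ[B] M} {C : Fin n → Polynomial M} {e : ℕ}
  {h ε α β : M} {x y : Fin n → P} {w : B} {a : Fin n}

/-- the places over zero -/
theorem EU.zero [CharZero B] (E : EU (k0 := k0) FB rm σ C e h ε α β x y w a)
    (hε : P.valuation ε < 1) :
    (∀ b ∈ adjoin B (insert h {z | ∃ i k, z = (C i).coeff k} ∪ {α, β}), b ∈ P) ∨
      Out FB (fun i => φ (x i)) (fun i => φ (y i)) := by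
  by_cases hh : h ∈ P
  · exact E.ch hε hh
  right
  have hh0 : h ≠ 0 := by
    rintro rfl
    exact hh P.zero_mem
  have h1 : 1 < P.valuation h := by
    rw [← not_le, ValuationSubring.valuation_le_one_iff]
    exact hh
  refine E.cu (Or.inl hε) ?_ hh0 (hε.trans h1)
  rw [map_inv₀]
  exact inv_lt_one_of_one_lt₀ h1

/-- the places over infinity -/
theorem EU.infty [CharZero B] (E : EU (k0 := k0) FB rm σ C e h ε α β x y w a)
    (hε : P.valuation ε⁻¹ < 1) :
    (∀ b ∈ adjoin B (insert h {z | ∃ i k, z = (C i).coeff k} ∪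
      {α * (h - ε) ^ e, β * (h + ε) ^ e}), b ∈ P) ∨ Out FB (fun i => φ (x i)) (fun i => φ (y i)) := by
  by_cases hh : P.valuation h ≤ P.valuation ε
  · exact E.ci hε hh
  right
  rw [not_le] at hh
  have hε1 : 1 < P.valuation ε := by
    rw [map_inv₀] at hε
    exact (inv_lt_one₀ (zero_lt_iff.2 ((Valuation.ne_zero_iff _).2 E.e0))).1 hε
  have hh0 : h ≠ 0 := by
    rintro rfl
    rw [map_zero] at hh
    exact not_lt_zero hh
  refine E.cu (Or.inr hε) ?_ hh0 hh
  rw [map_inv₀]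
  exact inv_lt_one_of_one_lt₀ (hε1.trans hh)

end MP2619.Q6
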