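import Pool.Agent.Lib.MP_2619d0_ag.U.EDefs

/-!
# Theorem U1, definitions
-/

set_option autoImplicit false

namespace MP2619.Q6

open scoped NNReal
open IntermediateField MP2619.R MP2619.N Pool.Agent.Lib.MP_2619d0_ag Pool.Agent.Lib.MP_2619d0_ag.T
  MP2619.Q5

/-- the family `D` satisfies all homogeneous relations over `k` of the coefficients of the family `C` -/
def Spc (k : Type) [Field k] {Q κ : Type} [Field Q] [Field κ] [Algebra k Q] [Algebra k κ] {n : ℕ}
    (C : Fin n → Polynomial Q) (D : Fin n → Polynomial κ) : Prop :=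
  ∀ (g : MvPolynomial (ℕ × Fin n) k) (d : ℕ), g.IsHomogeneous d →
    MvPolynomial.aeval (fun p : ℕ × Fin n => (C p.2).coeff p.1) g = 0 →
    MvPolynomial.aeval (fun p : ℕ × Fin n => (D p.2).coeff p.1) g = 0

/-- No specialization of the family `C` (forms of degree `e` on `ℙ¹`) has a common zero of order `≥ 3`. -/
def NT (k : Type) [Field k] {Q : Type} [Field Q] [Algebra k Q] (e : ℕ) {n : ℕ}
    (C : Fin n → Polynomial Q) : Prop :=
  ∀ (κ : Type) [Field κ] [Algebra k κ] (D : Fin n → Polynomial κ), (∀ i, (D i).natDegree ≤ e) →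
    D ≠ 0 → Spc k C D →
    (∀ t : κ, ∃ l ≤ 2, ∃ i, (Polynomial.taylor t (D i)).coeff l ≠ 0) ∧
      ∃ l ≤ 2, l ≤ e ∧ ∃ i, (D i).coeff (e - l) ≠ 0

/-- the field of the coefficients -/
def Cf (B : Type) [Field B] {M : Type} [Field M] [Algebra B M] {n : ℕ} (C : Fin n → Polynomial M) :
    IntermediateField B M := adjoin B {z | ∃ i k, z = (C i).coeff k}

/-- the field of the coefficients and `h` -/
def Ch (B : Type) [Field B] {M : Type} [Field M] [Algebra B M] {n : ℕ} (C : Fin n → Polynomial M)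
    (h : M) : IntermediateField B M := adjoin B (insert h {z | ∃ i k, z = (C i).coeff k})

/-- the unipotent path `x = α C(h - ε)`, `y = β C(h + ε)` at a place `P` which is invariant under the symmetry `σ : ε ↦ - ε, α ↔ β` -/
structure EU {k0 B M L : Type} [Field k0] [Field B] [Field M] [Field L] [Algebra k0 B]
    [Algebra k0 M] [Algebra k0 L] [Algebra B M] [Algebra B L] {n : ℕ}
    (FB : MvPolynomial (Fin n) B) {P : ValuationSubring M} {φ : P →+* L} (rm : RMap B P φ)
    (σ : M ≃ₐ[B] M) (C : Fin n → Polynomial M) (e : ℕ) (h ε α β : M) (x y : Fin n → P) (w : B)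
    (a : Fin n) : Prop where
  hom : FB.IsHomogeneous 3
  sig : ∀ z : M, σ z ∈ P ↔ z ∈ P
  s_s : ∀ z, σ (σ z) = z
  s_C : ∀ i k, σ ((C i).coeff k) = (C i).coeff k
  s_h : σ h = h
  s_e : σ ε = -ε
  s_a : σ α = β
  e0 : ε ≠ 0
  deg : ∀ i, (C i).natDegree ≤ e
  x0 : ∃ i, (C i).eval h ≠ 0
  x_eq : ∀ i, (x i : M) = α * (C i).eval (h - ε)
  y_eq : ∀ i, (y i : M) = β * (C i).eval (h + ε)
  van : ∀ r t : M, MvPolynomial.aeval (fun i => r * (C i).eval t) FB = 0
  nt : NT k0 e C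
  xi : ∃ i, (C i).coeff e ≠ 0
  tr : ∃ D : ℕ, D + 3 ≤ n ∧ Algebra.trdeg B (Ch B C h) ≤ (D + 1 : ℕ)
  ind : AlgebraicIndependent B (zg w (fun i => φ (x i)) (fun i => φ (y i)) (Pi.single a 1))

end MP2619.Q6
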