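import Pool.Agent.Lib.MP_2619d0_ag.Q8.L8c

/-!
Row v-1: points with independent coordinates are generic
-/

set_option autoImplicit false

namespace MP2619.Q6

open MvPolynomial MP2619.R MP2619.N Pool.Agent.Lib.MP_2619d0_ag
  Pool.Agent.Lib.MP_2619d0_ag.T MP2619.T MP2619.Q5

/-- polynomials in the other variables as coefficients -/
private noncomputable def S1_e {n : ℕ} (a : Fin n) :
    MvPolynomial (Fin n) ℂ ≃ₐ[ℂ] Polynomial (MvPolynomial {i : Fin n // i ≠ a} ℂ) :=
  (renameEquiv ℂ (Equiv.optionSubtypeNe a).symm).trans (optionEquivLeft ℂ {i : Fin n // i ≠ a})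

private theorem S1_e_apply {n : ℕ} (a : Fin n) (G : MvPolynomial (Fin n) ℂ) :
    S1_e a G = optionEquivLeft ℂ {i : Fin n // i ≠ a}
      (rename (Equiv.optionSubtypeNe a).symm G) := rfl

private theorem S1_eval {n : ℕ} {Ω : Type} [Field Ω] [Algebra ℂ Ω] (y : Fin n → Ω) (a : Fin n)
    (G : MvPolynomial (Fin n) ℂ) :
    Polynomial.eval₂ (aeval (fun i : {i : Fin n // i ≠ a} => y i) :
      MvPolynomial {i : Fin n // i ≠ a} ℂ →ₐ[ℂ] Ω).toRingHom (y a) (S1_e a G) = aeval y G := by
  induction G using MvPolynomial.induction_on with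
  | C r =>
    rw [S1_e_apply, rename_C, optionEquivLeft_C, Polynomial.eval₂_C]
    simp
  | add p q hp hq => rw [map_add, Polynomial.eval₂_add, hp, hq, map_add]
  | mul_X p i hp =>
    rw [map_mul, Polynomial.eval₂_mul, hp, map_mul, aeval_X]
    congr 1
    rw [S1_e_apply, rename_X]
    by_cases h : i = a
    · subst h
      rw [Equiv.optionSubtypeNe_symm_self, optionEquivLeft_X_none, Polynomial.eval₂_X]
    · rw [Equiv.optionSubtypeNe_symm_of_ne h, optionEquivLeft_X_some, Polynomial.eval₂_C]
      simp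

private theorem S1_coeff {n : ℕ} {F : MvPolynomial (Fin n) ℂ} (hF : F.IsHomogeneous 3) (a : Fin n)
    (N : ℕ) (d : {i : Fin n // i ≠ a} →₀ ℕ)
    (h : coeff d ((S1_e a F).coeff N) ≠ 0) : N + d.degree = 3 := by
  rw [S1_e_apply, optionEquivLeft_coeff_coeff] at h
  have h1 : (rename (Equiv.optionSubtypeNe a).symm F).IsHomogeneous 3 :=
    hF.rename_isHomogeneous
  have h2 := h1.coeff_eq_zero (d := d.optionElim N)
  by_contra hne
  apply h
  apply h2
  intro h3
  apply hne
  rw [← h3, Finsupp.degree_eq_sum, Finsupp.degree_eq_sum, Fintype.sum_option]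
  simp

private theorem S1_top {n : ℕ} (F : MvPolynomial (Fin n) ℂ) (hF : F.IsHomogeneous 3) (a : Fin n) :
    (S1_e a F).coeff 3 = C (coeff (Finsupp.single a 3) F) := by
  ext d
  by_cases hd : d = 0
  · subst hd
    rw [coeff_C, if_pos rfl, S1_e_apply, optionEquivLeft_coeff_coeff]
    have h1 : (Finsupp.optionElim 3 (0 : {i : Fin n // i ≠ a} →₀ ℕ)) =
        (Finsupp.single a 3).mapDomain (Equiv.optionSubtypeNe a).symm := by
      rw [Finsupp.mapDomain_single, Equiv.optionSubtypeNe_symm_self]
      ext o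
      cases o with
      | none => simp
      | some o => simp
    rw [h1, coeff_rename_mapDomain _ (Equiv.injective _)]
  · rw [coeff_C, if_neg (Ne.symm hd)]
    by_contra h
    have h1 := S1_coeff hF a 3 d h
    have h2 : d.degree = 0 := by omega
    exact hd ((Finsupp.degree_eq_zero_iff d).1 h2)

private theorem S1_gen {A : Type} [CommRing A] [IsDomain A] [IsIntegrallyClosed A] {Ω : Type}
    [Field Ω] (φ : A →+* Ω) (hφ : Function.Injective φ) (y : Ω) (f g : Polynomial A)
    (hmon : f.Monic) (hirr : Irreducible f) (ef : Polynomial.eval₂ φ y f = 0)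
    (eg : Polynomial.eval₂ φ y g = 0) : f ∣ g := by
  have hirrK := (Polynomial.Monic.irreducible_iff_irreducible_map_fraction_map
    (K := FractionRing A) hmon).1 hirr
  rw [← Polynomial.map_dvd_map (algebraMap A (FractionRing A)) (IsFractionRing.injective _ _) hmon]
  by_contra hnd
  obtain ⟨p, q, hpq⟩ := (hirrK.coprime_iff_not_dvd).2 hnd
  have h1 := congrArg (Polynomial.eval₂ (IsFractionRing.lift hφ : FractionRing A →+* Ω) y) hpq
  have hcomp : (IsFractionRing.lift hφ : FractionRing A →+* Ω).comp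
      (algebraMap A (FractionRing A)) = φ :=
    RingHom.ext fun x => IsFractionRing.lift_algebraMap hφ x
  rw [Polynomial.eval₂_add, Polynomial.eval₂_mul, Polynomial.eval₂_mul, Polynomial.eval₂_map,
    Polynomial.eval₂_map, hcomp, eg, ef, mul_zero, mul_zero, add_zero, Polynomial.eval₂_one] at h1
  exact zero_ne_one h1

/-- PROOF. `coeff_three hF a`: the coefficient of `X_a ^ 3` in `F` is not zero, so `F` is, up to a constant, monic of degree 3 in `X_a` (see `cubic_int` in Q6 for the style; or map `ℂ[X_i]` to `(ℂ[X_i : i ≠ a])[T]`, `MvPolynomial.optionEquivLeft`-like,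
or work directly): `R = MvPolynomial (Fin (D + 4)) ℂ ⧸ span {F}` is a domain (`hP`), and it is integral over `A = MvPolynomial {i // i ≠ a} ℂ` (by `X_i ↦` the class of `X_i`; the class of `X_a` is a root of a monic cubic polynomial over `A`, the other generators
are in the image; `Algebra.adjoin_induction`, or: the integral closure contains all the `X_i`, `MvPolynomial.induction_on`). `Θ : R → Ω`, the class of `G ↦ aeval y G` (well defined by `hy`). If `aeval y G = 0` and `F ∤ G`, the class of `G` is a nonzero element of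
`ker Θ`, integral over `A`, so by `Ideal.comap_ne_bot_of_integral_mem` (see HalfTools.lean, line 1256, for its use) there is a nonzero `H ∈ A` with `Θ (class of H) = 0`, that is `aeval (fun i : {i // i ≠ a} => y i) H = 0`, against `hind`. -/
theorem hg_of_ind {D : ℕ} {F : MvPolynomial (Fin (D + 4)) ℂ} (hF : VG F) (hP : Prime F) {Ω : Type}
    [Field Ω] [Algebra ℂ Ω] (y : Fin (D + 4) → Ω) (a : Fin (D + 4)) (hy : aeval y F = 0)
    (hind : AlgebraicIndependent ℂ (fun i : {i : Fin (D + 4) // i ≠ a} => y i))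
    (G : MvPolynomial (Fin (D + 4)) ℂ) (hG : aeval y G = 0) : F ∣ G := by
  have hc := coeff_three hF a
  set c := coeff (Finsupp.single a 3) F with hcdef
  set f := S1_e a F with hf
  set g := S1_e a G with hg
  set φ : MvPolynomial {i : Fin (D + 4) // i ≠ a} ℂ →+* Ω :=
    (aeval (fun i : {i : Fin (D + 4) // i ≠ a} => y i) :
      MvPolynomial {i : Fin (D + 4) // i ≠ a} ℂ →ₐ[ℂ] Ω).toRingHom with hφ
  have hinj : Function.Injective φ := hind
  have ef : Polynomial.eval₂ φ (y a) f = 0 := by rw [hf, hφ, S1_eval, hy]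
  have eg : Polynomial.eval₂ φ (y a) g = 0 := by rw [hg, hφ, S1_eval, hG]
  set u : Polynomial (MvPolynomial {i : Fin (D + 4) // i ≠ a} ℂ) := Polynomial.C (C c⁻¹) with hu
  have hunit : IsUnit u := by
    refine isUnit_iff_exists_inv.2 ⟨Polynomial.C (C c), ?_⟩
    rw [hu, ← Polynomial.C_mul, ← C_mul, inv_mul_cancel₀ hc, C_1, Polynomial.C_1]
  set f' := u * f with hf'
  have hmon : f'.Monic := by
    apply Polynomial.monic_of_natDegree_le_of_coeff_eq_one 3
    · rw [Polynomial.natDegree_le_iff_coeff_eq_zero]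
      intro N hN
      rw [hf', hu, Polynomial.coeff_C_mul]
      have : f.coeff N = 0 := by
        ext d
        by_contra h
        have := S1_coeff hF.1 a N d h
        omega
      rw [this, mul_zero]
    · rw [hf', hu, Polynomial.coeff_C_mul, hf, S1_top F hF.1 a, ← C_mul, inv_mul_cancel₀ hc, C_1]
  have hfp : Prime f := (MulEquiv.prime_iff (S1_e a).toMulEquiv).2 hP
  have hirr : Irreducible f' := (irreducible_isUnit_mul hunit).2 hfp.irreducible
  have ef' : Polynomial.eval₂ φ (y a) f' = 0 := by
    rw [hf', Polynomial.eval₂_mul, ef, mul_zero]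
  have hdvd : f' ∣ g := S1_gen φ hinj (y a) f' g hmon hirr ef' eg
  have h2 : f ∣ g := (Dvd.intro_left u rfl : f ∣ f').trans hdvd
  exact (map_dvd_iff (S1_e a)).1 h2

end MP2619.Q6
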