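import Pool.Agent.Lib.MP_2619d0_ag.Q8.L8e

/-!
Row v-4: the converse of `pr_src`
-/

set_option autoImplicit false

namespace MP2619.Q6

open MvPolynomial MP2619.R MP2619.N Pool.Agent.Lib.MP_2619d0_ag
  Pool.Agent.Lib.MP_2619d0_ag.T MP2619.T MP2619.Q5

variable {D n N s : ℕ} {f : Fin (D + 4) → MvPolynomial (Fin N) ℂ}
  {Q0 : Type} [Field Q0] [Algebra ℂ Q0] {p' : Fin N → Q0}
  {Ω1 : Type} [Field Ω1] [Algebra ℂ Ω1] [Algebra Q0 Ω1] [IsScalarTower ℂ Q0 Ω1]

variable {B : Type} [Field B] [Algebra B ℂ] [Algebra B Q0] [IsScalarTower B ℂ Q0]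
  [Algebra B Ω1] [IsScalarTower B ℂ Ω1] [IsScalarTower B Q0 Ω1]

/-- PROOF. The proof of `pr_src` (Q8/L8e.lean) with the isomorphism `e : Ω ≃ₐ[B] E` used in the other direction (`Pr_equiv e`): `e (zg .. i) = ⟨zg .. i, h i⟩` is `h2`/`h6` there. -/
theorem pr_src_conv (v1 : Fin 2 → Ω1) (hv1 : AlgebraicIndependent Q0 v1)
    (fB : Fin (D + 4) → MvPolynomial (Fin N) B)
    (hfB : ∀ i, MvPolynomial.map (algebraMap B ℂ) (fB i) = f i) (w : ℂ) (wB : B)
    (hwB : algebraMap B ℂ wB = w) (a : Fin (D + 4))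
    (h : ∀ i, zg w (fun i => v1 0 * algebraMap Q0 Ω1 (aeval p' (f i)))
      (fun i => v1 1 * algebraMap Q0 Ω1 (aeval p' (f i))) (Pi.single a 1) i ∈
        IntermediateField.adjoin B (Set.range (Fin.append v1 (fun j => algebraMap Q0 Ω1 (p' j)))))
    (Q : IntermediateField B Q0) (hQ : Q = IntermediateField.adjoin B (Set.range p'))
    (q : Fin N → Q) (hq : ∀ j, (q j : Q0) = p' j)
    (Ω : Type) [Field Ω] [Algebra Q Ω] [Algebra B Ω] [IsScalarTower B Q Ω] (v : Fin 2 → Ω)
    (hv : AlgebraicIndependent Q v)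
    (hgen : IntermediateField.adjoin Q (Set.range v) = ⊤)
    (hpr : Pr B (zg wB (fun i => v 0 * algebraMap Q Ω (aeval q (fB i)))
      (fun i => v 1 * algebraMap Q Ω (aeval q (fB i))) (Pi.single a 1))) :
    Pr B (fun i => (⟨_, h i⟩ :
      IntermediateField.adjoin B (Set.range (Fin.append v1 (fun j => algebraMap Q0 Ω1 (p' j)))))) := by
  have t2 : IsScalarTower B Q Ω1 := IsScalarTower.of_algebraMap_eq fun b => by
    rw [IsScalarTower.algebraMap_apply B Q0 Ω1]
    rfl
  have hv1Q : AlgebraicIndependent Q v1 := hv1.restrictScalars (algebraMap Q Q0).injective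
  obtain ⟨ψ, hψ⟩ := exists_emb v v1 hv hv1Q hgen
  set E := IntermediateField.adjoin B
    (Set.range (Fin.append v1 (fun j => algebraMap Q0 Ω1 (p' j)))) with hE
  have hv1E : ∀ i, v1 i ∈ E := fun i =>
    IntermediateField.subset_adjoin _ _ ⟨Fin.castAdd N i, Fin.append_left _ _ i⟩
  have hpE : ∀ j, algebraMap Q0 Ω1 (p' j) ∈ E := fun j =>
    IntermediateField.subset_adjoin _ _ ⟨Fin.natAdd 2 j, Fin.append_right _ _ j⟩
  have hQE : ∀ q : Q, algebraMap Q Ω1 q ∈ E := by
    intro q
    have h1 : Q ≤ E.comap (IsScalarTower.toAlgHom B Q0 Ω1) := by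
      rw [hQ, IntermediateField.adjoin_le_iff]
      rintro _ ⟨j, rfl⟩
      exact hpE j
    exact h1 q.2
  have hψE : ∀ x : Ω, ψ x ∈ E := by
    intro x
    have hx : x ∈ IntermediateField.adjoin Q (Set.range v) := by
      rw [hgen]
      exact IntermediateField.mem_top
    induction hx using IntermediateField.adjoin_induction with
    | mem y hy =>
      obtain ⟨i, rfl⟩ := hy
      rw [hψ]
      exact hv1E i
    | algebraMap q =>
      rw [AlgHom.commutes]
      exact hQE q
    | add x y _ _ hx hy =>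
      rw [map_add]
      exact add_mem hx hy
    | inv x _ hx =>
      rw [map_inv₀]
      exact inv_mem hx
    | mul x y _ _ hx hy =>
      rw [map_mul]
      exact mul_mem hx hy
  let ψE : Ω →ₐ[B] E := (ψ.restrictScalars B).codRestrict E.toSubalgebra hψE
  have hψE1 : ∀ x, ((ψE x : E) : Ω1) = ψ x := fun _ => rfl
  have hsurj : Function.Surjective ψE := by
    have h1 : E ≤ (ψ.restrictScalars B).fieldRange := by
      rw [hE, IntermediateField.adjoin_le_iff]
      rintro _ ⟨i, rfl⟩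
      refine Fin.addCases (fun i => ?_) (fun j => ?_) i
      · rw [Fin.append_left]
        exact ⟨v i, hψ i⟩
      · rw [Fin.append_right]
        refine ⟨algebraMap Q Ω (q j), ?_⟩
        have h2 : ψ (algebraMap Q Ω (q j)) = algebraMap Q Ω1 (q j) := ψ.commutes _
        have h3 : algebraMap Q Ω1 (q j) = algebraMap Q0 Ω1 (q j : Q0) := rfl
        rw [hq] at h3
        exact h2.trans h3
    intro y
    obtain ⟨x, hx⟩ := h1 y.2
    exact ⟨x, Subtype.ext hx⟩
  let e : Ω ≃ₐ[B] E := AlgEquiv.ofBijective ψE ⟨ψE.injective, hsurj⟩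
  have h1 := Pr_equiv e _ hpr
  have h2 : (fun i => e (zg wB (fun i => v 0 * algebraMap Q Ω (aeval q (fB i)))
        (fun i => v 1 * algebraMap Q Ω (aeval q (fB i))) (Pi.single a 1) i)) =
      fun i => (⟨_, h i⟩ : E) := by
    funext i
    apply Subtype.ext
    have h3 : ∀ i, ψ (algebraMap Q Ω (aeval q (fB i))) = algebraMap Q0 Ω1 (aeval p' (f i)) := by
      intro i
      rw [AlgHom.commutes]
      show algebraMap Q0 Ω1 (algebraMap Q Q0 _) = _
      congr 1
      rw [← hfB i, MvPolynomial.aeval_map_algebraMap,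
        ← MvPolynomial.aeval_algebraMap_apply (A := Q) Q0]
      congr 2
      funext j
      exact hq j
    have h4 : ∀ c : B, ψ (algebraMap B Ω c) = algebraMap B Ω1 c := fun c =>
      (ψ.restrictScalars B).commutes c
    have h5 : algebraMap B Ω1 wB = algebraMap ℂ Ω1 w := by
      rw [← hwB, ← IsScalarTower.algebraMap_apply B ℂ Ω1]
    have h6 : ψ (zg wB (fun i => v 0 * algebraMap Q Ω (aeval q (fB i)))
        (fun i => v 1 * algebraMap Q Ω (aeval q (fB i))) (Pi.single a 1) i) =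
        zg w (fun i => v1 0 * algebraMap Q0 Ω1 (aeval p' (f i)))
          (fun i => v1 1 * algebraMap Q0 Ω1 (aeval p' (f i))) (Pi.single a 1) i := by
      unfold zg
      rw [map_add, map_mul, map_mul, map_mul, h3, h4, hψ, hψ, map_pow, map_pow, h5]
    exact h6
  rw [h2] at h1
  exact h1

end MP2619.Q6
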