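import Pool.Agent.Lib.MP_2619d0_ag.Q8.L8f

/-!
Row v-5: the index of a point over a larger field
-/

set_option autoImplicit false

namespace MP2619.Q6

open MvPolynomial MP2619.R MP2619.N Pool.Agent.Lib.MP_2619d0_ag
  Pool.Agent.Lib.MP_2619d0_ag.T MP2619.T MP2619.Q5

universe u

/-- PROOF. See the proof of `exists_src0f` (Q8/L8f.lean), steps `hl` and `hoddE`: with `E = ι.fieldRange`, `y i = ⟨ι (X i), _⟩ : E`, `lift (rat ℂ y) = ratioField (ι ∘ X)`, `Module.finrank_mul_finrank (rat ℂ y) E L`, and `finrank (rat ℂ y) E = finrank (rat ℂ X) Q` by the isomorphism `AlgEquiv.ofInjectiveField ι`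
(`finrank_rat_equiv`). -/
theorem rat_index {Q : Type} [Field Q] [Algebra ℂ Q] {L : Type u} [Field L] [Algebra ℂ L]
    (ι : Q →ₐ[ℂ] L) {n : ℕ} (X : Fin n → Q) :
    Module.finrank (ratioField (fun i => ι (X i))) L =
      Module.finrank (rat ℂ X) Q * Module.finrank ι.fieldRange L := by
  let ψ : Q ≃ₐ[ℂ] ι.fieldRange := AlgEquiv.ofInjectiveField ι
  let y : Fin n → ι.fieldRange := fun i => ψ (X i)
  have hy : (fun j => algebraMap ι.fieldRange L (y j)) = fun j => ι (X j) := rfl
  have hl : IntermediateField.lift (rat ℂ y) = ratioField (fun j => ι (X j)) := by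
    rw [← hy]
    unfold rat
    rw [IntermediateField.lift_adjoin]
    unfold ratioField
    congr 1
    ext z
    constructor
    · rintro ⟨_, ⟨i, j, rfl⟩, rfl⟩
      exact ⟨i, j, rfl⟩
    · rintro ⟨i, j, rfl⟩
      exact ⟨y i / y j, ⟨i, j, rfl⟩, rfl⟩
  have h8 : Module.finrank (rat ℂ y) ι.fieldRange *
      Module.finrank ι.fieldRange L = Module.finrank (ratioField (fun j => ι (X j))) L := by
    rw [← hl]
    have h9 := Module.finrank_mul_finrank (rat ℂ y) ι.fieldRange L
    rw [h9]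
    exact Algebra.finrank_eq_of_equiv_equiv
      (IntermediateField.liftAlgEquiv (rat ℂ y)).toRingEquiv (RingEquiv.refl L) (by
        ext x
        rfl)
  rw [← h8, finrank_rat_equiv ψ X]

/-- PROOF. `ι` is injective: `aeval (ι ∘ X) G = ι (aeval X G)` (`MvPolynomial.comp_aeval_apply`). -/
theorem hg_emb {Q : Type} [Field Q] [Algebra ℂ Q] {L : Type u} [Field L] [Algebra ℂ L]
    (ι : Q →ₐ[ℂ] L) {n : ℕ} {F : MvPolynomial (Fin n) ℂ} (X : Fin n → Q) (hX : HG F X) :
    HG F (fun i => ι (X i)) := by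
  intro d G hG
  have h1 : aeval (fun i => ι (X i)) G = ι (aeval X G) :=
    (MvPolynomial.comp_aeval_apply X ι G).symm
  rw [h1, map_eq_zero_iff ι ι.injective]
  exact hX d G hG

end MP2619.Q6
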