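import Pool.Agent.Lib.MP_2619d0_ag.U.SDefs
import Pool.Agent.Lib.MP_2619d0_ag.U.S2
import Pool.Agent.Lib.MP_2619d0_ag.U.S3
import Pool.Agent.Lib.MP_2619d0_ag.U.S4
import Pool.Agent.Lib.MP_2619d0_ag.U.S5

/-!
Row v-6: the source over small fields, with a second point
-/

set_option autoImplicit false

namespace MP2619.Q6

open MvPolynomial MP2619.R MP2619.N Pool.Agent.Lib.MP_2619d0_ag
  Pool.Agent.Lib.MP_2619d0_ag.T MP2619.T MP2619.Q5

universe u

/-- `exists_srcf` (Q8/L8f.lean) with a second point `g(p)` on the cubic. PROOF. Copy the proof of `exists_srcf` (`p (J i) = 1`, so `ι (p' j) = p j`; all its auxiliary theorems are public or can be copied). New: the last clause. From `exists_src0f`: `Q0`, `p'`, `ι0 : Q0 →ₐ[ℂ] L`; `Y i = aeval p' (g i)`, `ι0 (Y i) = aeval p (g i)`, so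
`aeval Y F = 0` by `hg` (`ι0` is injective). Before the choice of `cof`: `descent2` (U/S3.lean) for `s = Fin.append v1 (algebraMap Q0 Ω1 ∘ p')` and `u = zg w (v1 0 * Y) (v1 1 * Y) (Pi.single 0 1)`; its hypothesis `hfin`: `fin_iff_ind` (R/A8.lean) with the independent family `zg` of `f` (`pr_gen`, `h1` in the proof of `exists_srcf`). Its constants are
added to `cof`. In the end: given `O α β` and `Pr B (zg ..)` for `g0`, `pr_src_conv` (U/S4.lean, for `B`, `fB = map (algebraMap k0 B) (g0 i)`) gives `Pr B` in `adjoin B (range s)`, the clause of `descent2` gives `Pr ℂ u`, `pr_conv` (U/S2.lean) gives `HG F Y` and `Odd (finrank (rat ℂ Y) Q0)`; `hg_emb`, `rat_index` (U/S5.lean) for `Y`, and `rat_index` for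
`f` with `hodd` (`finrank ι0.fieldRange L` is a factor of an odd number) give the claim for `ι0 ∘ Y = g(p)`. -/
theorem exists_srcf2 {D n N s : ℕ} (K : Bk n N s) {F : MvPolynomial (Fin (D + 4)) ℂ} (hF : VG F)
    {e : Fin s → ℕ} (f : Fin (D + 4) → MvPolynomial (Fin N) ℂ) (hd : ∀ i, K.MH (f i) e)
    (g : Fin (D + 4) → MvPolynomial (Fin N) ℂ)
    {L : Type u} [Field L] [Algebra ℂ L] (p : Fin N → L) (J : Fin s → Fin N)
    (hJ : ∀ i, K.bl (J i) = i) (hJ1 : ∀ i, p (J i) = 1)
    (hx : HG F (fun j => aeval p (f j)))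
    (hodd : Odd (Module.finrank (ratioField (fun j => aeval p (f j))) L))
    (hg : aeval (fun j => aeval p (g j)) F = 0) (w : ℂ) (hw : w ^ 2 + w + 1 = 0) :
    ∃ cof : Set ℂ, cof.Finite ∧ ∀ (k0 B : Type) [Field k0] [Field B] [Algebra k0 B]
      [Algebra B ℂ] [Algebra k0 ℂ] [IsScalarTower k0 B ℂ],
      (∀ c ∈ cof, ∃ b : k0, algebraMap k0 ℂ b = c) →
      ∀ (f0 g0 : Fin (D + 4) → MvPolynomial (Fin N) k0),
        (∀ i, MvPolynomial.map (algebraMap k0 ℂ) (f0 i) = f i) →
        (∀ i, MvPolynomial.map (algebraMap k0 ℂ) (g0 i) = g i) →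
      ∀ (wB : B), algebraMap B ℂ wB = w →
      ∃ (Q : Type) (_ : Field Q) (_ : Algebra k0 Q) (_ : Algebra B Q) (_ : IsScalarTower k0 B Q)
        (p' : Fin N → Q) (ι : Q →+* L), K.Src (m := D + 2) f0 wB p' ∧
          (∀ b : B, ι (algebraMap B Q b) = algebraMap ℂ L (algebraMap B ℂ b)) ∧
          (∀ j, ι (p' j) = p j) ∧
          PrG (m := D + 2) B wB (fun i => aeval p' (g0 i))
            (HG F (fun i => aeval p (g i)) ∧
              Odd (Module.finrank (ratioField (fun i => aeval p (g i))) L)) := by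
  classical
  obtain ⟨Q0, _, _, p', ι0, hp', hι0, hgen', hx', hodd'⟩ :=
    exists_src0f K hF f hd p J hJ (fun i => by rw [hJ1]; exact one_ne_zero) hx hodd
  have hP : Prime F := prime_HG hF _ hx'
  have hιp : ∀ j, ι0 (p' j) = p j := fun j => by rw [hι0, hJ1, inv_one, one_mul]
  have hιa : ∀ G : MvPolynomial (Fin N) ℂ, ι0 (aeval p' G) = aeval p G := by
    intro G
    rw [MvPolynomial.comp_aeval_apply]
    congr 2
    funext l
    exact hιp l
  have hY : aeval (fun i => aeval p' (g i)) F = 0 := by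
    apply (map_eq_zero_iff ι0 ι0.injective).1
    rw [MvPolynomial.comp_aeval_apply]
    have h1 : (fun i => ι0 (aeval p' (g i))) = fun i => aeval p (g i) := funext fun i => hιa _
    rw [h1]
    exact hg
  obtain ⟨Ω1, _, _, v1, hv1, hg1⟩ := exists_rat 2 Q0
  let _ : Algebra ℂ Ω1 := ((algebraMap Q0 Ω1).comp (algebraMap ℂ Q0)).toAlgebra
  have t0 : IsScalarTower ℂ Q0 Ω1 := IsScalarTower.of_algebraMap_eq fun _ => rfl
  have hs : IntermediateField.adjoin ℂ
      (Set.range (Fin.append v1 (fun j => algebraMap Q0 Ω1 (p' j)))) = ⊤ := by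
    set E := IntermediateField.adjoin ℂ
      (Set.range (Fin.append v1 (fun j => algebraMap Q0 Ω1 (p' j)))) with hE
    have hv1E : ∀ i, v1 i ∈ E := fun i =>
      IntermediateField.subset_adjoin _ _ ⟨Fin.castAdd N i, Fin.append_left _ _ i⟩
    have hpE : ∀ j, algebraMap Q0 Ω1 (p' j) ∈ E := fun j =>
      IntermediateField.subset_adjoin _ _ ⟨Fin.natAdd 2 j, Fin.append_right _ _ j⟩
    have hQE : ∀ q : Q0, algebraMap Q0 Ω1 q ∈ E := by
      intro q
      have h1 : (⊤ : IntermediateField ℂ Q0) ≤ E.comap (IsScalarTower.toAlgHom ℂ Q0 Ω1) := by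
        rw [← hgen', IntermediateField.adjoin_le_iff]
        rintro _ ⟨j, rfl⟩
        exact hpE j
      exact h1 IntermediateField.mem_top
    rw [eq_top_iff]
    intro x _
    have hx : x ∈ IntermediateField.adjoin Q0 (Set.range v1) := by
      rw [hg1]
      exact IntermediateField.mem_top
    induction hx using IntermediateField.adjoin_induction with
    | mem y hy =>
      obtain ⟨i, rfl⟩ := hy
      exact hv1E i
    | algebraMap q => exact hQE q
    | add x y _ _ hx hy => exact add_mem (hx trivial) (hy trivial)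
    | inv x _ hx => exact inv_mem (hx trivial)
    | mul x y _ _ hx hy => exact mul_mem (hx trivial) (hy trivial)
  have hdes : ∀ a : Fin (D + 4), ∃ cof : Set ℂ, cof.Finite ∧ ∀ (B : Type) [Field B] [Algebra B ℂ]
      [Algebra B Ω1] [IsScalarTower B ℂ Ω1],
      (∀ c ∈ cof, ∃ b : B, algebraMap B ℂ b = c) → DS B f w p' v1 a := by
    intro a
    have h1 := pr_gen hF hP v1 hv1 hg1 _ hx' hodd' w hw a
    obtain ⟨cof, hcf, hc⟩ := descent _ _ hs h1
    refine ⟨cof, hcf, fun B _ _ _ _ hB => ?_⟩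
    exact hc B hB
  choose cof hcf hcof using hdes
  have hfin : AlgebraicIndependent ℂ (zg w (fun i => v1 0 * algebraMap Q0 Ω1 (aeval p' (g i)))
      (fun i => v1 1 * algebraMap Q0 Ω1 (aeval p' (g i))) (Pi.single (0 : Fin (D + 4)) 1)) →
      Module.finrank (IntermediateField.adjoin ℂ (Set.range
        (zg w (fun i => v1 0 * algebraMap Q0 Ω1 (aeval p' (g i)))
          (fun i => v1 1 * algebraMap Q0 Ω1 (aeval p' (g i))) (Pi.single (0 : Fin (D + 4)) 1)))) Ω1 ≠ 0 := by
    have h1 := pr_gen hF hP v1 hv1 hg1 _ hx' hodd' w hw 0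
    exact (fin_iff_ind _ _ h1.1 (fun h2 => by
      have h3 := h1.2
      rw [h2] at h3
      exact absurd h3 (by decide))).1
  obtain ⟨cofg, hcfg, hcofg⟩ := descent2 _ _ hs hfin
  refine ⟨insert w ((⋃ a, cof a) ∪ cofg), ((Set.finite_iUnion hcf).union hcfg).insert w, ?_⟩
  intro k0 B _ _ _ _ _ _ hk0 f0 g0 hf0 hg0 wB hwB
  let _ : Algebra B Q0 := ((algebraMap ℂ Q0).comp (algebraMap B ℂ)).toAlgebra
  let _ : Algebra k0 Q0 := ((algebraMap ℂ Q0).comp (algebraMap k0 ℂ)).toAlgebra
  let _ : Algebra B Ω1 := ((algebraMap ℂ Ω1).comp (algebraMap B ℂ)).toAlgebra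
  let _ : Algebra k0 Ω1 := ((algebraMap ℂ Ω1).comp (algebraMap k0 ℂ)).toAlgebra
  have t1 : IsScalarTower B ℂ Q0 := IsScalarTower.of_algebraMap_eq fun _ => rfl
  have t2 : IsScalarTower k0 ℂ Q0 := IsScalarTower.of_algebraMap_eq fun _ => rfl
  have t3 : IsScalarTower B ℂ Ω1 := IsScalarTower.of_algebraMap_eq fun _ => rfl
  have t4 : IsScalarTower k0 ℂ Ω1 := IsScalarTower.of_algebraMap_eq fun _ => rfl
  have t5 : IsScalarTower B Q0 Ω1 := IsScalarTower.of_algebraMap_eq fun _ => rfl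
  have t6 : IsScalarTower k0 Q0 Ω1 := IsScalarTower.of_algebraMap_eq fun _ => rfl
  have t7 : IsScalarTower k0 B Q0 := IsScalarTower.of_algebraMap_eq fun c => by
    show algebraMap ℂ Q0 (algebraMap k0 ℂ c) = algebraMap ℂ Q0 (algebraMap B ℂ (algebraMap k0 B c))
    rw [← IsScalarTower.algebraMap_apply k0 B ℂ]
  obtain ⟨wk, hwk⟩ := hk0 w (Set.mem_insert _ _)
  have hDk : ∀ a, DS k0 f w p' v1 a := fun a =>
    hcof a k0 fun c hc => hk0 c (Set.mem_insert_of_mem _ (Or.inl (Set.mem_iUnion.2 ⟨a, hc⟩)))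
  have hDB : ∀ a, DS B f w p' v1 a := fun a =>
    hcof a B fun c hc => by
      obtain ⟨b, hb⟩ := hk0 c (Set.mem_insert_of_mem _ (Or.inl (Set.mem_iUnion.2 ⟨a, hc⟩)))
      exact ⟨algebraMap k0 B b, by rw [← IsScalarTower.algebraMap_apply k0 B ℂ, hb]⟩
  have hfB : ∀ i, MvPolynomial.map (algebraMap B ℂ) (MvPolynomial.map (algebraMap k0 B) (f0 i)) =
      f i := by
    intro i
    rw [MvPolynomial.map_map, ← IsScalarTower.algebraMap_eq k0 B ℂ, hf0]
  have hgB : ∀ i, MvPolynomial.map (algebraMap B ℂ) (MvPolynomial.map (algebraMap k0 B) (g0 i)) =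
      g i := by
    intro i
    rw [MvPolynomial.map_map, ← IsScalarTower.algebraMap_eq k0 B ℂ, hg0]
  refine ⟨IntermediateField.adjoin B (Set.range p'), inferInstance, inferInstance, inferInstance,
    inferInstance, fun j => ⟨p' j, IntermediateField.subset_adjoin _ _ ⟨j, rfl⟩⟩,
    (ι0 : Q0 →+* L).comp (IntermediateField.adjoin B (Set.range p')).val.toRingHom, ?_, ?_, ?_, ?_⟩
  rotate_left
  · intro b
    have h1 : ι0 (algebraMap ℂ Q0 (algebraMap B ℂ b)) = algebraMap ℂ L (algebraMap B ℂ b) :=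
      ι0.commutes _
    exact h1
  · exact hιp
  · intro O _ _ _ _ α β hv hgen hpr
    have hr : Set.range ![α, β] = {α, β} := by
      rw [Matrix.range_cons, Matrix.range_cons, Matrix.range_empty, Set.union_empty]
      rfl
    rw [← hr] at hgen
    obtain ⟨h, hh⟩ := hcofg B fun c hc => by
      obtain ⟨b, hb⟩ := hk0 c (Set.mem_insert_of_mem _ (Or.inr hc))
      exact ⟨algebraMap k0 B b, by rw [← IsScalarTower.algebraMap_apply k0 B ℂ, hb]⟩
    have h1 := pr_src_conv v1 hv1 (fun i => MvPolynomial.map (algebraMap k0 B) (g0 i)) hgB w wB hwB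
      0 h _ rfl (fun j => ⟨p' j, IntermediateField.subset_adjoin _ _ ⟨j, rfl⟩⟩) (fun _ => rfl)
      O ![α, β] hv hgen (by
        simp only [MvPolynomial.aeval_map_algebraMap]
        exact hpr)
    obtain ⟨h2, h3⟩ := pr_conv hF hP v1 hv1 hg1 (fun i => aeval p' (g i)) hY w hw 0 (hh h1)
    have h4 : (fun i => ι0 (aeval p' (g i))) = fun i => aeval p (g i) := funext fun i => hιa _
    have h5 : (fun i => ι0 (aeval p' (f i))) = fun i => aeval p (f i) := funext fun i => hιa _
    have h6 := rat_index ι0 (fun i => aeval p' (g i))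
    have h7 := rat_index ι0 (fun i => aeval p' (f i))
    rw [h4] at h6
    rw [h5] at h7
    rw [h7] at hodd
    refine ⟨?_, ?_⟩
    · rw [← h4]
      exact hg_emb ι0 _ h2
    · rw [h6]
      exact Nat.odd_mul.2 ⟨h3, (Nat.odd_mul.1 hodd).2⟩
  refine ⟨?_, gen_src p', ?_, ?_, ?_⟩
  · intro i
    obtain ⟨j, hj, hj0⟩ := hp' i
    exact ⟨j, hj, fun h => hj0 (congrArg Subtype.val h)⟩
  · exact tr_src v1 hv1 (fun i => MvPolynomial.map (algebraMap k0 B) (f0 i)) hfB w wB hwB 0 (hDB 0)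
  · refine le_trans ?_ (tr_src v1 hv1 f0 hf0 w wk hwk 0 (hDk 0))
    set Q := IntermediateField.adjoin B (Set.range p') with hQ
    have t8 : IsScalarTower k0 Q Q0 := IsScalarTower.of_algebraMap_eq fun _ => rfl
    have h1 : ∀ x : K.rt k0 (fun j => (⟨p' j, IntermediateField.subset_adjoin _ _ ⟨j, rfl⟩⟩ : Q)),
        algebraMap Q Q0 x.1 ∈ IntermediateField.adjoin k0 (Set.range p') := by
      intro x
      have h2 : K.rt k0 (fun j => (⟨p' j, IntermediateField.subset_adjoin _ _ ⟨j, rfl⟩⟩ : Q)) ≤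
          (IntermediateField.adjoin k0 (Set.range p')).comap (IsScalarTower.toAlgHom k0 Q Q0) := by
        refine K.rt_le _ _ fun i j _ => ?_
        exact div_mem (IntermediateField.subset_adjoin _ _ ⟨i, rfl⟩)
          (IntermediateField.subset_adjoin _ _ ⟨j, rfl⟩)
      exact h2 x.2
    let gg : K.rt k0 (fun j => (⟨p' j, IntermediateField.subset_adjoin _ _ ⟨j, rfl⟩⟩ : Q)) →ₐ[k0]
        IntermediateField.adjoin k0 (Set.range p') :=
      ((IsScalarTower.toAlgHom k0 Q Q0).comp (IntermediateField.val _)).codRestrict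
        (IntermediateField.adjoin k0 (Set.range p')).toSubalgebra h1
    exact _root_.trdeg_le_of_injective gg gg.injective
  · intro Ω _ _ _ _ α β hv hgen a
    have hr : Set.range ![α, β] = {α, β} := by
      rw [Matrix.range_cons, Matrix.range_cons, Matrix.range_empty, Set.union_empty]
      rfl
    rw [← hr] at hgen
    have h1 := pr_src v1 hv1 (fun i => MvPolynomial.map (algebraMap k0 B) (f0 i)) hfB w wB hwB a
      (hDB a) _ rfl (fun j => ⟨p' j, IntermediateField.subset_adjoin _ _ ⟨j, rfl⟩⟩) (fun _ => rfl)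
      Ω ![α, β] hv hgen
    simp only [MvPolynomial.aeval_map_algebraMap] at h1
    exact h1


end MP2619.Q6
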